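import Pool.Agent.Lib.MP_2f2443_an.RC.StmQ

/-!
# MP_2f2443_an, project RC, piece U (assembly of Theorem U)
-/

set_option autoImplicit false

namespace Pool.Agent.MP_2f2443_an.RC

open Filter Topology Pool.Agent.MP_2f2443_an.IP

private lemma U_open (δ : ℝ) : IsOpen (bid δ) :=
  (isOpen_lt (continuous_norm.comp continuous_fst) continuous_const).inter
    (isOpen_lt (continuous_norm.comp continuous_snd) continuous_const)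

private lemma U_nz (his : T_is) (k : ℝ) (hk : k ≠ 0) (q : ℕ) (hq : 0 < q) (p : ℤ)
    (a δ C : ℝ) (R : ℂ × ℂ → ℂ) (Ψ : ℂ × ℂ → ℂ × ℂ) (L : Loc (GC k q p) a δ C R Ψ) :
    ∃ x : ℂ, ‖x‖ < δ ∧ R (x, 0) ≠ 0 := by
  by_contra hno
  push Not at hno
  have hkC : (k : ℂ) ≠ 0 := by exact_mod_cast hk
  have hmem : ∀ x : ℂ, ‖x‖ < δ → ((x, 0) : ℂ × ℂ) ∈ bid δ := by
    intro x hx
    refine ⟨hx, ?_⟩
    show ‖(0 : ℂ)‖ < δ
    rw [norm_zero]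
    exact L.dpos
  have hper : ∀ x : ℂ, ‖x‖ < δ → Ψ (x, 0) ∈ PerC (k : ℂ) q p 0 := by
    intro x hx
    have h1 := L.eqn (x, 0) (hmem x hx) (by
      show ((x + R (x, 0), R (x, 0)) : ℂ × ℂ) ∈ bid δ
      rw [hno x hx, add_zero]
      exact hmem x hx)
    have h1' : GC k q p (Ψ (x, 0)) = Ψ (x, 0) := by
      rw [h1]
      show Ψ (x + R (x, 0), R (x, 0)) = Ψ (x, 0)
      rw [hno x hx, add_zero]
    show (SMC (k : ℂ))^[q] (Ψ (x, 0)) = ((Ψ (x, 0)).1 + (p : ℂ), (Ψ (x, 0)).2 + ((0 : ℤ) : ℂ))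
    have h2 := congrArg Prod.fst h1'
    have h3 := congrArg Prod.snd h1'
    simp only [GC] at h2 h3
    apply Prod.ext
    · show ((SMC (k : ℂ))^[q] (Ψ (x, 0))).1 = (Ψ (x, 0)).1 + (p : ℂ)
      exact sub_eq_iff_eq_add.mp h2
    · show ((SMC (k : ℂ))^[q] (Ψ (x, 0))).2 = (Ψ (x, 0)).2 + ((0 : ℤ) : ℂ)
      rw [h3]
      simp
  apply his (k : ℂ) hkC q hq p 0 (Ψ (0, 0))
  rw [accPt_iff_nhds]
  intro U hU
  have h0 : ((0, 0) : ℂ × ℂ) ∈ bid δ := hmem 0 (by rw [norm_zero]; exact L.dpos)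
  have hc : ContinuousAt Ψ (0, 0) :=
    (L.holP.differentiableAt ((U_open δ).mem_nhds h0)).continuousAt
  have hc2 : Tendsto (fun x : ℂ => Ψ (x, 0)) (𝓝 0) (𝓝 (Ψ (0, 0))) := by
    have h1 : Tendsto (fun x : ℂ => ((x, 0) : ℂ × ℂ)) (𝓝 0) (𝓝 (0, 0)) :=
      (Continuous.prodMk_left (0 : ℂ)).tendsto 0
    exact hc.tendsto.comp h1
  have e1 : ∀ᶠ x : ℂ in 𝓝 0, Ψ (x, 0) ∈ U := hc2.eventually hU
  have e2 : ∀ᶠ x : ℂ in 𝓝 0, ‖x‖ < δ := by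
    have : Metric.ball (0 : ℂ) δ ∈ 𝓝 (0 : ℂ) := Metric.ball_mem_nhds _ L.dpos
    filter_upwards [this] with x hx
    rwa [mem_ball_zero_iff] at hx
  have e3 : ∀ᶠ x : ℂ in 𝓝[≠] 0, (Ψ (x, 0) ∈ U ∧ ‖x‖ < δ) ∧ x ≠ 0 :=
    ((e1.and e2).filter_mono nhdsWithin_le_nhds).and self_mem_nhdsWithin
  obtain ⟨x, ⟨hx1, hx2⟩, hx3⟩ := e3.exists
  refine ⟨Ψ (x, 0), ⟨hx1, hper x hx2⟩, ?_⟩
  intro h
  have h1 := L.fst (x, 0) (hmem x hx2)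
  have h2 := L.fst (0, 0) h0
  rw [h, h2] at h1
  exact hx3 (add_left_cancel h1).symm

theorem p_U : S_U := by
  intro his hau htw hlo hbo hty hhyp hpar
  intro k hk q hq p h a d hcirc hd hfix hpos
  obtain ⟨hG, hG', hinv1, hinv2, hAut, hdet, hre1, hre2, horb⟩ := hau k q p
  have hf := (horb h hcirc a a hfix).1
  have htw' := htw k h hcirc q hq p a hfix
  obtain ⟨δ, C, R, Ψ, L, hε⟩ := hlo (GC k q p) (GCi k q p) a (h a - a) hG hG' hinv1 hinv2 hdet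
    hre1 hre2 hf htw'
  obtain ⟨d', hd', hB⟩ := hbo hau k h hcirc q hq p a d hd hfix hpos δ C R Ψ L hε
  have hnz := U_nz his k hk q hq p a δ C R Ψ L
  have hex : ∃ ξ, BO R ξ := by
    obtain ⟨ξ, hξ, -, -⟩ := hB (d' / 2) (by linarith) (by linarith)
    exact ⟨ξ, hξ⟩
  have hfin : (∃ φ, UPar (GC k q p) φ ∧ ∃ d > 0, ∀ ξ, BO R ξ → ξ 0 < d →
      Ψ ((ξ 0 : ℂ), ((ξ 0 - ξ 1 : ℝ) : ℂ)) ∈ Set.range φ) →
      ∃ φ, UPar (GC k q p) φ ∧ ∃ d' > 0, ∀ x : ℝ, a < x → x < a + d' →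
        ((x : ℂ), ((h x - x : ℝ) : ℂ)) ∈ Set.range φ := by
    rintro ⟨φ, hφ, d₁, hd₁, hmem⟩
    refine ⟨φ, hφ, min d₁ d', lt_min hd₁ hd', ?_⟩
    intro x hx1 hx2
    have h1 := min_le_left d₁ d'
    have h2 := min_le_right d₁ d'
    obtain ⟨ξ, hξ, hξ0, hξΨ⟩ := hB (x - a) (by linarith) (by linarith)
    have h3 := hmem ξ hξ (by rw [hξ0]; linarith)
    rw [hξΨ] at h3
    have h4 : a + (x - a) = x := by ring
    rwa [h4] at h3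
  rcases hty (GC k q p) a δ C R Ψ L hex hnz with ⟨κ, hκ, hder⟩ | ⟨m, κ, δ', C', -, L', hK⟩
  · exact hfin (hhyp (GC k q p) a δ C R Ψ L κ hκ hder)
  · refine hfin (hpar (GC k q p) a δ' C' R Ψ m κ L' hK ⟨d', hd', ?_⟩)
    intro x hx1 hx2
    obtain ⟨ξ, hξ, hξ0, -⟩ := hB x hx1 hx2
    exact ⟨ξ, hξ, hξ0⟩

end Pool.Agent.MP_2f2443_an.RC
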