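import Pool.Agent.Lib.MP_2f2443_an.RC.StmG

/-!
# Backward orbits from the circle
-/

set_option autoImplicit false

namespace Pool.Agent.MP_2f2443_an.RC

open Filter Topology Pool.Agent.MP_2f2443_an.IP

/-- the sequence of preimages -/
theorem bo_seq (g : ℝ → ℝ) (hg : Continuous g) (a d : ℝ) (ha : g a = a)
    (hgt : ∀ x, a < x → x < a + d → x < g x) (x : ℝ) (hx0 : 0 < x) (hxd : x < d) :
    ∃ ξ : ℕ → ℝ, ξ 0 = x ∧ (∀ j, 0 < ξ (j + 1) ∧ ξ (j + 1) < ξ j) ∧ (∀ j, 0 < ξ j ∧ ξ j ≤ x) ∧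
      Tendsto ξ atTop (𝓝 0) ∧ ∀ j, g (a + ξ (j + 1)) = a + ξ j := by
  have hstep : ∀ u : {u : ℝ // 0 < u ∧ u < d}, ∃ v : {u : ℝ // 0 < u ∧ u < d},
      v.1 < u.1 ∧ g (a + v.1) = a + u.1 := by
    rintro ⟨u, hu0, hud⟩
    have h1 := intermediate_value_Ioo (show a ≤ a + u by linarith)
      (f := g) hg.continuousOn
    have h2 : a + u ∈ Set.Ioo (g a) (g (a + u)) := by
      refine ⟨by rw [ha]; linarith, hgt _ (by linarith) (by linarith)⟩
    obtain ⟨z, hz, hgz⟩ := h1 h2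
    refine ⟨⟨z - a, by linarith [hz.1], by linarith [hz.2]⟩, ?_, ?_⟩
    · show z - a < u
      linarith [hz.2]
    · show g (a + (z - a)) = a + u
      rw [add_sub_cancel, hgz]
  choose F hF1 hF2 using hstep
  let η : ℕ → {u : ℝ // 0 < u ∧ u < d} := fun j => F^[j] ⟨x, hx0, hxd⟩
  have hη : ∀ j, η (j + 1) = F (η j) := fun j => Function.iterate_succ_apply' _ _ _
  let ξ : ℕ → ℝ := fun j => (η j).1
  have hlt : ∀ j, ξ (j + 1) < ξ j := by
    intro j
    show (η (j + 1)).1 < (η j).1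
    rw [hη]
    exact hF1 _
  have hpos : ∀ j, 0 < ξ j := fun j => (η j).2.1
  have hg2 : ∀ j, g (a + ξ (j + 1)) = a + ξ j := by
    intro j
    show g (a + (η (j + 1)).1) = a + (η j).1
    rw [hη]
    exact hF2 _
  have hanti : Antitone ξ := antitone_nat_of_succ_le fun j => (hlt j).le
  have hle : ∀ j, ξ j ≤ x := fun j => hanti (Nat.zero_le j)
  refine ⟨ξ, rfl, fun j => ⟨hpos _, hlt j⟩, fun j => ⟨hpos j, hle j⟩, ?_, hg2⟩
  have hlim := tendsto_atTop_ciInf hanti ⟨0, by rintro _ ⟨j, rfl⟩; exact (hpos j).le⟩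
  set L := ⨅ j, ξ j with hL
  have hL0 : 0 ≤ L := ge_of_tendsto' hlim fun j => (hpos j).le
  have hLx : L ≤ x := le_of_tendsto' hlim hle
  have h3 : Tendsto (fun j => g (a + ξ (j + 1))) atTop (𝓝 (g (a + L))) := by
    apply (hg.tendsto _).comp
    exact ((tendsto_add_atTop_iff_nat 1).2 hlim).const_add a
  have h4 : Tendsto (fun j => g (a + ξ (j + 1))) atTop (𝓝 (a + L)) := by
    simp only [hg2]
    exact hlim.const_add a
  have h5 := tendsto_nhds_unique h3 h4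
  rcases hL0.eq_or_lt with h6 | h6
  · rw [h6]
    exact hlim
  · exact absurd h5 (hgt (a + L) (by linarith) (by linarith)).ne'

theorem p_bo : S_bo := by
  intro hau k h hc q _ p a d hd ha hgt δ C R Ψ hloc heps
  obtain ⟨ε, hε, heps⟩ := heps
  obtain ⟨-, -, -, -, -, -, -, -, horb⟩ := hau k q p
  have hcq : Continuous (fun x => h^[q] x - p) := (hc.cont.iterate q).sub continuous_const
  -- the neighbourhood
  have hcont : Continuous (fun t : ℝ => h (a + t) - (a + t) - (h a - a)) := by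
    have := hc.cont
    fun_prop
  have h0 : Tendsto (fun t : ℝ => h (a + t) - (a + t) - (h a - a)) (𝓝 0) (𝓝 0) := by
    have := hcont.tendsto 0
    simpa using this
  rw [Metric.tendsto_nhds_nhds] at h0
  obtain ⟨η, hη, h0⟩ := h0 ε hε
  have hnear : ∀ t : ℝ, 0 < t → t < min ε η →
      ‖((((a + t : ℝ) : ℂ), ((h (a + t) - (a + t) : ℝ) : ℂ)) : ℂ × ℂ) -
        ((a : ℂ), ((h a - a : ℝ) : ℂ))‖ < ε := by
    intro t ht0 ht
    rw [Prod.norm_def, max_lt_iff]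
    constructor
    · show ‖((a + t : ℝ) : ℂ) - (a : ℂ)‖ < ε
      rw [← Complex.ofReal_sub, Complex.norm_real, add_sub_cancel_left, Real.norm_eq_abs,
        abs_of_pos ht0]
      exact ht.trans_le (min_le_left _ _)
    · show ‖((h (a + t) - (a + t) : ℝ) : ℂ) - ((h a - a : ℝ) : ℂ)‖ < ε
      rw [← Complex.ofReal_sub, Complex.norm_real]
      have h1 : dist t 0 < η := by
        rw [Real.dist_0_eq_abs, abs_of_pos ht0]
        exact ht.trans_le (min_le_right _ _)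
      have h2 := h0 h1
      rw [dist_zero_right] at h2
      exact h2
  refine ⟨min d (min ε η), lt_min hd (lt_min hε hη), ?_⟩
  intro x hx0 hx
  obtain ⟨ξ, hξ0, hdec, hbd, hlim, horbit⟩ := bo_seq (fun x => h^[q] x - p) hcq a d
    (by show h^[q] a - p = a; rw [ha]; ring)
    (fun x h1 h2 => by have := hgt x h1 h2; show x < h^[q] x - p; linarith)
    x hx0 (hx.trans_le (min_le_left _ _))
  have horbit' : ∀ j, h^[q] (a + ξ (j + 1)) = a + ξ j + p := by
    intro j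
    have h9 : h^[q] (a + ξ (j + 1)) - p = a + ξ j := horbit j
    linarith
  -- the points of the orbit
  have hz : ∀ j, ((ξ j : ℂ), ((ξ j - ξ (j + 1) : ℝ) : ℂ)) ∈ bid δ ∧
      Ψ ((ξ j : ℂ), ((ξ j - ξ (j + 1) : ℝ) : ℂ)) =
        (((a + ξ j : ℝ) : ℂ), ((h (a + ξ j) - (a + ξ j) : ℝ) : ℂ)) := by
    intro j
    have h1 := heps _ (hnear (ξ j) (hbd j).1
      ((hbd j).2.trans_lt (hx.trans_le (min_le_right _ _))))
    have h2 := (horb h hc (a + ξ (j + 1)) (a + ξ j) (horbit' j)).2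
    rw [h2] at h1
    have e1 : (((a + ξ j : ℝ) : ℂ) - (a : ℂ)) = (ξ j : ℂ) := by
      rw [← Complex.ofReal_sub, add_sub_cancel_left]
    have e2 : (((a + ξ j : ℝ) : ℂ) - ((a + ξ (j + 1) : ℝ) : ℂ)) = ((ξ j - ξ (j + 1) : ℝ) : ℂ) := by
      rw [← Complex.ofReal_sub, add_sub_add_left_eq_sub]
    simp only at h1
    rw [e1, e2] at h1
    exact h1
  refine ⟨ξ, ⟨hdec, hlim, ?_⟩, hξ0, ?_⟩
  · intro j
    obtain ⟨hm, hΨ⟩ := hz (j + 1)
    have h1 := hloc.fstG _ hm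
    rw [hΨ, (horb h hc (a + ξ (j + 1)) (a + ξ j) (horbit' j)).1] at h1
    simp only at h1
    rw [Complex.ofReal_add] at h1
    have h2 : (a : ℂ) + (ξ j : ℂ) = (a : ℂ) + ((ξ (j + 1) : ℂ) +
        R ((ξ (j + 1) : ℂ), ((ξ (j + 1) - ξ (j + 1 + 1) : ℝ) : ℂ))) := by
      rw [h1]; ring
    exact add_left_cancel h2
  · rw [(hz 0).2, hξ0]

end Pool.Agent.MP_2f2443_an.RC
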