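import Pool.Agent.Lib.MP_2f2443_an.RC.StmG

/-!
# MP_2f2443_an, project RC, piece c1: limits of circles are circles
-/

set_option autoImplicit false

namespace Pool.Agent.MP_2f2443_an.RC

open Filter Topology Pool.Agent.MP_2f2443_an.IP

lemma c1_VR_lip (k x y : ℝ) (hxy : x ≤ y) : VR k y - VR k x ≤ |k| * (y - x) := by
  have h1 : |Real.sin (2 * Real.pi * y) - Real.sin (2 * Real.pi * x)| ≤
      |2 * Real.pi * y - 2 * Real.pi * x| := by
    have h := Real.lipschitzWith_sin.dist_le_mul (2 * Real.pi * y) (2 * Real.pi * x)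
    simpa [Real.dist_eq] using h
  have hpi := Real.pi_pos
  have h2 : VR k y - VR k x = k / (2 * Real.pi) *
      (Real.sin (2 * Real.pi * y) - Real.sin (2 * Real.pi * x)) := by
    unfold VR
    ring
  have h3 : |2 * Real.pi * y - 2 * Real.pi * x| = 2 * Real.pi * (y - x) := by
    rw [← mul_sub, abs_of_nonneg]
    exact mul_nonneg (by positivity) (by linarith)
  calc VR k y - VR k x ≤ |VR k y - VR k x| := le_abs_self _
    _ = |k| / (2 * Real.pi) * |Real.sin (2 * Real.pi * y) - Real.sin (2 * Real.pi * x)| := by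
        rw [h2, abs_mul, abs_div, abs_of_pos (by positivity : (0 : ℝ) < 2 * Real.pi)]
    _ ≤ |k| / (2 * Real.pi) * (2 * Real.pi * (y - x)) := by
        rw [← h3]
        exact mul_le_mul_of_nonneg_left h1 (by positivity)
    _ = |k| * (y - x) := by
        field_simp

lemma c1_deg_nat {k : ℝ} {h : ℝ → ℝ} (hh : Circ k h) (x : ℝ) (n : ℕ) : h (x + n) = h x + n := by
  induction n with
  | zero => simp
  | succ n ih =>
    push_cast
    rw [← add_assoc, hh.deg, ih]
    ring

lemma c1_surj {k : ℝ} {h : ℝ → ℝ} (hh : Circ k h) : Function.Surjective h := by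
  have h1 : Tendsto h atTop atTop := by
    apply tendsto_atTop_atTop.2
    intro b
    obtain ⟨n, hn⟩ := exists_nat_ge (b - h 0)
    refine ⟨(0 : ℝ) + n, fun a ha => ?_⟩
    have h2 := hh.mono.monotone ha
    rw [c1_deg_nat hh] at h2
    linarith
  have h2 : Tendsto h atBot atBot := by
    apply tendsto_atBot_atBot.2
    intro b
    obtain ⟨n, hn⟩ := exists_nat_ge (h 0 - b)
    refine ⟨-(n : ℝ), fun a ha => ?_⟩
    have h2 := hh.mono.monotone ha
    have h3 := c1_deg_nat hh (-(n : ℝ)) n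
    rw [neg_add_cancel] at h3
    linarith
  exact hh.cont.surjective h1 h2

/-- the Lipschitz bound -/
lemma c1_lip {k : ℝ} {h : ℝ → ℝ} (hh : Circ k h) (u v : ℝ) (huv : u ≤ v) :
    h v - h u ≤ (2 + |k|) * (v - u) := by
  obtain ⟨x, rfl⟩ := c1_surj hh u
  obtain ⟨y, rfl⟩ := c1_surj hh v
  have hxy : x ≤ y := hh.mono.le_iff_le.1 huv
  rw [hh.eq, hh.eq]
  have h1 := c1_VR_lip k (h x) (h y) huv
  linarith

lemma c1_lip_abs {k : ℝ} {h : ℝ → ℝ} (hh : Circ k h) (u v : ℝ) :
    |h v - h u| ≤ (2 + |k|) * |v - u| := by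
  rcases le_total u v with huv | huv
  · rw [abs_of_nonneg (by linarith : 0 ≤ v - u),
      abs_of_nonneg (by linarith [hh.mono.monotone huv] : 0 ≤ h v - h u)]
    exact c1_lip hh u v huv
  · rw [abs_sub_comm, abs_sub_comm v u, abs_of_nonneg (by linarith : 0 ≤ u - v),
      abs_of_nonneg (by linarith [hh.mono.monotone huv] : 0 ≤ h u - h v)]
    exact c1_lip hh v u huv

theorem p_c1 : S_c1 := by
  intro k h τ k₀ τ₀ hh hk hτ
  obtain ⟨U, hU⟩ : ∃ U : Ultrafilter ℕ, (U : Filter ℕ) ≤ atTop := ⟨hyperfilter ℕ, by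
    rw [← Nat.cofinite_eq_atTop]
    exact hyperfilter_le_cofinite⟩
  have hk' : Tendsto k U (𝓝 k₀) := hk.mono_left hU
  have hτ' : Tendsto τ U (𝓝 τ₀) := hτ.mono_left hU
  -- the limit
  have hex : ∀ x : ℝ, ∃ y : ℝ, Tendsto (fun n => h n x) U (𝓝 y) := by
    intro x
    have h1 : ∀ᶠ n in (U : Filter ℕ), h n x ∈ Set.Icc (x + τ₀ - 2) (x + τ₀ + 2) := by
      have h2 : ∀ᶠ n in (U : Filter ℕ), dist (τ n) τ₀ < 1 :=
        hτ'.eventually (Metric.ball_mem_nhds τ₀ one_pos)
      filter_upwards [h2] with n hn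
      have h3 := (hh n).2 1 x
      rw [Function.iterate_one, Nat.cast_one, one_mul] at h3
      rw [Real.dist_eq] at hn
      have h4 := abs_le.1 h3
      have h5 := abs_lt.1 hn
      exact ⟨by linarith, by linarith⟩
    obtain ⟨y, -, hy⟩ := (isCompact_Icc (a := x + τ₀ - 2) (b := x + τ₀ + 2)).ultrafilter_le_nhds
      (U.map (fun n => h n x)) (by
        rw [le_principal_iff]
        exact h1)
    exact ⟨y, hy⟩
  choose h₀ hh₀ using hex
  -- moving arguments
  have hmove : ∀ (x : ℕ → ℝ) (x₀ : ℝ), Tendsto x U (𝓝 x₀) →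
      Tendsto (fun n => h n (x n)) U (𝓝 (h₀ x₀)) := by
    intro x x₀ hx
    have h1 : Tendsto (fun n => (2 + |k n|) * |x n - x₀|) U (𝓝 ((2 + |k₀|) * |x₀ - x₀|)) :=
      ((tendsto_const_nhds.add hk'.abs)).mul ((hx.sub tendsto_const_nhds).abs)
    rw [sub_self, abs_zero, mul_zero] at h1
    have h2 : Tendsto (fun n => h n (x n) - h n x₀) U (𝓝 0) := by
      apply squeeze_zero_norm _ h1
      intro n
      rw [Real.norm_eq_abs]
      exact c1_lip_abs (hh n).1 x₀ (x n)
    have h3 := h2.add (hh₀ x₀)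
    rw [zero_add] at h3
    refine h3.congr fun n => ?_
    ring
  have hVR : ∀ (x : ℕ → ℝ) (x₀ : ℝ), Tendsto x U (𝓝 x₀) →
      Tendsto (fun n => VR (k n) (x n)) U (𝓝 (VR k₀ x₀)) := by
    intro x x₀ hx
    unfold VR
    exact (hk'.div_const _).mul ((Real.continuous_sin.tendsto _).comp (hx.const_mul _))
  have hiter : ∀ (m : ℕ) (x : ℝ), Tendsto (fun n => (h n)^[m] x) U (𝓝 (h₀^[m] x)) := by
    intro m x
    induction m with
    | zero => simp
    | succ m ih =>
      have h1 := hmove _ _ ih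
      rw [Function.iterate_succ_apply']
      refine h1.congr fun n => ?_
      rw [Function.iterate_succ_apply']
  have heq : ∀ x, h₀ (h₀ x) = 2 * h₀ x - x + VR k₀ (h₀ x) := by
    intro x
    have h1 := hmove _ _ (hh₀ x)
    have h2 : Tendsto (fun n => 2 * h n x - x + VR (k n) (h n x)) U
        (𝓝 (2 * h₀ x - x + VR k₀ (h₀ x))) :=
      (((hh₀ x).const_mul 2).sub tendsto_const_nhds).add (hVR _ _ (hh₀ x))
    refine tendsto_nhds_unique h1 (h2.congr fun n => ?_)
    exact ((hh n).1.eq x).symm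
  have hlip : ∀ u v, |h₀ v - h₀ u| ≤ (2 + |k₀|) * |v - u| := by
    intro u v
    refine le_of_tendsto_of_tendsto ((hh₀ v).sub (hh₀ u)).abs
      ((tendsto_const_nhds.add hk'.abs).mul_const (|v - u|)) (Eventually.of_forall fun n => ?_)
    exact c1_lip_abs (hh n).1 u v
  have hmono : Monotone h₀ := by
    intro u v huv
    refine le_of_tendsto_of_tendsto (hh₀ u) (hh₀ v) (Eventually.of_forall fun n => ?_)
    exact (hh n).1.mono.monotone huv
  have hinj : Function.Injective h₀ := by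
    intro x y hxy
    have h1 := heq x
    have h2 := heq y
    rw [hxy] at h1
    linarith
  refine ⟨h₀, ⟨?_, hmono.strictMono_of_injective hinj, ?_, heq⟩, ?_⟩
  · have h1 : LipschitzWith ⟨2 + |k₀|, by positivity⟩ h₀ := by
      apply LipschitzWith.of_dist_le_mul
      intro x y
      rw [Real.dist_eq, Real.dist_eq]
      exact hlip y x
    exact h1.continuous
  · intro x
    refine tendsto_nhds_unique (hh₀ (x + 1)) (((hh₀ x).add_const 1).congr fun n => ?_)
    exact ((hh n).1.deg x).symm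
  · intro m x
    have h1 : Tendsto (fun n => |(h n)^[m] x - x - m * τ n|) U
        (𝓝 |h₀^[m] x - x - m * τ₀|) :=
      (((hiter m x).sub tendsto_const_nhds).sub (hτ'.const_mul _)).abs
    exact le_of_tendsto h1 (Eventually.of_forall fun n => (hh n).2 m x)

end Pool.Agent.MP_2f2443_an.RC
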