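import Pool.Agent.Lib.MP_2f2443_an.RC.StmG

set_option autoImplicit false

namespace Pool.Agent.MP_2f2443_an.RC

open Filter Topology Pool.Agent.MP_2f2443_an.IP

theorem p_c2 : S_c2 := by
  intro hrc hc1 hD k hk
  have hirr : ∀ ρ ∈ RotSet k, Irrational ρ := by
    intro ρ hρ
    obtain ⟨h, hC, hR⟩ := (hD k ρ).1 hρ
    exact hrc k hk h ρ hC hR
  have hcl : IsClosed (RotSet k) := by
    apply IsSeqClosed.isClosed
    intro u x hu hux
    have hu' : ∀ n, ∃ h, Circ k h ∧ HasRot h (u n) := fun n => (hD k (u n)).1 (hu n)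
    choose h hh using hu'
    exact (hD k x).2 (hc1 (fun _ => k) h u k x hh tendsto_const_nhds hux)
  refine ⟨hcl, hirr, ?_⟩
  rw [IsNowhereDense, hcl.closure_eq, interior_eq_empty_iff_dense_compl]
  have hsub : Set.range (fun q : ℚ => (q : ℝ)) ⊆ (RotSet k)ᶜ := by
    rintro _ ⟨q, rfl⟩ hmem
    exact hirr _ hmem ⟨q, rfl⟩
  exact Dense.mono hsub Rat.denseRange_cast

end Pool.Agent.MP_2f2443_an.RC
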