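import Pool.Agent.Lib.MP_2f2443_an.RC.StmG

/-!
# MP_2f2443_an, RC c3: a residual set of rotation numbers without invariant circles
-/

set_option autoImplicit false

namespace Pool.Agent.MP_2f2443_an.RC

open Filter Topology Pool.Agent.MP_2f2443_an.IP

theorem p_c3 : S_c3 := by
  intro hT h1 hR
  have key : ∀ (n : ℕ) (r : ℚ), ∃ ε : ℝ, 0 < ε ∧ ∀ k : ℝ, 1 / ((n : ℝ) + 1) ≤ |k| →
      |k| ≤ (n : ℝ) + 1 → ∀ ρ : ℝ, |ρ - r| < ε → ρ ∉ RotSet k := by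
    intro n r
    by_contra hcon
    push Not at hcon
    have hj : ∀ j : ℕ, ∃ k ρ : ℝ, 1 / ((n : ℝ) + 1) ≤ |k| ∧ |k| ≤ (n : ℝ) + 1 ∧
        |ρ - r| < 1 / ((j : ℝ) + 1) ∧ ρ ∈ RotSet k := by
      intro j
      obtain ⟨k, a1, a2, ρ, a3, a4⟩ := hcon (1 / ((j : ℝ) + 1)) (by positivity)
      exact ⟨k, ρ, a1, a2, a3, a4⟩
    choose K τ b1 b2 b3 b4 using hj
    have hK : ∀ j, K j ∈ Set.Icc (-((n : ℝ) + 1)) ((n : ℝ) + 1) := fun j => abs_le.1 (b2 j)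
    obtain ⟨k₀, -, φ, hφ, hlim⟩ := isCompact_Icc.tendsto_subseq hK
    have hH : ∀ j, ∃ h, Circ (K j) h ∧ HasRot h (τ j) := fun j => (hR _ _).1 (b4 j)
    choose H hH using hH
    have hτ : Tendsto τ atTop (𝓝 (r : ℝ)) := by
      rw [tendsto_iff_norm_sub_tendsto_zero]
      exact squeeze_zero (fun _ => norm_nonneg _) (fun j => (b3 j).le)
        tendsto_one_div_add_atTop_nhds_zero_nat
    obtain ⟨h₀, c1, c2⟩ := h1 (K ∘ φ) (fun j => H (φ j)) (τ ∘ φ) k₀ r (fun j => hH (φ j)) hlim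
      (hτ.comp hφ.tendsto_atTop)
    have hk0 : 1 / ((n : ℝ) + 1) ≤ |k₀| :=
      ge_of_tendsto (hlim.abs) (Eventually.of_forall fun j => b1 (φ j))
    have hne : k₀ ≠ 0 := by
      rintro rfl
      rw [abs_zero] at hk0
      have : (0 : ℝ) < 1 / ((n : ℝ) + 1) := by positivity
      linarith
    exact (hT k₀ hne h₀ r c1 c2) ⟨r, rfl⟩
  choose ε hε hk using key
  have hO : ∀ n : ℕ, (⋃ r : ℚ, Metric.ball (r : ℝ) (ε n r)) ∈ residual ℝ := by
    intro n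
    apply residual_of_dense_open
    · exact isOpen_iUnion fun r => Metric.isOpen_ball
    · have hd : Dense (Set.range ((↑) : ℚ → ℝ)) := Rat.denseRange_cast
      refine hd.mono ?_
      rintro _ ⟨r, rfl⟩
      exact Set.mem_iUnion.2 ⟨r, Metric.mem_ball_self (hε n r)⟩
  have hI := (countable_iInter_mem).2 hO
  filter_upwards [hI] with ρ hρ k hk0 hmem
  obtain ⟨n, hn⟩ := exists_nat_ge (max |k| (1 / |k|))
  have hn1 : |k| ≤ (n : ℝ) := (le_max_left _ _).trans hn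
  have hn2 : 1 / |k| ≤ (n : ℝ) := (le_max_right _ _).trans hn
  obtain ⟨r, hr⟩ := Set.mem_iUnion.1 (Set.mem_iInter.1 hρ n)
  rw [Metric.mem_ball, Real.dist_eq] at hr
  have hkp : 0 < |k| := abs_pos.2 hk0
  refine hk n r k ?_ (by linarith) ρ hr hmem
  rw [div_le_iff₀ (by positivity)]
  rw [div_le_iff₀ hkp] at hn2
  nlinarith

end Pool.Agent.MP_2f2443_an.RC
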