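import Pool.Agent.Lib.MP_2f2443_an.RC.StmG

/-!
# MP_2f2443_an, project RC, piece cm: comparison of two real backward orbits
-/

set_option autoImplicit false

namespace Pool.Agent.MP_2f2443_an.RC

private theorem cm_lt (d : ℝ) (n : ℕ) (ξ : ℕ → ℝ) (h0 : ξ 0 < d)
    (h : ∀ j ≤ n, ξ (j + 1) < ξ j) : ∀ j ≤ n + 1, ξ j < d := by
  intro j
  induction j with
  | zero => exact fun _ => h0
  | succ j ih =>
    intro hj
    exact (h j (by omega)).trans (ih (by omega))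

private theorem cm_aux (r : ℝ → ℝ → ℝ) (Q : ℝ → ℝ → Prop) (d : ℝ) (n : ℕ) (ξ η : ℕ → ℝ)
    (h1 : ∀ x u v, 0 < x → x < d → 0 < u → u < v → v < d → r x u < r x v)
    (h2 : ∀ x y u, 0 < x → x ≤ y → y < d → 0 < u → u < d → Q x u → r x u ≤ r y u)
    (h0 : ξ 0 = η 0) (hd : ξ 0 < d)
    (hm : ∀ j ≤ n, 0 < ξ (j + 1) ∧ ξ (j + 1) < ξ j ∧ 0 < η (j + 1) ∧ η (j + 1) < η j)
    (he : ∀ j < n, ξ j - ξ (j + 1) = r (ξ (j + 1)) (ξ (j + 1) - ξ (j + 2)) ∧
      η j - η (j + 1) = r (η (j + 1)) (η (j + 1) - η (j + 2)) ∧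
      Q (ξ (j + 1)) (ξ (j + 1) - ξ (j + 2)) ∧ Q (η (j + 1)) (η (j + 1) - η (j + 2)))
    (hle : η 1 ≤ ξ 1) : ∀ j ≤ n, ξ j - ξ (j + 1) ≤ η j - η (j + 1) ∧
      ξ 1 - η 1 ≤ ξ (j + 1) - η (j + 1) := by
  have hxd := cm_lt d n ξ hd (fun j hj => (hm j hj).2.1)
  have hyd := cm_lt d n η (h0 ▸ hd) (fun j hj => (hm j hj).2.2.2)
  intro j
  induction j with
  | zero =>
    intro _
    refine ⟨?_, le_refl _⟩
    rw [h0]
    show η 0 - ξ 1 ≤ η 0 - η 1
    linarith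
  | succ j ih =>
    intro hj
    obtain ⟨ih1, ih2⟩ := ih (by omega)
    obtain ⟨e1, e2, -, q⟩ := he j (by omega)
    have hmj := hm j (by omega)
    have hmj1 := hm (j + 1) hj
    have hu : ξ (j + 1) - ξ (j + 1 + 1) ≤ η (j + 1) - η (j + 1 + 1) := by
      by_contra hcon
      push Not at hcon
      have a1 : r (ξ (j + 1)) (η (j + 1) - η (j + 1 + 1)) <
          r (ξ (j + 1)) (ξ (j + 1) - ξ (j + 1 + 1)) := by
        apply h1 _ _ _ hmj.1 (hxd _ (by omega)) _ hcon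
        · have := hxd (j + 1) (by omega)
          linarith [hmj1.1]
        · linarith [hmj1.2.2.2]
      have a2 : r (η (j + 1)) (η (j + 1) - η (j + 1 + 1)) ≤
          r (ξ (j + 1)) (η (j + 1) - η (j + 1 + 1)) := by
        apply h2 _ _ _ hmj.2.2.1 (by linarith) (hxd _ (by omega)) (by linarith [hmj1.2.2.2]) _ q
        have := hyd (j + 1) (by omega)
        linarith [hmj1.2.2.1]
      have e1' : ξ j - ξ (j + 1) = r (ξ (j + 1)) (ξ (j + 1) - ξ (j + 1 + 1)) := e1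
      have e2' : η j - η (j + 1) = r (η (j + 1)) (η (j + 1) - η (j + 1 + 1)) := e2
      linarith
    exact ⟨hu, by linarith⟩

theorem p_cm : S_cm := by
  intro r Q d n ξ η h1 h2 h0 hd hm he
  rcases le_total (η 1) (ξ 1) with h | h
  · have := (cm_aux r Q d n ξ η h1 h2 h0 hd hm he h n le_rfl).2
    rw [abs_of_nonneg (by linarith)]
    exact this.trans (le_abs_self _)
  · have := (cm_aux r Q d n η ξ h1 h2 h0.symm (h0 ▸ hd)
      (fun j hj => ⟨(hm j hj).2.2.1, (hm j hj).2.2.2, (hm j hj).1, (hm j hj).2.1⟩)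
      (fun j hj => ⟨(he j hj).2.1, (he j hj).1, (he j hj).2.2.2, (he j hj).2.2.1⟩) h n le_rfl).2
    rw [abs_sub_comm, abs_of_nonneg (by linarith), abs_sub_comm]
    exact this.trans (le_abs_self _)

end Pool.Agent.MP_2f2443_an.RC
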