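import Pool.Agent.Lib.MP_2f2443_an.RC.StmQ

/-!
# MP_2f2443_an, project RC, piece cv: the iterates converge to the curve of the real orbits
-/

set_option autoImplicit false

namespace Pool.Agent.MP_2f2443_an.RC

open Filter Topology Pool.Agent.MP_2f2443_an.IP

/-- the backward orbit of the iterated graph transform -/
noncomputable def cv_w (B : ℕ → ℂ → ℂ) (n : ℕ) (w : ℝ) : ℕ → ℝ
  | 0 => w
  | i + 1 => (B (n - 1 - i) ((cv_w B n w i : ℝ) : ℂ)).re

/-- the domains decrease -/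
lemma cv_mono {C C' : ℝ} (h : C ≤ C') {w : ℂ} (hw : w ∈ Wd C') : w ∈ Wd C := by
  simp only [Wd, Set.mem_ofPred_eq] at hw ⊢
  linarith

/-- the backward orbit stays in the domain -/
lemma cv_chain (hwd : S_wd) {C M σ : ℝ} {W S : ℂ × ℂ → ℂ} {s B : ℕ → ℂ → ℂ} (hC : 0 ≤ C)
    (h : GT C M σ W S s B) (n : ℕ) (w : ℝ) (hw : w < -C) (i : ℕ) :
    cv_w B n w i < -C ∧ cv_w B n w i ≤ w - 3 / 4 * i ∧
      B (n - 1 - i) ((cv_w B n w i : ℝ) : ℂ) = ((cv_w B n w (i + 1) : ℝ) : ℂ) := by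
  have hre := (hwd C hC).2.2.2.2.2
  have key : ∀ v : ℝ, v < -C → ∀ k, B k (v : ℂ) = (((B k (v : ℂ)).re : ℝ) : ℂ) := by
    intro v hv k
    apply Complex.ext
    · simp
    · rw [Complex.ofReal_im]
      exact (h.real k v ((hre v).2 hv)).2
  induction i with
  | zero =>
    refine ⟨hw, by simp [cv_w], ?_⟩
    exact key _ hw _
  | succ i ih =>
    obtain ⟨h1, h2, h3⟩ := ih
    have h4 := h.mem (n - 1 - i) _ ((hre _).2 h1)
    rw [h3] at h4
    have h5 : cv_w B n w (i + 1) < -C := (hre _).1 h4.1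
    refine ⟨h5, ?_, key _ h5 _⟩
    have h6 : |cv_w B n w (i + 1) - (cv_w B n w i - 1)| ≤ 1 / 4 := by
      have h7 := h4.2
      have h8 : ((cv_w B n w (i + 1) : ℝ) : ℂ) - (((cv_w B n w i : ℝ) : ℂ) - 1) =
          ((cv_w B n w (i + 1) - (cv_w B n w i - 1) : ℝ) : ℂ) := by push_cast; ring
      rw [h8, Complex.norm_real, Real.norm_eq_abs] at h7
      exact h7
    have h9 := (abs_le.1 h6).2
    push_cast
    linarith

/-- the functions `chi` and `om` on the negative reals -/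
lemma cv_real (hp0 : S_p0) {m : ℕ} {κ : ℝ} (hm : 2 ≤ m) (hκ : 0 < κ) (w : ℝ) (hw : w < 0) :
    ∃ x y : ℝ, 0 < x ∧ 0 < y ∧ chi m κ (w : ℂ) = x ∧ om m κ (w : ℂ) = y ∧
      y = x / (nu m * -w) ∧ y ^ 2 = 2 * κ / (m + 1) * x ^ (m + 1) := by
  obtain ⟨hnu, hcc, -, -, h5, h6, -, -, -, -⟩ := hp0 m κ hm hκ
  obtain ⟨x, hx, hx'⟩ := h6 w hw
  have hw0 : (w : ℂ) ≠ 0 := by
    exact_mod_cast hw.ne
  have h7 : om m κ (w : ℂ) = ((x / (nu m * -w) : ℝ) : ℂ) := by
    unfold om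
    rw [hx']
    push_cast
    rfl
  refine ⟨x, x / (nu m * -w), hx, ?_, hx', h7, rfl, ?_⟩
  · apply div_pos hx
    apply mul_pos hnu
    linarith
  · have h8 := (h5 (w : ℂ) hw0).2.2.2.2.2
    rw [h7, hx'] at h8
    exact_mod_cast h8

/-- tails of backward orbits are backward orbits -/
lemma cv_tail {R : ℂ × ℂ → ℂ} {ξ : ℕ → ℝ} (h : BO R ξ) (k : ℕ) : BO R (fun j => ξ (j + k)) := by
  obtain ⟨h1, h2, h3⟩ := h
  refine ⟨fun j => ?_, ?_, fun j => ?_⟩
  · have := h1 (j + k)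
    rwa [show j + k + 1 = j + 1 + k by ring] at this
  · exact h2.comp (tendsto_add_atTop_nat k)
  · have := h3 (j + k)
    rwa [show j + k + 1 = j + 1 + k by ring, show j + k + 2 = j + 2 + k by ring] at this

/-- a backward orbit is decreasing -/
lemma cv_le {R : ℂ × ℂ → ℂ} {ξ : ℕ → ℝ} (h : BO R ξ) (k : ℕ) : 0 < ξ k ∧ ξ k ≤ ξ 0 := by
  induction k with
  | zero => exact ⟨(h.1 0).1.trans (h.1 0).2, le_rfl⟩
  | succ k ih => exact ⟨(h.1 k).1, (h.1 k).2.le.trans ih.2⟩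

/-- **comparison** of the backward orbit of `ξ 0 = χ(w)` with the iterated graph transform -/
lemma cv_comp (hq2 : S_q2) (hmo : S_mo) (hp0 : S_p0) (hwd : S_wd) (hcm : S_cm)
    {G : ℂ × ℂ → ℂ × ℂ} {a δ C : ℝ} {R : ℂ × ℂ → ℂ} {Ψ : ℂ × ℂ → ℂ × ℂ} {m : ℕ} {κ : ℝ}
    {C₁ C' M σ : ℝ} {W S : ℂ × ℂ → ℂ} {s B : ℕ → ℂ → ℂ}
    (hL : Loc G a δ C R Ψ) (hK : KPar R δ C m κ) (hLk : Link R δ C₁ m κ W S)
    (hC₁ : 1 ≤ C₁) (hCC : C₁ ≤ C') (hG : GT C' M σ W S s B) :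
    ∃ C₂ : ℝ, C' ≤ C₂ ∧ ∀ w : ℝ, w < -C₂ → ∀ ξ : ℕ → ℝ, BO R ξ → chi m κ (w : ℂ) = ξ 0 →
      ∀ n : ℕ, ∃ x : ℝ, 0 < x ∧ chi m κ ((cv_w B n w n : ℝ) : ℂ) = x ∧
        ‖om m κ (w : ℂ) * (1 + s n (w : ℂ)) - ((ξ 0 - ξ 1 : ℝ) : ℂ)‖ ≤ ξ (n + 1) + x := by
  have hm : 2 ≤ m := hK.1
  have hκ : 0 < κ := hK.2.1
  have hC' : 0 ≤ C' := by linarith
  obtain ⟨hnu, -, -, -, -, -, hmon, hsurj, -, -⟩ := hp0 m κ hm hκ
  obtain ⟨d1, hd1, Aq, hAq, hq⟩ := hq2 G a δ C R Ψ m κ hL hK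
  obtain ⟨A0, hA0⟩ : ∃ A0, A0 = Aq + 4 * (2 * κ / (m + 1)) := ⟨_, rfl⟩
  have hm1 : (0 : ℝ) < 2 * κ / (m + 1) := by positivity
  have hA0p : 0 < A0 := by rw [hA0]; positivity
  obtain ⟨d2, hd2, hmo2⟩ := hmo G a δ C R Ψ m κ hL hK A0 hA0p
  obtain ⟨d, hd⟩ : ∃ d, d = min (min d1 d2) δ := ⟨_, rfl⟩
  have hdp : 0 < d := by rw [hd]; exact lt_min (lt_min hd1 hd2) hL.dpos
  have hdd1 : d ≤ d1 := by rw [hd]; exact (min_le_left _ _).trans (min_le_left _ _)
  have hdd2 : d ≤ d2 := by rw [hd]; exact (min_le_left _ _).trans (min_le_right _ _)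
  have hdd3 : d ≤ δ := by rw [hd]; exact min_le_right _ _
  obtain ⟨w', hw', hw'd⟩ := hsurj d hdp
  have hreal := cv_real hp0 hm hκ
  choose! X O hX hO hchi hom hO1 hO2 using hreal
  refine ⟨max (max C' (-w')) (1 / nu m), (le_max_left _ _).trans (le_max_left _ _), ?_⟩
  intro w hw ξ hξ hξ0 n
  have hwC : w < -C' := by
    have := (le_max_left C' (-w')).trans (le_max_left (max C' (-w')) (1 / nu m))
    linarith
  have hww' : w < w' := by
    have := (le_max_right C' (-w')).trans (le_max_left (max C' (-w')) (1 / nu m))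
    linarith
  have hwn : w < -(1 / nu m) := by
    have := le_max_right (max C' (-w')) (1 / nu m)
    linarith
  have hw0 : w < 0 := by linarith
  have hξd : ξ 0 < d := by
    have := hmon w w' hww' hw'
    rw [hξ0, hw'd] at this
    simpa using this
  -- the chain
  have hch := fun i => cv_chain hwd hC' hG n w hwC i
  obtain ⟨v, hv⟩ : ∃ v : ℕ → ℝ, v = cv_w B n w := ⟨_, rfl⟩
  rw [← hv] at hch ⊢
  have hv0 : v 0 = w := by rw [hv]; rfl
  have hvneg : ∀ i, v i < 0 := fun i => by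
    have := (hch i).1
    linarith
  have hvle : ∀ i, v i ≤ w := fun i => by
    have h1 := (hch i).2.1
    have h2 : (0 : ℝ) ≤ 3 / 4 * i := by positivity
    linarith
  have hvmem : ∀ i, ((v i : ℝ) : ℂ) ∈ Wd C' := fun i =>
    ((hwd C' hC').2.2.2.2.2 (v i)).2 (hch i).1
  have hsreal : ∀ k i, s k (v i : ℂ) = (((s k (v i : ℂ)).re : ℝ) : ℂ) := by
    intro k i
    apply Complex.ext
    · simp
    · rw [Complex.ofReal_im]
      exact (hG.real k (v i) (hvmem i)).1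
  have hsbd : ∀ k i, |(s k (v i : ℂ)).re| ≤ 1 / 8 := by
    intro k i
    exact (Complex.abs_re_le_norm _).trans (hG.bd k _ (hvmem i)).2
  obtain ⟨T, hT⟩ : ∃ T : ℕ → ℝ, T = fun i => (s (n - i) (v i : ℂ)).re := ⟨_, rfl⟩
  have hTi : ∀ i, T i = (s (n - i) (v i : ℂ)).re := fun i => by rw [hT]
  have hsT : ∀ i, s (n - i) (v i : ℂ) = ((T i : ℝ) : ℂ) := fun i => by
    rw [hTi]; exact hsreal _ _
  have hTb : ∀ i, |T i| ≤ 1 / 8 := fun i => by rw [hTi]; exact hsbd _ _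
  have hTn : T n = 0 := by
    rw [hTi, Nat.sub_self, hG.zero]
    simp
  have hpos : ∀ i, 0 < O (v i) * (1 + T i) := fun i => by
    have h1 := (abs_le.1 (hTb i)).1
    exact mul_pos (hO _ (hvneg i)) (by linarith)
  have hstep : ∀ i < n, X (v i) - X (v (i + 1)) = O (v i) * (1 + T i) ∧
      O (v i) * (1 + T i) =
        (R ((X (v (i + 1)) : ℂ), ((O (v (i + 1)) * (1 + T (i + 1)) : ℝ) : ℂ))).re := by
    intro i hi
    have hk : n - (i + 1) = n - 1 - i := by omega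
    have hk1 : n - 1 - i + 1 = n - i := by omega
    have e1 := hG.eqW (n - 1 - i) _ (hvmem i)
    have e2 := hG.eqS (n - 1 - i) _ (hvmem i)
    rw [(hch i).2.2] at e1 e2
    rw [hk1, hsT i] at e2
    have e3 := hsT (i + 1)
    rw [hk] at e3
    rw [e3] at e1 e2
    have hTs : ‖((T (i + 1) : ℝ) : ℂ)‖ < 1 / 2 := by
      rw [Complex.norm_real, Real.norm_eq_abs]
      have := hTb (i + 1)
      linarith
    obtain ⟨-, -, e4, e5⟩ := hLk _ (cv_mono hCC (hvmem (i + 1))) _ hTs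
    rw [e1, hchi _ (hvneg i), hchi _ (hvneg (i + 1)), hom _ (hvneg (i + 1))] at e4
    rw [e1, e2, hom _ (hvneg i), hchi _ (hvneg (i + 1)), hom _ (hvneg (i + 1))] at e5
    rw [← e5] at e4
    have e6 : X (v i) = X (v (i + 1)) + O (v i) * (1 + T i) := by exact_mod_cast e4
    refine ⟨by linarith, ?_⟩
    have e7 := congrArg Complex.re e5
    have e8 : (((O (v i) : ℝ) : ℂ) * (1 + ((T i : ℝ) : ℂ))).re = O (v i) * (1 + T i) := by
      rw [show ((O (v i) : ℝ) : ℂ) * (1 + ((T i : ℝ) : ℂ)) = ((O (v i) * (1 + T i) : ℝ) : ℂ) by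
        push_cast; ring]
      exact Complex.ofReal_re _
    rw [e8] at e7
    rw [e7]
    congr 3
    push_cast
    ring
  obtain ⟨η, hη⟩ : ∃ η : ℕ → ℝ, η = fun i => if i ≤ n then X (v i) else X (v n) - O (v n) :=
    ⟨_, rfl⟩
  have hη1 : ∀ i ≤ n, η i = X (v i) := fun i hi => by rw [hη]; simp [hi]
  have hη2 : η (n + 1) = X (v n) - O (v n) := by rw [hη]; simp
  have hηd : ∀ i ≤ n, η i - η (i + 1) = O (v i) * (1 + T i) := by
    intro i hi
    rcases Nat.lt_or_eq_of_le hi with hlt | heq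
    · rw [hη1 i hi, hη1 (i + 1) hlt]
      exact (hstep i hlt).1
    · rw [heq, hη1 n le_rfl, hη2, hTn]
      ring
  have hlast : 0 < X (v n) - O (v n) := by
    rw [hO1 _ (hvneg n)]
    have h1 : 1 < nu m * -(v n) := by
      have h2 : 1 / nu m < -(v n) := by
        have := hvle n
        linarith
      rw [div_lt_iff₀ hnu] at h2
      linarith
    have h3 : X (v n) / (nu m * -(v n)) < X (v n) := by
      rw [div_lt_iff₀ (by linarith)]
      have := hX _ (hvneg n)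
      nlinarith
    linarith
  have hηpos : ∀ i ≤ n, 0 < η (i + 1) := by
    intro i hi
    rcases Nat.lt_or_eq_of_le hi with hlt | heq
    · rw [hη1 (i + 1) hlt]
      exact hX _ (hvneg _)
    · rw [heq, hη2]
      exact hlast
  have hη0 : η 0 = ξ 0 := by
    rw [hη1 0 (Nat.zero_le n), hv0]
    have := hchi w hw0
    rw [hξ0] at this
    exact_mod_cast this.symm
  -- the comparison
  have hcmp := hcm (fun x u => (R ((x : ℂ), (u : ℂ))).re) (fun x u => u ^ 2 ≤ A0 * x ^ (m + 1)) d n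
    ξ η (by
      intro x u v' hx hxd hu huv hvd
      have hb1 : ((x : ℂ), (u : ℂ)) ∈ bid δ := by
        refine ⟨?_, ?_⟩
        · simp only [Complex.norm_real, Real.norm_eq_abs]
          rw [abs_of_pos hx]; linarith
        · simp only [Complex.norm_real, Real.norm_eq_abs]
          rw [abs_of_pos hu]; linarith
      have hb2 : ((x : ℂ), (v' : ℂ)) ∈ bid δ := by
        refine ⟨?_, ?_⟩
        · simp only [Complex.norm_real, Real.norm_eq_abs]
          rw [abs_of_pos hx]; linarith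
        · simp only [Complex.norm_real, Real.norm_eq_abs]
          rw [abs_of_pos (hu.trans huv)]; linarith
      have h1 := hL.lip _ _ _ hb2 hb1
      have h2 := (Complex.abs_re_le_norm _).trans h1
      rw [← Complex.ofReal_sub, Complex.norm_real, Real.norm_eq_abs,
        abs_of_pos (sub_pos.2 huv : (0 : ℝ) < v' - u)] at h2
      simp only [Complex.sub_re, Complex.ofReal_re] at h2
      have h3 := (abs_le.1 h2).1
      show (R ((x : ℂ), (u : ℂ))).re < (R ((x : ℂ), (v' : ℂ))).re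
      linarith) (by
      intro x y u hx hxy hyd hu hud hQ
      exact hmo2 x y u hx hxy (by linarith) hu (by linarith) hQ) hη0.symm hξd (by
      intro j hj
      refine ⟨(hξ.1 j).1, (hξ.1 j).2, hηpos j hj, ?_⟩
      have h1 := hηd j hj
      have h2 := hpos j
      linarith) (by
      intro j hj
      refine ⟨?_, ?_, ?_, ?_⟩
      · have h1 := congrArg Complex.re (hξ.2.2 j)
        simp only [Complex.add_re, Complex.ofReal_re] at h1
        show ξ j - ξ (j + 1) = (R ((ξ (j + 1) : ℂ), ((ξ (j + 1) - ξ (j + 2) : ℝ) : ℂ))).re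
        linarith
      · show η j - η (j + 1) = (R ((η (j + 1) : ℂ), ((η (j + 1) - η (j + 2) : ℝ) : ℂ))).re
        rw [hηd j hj.le, hηd (j + 1) hj, hη1 (j + 1) hj]
        exact (hstep j hj).2
      · have h1 := hq (fun i => ξ (i + (j + 1))) (cv_tail hξ (j + 1)) (by
          have := (cv_le hξ (j + 1)).2
          show ξ (0 + (j + 1)) < d1
          rw [zero_add]
          linarith)
        simp only [zero_add] at h1
        rw [show 1 + (j + 1) = j + 2 by ring] at h1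
        show (ξ (j + 1) - ξ (j + 2)) ^ 2 ≤ A0 * ξ (j + 1) ^ (m + 1)
        have h2 : 0 ≤ ξ (j + 1) ^ (m + 1) := pow_nonneg (cv_le hξ (j + 1)).1.le _
        rw [hA0]
        nlinarith
      · show (η (j + 1) - η (j + 2)) ^ 2 ≤ A0 * η (j + 1) ^ (m + 1)
        rw [hηd (j + 1) hj, hη1 (j + 1) hj, mul_pow, hO2 _ (hvneg _)]
        have h1 := hTb (j + 1)
        have h2 := abs_le.1 h1
        have h3 : (1 + T (j + 1)) ^ 2 ≤ 4 := by nlinarith
        have h4 : 0 ≤ X (v (j + 1)) ^ (m + 1) := pow_nonneg (hX _ (hvneg _)).le _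
        have h5 : 0 ≤ 2 * κ / (m + 1) * X (v (j + 1)) ^ (m + 1) := mul_nonneg hm1.le h4
        rw [hA0]
        calc 2 * κ / (m + 1) * X (v (j + 1)) ^ (m + 1) * (1 + T (j + 1)) ^ 2
            ≤ 2 * κ / (m + 1) * X (v (j + 1)) ^ (m + 1) * 4 :=
              mul_le_mul_of_nonneg_left h3 h5
          _ ≤ (Aq + 4 * (2 * κ / (m + 1))) * X (v (j + 1)) ^ (m + 1) := by
              have := mul_nonneg hAq.le h4
              linarith)
  refine ⟨X (v n), hX _ (hvneg n), hchi _ (hvneg n), ?_⟩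
  have h1 : om m κ (w : ℂ) * (1 + s n (w : ℂ)) = ((η 0 - η 1 : ℝ) : ℂ) := by
    rw [hηd 0 (Nat.zero_le n), hv0, hom w hw0]
    have h2 := hsT 0
    rw [hv0, Nat.sub_zero] at h2
    rw [h2]
    push_cast
    ring
  rw [h1, ← Complex.ofReal_sub, Complex.norm_real, Real.norm_eq_abs, hη0,
    show ξ 0 - η 1 - (ξ 0 - ξ 1) = ξ 1 - η 1 by ring]
  refine hcmp.trans ?_
  have h3 := (hξ.1 n).1
  have h4 := hηpos n le_rfl
  have h5 := hO _ (hvneg n)
  rw [abs_le]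
  constructor
  · rw [hη2]
    linarith
  · linarith [hX _ (hvneg n)]

/-- the ends of the backward orbits tend to `0` -/
lemma cv_lim (hp0 : S_p0) (hwd : S_wd) {C M σ : ℝ} {W S : ℂ × ℂ → ℂ} {s B : ℕ → ℂ → ℂ}
    (hC : 0 ≤ C) (h : GT C M σ W S s B) {m : ℕ} {κ : ℝ} (hm : 2 ≤ m) (hκ : 0 < κ) (w : ℝ)
    (hw : w < -C) (x : ℕ → ℝ) (hx : ∀ n, 0 < x n)
    (hx2 : ∀ n, chi m κ ((cv_w B n w n : ℝ) : ℂ) = x n) : Tendsto x atTop (𝓝 0) := by
  obtain ⟨-, -, -, -, -, -, hmon, hsurj, -, -⟩ := hp0 m κ hm hκ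
  rw [Metric.tendsto_atTop]
  intro ε hε
  obtain ⟨v, hv, hvε⟩ := hsurj ε hε
  obtain ⟨N, hN⟩ := exists_nat_gt (4 / 3 * (w - v))
  refine ⟨N, fun n hn => ?_⟩
  have h1 := (cv_chain hwd hC h n w hw n).2.1
  have h2 : (N : ℝ) ≤ n := by exact_mod_cast hn
  have h3 : cv_w B n w n < v := by linarith
  have h4 := hmon _ _ h3 hv
  rw [hx2, hvε] at h4
  simp only [Complex.ofReal_re] at h4
  rw [Real.dist_eq, sub_zero, abs_of_pos (hx n)]
  exact h4

theorem p_cv : S_cv := by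
  intro hq2 hmo hp0 hwd hvi hcm G a δ C R Ψ m κ C₁ A σ C' M W S E s B hL hK hTu hLk hCC hM hG hex
  have hm : 2 ≤ m := hK.1
  have hκ : 0 < κ := hK.2.1
  have hC₁ : 1 ≤ C₁ := hTu.cpos
  have hC' : 0 ≤ C' := by linarith
  obtain ⟨C₃, hC₃, hcomp⟩ := cv_comp hq2 hmo hp0 hwd hcm hL hK hLk hC₁ hCC hG
  obtain ⟨d, hd, hex⟩ := hex
  obtain ⟨-, -, -, -, -, -, hmon, hsurj, -, -⟩ := hp0 m κ hm hκ
  obtain ⟨w', hw', hw'd⟩ := hsurj d hd
  obtain ⟨C₂, hC₂⟩ : ∃ C₂, C₂ = max C₃ (-w') := ⟨_, rfl⟩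
  have hC₂3 : C₃ ≤ C₂ := by rw [hC₂]; exact le_max_left _ _
  have hC₂w : -w' ≤ C₂ := by rw [hC₂]; exact le_max_right _ _
  have hC₂' : C' ≤ C₂ := hC₃.trans hC₂3
  have hC₂0 : 0 ≤ C₂ := hC'.trans hC₂'
  have hre := (hwd C₂ hC₂0).2.2.2.2.2
  -- convergence at the real points
  have hconv : ∀ w : ℝ, w < -C₂ → ∀ ξ : ℕ → ℝ, BO R ξ → chi m κ (w : ℂ) = ξ 0 →
      Tendsto (fun n => om m κ (w : ℂ) * (1 + s n (w : ℂ))) atTop
        (𝓝 ((ξ 0 - ξ 1 : ℝ) : ℂ)) := by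
    intro w hw ξ hξ hξ0
    have h1 := hcomp w (by linarith) ξ hξ hξ0
    choose x hx hx2 hx3 using h1
    have h2 := cv_lim hp0 hwd hC' hG hm hκ w (by linarith) x hx hx2
    have h3 : Tendsto (fun n => ξ (n + 1) + x n) atTop (𝓝 0) := by
      have h4 := (hξ.2.1.comp (tendsto_add_atTop_nat 1)).add h2
      rw [add_zero] at h4
      exact h4
    rw [tendsto_iff_norm_sub_tendsto_zero]
    exact squeeze_zero (fun n => norm_nonneg _) hx3 h3
  have hom0 : ∀ w : ℝ, w < -C₂ → om m κ (w : ℂ) ≠ 0 := by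
    intro w hw
    obtain ⟨x, y, -, hy, -, hy2, -, -⟩ := cv_real hp0 hm hκ w (by linarith)
    rw [hy2]
    exact_mod_cast hy.ne'
  have hconv2 : ∀ w : ℝ, w < -C₂ → ∃ l, Tendsto (fun n => s n (w : ℂ)) atTop (𝓝 l) := by
    intro w hw
    have hw0 : w < 0 := by linarith
    obtain ⟨x, y, hx, hy, hx2, hy2, -, -⟩ := cv_real hp0 hm hκ w hw0
    have hxd : x < d := by
      have := hmon w w' (by linarith) hw'
      rw [hx2, hw'd] at this
      simpa using this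
    obtain ⟨ξ, hξ, hξ0⟩ := hex x hx hxd
    have h1 := hconv w hw ξ hξ (by rw [hx2, hξ0])
    refine ⟨(om m κ (w : ℂ))⁻¹ * ((ξ 0 - ξ 1 : ℝ) : ℂ) - 1, ?_⟩
    have h2 := (h1.const_mul (om m κ (w : ℂ))⁻¹).sub_const 1
    refine h2.congr fun n => ?_
    have h3 := hom0 w hw
    field_simp
    ring
  obtain ⟨g, hg, hg2⟩ := hvi (Wd C₂) s (1 / 8) (-C₂ - 1) (-C₂) (hwd C₂ hC₂0).1 (hwd C₂ hC₂0).2.1
    (fun n => (hG.hol n).mono fun w hw => cv_mono hC₂' hw)
    (fun n w hw => (hG.bd n w (cv_mono hC₂' hw)).2) (by linarith)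
    (fun t _ ht => ⟨(hre t).2 ht, hconv2 t ht⟩)
  refine ⟨C₂, g, hC₂', hg, fun w hw => ⟨?_, ?_⟩, fun w hw => ?_, fun w hw ξ hξ hξ0 => ?_⟩
  · exact le_of_tendsto (hg2 w hw).norm
      (Eventually.of_forall fun n => (hG.bd n w (cv_mono hC₂' hw)).1)
  · exact le_of_tendsto (hg2 w hw).norm
      (Eventually.of_forall fun n => (hG.bd n w (cv_mono hC₂' hw)).2)
  · have h1 := (Complex.continuous_im.tendsto _).comp (hg2 w hw)
    have h2 : (Complex.im ∘ fun n => s n (w : ℂ)) = fun _ => (0 : ℝ) := by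
      funext n
      exact (hG.real n w (cv_mono hC₂' hw)).1
    rw [h2] at h1
    exact tendsto_nhds_unique h1 tendsto_const_nhds |>.symm ▸ rfl
  · have h1 := hconv w ((hre w).1 hw) ξ hξ hξ0
    have h2 : Tendsto (fun n => om m κ (w : ℂ) * (1 + s n (w : ℂ))) atTop
        (𝓝 (om m κ (w : ℂ) * (1 + g w))) := ((hg2 w hw).const_add 1).const_mul _
    exact tendsto_nhds_unique h1 h2

end Pool.Agent.MP_2f2443_an.RC
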