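import Pool.Agent.Lib.MP_2f2443_an.RC.StmG

/-!
# MP_2f2443_an, project RC: piece `eh` (extension of the unstable curve, hyperbolic case)
-/

set_option autoImplicit false

namespace Pool.Agent.MP_2f2443_an.RC

open Filter Topology Pool.Agent.MP_2f2443_an.IP

theorem p_eh : S_eh := by
  classical
  intro G l ε φ₀ hG hl hε hd hinj hder heq
  obtain ⟨hGd, G', hG'd, hG'G, hGG'⟩ := hG
  have hl0 : (0 : ℝ) < l := by linarith
  have hlc : (l : ℂ) ≠ 0 := by exact_mod_cast hl0.ne'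
  have hln : ∀ n : ℕ, (l : ℂ) ^ n ≠ 0 := fun n => pow_ne_zero n hlc
  have hnorm : ∀ (t : ℂ) (n : ℕ), ‖t / (l : ℂ) ^ n‖ = ‖t‖ / l ^ n := by
    intro t n
    rw [norm_div, norm_pow, Complex.norm_real, Real.norm_of_nonneg hl0.le]
  have hball : ∀ (t : ℂ) (n : ℕ), t / (l : ℂ) ^ n ∈ Metric.ball (0 : ℂ) ε ↔ ‖t‖ < ε * l ^ n := by
    intro t n
    rw [mem_ball_zero_iff, hnorm, div_lt_iff₀ (pow_pos hl0 n)]
  have hex : ∀ t : ℂ, ∃ n : ℕ, t / (l : ℂ) ^ n ∈ Metric.ball (0 : ℂ) ε := by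
    intro t
    obtain ⟨n, hn⟩ := pow_unbounded_of_one_lt (‖t‖ / ε) hl
    refine ⟨n, (hball t n).mpr ?_⟩
    rw [div_lt_iff₀ hε] at hn
    linarith [mul_comm ε (l ^ n)]
  have hmono : ∀ (t : ℂ) (n k : ℕ), t / (l : ℂ) ^ n ∈ Metric.ball (0 : ℂ) ε →
      t / (l : ℂ) ^ (n + k) ∈ Metric.ball (0 : ℂ) ε := by
    intro t n k h
    rw [hball] at h ⊢
    refine h.trans_le ?_
    have : l ^ n ≤ l ^ (n + k) := pow_le_pow_right₀ hl.le (by omega)
    nlinarith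
  have hstep : ∀ (t : ℂ) (n k : ℕ), t / (l : ℂ) ^ n ∈ Metric.ball (0 : ℂ) ε →
      G^[n + k] (φ₀ (t / (l : ℂ) ^ (n + k))) = G^[n] (φ₀ (t / (l : ℂ) ^ n)) := by
    intro t n k h
    induction k with
    | zero => rfl
    | succ k ih =>
      rw [← ih, ← add_assoc, Function.iterate_succ_apply]
      congr 1
      rw [heq _ (hmono t n k h)]
      congr 2
      rw [pow_succ, div_div]
  set φ : ℂ → ℂ × ℂ := fun t => G^[Nat.find (hex t)] (φ₀ (t / (l : ℂ) ^ (Nat.find (hex t)))) with hφ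
  have hφn : ∀ (t : ℂ) (n : ℕ), t / (l : ℂ) ^ n ∈ Metric.ball (0 : ℂ) ε →
      φ t = G^[n] (φ₀ (t / (l : ℂ) ^ n)) := by
    intro t n h
    have h1 : Nat.find (hex t) ≤ n := Nat.find_min' _ h
    obtain ⟨k, rfl⟩ := Nat.exists_eq_add_of_le h1
    rw [hstep t _ k (Nat.find_spec (hex t))]
  have hGn : ∀ n : ℕ, Differentiable ℂ (G^[n]) := fun n => hGd.iterate n
  have hG'n : ∀ n : ℕ, Differentiable ℂ (G'^[n]) := fun n => hG'd.iterate n
  have hLI : ∀ (n : ℕ) (z : ℂ × ℂ), G'^[n] (G^[n] z) = z := by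
    intro n z
    exact Function.LeftInverse.iterate (show Function.LeftInverse G' G from hG'G) n z
  have hev : ∀ (t : ℂ) (n : ℕ), t / (l : ℂ) ^ n ∈ Metric.ball (0 : ℂ) ε →
      ∀ᶠ s in 𝓝 t, s / (l : ℂ) ^ n ∈ Metric.ball (0 : ℂ) ε := by
    intro t n h
    have hc : ContinuousAt (fun s : ℂ => s / (l : ℂ) ^ n) t := by fun_prop
    exact hc.preimage_mem_nhds (Metric.isOpen_ball.mem_nhds h)
  have hφ₀d : ∀ s ∈ Metric.ball (0 : ℂ) ε, HasDerivAt φ₀ (deriv φ₀ s) s := by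
    intro s hs
    exact (hd.differentiableAt (Metric.isOpen_ball.mem_nhds hs)).hasDerivAt
  have hin : ∀ (t : ℂ) (n : ℕ), t / (l : ℂ) ^ n ∈ Metric.ball (0 : ℂ) ε →
      HasDerivAt (fun s : ℂ => φ₀ (s / (l : ℂ) ^ n))
        ((1 / (l : ℂ) ^ n) • deriv φ₀ (t / (l : ℂ) ^ n)) t := by
    intro t n h
    have h1 : HasDerivAt (fun s : ℂ => s / (l : ℂ) ^ n) (1 / (l : ℂ) ^ n) t :=
      (hasDerivAt_id t).div_const _
    exact HasDerivAt.scomp t (hφ₀d _ h) h1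
  have hdiff : Differentiable ℂ φ := by
    intro t
    obtain ⟨n, hn⟩ := hex t
    have h1 : φ =ᶠ[𝓝 t] fun s => G^[n] (φ₀ (s / (l : ℂ) ^ n)) := by
      filter_upwards [hev t n hn] with s hs
      exact hφn s n hs
    have h2 : DifferentiableAt ℂ (fun s : ℂ => G^[n] (φ₀ (s / (l : ℂ) ^ n))) t :=
      ((hGn n) _).comp t (hin t n hn).differentiableAt
    exact h2.congr_of_eventuallyEq h1
  refine ⟨φ, ⟨⟨hdiff, ?_, ?_⟩, Or.inl ⟨l, hl, ?_⟩⟩, ?_⟩
  · intro t t' htt'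
    obtain ⟨n, hn⟩ := hex t
    obtain ⟨n', hn'⟩ := hex t'
    have h1 := hmono t n n' hn
    have h2 := hmono t' n' n hn'
    rw [add_comm] at h2
    rw [hφn t _ h1, hφn t' _ h2] at htt'
    have h3 : φ₀ (t / (l : ℂ) ^ (n + n')) = φ₀ (t' / (l : ℂ) ^ (n + n')) := by
      rw [← hLI (n + n') (φ₀ (t / (l : ℂ) ^ (n + n'))), htt', hLI]
    have h4 := hinj h1 h2 h3
    exact (div_left_inj' (hln _)).mp h4
  · intro t h0
    obtain ⟨n, hn⟩ := hex t
    have h1 : (fun s => G'^[n] (φ s)) =ᶠ[𝓝 t] fun s => φ₀ (s / (l : ℂ) ^ n) := by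
      filter_upwards [hev t n hn] with s hs
      rw [hφn s n hs, hLI]
    have h2 : HasDerivAt (fun s => G'^[n] (φ s)) (fderiv ℂ (G'^[n]) (φ t) (deriv φ t)) t :=
      ((hG'n n) (φ t)).hasFDerivAt.comp_hasDerivAt t (hdiff t).hasDerivAt
    rw [h0, map_zero] at h2
    have h3 := (hin t n hn).congr_of_eventuallyEq h1
    have h4 := h3.unique h2
    rw [smul_eq_zero] at h4
    rcases h4 with h4 | h4
    · exact (one_div_ne_zero (hln n)) h4
    · exact hder _ hn h4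
  · intro t
    obtain ⟨n, hn⟩ := hex t
    have h1 : (l : ℂ) * t / (l : ℂ) ^ (n + 1) = t / (l : ℂ) ^ n := by
      rw [pow_succ, mul_comm ((l : ℂ) ^ n) (l : ℂ), mul_div_mul_left _ _ hlc]
    rw [hφn t n hn, hφn (l * t) (n + 1) (by rw [h1]; exact hn), h1, Function.iterate_succ_apply']
  · intro t ht
    have h1 : t / (l : ℂ) ^ 0 ∈ Metric.ball (0 : ℂ) ε := by simpa using ht
    rw [hφn t 0 h1]
    simp

end Pool.Agent.MP_2f2443_an.RC
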