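import Pool.Agent.Lib.MP_2f2443_an.RC.StmG

/-!
# MP_2f2443_an, project RC, piece ep (extension, parabolic)
-/

set_option autoImplicit false

namespace Pool.Agent.MP_2f2443_an.RC

open Filter Topology Pool.Agent.MP_2f2443_an.IP

private lemma ep_back (G : ℂ × ℂ → ℂ × ℂ) (C : ℝ) (φ₀ : ℂ → ℂ × ℂ)
    (hG : ∀ t : ℂ, t.re < -C → φ₀ t = G (φ₀ (t - 1))) (j : ℕ) :
    ∀ s : ℂ, s.re < -C → φ₀ s = G^[j] (φ₀ (s - j)) := by
  induction j with
  | zero => intro s _; simp
  | succ j ih =>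
    intro s hs
    rw [Function.iterate_succ_apply, ih s hs]
    have h1 : (s - j).re < -C := by
      rw [Complex.sub_re, Complex.natCast_re]
      have : (0 : ℝ) ≤ j := Nat.cast_nonneg j
      linarith
    rw [hG (s - j) h1]
    congr 3
    push_cast
    ring

private lemma ep_indep (G : ℂ × ℂ → ℂ × ℂ) (C : ℝ) (φ₀ : ℂ → ℂ × ℂ)
    (hG : ∀ t : ℂ, t.re < -C → φ₀ t = G (φ₀ (t - 1))) (n m : ℕ) (hnm : n ≤ m) (t : ℂ)
    (ht : t.re - n < -C) : G^[n] (φ₀ (t - n)) = G^[m] (φ₀ (t - m)) := by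
  obtain ⟨j, rfl⟩ := Nat.exists_eq_add_of_le hnm
  have h1 : (t - n).re < -C := by
    rw [Complex.sub_re, Complex.natCast_re]; exact ht
  rw [ep_back G C φ₀ hG j (t - n) h1, Function.iterate_add_apply]
  congr 3
  push_cast
  ring

theorem p_ep : S_ep := by
  intro G C φ₀ hAut hd hinj hder hG hbd
  obtain ⟨hGd, G', hG'd, hG'G, hGG'⟩ := hAut
  obtain ⟨φ, hφ⟩ : ∃ φ : ℂ → ℂ × ℂ, ∀ (t : ℂ) (n : ℕ), t.re - n < -C →
      φ t = G^[n] (φ₀ (t - n)) := by
    have hex : ∀ t : ℂ, ∃ n : ℕ, t.re - n < -C := by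
      intro t
      obtain ⟨n, hn⟩ := exists_nat_gt (t.re + C)
      exact ⟨n, by linarith⟩
    choose N hN using hex
    refine ⟨fun t => G^[N t] (φ₀ (t - N t)), ?_⟩
    intro t n hn
    rcases le_total (N t) n with h | h
    · exact ep_indep G C φ₀ hG _ _ h t (hN t)
    · exact (ep_indep G C φ₀ hG _ _ h t hn).symm
  have hopen : IsOpen {t : ℂ | t.re < -C} := isOpen_lt Complex.continuous_re continuous_const
  have hitd : ∀ n, Differentiable ℂ (G^[n]) := fun n => hGd.iterate n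
  have hitd' : ∀ n, Differentiable ℂ (G'^[n]) := fun n => hG'd.iterate n
  have hleft : ∀ n, Function.LeftInverse (G'^[n]) (G^[n]) := fun n =>
    Function.LeftInverse.iterate hG'G n
  -- local description
  have hloc : ∀ (t₀ : ℂ) (n : ℕ), t₀.re - n < -C →
      (∀ᶠ t in 𝓝 t₀, φ t = G^[n] (φ₀ (t - n))) ∧ DifferentiableAt ℂ φ₀ (t₀ - n) := by
    intro t₀ n hn
    constructor
    · have h1 : ∀ᶠ t : ℂ in 𝓝 t₀, t.re - n < -C := by
        have : IsOpen {t : ℂ | t.re - n < -C} :=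
          isOpen_lt (Complex.continuous_re.sub continuous_const) continuous_const
        exact this.mem_nhds hn
      exact h1.mono fun t ht => hφ t n ht
    · have h2 : (t₀ - n) ∈ {t : ℂ | t.re < -C} := by
        show (t₀ - n).re < -C
        rw [Complex.sub_re, Complex.natCast_re]; exact hn
      exact hd.differentiableAt (hopen.mem_nhds h2)
  have hex : ∀ t : ℂ, ∃ n : ℕ, t.re - n < -C ∧ |t.im| < -(t.re - n) / 2 := by
    intro t
    obtain ⟨n, hn⟩ := exists_nat_gt (max (t.re + C) (t.re + 2 * |t.im|))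
    refine ⟨n, ?_, ?_⟩
    · have := (le_max_left (t.re + C) (t.re + 2 * |t.im|)).trans_lt hn
      linarith
    · have := (le_max_right (t.re + C) (t.re + 2 * |t.im|)).trans_lt hn
      linarith
  have hφd : Differentiable ℂ φ := by
    intro t₀
    obtain ⟨n, hn, -⟩ := hex t₀
    obtain ⟨h1, h2⟩ := hloc t₀ n hn
    have h3 : DifferentiableAt ℂ (fun t => G^[n] (φ₀ (t - n))) t₀ := by
      have h4 : DifferentiableAt ℂ (fun t : ℂ => φ₀ (t - n)) t₀ := by
        have h5 : DifferentiableAt ℂ (fun t : ℂ => t - (n : ℂ)) t₀ :=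
          differentiableAt_id.sub_const _
        exact DifferentiableAt.comp (f := fun t : ℂ => t - (n : ℂ)) t₀ h2 h5
      exact DifferentiableAt.comp (f := fun t : ℂ => φ₀ (t - n)) t₀ (hitd n _) h4
    exact h3.congr_of_eventuallyEq h1
  have hφinj : Function.Injective φ := by
    intro t t' htt
    obtain ⟨n, hn1, hn2⟩ := hex t
    obtain ⟨m, hm1, hm2⟩ := hex t'
    have hk1 : (n : ℝ) ≤ ((max n m : ℕ) : ℝ) := by exact_mod_cast le_max_left n m
    have hk2 : (m : ℝ) ≤ ((max n m : ℕ) : ℝ) := by exact_mod_cast le_max_right n m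
    have a1 : t.re - ((max n m : ℕ) : ℝ) < -C := by linarith
    have a2 : t'.re - ((max n m : ℕ) : ℝ) < -C := by linarith
    have b1 : |t.im| < -(t.re - ((max n m : ℕ) : ℝ)) / 2 := by linarith
    have b2 : |t'.im| < -(t'.re - ((max n m : ℕ) : ℝ)) / 2 := by linarith
    rw [hφ t _ a1, hφ t' _ a2] at htt
    have h1 := (hleft (max n m)).injective htt
    have h2 := hinj (by
      refine ⟨?_, ?_⟩
      · rw [Complex.sub_re, Complex.natCast_re]; exact a1
      · rw [Complex.sub_re, Complex.natCast_re, Complex.sub_im, Complex.natCast_im, sub_zero]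
        exact b1) (by
      refine ⟨?_, ?_⟩
      · rw [Complex.sub_re, Complex.natCast_re]; exact a2
      · rw [Complex.sub_re, Complex.natCast_re, Complex.sub_im, Complex.natCast_im, sub_zero]
        exact b2) h1
    exact sub_left_injective h2
  have hφder : ∀ t, deriv φ t ≠ 0 := by
    intro t₀ h0
    obtain ⟨n, hn1, hn2⟩ := hex t₀
    obtain ⟨h1, h2⟩ := hloc t₀ n hn1
    have h3 : deriv φ₀ (t₀ - n) ≠ 0 := by
      apply hder
      · rw [Complex.sub_re, Complex.natCast_re]; exact hn1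
      · rw [Complex.sub_re, Complex.natCast_re, Complex.sub_im, Complex.natCast_im, sub_zero]
        exact hn2
    apply h3
    have h4 : ∀ᶠ t in 𝓝 t₀, G'^[n] (φ t) = φ₀ (t - n) := by
      filter_upwards [h1] with t ht
      rw [ht, hleft n]
    have h5 : HasDerivAt (fun t => G'^[n] (φ t)) (fderiv ℂ (G'^[n]) (φ t₀) (deriv φ t₀)) t₀ :=
      (hitd' n (φ t₀)).hasFDerivAt.comp_hasDerivAt t₀ (hφd t₀).hasDerivAt
    rw [h0, map_zero] at h5
    have h6 : HasDerivAt (fun t : ℂ => φ₀ (t - n)) 0 t₀ :=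
      h5.congr_of_eventuallyEq (h4.mono fun t ht => ht.symm)
    have h7 : HasDerivAt (fun t : ℂ => φ₀ (t - n)) (deriv φ₀ (t₀ - n)) t₀ :=
      h2.hasDerivAt.comp_sub_const t₀ (n : ℂ)
    exact h7.unique h6
  refine ⟨φ, ⟨⟨hφd, hφinj, hφder⟩, Or.inr ⟨?_, ?_⟩⟩, ?_⟩
  · intro t
    obtain ⟨n, hn1, -⟩ := hex t
    have h1 : (t + 1).re - ((n + 1 : ℕ) : ℝ) < -C := by
      rw [Complex.add_re, Complex.one_re]; push_cast; linarith
    rw [hφ t n hn1, hφ (t + 1) (n + 1) h1, Function.iterate_succ_apply']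
    congr 3
    push_cast
    ring
  · obtain ⟨M, hM⟩ := hbd
    obtain ⟨N, hN⟩ := exists_nat_gt C
    obtain ⟨B, hB⟩ := (isCompact_closedBall (0 : ℂ × ℂ) M).exists_bound_of_continuousOn
      (hitd N).continuous.continuousOn
    refine ⟨B, fun t ht => ?_⟩
    have h1 : t.re - N < -C := by linarith
    rw [hφ t N h1]
    apply hB
    rw [mem_closedBall_zero_iff]
    apply hM
    rw [Complex.sub_re, Complex.natCast_re]; exact h1
  · intro t ht
    have := hφ t 0 (by simpa using ht)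
    simpa using this

end Pool.Agent.MP_2f2443_an.RC
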