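import Pool.Agent.Lib.MP_2f2443_an.RC.StmQ

set_option autoImplicit false

namespace Pool.Agent.MP_2f2443_an.RC

open Filter Topology Pool.Agent.MP_2f2443_an.IP

private lemma fa_grow (x : ℕ → ℂ) (e : ℕ → ℝ) (he : ∀ j, 0 ≤ e j) (n : ℕ) (S : ℝ)
    (hS : ∑ j ∈ Finset.range n, e j ≤ S) (hS2 : S ≤ 1 / 2)
    (h : ∀ j, j < n → ‖x j - x 0‖ ≤ 2 * S * ‖x 0‖ → ‖x (j + 1) - x j‖ ≤ e j * ‖x j‖) :
    ∀ j, j ≤ n → ‖x j - x 0‖ ≤ 2 * (∑ i ∈ Finset.range j, e i) * ‖x 0‖ := by
  intro j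
  induction j with
  | zero => intro _; simp
  | succ j ih =>
    intro hj
    have h1 := ih (by omega)
    have h2 : ∑ i ∈ Finset.range j, e i ≤ S :=
      le_trans (Finset.sum_le_sum_of_subset_of_nonneg (Finset.range_mono (by omega))
        (fun i _ _ => he i)) hS
    have h3 : ‖x j - x 0‖ ≤ 2 * S * ‖x 0‖ := le_trans h1 (by gcongr)
    have h4 := h j (by omega) h3
    have h5 : ‖x j‖ ≤ 2 * ‖x 0‖ := by
      have h5' : ‖x j‖ ≤ ‖x j - x 0‖ + ‖x 0‖ := by
        have h5'' := norm_add_le (x j - x 0) (x 0)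
        rwa [sub_add_cancel] at h5''
      nlinarith [norm_nonneg (x 0)]
    have h6 : ‖x (j + 1) - x 0‖ ≤ ‖x (j + 1) - x j‖ + ‖x j - x 0‖ :=
      norm_sub_le_norm_sub_add_norm_sub _ _ _
    rw [Finset.sum_range_succ]
    nlinarith [he j, mul_le_mul_of_nonneg_left h5 (he j)]

private lemma fa_cone (t z : ℂ) (ht : t.re ≤ 0) (hz : ‖z - t‖ ≤ ‖t‖ / 4) :
    z.re ≤ |z.im| / 2 := by
  have h1 : ‖t‖ ≤ |t.re| + |t.im| := Complex.norm_le_abs_re_add_abs_im t
  have h2 : |(z - t).re| ≤ ‖z - t‖ := Complex.abs_re_le_norm _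
  have h3 : |(z - t).im| ≤ ‖z - t‖ := Complex.abs_im_le_norm _
  rw [Complex.sub_re] at h2
  rw [Complex.sub_im] at h3
  have h4 : |t.im| - |z.im| ≤ |z.im - t.im| := by
    rw [abs_sub_comm]
    exact abs_sub_abs_le_abs_sub _ _
  have h5 := le_abs_self (z.re - t.re)
  rw [abs_of_nonpos ht] at h1
  have h6 := abs_nonneg t.im
  linarith

private lemma fa_ball (C a : ℝ) (hC : 0 ≤ C) (ha : a < -(2 * C)) (z u : ℂ)
    (hz : z.re ≤ |z.im| / 2) (hu : ‖u - (a + z)‖ ≤ -a / 8) :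
    u ∈ Wd C ∧ -a / 4 ≤ ‖u‖ := by
  have ha0 : a < 0 := by linarith
  have h2 : |(u - (a + z)).re| ≤ ‖u - (a + z)‖ := Complex.abs_re_le_norm _
  have h3 : |(u - (a + z)).im| ≤ ‖u - (a + z)‖ := Complex.abs_im_le_norm _
  have e1 : (u - (a + z)).re = u.re - a - z.re := by simp; ring
  have e2 : (u - (a + z)).im = u.im - z.im := by simp
  rw [e1] at h2
  rw [e2] at h3
  have h4 : |z.im| - |u.im| ≤ |u.im - z.im| := by
    rw [abs_sub_comm]
    exact abs_sub_abs_le_abs_sub _ _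
  have h5 := le_abs_self (u.re - a - z.re)
  constructor
  · show u.re + C < |u.im|
    have h6 := abs_nonneg z.im
    linarith
  · have h7 : -a / 2 ≤ ‖(a + z : ℂ)‖ := by
      have h8 : (-a / 2) ^ 2 ≤ ‖(a + z : ℂ)‖ ^ 2 := by
        rw [← Complex.normSq_eq_norm_sq, Complex.normSq_apply]
        have e3 : ((a : ℂ) + z).re = a + z.re := by simp
        have e4 : ((a : ℂ) + z).im = z.im := by simp
        rw [e3, e4]
        have h9 : z.im * z.im = |z.im| * |z.im| := (abs_mul_abs_self _).symm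
        rw [h9]
        have h10 := abs_nonneg z.im
        by_cases hr : z.re ≤ 0
        · nlinarith [mul_nonneg (neg_nonneg.mpr ha0.le) (neg_nonneg.mpr hr), sq_nonneg z.re]
        · push Not at hr
          nlinarith [sq_nonneg (a + 5 * z.re), mul_le_mul hz hz hr.le (by positivity)]
      exact abs_le_of_sq_le_sq' h8 (norm_nonneg _) |>.2
    have h11 : ‖(a + z : ℂ)‖ ≤ ‖u‖ + ‖u - (a + z)‖ := by
      have h12 := norm_sub_le u (u - (a + z))
      rwa [sub_sub_cancel] at h12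
    linarith

private lemma fa_lip (C M σ : ℝ) (β : ℂ → ℂ) (hC : 0 ≤ C) (hM : 0 < M) (hσ : 0 < σ)
    (hσ2 : σ ≤ 1 / 2) (hop : IsOpen (Wd C)) (hd : DifferentiableOn ℂ β (Wd C))
    (hb : ∀ w ∈ Wd C, ‖β w‖ ≤ M * ‖w‖ ^ (-σ)) (a : ℝ) (ha : a < -(2 * C)) (z z' : ℂ)
    (hseg : ∀ x ∈ segment ℝ z z', x.re ≤ |x.im| / 2) :
    ‖β (a + z') - β (a + z)‖ ≤ 16 * M * (-a) ^ (-1 - σ) * ‖z' - z‖ := by
  have ha0 : 0 < -a := by linarith
  have key : ∀ x ∈ segment ℝ z z', DifferentiableAt ℂ (fun x : ℂ => β (a + x)) x ∧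
      ‖deriv (fun x : ℂ => β (a + x)) x‖ ≤ 16 * M * (-a) ^ (-1 - σ) := by
    intro x hx
    have hx1 := hseg x hx
    have hx2 : (a + x : ℂ) ∈ Wd C := by
      refine (fa_ball C a hC ha x _ hx1 ?_).1
      simp; linarith
    have hdx : DifferentiableAt ℂ β (a + x) := hd.differentiableAt (hop.mem_nhds hx2)
    refine ⟨DifferentiableAt.comp x hdx (by fun_prop), ?_⟩
    rw [deriv_comp_const_add]
    have hR : 0 < -a / 8 := by linarith
    have hsub : Metric.closedBall (a + x : ℂ) (-a / 8) ⊆ Wd C := by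
      intro u hu
      rw [Metric.mem_closedBall, dist_eq_norm] at hu
      exact (fa_ball C a hC ha x u hx1 hu).1
    have hcl : DiffContOnCl ℂ β (Metric.ball (a + x : ℂ) (-a / 8)) := by
      refine DifferentiableOn.diffContOnCl ?_
      rw [closure_ball _ hR.ne']
      exact hd.mono hsub
    have hbd : ∀ u ∈ Metric.sphere (a + x : ℂ) (-a / 8), ‖β u‖ ≤ M * (-a / 4) ^ (-σ) := by
      intro u hu
      rw [mem_sphere_iff_norm] at hu
      have h1 := fa_ball C a hC ha x u hx1 hu.le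
      refine le_trans (hb u h1.1) ?_
      refine mul_le_mul_of_nonneg_left ?_ hM.le
      exact Real.rpow_le_rpow_of_nonpos (by linarith) h1.2 (by linarith)
    refine le_trans (Complex.norm_deriv_le_of_forall_mem_sphere_norm_le hR hcl hbd) ?_
    rw [div_le_iff₀ hR]
    have e1 : (-a / 4) ^ (-σ) = (-a) ^ (-σ) * (4 : ℝ) ^ σ := by
      rw [Real.div_rpow ha0.le (by norm_num), Real.rpow_neg (by norm_num : (0:ℝ) ≤ 4) σ, div_inv_eq_mul]
    have e2 : (-a) ^ (-1 - σ) * (-a) = (-a) ^ (-σ) := by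
      rw [show (-1 - σ) = -σ - 1 by ring, Real.rpow_sub_one ha0.ne', div_mul_cancel₀ _ ha0.ne']
    have e3 : (4 : ℝ) ^ σ ≤ 2 := by
      have h1 : (4 : ℝ) ^ σ ≤ (4 : ℝ) ^ (1 / 2 : ℝ) :=
        Real.rpow_le_rpow_of_exponent_le (by norm_num) hσ2
      have h2 : (4 : ℝ) ^ (1 / 2 : ℝ) = 2 := by
        rw [show (4 : ℝ) = 2 ^ (2 : ℝ) by norm_num, ← Real.rpow_mul (by norm_num)]
        norm_num
      linarith
    have e4 : 0 ≤ (-a) ^ (-σ) := Real.rpow_nonneg ha0.le _
    rw [e1]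
    have e5 : 16 * M * (-a) ^ (-1 - σ) * (-a / 8) = M * ((-a) ^ (-σ) * 2) := by
      rw [← e2]; ring
    rw [e5]
    gcongr
  have h := Convex.norm_image_sub_le_of_norm_deriv_le (𝕜 := ℂ) (f := fun x : ℂ => β (a + x))
    (C := 16 * M * (-a) ^ (-1 - σ)) (s := segment ℝ z z') (x := z) (y := z')
    (fun x hx => (key x hx).1) (fun x hx => (key x hx).2) (convex_segment _ _)
    (left_mem_segment _ _ _) (right_mem_segment _ _ _)
  exact h

/-- the sum over the reference orbit -/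
private lemma fa_sum (K σ : ℝ) (hK : 0 ≤ K) (hσ : 0 < σ) (η : ℝ) (hη : 0 < η) (B : ℝ) :
    ∃ A : ℝ, B ≤ A ∧ 1 ≤ A ∧ Summable (fun i : ℕ => K * (A + 6 / 7 * i) ^ (-1 - σ)) ∧
      ∑' i : ℕ, K * (A + 6 / 7 * i) ^ (-1 - σ) ≤ η := by
  have hs : Summable (fun i : ℕ => ((i : ℝ) + 1) ^ (-1 - σ / 2)) := by
    have h1 : Summable (fun i : ℕ => (i : ℝ) ^ (-1 - σ / 2)) :=
      Real.summable_nat_rpow.mpr (by linarith)
    have h2 := (summable_nat_add_iff 1).mpr h1
    simpa using h2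
  set T := ∑' i : ℕ, ((i : ℝ) + 1) ^ (-1 - σ / 2) with hT
  have hT0 : 0 ≤ T := tsum_nonneg (fun i => by positivity)
  have hlim : Tendsto (fun A : ℝ => K * (A ^ (-(σ / 2)) * ((6 / 7 : ℝ) ^ (-1 - σ / 2) * T))) atTop
      (𝓝 (K * (0 * ((6 / 7 : ℝ) ^ (-1 - σ / 2) * T)))) :=
    ((tendsto_rpow_neg_atTop (by positivity)).mul_const _).const_mul _
  rw [zero_mul, mul_zero] at hlim
  obtain ⟨A, hA1, hA2, hA3⟩ := ((hlim.eventually_le_const hη).and
    ((eventually_ge_atTop B).and (eventually_ge_atTop 1))).exists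
  have hA0 : 0 < A := by linarith
  have hle : ∀ i : ℕ, K * (A + 6 / 7 * i) ^ (-1 - σ) ≤
      K * (A ^ (-(σ / 2)) * ((6 / 7 : ℝ) ^ (-1 - σ / 2) * ((i : ℝ) + 1) ^ (-1 - σ / 2))) := by
    intro i
    refine mul_le_mul_of_nonneg_left ?_ hK
    have hi : (0 : ℝ) ≤ i := Nat.cast_nonneg i
    have hpos : 0 < A + 6 / 7 * (i : ℝ) := by positivity
    rw [show (-1 - σ) = -(σ / 2) + (-1 - σ / 2) by ring, Real.rpow_add hpos,
      ← Real.mul_rpow (by norm_num) (by positivity)]
    refine mul_le_mul ?_ ?_ (by positivity) (by positivity)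
    · exact Real.rpow_le_rpow_of_nonpos hA0 (by linarith) (by linarith)
    · exact Real.rpow_le_rpow_of_nonpos (by positivity) (by linarith) (by linarith)
  have hs2 : Summable (fun i : ℕ =>
      K * (A ^ (-(σ / 2)) * ((6 / 7 : ℝ) ^ (-1 - σ / 2) * ((i : ℝ) + 1) ^ (-1 - σ / 2)))) :=
    ((hs.mul_left _).mul_left _).mul_left _
  have hs3 : Summable (fun i : ℕ => K * (A + 6 / 7 * i) ^ (-1 - σ)) :=
    Summable.of_nonneg_of_le (fun i => by positivity) hle hs2
  refine ⟨A, hA2, hA3, hs3, ?_⟩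
  refine le_trans (hs3.tsum_le_tsum hle hs2) ?_
  rw [tsum_mul_left, tsum_mul_left, tsum_mul_left]
  exact hA1

private lemma fa_two (β : ℂ → ℂ) (a e : ℕ → ℝ) (he : ∀ i, 0 ≤ e i)
    (hs : ∀ n, ∑ j ∈ Finset.range n, e (n - j) ≤ 1 / 64)
    (hL : ∀ i, ∀ z z' : ℂ, (∀ x ∈ segment ℝ z z', x.re ≤ |x.im| / 2) →
      ‖β (a i + z') - β (a i + z)‖ ≤ e i * ‖z' - z‖)
    (ha : ∀ i, (a i : ℂ) = a (i + 1) + 1 + β (a (i + 1))) (t : ℂ) (ht : t.re ≤ 0) (n : ℕ)
    (f : ℂ → ℂ) (hf : ∀ w, f w = w + 1 + β w) :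
    (∀ j, j ≤ n → ‖f^[j] (a n + t) - a (n - j) - t‖ ≤ 1 / 32 * ‖t‖) ∧
    ∀ p : ℂ, ‖p - (a n + t)‖ ≤ ‖t‖ / 16 → ∀ j, j ≤ n →
      ‖f^[j] p - f^[j] (a n + t)‖ ≤ 2 * ‖p - (a n + t)‖ := by
  have hstep : ∀ j, j < n → (a (n - (j + 1)) : ℂ) = a (n - j) + 1 + β (a (n - j)) := by
    intro j hj
    have h := ha (n - (j + 1))
    rwa [show n - (j + 1) + 1 = n - j by omega] at h
  have hpart : ∀ j, j ≤ n → ∑ i ∈ Finset.range j, e (n - i) ≤ 1 / 64 := by
    intro j hj
    refine le_trans ?_ (hs n)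
    exact Finset.sum_le_sum_of_subset_of_nonneg (Finset.range_mono hj) (fun i _ _ => he _)
  have h0 : ∀ j, j ≤ n → ‖f^[j] (a n + t) - a (n - j) - t‖ ≤ 1 / 32 * ‖t‖ := by
    have hg := fa_grow (fun j => f^[j] (a n + t) - a (n - j)) (fun j => e (n - j))
      (fun j => he _) n (1 / 64) (hs n) (by norm_num) ?_
    · intro j hj
      have h1 := hg j hj
      simp only [Function.iterate_zero, id, Nat.sub_zero, add_sub_cancel_left] at h1
      refine le_trans h1 ?_
      have h2 := hpart j hj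
      have h3 := norm_nonneg t
      nlinarith
    · intro j hj hb
      simp only [Function.iterate_zero, id, Nat.sub_zero, add_sub_cancel_left] at hb ⊢
      set X := f^[j] (a n + t) - a (n - j) with hX
      have hX' : f^[j] (a n + t) = a (n - j) + X := by rw [hX]; ring
      rw [Function.iterate_succ_apply', hX', hf, hstep j hj]
      have e1 : (a (n - j) : ℂ) + X + 1 + β (a (n - j) + X) - (a (n - j) + 1 + β (a (n - j))) - X
          = β (a (n - j) + X) - β (a (n - j) + 0) := by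
        rw [add_zero]; ring
      rw [e1]
      refine le_trans (hL (n - j) 0 X ?_) (by rw [sub_zero])
      intro x hx
      rw [segment_eq_image] at hx
      obtain ⟨θ, ⟨hθ0, hθ1⟩, rfl⟩ := hx
      have hc := fa_cone t X ht (by
        refine le_trans hb ?_
        have h3 := norm_nonneg t
        linarith)
      simp only [smul_zero, zero_add, Complex.smul_re, Complex.smul_im, smul_eq_mul]
      rw [abs_mul, abs_of_nonneg hθ0]
      nlinarith
  refine ⟨h0, ?_⟩
  intro p hp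
  have hg := fa_grow (fun j => f^[j] p - f^[j] (a n + t)) (fun j => e (n - j))
      (fun j => he _) n (1 / 64) (hs n) (by norm_num) ?_
  · intro j hj
    have h1 := hg j hj
    simp only [Function.iterate_zero, id] at h1
    have h2 := hpart j hj
    have h3 := norm_nonneg (p - (a n + t))
    have h4 : ‖f^[j] p - f^[j] (a n + t)‖ ≤ ‖f^[j] p - f^[j] (a n + t) - (p - (a n + t))‖ +
        ‖p - (a n + t)‖ := by
      have h5 := norm_add_le (f^[j] p - f^[j] (a n + t) - (p - (a n + t))) (p - (a n + t))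
      rwa [sub_add_cancel] at h5
    nlinarith
  · intro j hj hb
    simp only [Function.iterate_zero, id] at hb ⊢
    set X := f^[j] (a n + t) - a (n - j) with hX
    have hX' : f^[j] (a n + t) = a (n - j) + X := by rw [hX]; ring
    set Y := f^[j] p - a (n - j) with hY
    have hY' : f^[j] p = a (n - j) + Y := by rw [hY]; ring
    have hXt : ‖X - t‖ ≤ 1 / 32 * ‖t‖ := h0 j hj.le
    rw [hX', hY'] at hb
    rw [Function.iterate_succ_apply', Function.iterate_succ_apply', hX', hY', hf, hf]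
    have e1 : (a (n - j) : ℂ) + Y + 1 + β (a (n - j) + Y) - (a (n - j) + X + 1 + β (a (n - j) + X))
        - (a (n - j) + Y - (a (n - j) + X)) = β (a (n - j) + Y) - β (a (n - j) + X) := by ring
    rw [e1]
    have e2 : (a (n - j) : ℂ) + Y - (a (n - j) + X) = Y - X := by ring
    rw [e2] at hb ⊢
    have h3 := norm_nonneg t
    have hYX : ‖Y - X‖ ≤ ‖t‖ / 8 := by
      have h4 : ‖Y - X‖ ≤ ‖Y - X - (p - (a n + t))‖ + ‖p - (a n + t)‖ := by
        have h5 := norm_add_le (Y - X - (p - (a n + t))) (p - (a n + t))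
        rwa [sub_add_cancel] at h5
      have h6 := norm_nonneg (p - (a n + t))
      linarith
    have hYt : ‖Y - t‖ ≤ ‖t‖ / 4 := by
      have h4 := norm_sub_le_norm_sub_add_norm_sub Y X t
      linarith
    have hXt' : ‖X - t‖ ≤ ‖t‖ / 4 := by linarith
    refine hL (n - j) X Y ?_
    intro x hx
    refine fa_cone t x ht ?_
    have hb1 : X ∈ Metric.closedBall t (‖t‖ / 4) := by
      rw [mem_closedBall_iff_norm]; exact hXt'
    have hb2 : Y ∈ Metric.closedBall t (‖t‖ / 4) := by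
      rw [mem_closedBall_iff_norm]; exact hYt
    have hb3 := (convex_closedBall t (‖t‖ / 4)).segment_subset hb1 hb2 hx
    rwa [mem_closedBall_iff_norm] at hb3

private lemma fa_convex : Convex ℝ {t : ℂ | t.re < -1 ∧ |t.im| < -t.re / 2} := by
  have h1 : {t : ℂ | t.re < -1 ∧ |t.im| < -t.re / 2} =
      {t : ℂ | t.re < -1} ∩ ({t : ℂ | t.im + t.re / 2 < 0} ∩ {t : ℂ | -t.im + t.re / 2 < 0}) := by
    ext t
    simp only [Set.mem_setOf_eq, Set.mem_inter_iff, abs_lt]
    constructor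
    · rintro ⟨h1, h2, h3⟩
      exact ⟨h1, by linarith, by linarith⟩
    · rintro ⟨h1, h2, h3⟩
      exact ⟨h1, by linarith, by linarith⟩
  rw [h1]
  intro x hx y hy a b ha hb hab
  obtain ⟨hx1, hx2, hx3⟩ := hx
  obtain ⟨hy1, hy2, hy3⟩ := hy
  simp only [Set.mem_setOf_eq] at hx1 hx2 hx3 hy1 hy2 hy3
  have ha' : a = 1 - b := by linarith
  refine ⟨?_, ?_, ?_⟩
  · simp only [Set.mem_setOf_eq, Complex.add_re, Complex.smul_re, smul_eq_mul]
    rcases ha.eq_or_lt with h | h
    · have hb1 : b = 1 := by linarith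
      rw [← h, hb1]; linarith
    · nlinarith [mul_lt_mul_of_pos_left hx1 h, mul_le_mul_of_nonneg_left hy1.le hb]
  · simp only [Set.mem_setOf_eq, Complex.add_re, Complex.add_im, Complex.smul_re, Complex.smul_im,
      smul_eq_mul]
    rcases ha.eq_or_lt with h | h
    · have hb1 : b = 1 := by linarith
      rw [← h, hb1]; linarith
    · nlinarith [mul_lt_mul_of_pos_left hx2 h, mul_le_mul_of_nonneg_left hy2.le hb]
  · simp only [Set.mem_setOf_eq, Complex.add_re, Complex.add_im, Complex.smul_re, Complex.smul_im,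
      smul_eq_mul]
    rcases ha.eq_or_lt with h | h
    · have hb1 : b = 1 := by linarith
      rw [← h, hb1]; linarith
    · nlinarith [mul_lt_mul_of_pos_left hx3 h, mul_le_mul_of_nonneg_left hy3.le hb]

theorem p_fa : S_fa := by
  intro hwd hiv C M σ β hC hM hσ hσ2 hd hb hre
  -- the constant C₁
  obtain ⟨C₁, hC1, hC1', hC2⟩ : ∃ C₁ : ℝ, C ≤ C₁ ∧ 1 ≤ C₁ ∧ M * (C₁ / 2) ^ (-σ) ≤ 1 / 16 := by
    have hlim : Tendsto (fun x : ℝ => M * (x / 2) ^ (-σ)) atTop (𝓝 (M * 0)) :=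
      ((tendsto_rpow_neg_atTop hσ).comp (tendsto_id.atTop_div_const (by norm_num))).const_mul _
    rw [mul_zero] at hlim
    obtain ⟨A, h1, h2, h3⟩ := ((hlim.eventually_le_const (by norm_num : (0 : ℝ) < 1 / 16)).and
      ((eventually_ge_atTop C).and (eventually_ge_atTop 1))).exists
    exact ⟨A, h2, h3, h1⟩
  obtain ⟨hop, -, -, -, hW3, hW4⟩ := hwd C₁ (by linarith)
  have hsub : Wd C₁ ⊆ Wd C := by
    intro w hw
    have h : w.re + C₁ < |w.im| := hw
    show w.re + C < |w.im|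
    linarith
  have hd1 := hd.mono hsub
  have hb1 : ∀ w ∈ Wd C₁, ‖β w‖ ≤ M * ‖w‖ ^ (-σ) := fun w hw => hb w (hsub hw)
  have hb2 : ∀ w ∈ Wd C₁, ‖β w‖ ≤ 1 / 16 := by
    intro w hw
    have h := hW3 w hw
    refine le_trans (hb1 w hw) (le_trans ?_ hC2)
    refine mul_le_mul_of_nonneg_left ?_ hM.le
    exact Real.rpow_le_rpow_of_nonpos (by linarith) (by linarith) (by linarith)
  obtain ⟨B, -, hB1, -, hB2⟩ := hiv hwd C₁ β (by linarith) hd1
    (fun w hw => le_trans (hb2 w hw) (by norm_num))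
  have hB3 := hB2 (fun w hw => hre w (hsub hw))
  obtain ⟨A, hA1, hA2, hs1, hs2⟩ := fa_sum (16 * M) σ (by positivity) hσ (1 / 64) (by norm_num)
    (2 * C₁ + 1)
  -- the reference orbit
  obtain ⟨a, ha0, haB⟩ : ∃ a : ℕ → ℝ, a 0 = -A ∧ ∀ i, a (i + 1) = (B (a i)).re :=
    ⟨fun n => Nat.rec (-A) (fun _ x => (B (x : ℂ)).re) n, rfl, fun i => rfl⟩
  have ha1 : ∀ i : ℕ, a i ≤ -(A + 6 / 7 * i) ∧ (a i : ℂ) ∈ Wd C₁ := by
    intro i
    induction i with
    | zero =>
      refine ⟨by rw [ha0]; simp, ?_⟩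
      rw [hW4, ha0]; linarith
    | succ i ih =>
      have h1 := (hB1 _ ih.2).2.1
      have h2 := Complex.abs_re_le_norm (B (a i) - (a i - 1))
      have h3 : (B (a i) - (a i - 1)).re = a (i + 1) - (a i - 1) := by
        rw [haB i]; simp
      rw [h3] at h2
      have h4 := le_abs_self (a (i + 1) - (a i - 1))
      have h5 : a (i + 1) ≤ -(A + 6 / 7 * ((i + 1 : ℕ) : ℝ)) := by
        push_cast
        linarith [ih.1]
      refine ⟨h5, ?_⟩
      rw [hW4]
      have h6 : (0 : ℝ) ≤ ((i + 1 : ℕ) : ℝ) := Nat.cast_nonneg _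
      linarith
  have ha : ∀ i, (a i : ℂ) = a (i + 1) + 1 + β (a (i + 1)) := by
    intro i
    have h1 := (hB1 _ (ha1 i).2).2.2
    have h2 := hB3 (a i) (ha1 i).2
    have h3 : B (a i) = (a (i + 1) : ℂ) := by
      rw [haB i]
      apply Complex.ext
      · simp
      · simp [h2]
    rw [h3] at h1
    exact h1.symm
  have haA : ∀ i, a i < -(2 * C₁) := by
    intro i
    have h1 := (ha1 i).1
    have h2 : (0 : ℝ) ≤ (i : ℝ) := Nat.cast_nonneg _
    linarith
  set e : ℕ → ℝ := fun i => 16 * M * (A + 6 / 7 * i) ^ (-1 - σ) with hedef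
  have he : ∀ i, 0 ≤ e i := by
    intro i
    have h2 : (0 : ℝ) ≤ (i : ℝ) := Nat.cast_nonneg _
    have h3 : 0 < A + 6 / 7 * (i : ℝ) := by linarith
    positivity
  have hesum : ∀ s : Finset ℕ, ∑ i ∈ s, e i ≤ 1 / 64 := fun s =>
    le_trans (hs1.sum_le_tsum s (fun i _ => he i)) hs2
  have hs : ∀ n, ∑ j ∈ Finset.range n, e (n - j) ≤ 1 / 64 := by
    intro n
    have h1 : ∑ i ∈ (Finset.range n).image (fun j => n - j), e i =
        ∑ j ∈ Finset.range n, e (n - j) := by
      refine Finset.sum_image ?_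
      intro x hx y hy hxy
      simp only [Finset.coe_range, Set.mem_Iio] at hx hy
      simp only at hxy
      omega
    rw [← h1]
    exact hesum _
  have hL : ∀ i, ∀ z z' : ℂ, (∀ x ∈ segment ℝ z z', x.re ≤ |x.im| / 2) →
      ‖β (a i + z') - β (a i + z)‖ ≤ e i * ‖z' - z‖ := by
    intro i z z' hz
    refine le_trans (fa_lip C₁ M σ β (by linarith) hM hσ hσ2 hop hd1 hb1 (a i) (haA i) z z' hz) ?_
    refine mul_le_mul_of_nonneg_right ?_ (norm_nonneg _)
    refine mul_le_mul_of_nonneg_left ?_ (by positivity)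
    have h2 : (0 : ℝ) ≤ (i : ℝ) := Nat.cast_nonneg _
    exact Real.rpow_le_rpow_of_nonpos (by linarith) (by linarith [(ha1 i).1]) (by linarith)
  set f : ℂ → ℂ := fun w => w + 1 + β w with hfdef
  have hf : ∀ w, f w = w + 1 + β w := fun w => rfl
  have two := fun (t : ℂ) (ht : t.re ≤ 0) (n : ℕ) => fa_two β a e he hs hL ha t ht n f hf
  have hX : ∀ (i : ℕ) (t w : ℂ), t.re ≤ 0 → ‖w - a i - t‖ ≤ 1 / 32 * ‖t‖ → w ∈ Wd C₁ := by
    intro i t w ht hw
    have h3 := norm_nonneg t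
    have h1 := fa_cone t (w - a i) ht (by linarith)
    refine (fa_ball C₁ (a i) (by linarith) (haA i) (w - a i) w h1 ?_).1
    rw [show w - (a i + (w - a i)) = 0 by ring, norm_zero]
    linarith [haA i]
  have hmem : ∀ (n : ℕ) (t : ℂ), t.re ≤ 0 → ∀ j, j ≤ n → f^[j] (a n + t) ∈ Wd C₁ :=
    fun n t ht j hj => hX (n - j) t _ ht ((two t ht n).1 j hj)
  set Φ : ℕ → ℂ → ℂ := fun n t => f^[n] (a n + t) with hΦ
  have h32 : ∀ (n : ℕ) (t : ℂ), t.re ≤ 0 → ‖Φ n t - a 0 - t‖ ≤ 1 / 32 * ‖t‖ := by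
    intro n t ht
    have h1 := (two t ht n).1 n le_rfl
    rwa [Nat.sub_self] at h1
  have hdist : ∀ (t : ℂ), t.re ≤ 0 → ∀ n : ℕ, dist (Φ n t) (Φ (n + 1) t) ≤ 2 * ‖t‖ * e (n + 1) := by
    intro t ht n
    have h1 : f (a (n + 1) + t) - (a n + t) = β (a (n + 1) + t) - β (a (n + 1) + 0) := by
      rw [hf, ha n, add_zero]; ring
    have h2 : ‖f (a (n + 1) + t) - (a n + t)‖ ≤ e (n + 1) * ‖t‖ := by
      rw [h1]
      refine le_trans (hL (n + 1) 0 t ?_) (by rw [sub_zero])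
      intro x hx
      rw [segment_eq_image] at hx
      obtain ⟨θ, ⟨hθ0, hθ1⟩, rfl⟩ := hx
      simp only [smul_zero, zero_add, Complex.smul_re, Complex.smul_im, smul_eq_mul]
      rw [abs_mul, abs_of_nonneg hθ0]
      nlinarith [abs_nonneg t.im, mul_nonneg hθ0 (abs_nonneg t.im), mul_nonneg hθ0 (neg_nonneg.mpr ht)]
    have h3 : e (n + 1) ≤ 1 / 64 := by simpa using hesum {n + 1}
    have h4 := norm_nonneg t
    have h5 := (two t ht n).2 (f (a (n + 1) + t)) (by nlinarith) n le_rfl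
    rw [dist_comm, dist_eq_norm]
    show ‖f^[n + 1] (a (n + 1) + t) - f^[n] (a n + t)‖ ≤ _
    rw [Function.iterate_succ_apply]
    refine le_trans h5 ?_
    nlinarith
  have hsumE : ∀ t : ℂ, Summable (fun n => 2 * ‖t‖ * e (n + 1)) := fun t =>
    ((summable_nat_add_iff 1).mpr hs1).mul_left _
  have hex : ∀ t : ℂ, t.re ≤ 0 → ∃ L, Tendsto (fun n => Φ n t) atTop (𝓝 L) := fun t ht =>
    cauchySeq_tendsto_of_complete (cauchySeq_of_dist_le_of_summable _ (hdist t ht) (hsumE t))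
  choose! ϖ hϖ using hex
  have hϖ32 : ∀ t : ℂ, t.re ≤ 0 → ‖ϖ t - a 0 - t‖ ≤ 1 / 32 * ‖t‖ := by
    intro t ht
    exact le_of_tendsto (((hϖ t ht).sub_const _).sub_const _).norm
      (Eventually.of_forall (fun n => h32 n t ht))
  have hϖmem : ∀ t : ℂ, t.re ≤ 0 → ϖ t ∈ Wd C₁ := fun t ht => hX 0 t _ ht (hϖ32 t ht)
  -- the tails
  have hT : Tendsto (fun n : ℕ => ∑' m, e (m + n + 1)) atTop (𝓝 0) := by
    have h1 := tendsto_sum_nat_add (fun i => e (i + 1))
    exact h1
  have htail : ∀ t : ℂ, t.re ≤ 0 → ∀ n : ℕ,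
      dist (Φ n t) (ϖ t) ≤ 2 * ‖t‖ * ∑' m, e (m + n + 1) := by
    intro t ht n
    have h1 := dist_le_tsum_of_dist_le_of_tendsto _ (hdist t ht) (hsumE t) (hϖ t ht) n
    refine le_trans h1 (le_of_eq ?_)
    rw [← tsum_mul_left]
    refine tsum_congr (fun m => ?_)
    rw [add_comm n m]
  have hopH : IsOpen {t : ℂ | t.re < 0} := isOpen_lt Complex.continuous_re continuous_const
  have hloc : TendstoLocallyUniformlyOn Φ ϖ atTop {t : ℂ | t.re < 0} := by
    rw [Metric.tendstoLocallyUniformlyOn_iff]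
    intro ε hε x hx
    refine ⟨{t : ℂ | t.re < 0} ∩ Metric.ball x 1, ?_, ?_⟩
    · exact inter_mem self_mem_nhdsWithin (mem_nhdsWithin_of_mem_nhds (Metric.ball_mem_nhds x one_pos))
    · have h1 : Tendsto (fun n : ℕ => 2 * (‖x‖ + 1) * ∑' m, e (m + n + 1)) atTop
          (𝓝 (2 * (‖x‖ + 1) * 0)) := hT.const_mul _
      rw [mul_zero] at h1
      filter_upwards [h1.eventually_lt_const hε] with n hn y hy
      have hy1 : y.re < 0 := hy.1
      have hy2 := hy.2
      rw [mem_ball_iff_norm] at hy2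
      rw [dist_comm]
      refine lt_of_le_of_lt (htail y hy1.le n) (lt_of_le_of_lt ?_ hn)
      have h2 : ‖y‖ ≤ ‖x‖ + 1 := by
        have h3 := norm_add_le (y - x) x
        rw [sub_add_cancel] at h3
        linarith
      have h4 : 0 ≤ ∑' m, e (m + n + 1) := tsum_nonneg (fun m => he _)
      gcongr
  have hΦd : ∀ n j, j ≤ n → DifferentiableOn ℂ (fun t => f^[j] (a n + t)) {t : ℂ | t.re < 0} := by
    intro n j
    induction j with
    | zero => intro _; simp only [Function.iterate_zero, id]; fun_prop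
    | succ j ih =>
      intro hj
      have h1 := ih (by omega)
      have h2 : DifferentiableOn ℂ (fun t => β (f^[j] (a n + t))) {t : ℂ | t.re < 0} :=
        hd1.comp h1 (fun t ht => hmem n t (le_of_lt ht) j (by omega))
      have h3 : (fun t : ℂ => f^[j + 1] (a n + t)) =
          fun t => f^[j] (a n + t) + 1 + β (f^[j] (a n + t)) := by
        funext t
        rw [Function.iterate_succ_apply']
      rw [h3]
      exact (h1.add_const 1).add h2
  have hϖd : DifferentiableOn ℂ ϖ {t : ℂ | t.re < 0} :=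
    hloc.differentiableOn (Eventually.of_forall (fun n => hΦd n n le_rfl)) hopH
  -- the functional equation
  have hfe : ∀ t : ℂ, t.re < -1 → ϖ t = ϖ (t - 1) + 1 + β (ϖ (t - 1)) := by
    intro t ht
    have ht0 : t.re ≤ 0 := by linarith
    have ht1 : (t - 1).re ≤ 0 := by simp; linarith
    have hnt : 1 ≤ ‖t‖ := by
      have h1 := Complex.abs_re_le_norm t
      rw [abs_of_nonpos ht0] at h1
      linarith
    have hc : ContinuousAt f (ϖ (t - 1)) := by
      have h1 : ContinuousAt β (ϖ (t - 1)) :=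
        (hd1.differentiableAt (hop.mem_nhds (hϖmem _ ht1))).continuousAt
      exact (continuousAt_id.add continuousAt_const).add h1
    have L1 : Tendsto (fun n => f (Φ n (t - 1))) atTop (𝓝 (f (ϖ (t - 1)))) :=
      hc.tendsto.comp (hϖ _ ht1)
    have L2 : Tendsto (fun n => Φ (n + 1) t) atTop (𝓝 (ϖ t)) :=
      (hϖ t ht0).comp (tendsto_add_atTop_nat 1)
    have hbn : ∀ n : ℕ, ‖f (Φ n (t - 1)) - Φ (n + 1) t‖ ≤ 2 * (M * (A + 6 / 7 * ((n + 1 : ℕ) : ℝ)) ^ (-σ)) := by
      intro n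
      have h1 : (a n : ℂ) + (t - 1) - (a (n + 1) + t) = β (a (n + 1)) := by
        rw [ha n]; ring
      have h2 := (two t ht0 (n + 1)).2 (a n + (t - 1)) (by
        rw [h1]
        have h3 := hb2 _ (ha1 (n + 1)).2
        linarith) (n + 1) le_rfl
      rw [h1] at h2
      have h3 : f^[n + 1] (a n + (t - 1)) = f (Φ n (t - 1)) := by
        rw [Function.iterate_succ_apply']
      rw [h3] at h2
      refine le_trans h2 ?_
      refine mul_le_mul_of_nonneg_left ?_ (by norm_num)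
      refine le_trans (hb1 _ (ha1 (n + 1)).2) ?_
      refine mul_le_mul_of_nonneg_left ?_ hM.le
      have h5 := (ha1 (n + 1)).1
      have h6 : (0 : ℝ) ≤ ((n + 1 : ℕ) : ℝ) := Nat.cast_nonneg _
      refine Real.rpow_le_rpow_of_nonpos (by linarith) ?_ (by linarith)
      rw [Complex.norm_real, Real.norm_eq_abs, abs_of_nonpos (by linarith)]
      linarith
    have hlim0 : Tendsto (fun n : ℕ => 2 * (M * (A + 6 / 7 * ((n + 1 : ℕ) : ℝ)) ^ (-σ))) atTop (𝓝 0) := by
      have h1 : Tendsto (fun n : ℕ => A + 6 / 7 * ((n + 1 : ℕ) : ℝ)) atTop atTop := by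
        refine tendsto_atTop_add_const_left _ _ ?_
        refine Tendsto.const_mul_atTop (by norm_num) ?_
        exact tendsto_natCast_atTop_atTop.comp (tendsto_add_atTop_nat 1)
      have h2 := (((tendsto_rpow_neg_atTop hσ).comp h1).const_mul M).const_mul 2
      rw [mul_zero, mul_zero] at h2
      exact h2
    have L3 : Tendsto (fun n => f (Φ n (t - 1)) - Φ (n + 1) t) atTop (𝓝 0) :=
      squeeze_zero_norm hbn hlim0
    have L4 := L1.sub L2
    have h0 := tendsto_nhds_unique L3 L4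
    have h1 : ϖ t = f (ϖ (t - 1)) := (sub_eq_zero.mp h0.symm).symm
    rw [h1]
  -- reality
  have hreal : ∀ t : ℝ, t ≤ 0 → (ϖ (t : ℂ)).im = 0 := by
    intro t ht
    have ht0 : ((t : ℂ)).re ≤ 0 := by simpa using ht
    have h1 : ∀ n j, j ≤ n → (f^[j] ((a n : ℂ) + t)).im = 0 := by
      intro n j
      induction j with
      | zero => intro _; simp
      | succ j ih =>
        intro hj
        have h2 := ih (by omega)
        have h3 := hmem n t ht0 j (by omega)
        have h4 : f^[j] ((a n : ℂ) + t) = ((f^[j] ((a n : ℂ) + t)).re : ℂ) := by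
          apply Complex.ext
          · simp
          · simp [h2]
        rw [Function.iterate_succ_apply', hf]
        rw [h4] at h3 ⊢
        have h5 := hre _ (hsub h3)
        simp [h5]
    have h2 : Tendsto (fun n => (Φ n (t : ℂ)).im) atTop (𝓝 (ϖ (t : ℂ)).im) :=
      (Complex.continuous_im.tendsto _).comp (hϖ _ ht0)
    have h3 : (fun n => (Φ n (t : ℂ)).im) = fun _ => 0 := by
      funext n
      exact h1 n n le_rfl
    rw [h3] at h2
    exact (tendsto_nhds_unique h2 tendsto_const_nhds)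
  refine ⟨1, ϖ, le_rfl, hϖd.mono ?_, ?_, ?_, ?_⟩
  · intro t ht
    have h : t.re < -1 := ht
    show t.re < 0
    linarith
  · intro t ht
    exact ⟨hsub (hϖmem t (by linarith)), hfe t ht⟩
  · intro t t' ht1 ht2 ht1' ht2'
    have key : ∀ x ∈ {t : ℂ | t.re < -1 ∧ |t.im| < -t.re / 2},
        DifferentiableAt ℂ (fun u : ℂ => ϖ u - a 0 - u) x ∧
        ‖deriv (fun u : ℂ => ϖ u - a 0 - u) x‖ ≤ 1 / 2 := by
      intro x hx
      obtain ⟨hx1, hx2⟩ := hx
      have hdd : DifferentiableOn ℂ (fun u : ℂ => ϖ u - a 0 - u) {t : ℂ | t.re < 0} :=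
        (hϖd.sub_const _).sub differentiableOn_id
      have hx0 : x.re < 0 := by linarith
      refine ⟨hdd.differentiableAt (hopH.mem_nhds hx0), ?_⟩
      have hxn : -x.re ≤ ‖x‖ := by
        have h1 := Complex.abs_re_le_norm x
        rwa [abs_of_neg hx0] at h1
      have hxn' : ‖x‖ ≤ -x.re + |x.im| := by
        have h1 := Complex.norm_le_abs_re_add_abs_im x
        rwa [abs_of_neg hx0] at h1
      have hR : 0 < ‖x‖ / 2 := by linarith
      have hcb : Metric.closedBall x (‖x‖ / 2) ⊆ {t : ℂ | t.re < 0} := by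
        intro u hu
        rw [mem_closedBall_iff_norm] at hu
        have h1 := Complex.abs_re_le_norm (u - x)
        rw [Complex.sub_re] at h1
        have h2 := le_abs_self (u.re - x.re)
        show u.re < 0
        linarith
      have hcl : DiffContOnCl ℂ (fun u : ℂ => ϖ u - a 0 - u) (Metric.ball x (‖x‖ / 2)) := by
        refine DifferentiableOn.diffContOnCl ?_
        rw [closure_ball _ hR.ne']
        exact hdd.mono hcb
      have hbd : ∀ u ∈ Metric.sphere x (‖x‖ / 2), ‖ϖ u - a 0 - u‖ ≤ 3 / 64 * ‖x‖ := by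
        intro u hu
        have hu1 : u.re < 0 := hcb (Metric.sphere_subset_closedBall hu)
        rw [mem_sphere_iff_norm] at hu
        refine le_trans (hϖ32 u hu1.le) ?_
        have h3 := norm_add_le (u - x) x
        rw [sub_add_cancel] at h3
        linarith
      refine le_trans (Complex.norm_deriv_le_of_forall_mem_sphere_norm_le hR hcl hbd) ?_
      rw [div_le_iff₀ hR]
      linarith
    have h := Convex.norm_image_sub_le_of_norm_deriv_le (𝕜 := ℂ)
      (f := fun u : ℂ => ϖ u - a 0 - u) (C := 1 / 2)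
      (s := {t : ℂ | t.re < -1 ∧ |t.im| < -t.re / 2}) (x := t') (y := t)
      (fun x hx => (key x hx).1) (fun x hx => (key x hx).2) fa_convex
      ⟨ht1', ht2'⟩ ⟨ht1, ht2⟩
    have e1 : (fun u : ℂ => ϖ u - a 0 - u) t - (fun u : ℂ => ϖ u - a 0 - u) t' =
        ϖ t - ϖ t' - (t - t') := by
      simp only; ring
    rw [e1] at h
    exact h
  · intro w _ hw2
    have hg : ∀ s : ℝ, s ≤ 0 → |(ϖ (s : ℂ)).re - a 0 - s| ≤ 1 / 32 * -s := by
      intro s hs'
      have h1 := hϖ32 s (by simpa using hs')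
      rw [Complex.norm_real, Real.norm_eq_abs, abs_of_nonpos hs'] at h1
      have h2 := Complex.abs_re_le_norm (ϖ (s : ℂ) - a 0 - s)
      have h3 : (ϖ (s : ℂ) - a 0 - s).re = (ϖ (s : ℂ)).re - a 0 - s := by simp
      rw [h3] at h2
      exact le_trans h2 h1
    have hgc : ContinuousOn (fun s : ℝ => (ϖ (s : ℂ)).re) (Set.Iio 0) := by
      refine Complex.continuous_re.comp_continuousOn ?_
      refine hϖd.continuousOn.comp Complex.continuous_ofReal.continuousOn ?_
      intro s hs'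
      have h1 : s < 0 := hs'
      show ((s : ℂ)).re < 0
      simpa using h1
    obtain ⟨N, hN⟩ := (hw2.eventually_lt_atBot (ϖ ((-2 : ℝ) : ℂ)).re).exists
    have h1 := hg (-2) (by norm_num)
    rw [abs_le] at h1
    have ha00 : a 0 ≤ -1 := by rw [ha0]; linarith
    have hwN : w N < -1 := by linarith
    have h2 := hg (2 * w N) (by linarith)
    rw [abs_le] at h2
    have hsubI : Set.Icc (2 * w N) (-2) ⊆ Set.Iio (0 : ℝ) := by
      intro s hs'
      have h3 : s ≤ -2 := hs'.2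
      show s < 0
      linarith
    have hivt := intermediate_value_Icc (by linarith : 2 * w N ≤ -2) (hgc.mono hsubI)
    have hmm : w N ∈ Set.Icc ((ϖ ((2 * w N : ℝ) : ℂ)).re) ((ϖ ((-2 : ℝ) : ℂ)).re) :=
      ⟨by linarith, hN.le⟩
    obtain ⟨s, hs3, hs4⟩ := hivt hmm
    have hs5 : s ≤ -2 := hs3.2
    refine ⟨s + N, N, by linarith, ?_⟩
    rw [add_sub_cancel_right]
    apply Complex.ext
    · simpa using hs4
    · rw [hreal s (by linarith)]; simp

end Pool.Agent.MP_2f2443_an.RC
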