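import Pool.Agent.Lib.MP_2f2443_an.RC.StmG

set_option autoImplicit false

namespace Pool.Agent.MP_2f2443_an.RC

open Filter Topology Pool.Agent.MP_2f2443_an.IP

/-! ### the reversor -/

private noncomputable def fnJ (k : ℂ) (P : ℂ × ℂ) : ℂ × ℂ := (-P.1, P.2 - VC k P.1)

private theorem fn_VC_neg (k z : ℂ) : VC k (-z) = -VC k z := by
  unfold VC
  rw [mul_neg, Complex.sin_neg]
  ring

private theorem fn_VC_int (k z : ℂ) (n : ℤ) : VC k (z + n) = VC k z := by
  unfold VC
  rw [show 2 * (Real.pi : ℂ) * (z + n) = 2 * Real.pi * z + n * (2 * Real.pi) by ring,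
    Complex.sin_add_int_mul_two_pi]

private theorem fn_JJ (k : ℂ) (P : ℂ × ℂ) : fnJ k (fnJ k P) = P := by
  unfold fnJ
  ext
  · simp
  · simp only [fn_VC_neg]
    ring

private theorem fn_SJS (k : ℂ) (P : ℂ × ℂ) : SMC k (fnJ k (SMC k P)) = fnJ k P := by
  unfold fnJ SMC
  ext
  · simp only
    ring
  · simp only
    rw [show -(P.1 + P.2) + (P.2 + VC k (P.1 + P.2) - VC k (P.1 + P.2)) = -P.1 by ring, fn_VC_neg]
    ring

private theorem fn_SJS_iter (k : ℂ) (n : ℕ) (P : ℂ × ℂ) :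
    (SMC k)^[n] (fnJ k ((SMC k)^[n] P)) = fnJ k P := by
  induction n generalizing P with
  | zero => rfl
  | succ n ih =>
    rw [Function.iterate_succ_apply' (SMC k) n P, Function.iterate_succ_apply, fn_SJS, ih]

private theorem fn_S_int (k : ℂ) (n : ℤ) (P : ℂ × ℂ) :
    SMC k (P.1 + n, P.2) = ((SMC k P).1 + n, (SMC k P).2) := by
  unfold SMC
  ext
  · simp only
    ring
  · simp only
    rw [show P.1 + (n : ℂ) + P.2 = P.1 + P.2 + n by ring, fn_VC_int]

private theorem fn_S_int_iter (k : ℂ) (n : ℤ) (q : ℕ) (P : ℂ × ℂ) :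
    (SMC k)^[q] (P.1 + n, P.2) = (((SMC k)^[q] P).1 + n, ((SMC k)^[q] P).2) := by
  induction q generalizing P with
  | zero => rfl
  | succ q ih =>
    rw [Function.iterate_succ_apply, Function.iterate_succ_apply, fn_S_int, ih]

private theorem fn_J_sub (k : ℂ) (n : ℤ) (P : ℂ × ℂ) :
    fnJ k (P.1 - n, P.2) = ((fnJ k P).1 + n, (fnJ k P).2) := by
  unfold fnJ
  ext
  · simp only
    ring
  · simp only
    have h := fn_VC_int k (P.1 - n) n
    rw [sub_add_cancel] at h
    rw [h]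

private theorem fn_GJG (k : ℝ) (q : ℕ) (p : ℤ) (P : ℂ × ℂ) :
    GC k q p (fnJ (k : ℂ) (GC k q p P)) = fnJ (k : ℂ) P := by
  have h1 : fnJ (k : ℂ) (GC k q p P) = ((fnJ (k : ℂ) ((SMC (k : ℂ))^[q] P)).1 + p,
      (fnJ (k : ℂ) ((SMC (k : ℂ))^[q] P)).2) := fn_J_sub (k : ℂ) p ((SMC (k : ℂ))^[q] P)
  rw [h1]
  unfold GC
  rw [fn_S_int_iter, fn_SJS_iter]
  ext
  · simp
  · simp

private theorem fn_VC_diff (k : ℂ) : Differentiable ℂ (VC k) := by
  unfold VC
  fun_prop

private theorem fn_J_diff (k : ℂ) : Differentiable ℂ (fnJ k) := by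
  unfold fnJ
  have h := (fn_VC_diff k).comp (differentiable_fst (𝕜 := ℂ) (E := ℂ) (F := ℂ))
  exact (differentiable_fst.neg).prodMk (differentiable_snd.sub h)

private theorem fn_S_diff (k : ℂ) : Differentiable ℂ (SMC k) := by
  unfold SMC
  have h0 : Differentiable ℂ (fun P : ℂ × ℂ => P.1 + P.2) := differentiable_fst.add differentiable_snd
  have h := (fn_VC_diff k).comp h0
  exact h0.prodMk (differentiable_snd.add h)

private theorem fn_G_diff (k : ℝ) (q : ℕ) (p : ℤ) : Differentiable ℂ (GC k q p) := by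
  have h : Differentiable ℂ ((SMC (k : ℂ))^[q]) := (fn_S_diff (k : ℂ)).iterate q
  unfold GC
  exact (h.fst.sub_const _).prodMk h.snd

/-! ### the real dynamics -/

private theorem fn_VR (k x : ℝ) : ((VR k x : ℝ) : ℂ) = VC (k : ℂ) (x : ℂ) := by
  unfold VR VC
  push_cast
  rfl

private theorem fn_SR (k : ℝ) (P : ℝ × ℝ) :
    SMC (k : ℂ) ((P.1 : ℂ), (P.2 : ℂ)) = (((SMR k P).1 : ℂ), ((SMR k P).2 : ℂ)) := by
  unfold SMC SMR
  ext
  · simp
  · simp only
    push_cast
    rw [fn_VR]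
    push_cast
    rfl

private theorem fn_SR_iter (k : ℝ) (n : ℕ) (P : ℝ × ℝ) :
    (SMC (k : ℂ))^[n] ((P.1 : ℂ), (P.2 : ℂ)) =
      ((((SMR k)^[n] P).1 : ℂ), (((SMR k)^[n] P).2 : ℂ)) := by
  induction n generalizing P with
  | zero => rfl
  | succ n ih =>
    rw [Function.iterate_succ_apply, Function.iterate_succ_apply, fn_SR, ih]

private theorem fn_deg_int (h : ℝ → ℝ) (hd : ∀ x, h (x + 1) = h x + 1) (n : ℤ) (x : ℝ) :
    h (x + n) = h x + n := by
  have hnat : ∀ (m : ℕ) (x : ℝ), h (x + m) = h x + m := by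
    intro m
    induction m with
    | zero => intro x; simp
    | succ m ih =>
      intro x
      push_cast
      rw [← add_assoc, hd, ih]
      ring
  rcases Int.le_total 0 n with hn | hn
  · obtain ⟨m, rfl⟩ := Int.eq_ofNat_of_zero_le hn
    simpa using hnat m x
  · obtain ⟨m, hm⟩ := Int.eq_ofNat_of_zero_le (show 0 ≤ -n by omega)
    have h1 : n = -(m : ℤ) := by omega
    subst h1
    have h2 := hnat m (x + ((-(m : ℤ) : ℤ) : ℝ))
    push_cast at h2 ⊢
    rw [show x + -(m : ℝ) + m = x by ring] at h2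
    linarith

private theorem fn_deg_iter (h : ℝ → ℝ) (hd : ∀ x, h (x + 1) = h x + 1) (q : ℕ) (n : ℤ) (x : ℝ) :
    h^[q] (x + n) = h^[q] x + n := by
  induction q generalizing x with
  | zero => rfl
  | succ q ih =>
    rw [Function.iterate_succ_apply, Function.iterate_succ_apply, fn_deg_int h hd, ih]

private noncomputable def fnz (h : ℝ → ℝ) (x : ℝ) : ℂ × ℂ := ((x : ℂ), ((h x - x : ℝ) : ℂ))

private theorem fn_Gz (hor : S_or) (k : ℝ) (q : ℕ) (p : ℤ) (h : ℝ → ℝ) (hh : Circ k h) (x : ℝ) :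
    GC k q p (fnz h x) = fnz h (h^[q] x - p) := by
  unfold GC fnz
  have h1 := fn_SR_iter k q (x, h x - x)
  rw [hor.1 k h hh q x] at h1
  simp only at h1
  rw [h1]
  have h2 : h (h^[q] x - p) = h^[q + 1] x - p := by
    have h3 := fn_deg_int h hh.deg p (h^[q] x - p)
    rw [sub_add_cancel] at h3
    rw [Function.iterate_succ_apply']
    linarith
  rw [h2]
  ext
  · simp
  · simp

private theorem fn_all (hor : S_or) (k : ℝ) (q : ℕ) (p : ℤ) (h : ℝ → ℝ) (hh : Circ k h)
    (a b : ℝ) (ha : h^[q] a = a + p) (hg : ∀ x, a < x → x < b → x + p < h^[q] x)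
    (φ : ℂ → ℂ × ℂ) (hφ : ∀ t, GC k q p (φ t) ∈ Set.range φ) (d' : ℝ) (hd' : 0 < d')
    (hr : ∀ x : ℝ, a < x → x < a + d' → fnz h x ∈ Set.range φ) :
    ∀ x, a < x → x < b → fnz h x ∈ Set.range φ := by
  by_contra hcon
  push Not at hcon
  obtain ⟨x₀, hx₀a, hx₀b, hx₀⟩ := hcon
  set S : Set ℝ := {x | a < x ∧ x < b ∧ fnz h x ∉ Set.range φ} with hS
  have hSne : S.Nonempty := ⟨x₀, hx₀a, hx₀b, hx₀⟩
  have hlow : ∀ x ∈ S, a + d' ≤ x := by
    rintro x ⟨h1, h2, h3⟩
    by_contra hc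
    push Not at hc
    exact h3 (hr x h1 hc)
  have hbdd : BddBelow S := ⟨a + d', hlow⟩
  set s := sInf S with hs
  have hs1 : a + d' ≤ s := le_csInf hSne hlow
  have hs2 : s ≤ x₀ := csInf_le hbdd ⟨hx₀a, hx₀b, hx₀⟩
  have hgs := hg s (by linarith) (by linarith)
  obtain ⟨x, hxS, hxlt⟩ := exists_lt_of_csInf_lt hSne (show s < h^[q] s - p by linarith)
  have hcont : Continuous (fun x => h^[q] x - (p : ℝ)) := (hh.cont.iterate q).sub continuous_const
  have hivt := intermediate_value_Ioo (show a ≤ s by linarith)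
    (hcont.continuousOn (s := Set.Icc a s))
  obtain ⟨x', ⟨hx'a, hx's⟩, hx'⟩ := hivt (show x ∈ Set.Ioo (h^[q] a - (p : ℝ)) (h^[q] s - p) from
    ⟨by rw [ha]; linarith [hxS.1], hxlt⟩)
  simp only at hx'
  have hx'r : fnz h x' ∈ Set.range φ := by
    by_contra hc
    have h1 : s ≤ x' := csInf_le hbdd ⟨hx'a, by linarith, hc⟩
    linarith
  obtain ⟨t, ht⟩ := hx'r
  apply hxS.2.2
  have h1 := hφ t
  rw [ht, fn_Gz hor k q p h hh, hx'] at h1
  exact h1

/-! ### curves -/

private theorem fn_EII (k : ℂ) (φ : ℂ → ℂ × ℂ) (h : EII φ) : EII (fun t => fnJ k (φ t)) := by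
  have hd : Differentiable ℂ (fun t => fnJ k (φ t)) := (fn_J_diff k).comp h.1
  refine ⟨hd, fun s t hst => ?_, fun t ht => ?_⟩
  · have h1 : fnJ k (fnJ k (φ s)) = fnJ k (fnJ k (φ t)) := congrArg (fnJ k) hst
    rw [fn_JJ, fn_JJ] at h1
    exact h.2.1 h1
  · apply h.2.2 t
    have h2 : HasDerivAt (fun t => fnJ k (φ t)) 0 t := by
      rw [← ht]
      exact (hd t).hasDerivAt
    have h3 := ((fn_J_diff k) (fnJ k (φ t))).hasFDerivAt.comp_hasDerivAt t h2
    rw [map_zero] at h3
    have h4 : (fnJ k ∘ fun t => fnJ k (φ t)) = φ := by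
      funext s
      exact fn_JJ k (φ s)
    rw [h4] at h3
    exact h3.deriv

private theorem fn_acc (W : Set (ℂ × ℂ)) (hW : ¬ W.Countable) : ∃ w, AccPt w (𝓟 W) := by
  by_contra hcon
  push Not at hcon
  apply hW
  have h1 : W = ⋃ n : ℕ, W ∩ Metric.closedBall 0 n := by
    ext w
    simp only [Set.mem_iUnion, Set.mem_inter_iff, Metric.mem_closedBall, dist_zero_right]
    constructor
    · intro hw
      obtain ⟨n, hn⟩ := exists_nat_ge ‖w‖
      exact ⟨n, hw, hn⟩
    · rintro ⟨n, hw, -⟩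
      exact hw
  rw [h1]
  apply Set.countable_iUnion
  intro n
  by_contra hc
  have hinf : (W ∩ Metric.closedBall 0 (n : ℝ)).Infinite := fun hf => hc hf.countable
  obtain ⟨x, -, hx⟩ := hinf.exists_accPt_of_subset_isCompact
    (isCompact_closedBall 0 (n : ℝ)) Set.inter_subset_right
  exact hcon x (hx.mono (Filter.principal_mono.2 Set.inter_subset_left))

private theorem fn_bd (F : ℂ × ℂ → ℂ × ℂ) (hF : Continuous F) (M : ℝ) :
    ∃ C, ∀ z, ‖z‖ ≤ M → ‖F z‖ ≤ C := by
  obtain ⟨C, hC⟩ := (isCompact_closedBall (0 : ℂ × ℂ) M).exists_bound_of_continuousOn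
    hF.continuousOn
  exact ⟨C, fun z hz => hC z (by simpa using hz)⟩

private theorem fn_range (G : ℂ × ℂ → ℂ × ℂ) (φ : ℂ → ℂ × ℂ) (h : UPar G φ) (t : ℂ) :
    G (φ t) ∈ Set.range φ := by
  rcases h.2 with ⟨l, -, hl⟩ | ⟨hl, -⟩
  · exact ⟨_, hl t⟩
  · exact ⟨_, hl t⟩

private theorem fn_final (G : ℂ × ℂ → ℂ × ℂ) (hG : Continuous G) (φ ψ : ℂ → ℂ × ℂ)
    (hφ : UPar G φ) (hψ : EII ψ)
    (hψ2 : (∃ l : ℝ, 1 < l ∧ ∀ t, G (ψ (l * t)) = ψ t) ∨
      ((∀ t, G (ψ (t + 1)) = ψ t) ∧ ∃ M : ℝ, ∀ t : ℂ, t.re ≤ 0 → ‖ψ t‖ ≤ M))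
    (α β : ℂ) (hα : α ≠ 0) (hab : ∀ t, φ t = ψ (α * t + β)) : False := by
  obtain ⟨hφ1, hφ2⟩ := hφ
  have hinj := hψ.2.1
  rcases hφ2 with ⟨l, hl1, hl⟩ | ⟨hl, M, hM⟩
  · rcases hψ2 with ⟨l', hl'1, hl'⟩ | ⟨hl', -⟩
    · have hl'0 : (l' : ℂ) ≠ 0 := by
        have : l' ≠ 0 := by linarith
        exact_mod_cast this
      have key : ∀ t : ℂ, α * (l * t) + β = (α * t + β) / l' := by
        intro t
        apply hinj
        rw [← hab, hl, hab, ← hl' ((α * t + β) / l'), mul_div_cancel₀ _ hl'0]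
      have h0 := key 0
      have h1 := key 1
      have h2 : α * l = α / l' := by
        have e1 : α * l = (α * (l * 1) + β) - (α * (l * 0) + β) := by ring
        rw [e1, h1, h0]
        ring
      have h3 : (l : ℂ) * l' = 1 := by
        rw [eq_div_iff hl'0, mul_assoc] at h2
        exact mul_left_cancel₀ hα (by rw [h2, mul_one])
      have h4 : l * l' = 1 := by exact_mod_cast h3
      nlinarith
    · have key : ∀ t : ℂ, α * (l * t) + β = α * t + β - 1 := by
        intro t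
        apply hinj
        rw [← hab, hl, hab, ← hl' (α * t + β - 1), sub_add_cancel]
      have h0 := key 0
      have h1 : (1 : ℂ) = 0 := by linear_combination h0
      exact one_ne_zero h1
  · rcases hψ2 with ⟨l', hl'1, hl'⟩ | ⟨hl', M', hM'⟩
    · have hl'0 : (l' : ℂ) ≠ 0 := by
        have : l' ≠ 0 := by linarith
        exact_mod_cast this
      have key : ∀ t : ℂ, α * (t + 1) + β = (α * t + β) / l' := by
        intro t
        apply hinj
        rw [← hab, hl, hab, ← hl' ((α * t + β) / l'), mul_div_cancel₀ _ hl'0]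
      have h0 := key 0
      have h1 := key 1
      have h2 : α * 1 = α / l' := by
        have e1 : α * 1 = (α * (1 + 1) + β) - (α * (0 + 1) + β) := by ring
        rw [e1, h1, h0]
        ring
      have h3 : (l' : ℂ) = 1 := by
        rw [eq_div_iff hl'0, mul_assoc] at h2
        have h5 := mul_left_cancel₀ hα (show α * (1 * (l' : ℂ)) = α * 1 by rw [h2, mul_one])
        rwa [one_mul] at h5
      have h4 : l' = 1 := by exact_mod_cast h3
      linarith
    · have key : ∀ t : ℂ, α * (t + 1) + β = α * t + β - 1 := by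
        intro t
        apply hinj
        rw [← hab, hl, hab, ← hl' (α * t + β - 1), sub_add_cancel]
      have hα1 : α = -1 := by linear_combination key 0
      obtain ⟨N, hN⟩ := exists_nat_ge β.re
      have hiter : ∀ (n : ℕ) (t : ℂ), φ (t + n) = G^[n] (φ t) := by
        intro n
        induction n with
        | zero => intro t; simp
        | succ n ih =>
          intro t
          rw [Function.iterate_succ_apply', ← ih, ← hl]
          push_cast
          rw [add_assoc]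
      obtain ⟨C, hC⟩ := fn_bd (G^[N]) (hG.iterate N) M
      have hbound : ∀ t, ‖φ t‖ ≤ max C M' := by
        intro t
        rcases le_total t.re N with ht | ht
        · refine le_trans ?_ (le_max_left _ _)
          have h1 := hiter N (t - N)
          rw [sub_add_cancel] at h1
          rw [h1]
          apply hC
          apply hM
          simp only [Complex.sub_re, Complex.natCast_re]
          linarith
        · refine le_trans ?_ (le_max_right _ _)
          rw [hab]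
          apply hM'
          rw [hα1]
          simp only [neg_mul, one_mul, Complex.add_re, Complex.neg_re]
          linarith
      have hb : Bornology.IsBounded (Set.range φ) := by
        rw [isBounded_iff_forall_norm_le]
        exact ⟨max C M', by rintro _ ⟨t, rfl⟩; exact hbound t⟩
      have h01 := hφ1.1.apply_eq_apply_of_bounded hb 0 1
      exact zero_ne_one (hφ1.2.1 h01)

theorem p_fn : S_fn := by
  intro hU hg4 hrv hor k hk q hq p h a b hh hab ha hb hg
  obtain ⟨φ, hφU, d1, hd1, hr1⟩ := hU k hk q hq p h a (b - a) hh (by linarith) ha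
    (fun x h1 h2 => hg x h1 (by linarith))
  obtain ⟨h', hh', hinv, hlast⟩ := hrv k h hh
  have hend : ∀ c : ℝ, h^[q] c = c + p → h'^[q] (-c) = -c + p := by
    intro c hc
    have h1 := hinv q c
    rw [hc] at h1
    have h2 := fn_deg_iter h' hh'.deg q p (-(c + p))
    rw [show -(c + (p : ℝ)) + p = -c by ring, h1] at h2
    exact h2
  have hgb : ∀ x, -b < x → x < -a → x + p < h'^[q] x := by
    intro x h1 h2
    have hcont : Continuous (fun x => h^[q] x - (p : ℝ)) :=
      (hh.cont.iterate q).sub continuous_const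
    obtain ⟨z, ⟨hza, hzb⟩, hz⟩ := intermediate_value_Ioo hab.le
      (hcont.continuousOn (s := Set.Icc a b))
      (show -x ∈ Set.Ioo (h^[q] a - (p : ℝ)) (h^[q] b - p) from
        ⟨by rw [ha]; linarith, by rw [hb]; linarith⟩)
    simp only at hz
    have h3 := hinv q z
    have h4 := fn_deg_iter h' hh'.deg q p (-h^[q] z)
    rw [show -h^[q] z + (p : ℝ) = x by linarith, h3] at h4
    have h5 := hg z hza hzb
    rw [h4]
    linarith
  obtain ⟨φ', hφ'U, d2, hd2, hr2⟩ := hU k hk q hq p h' (-b) (b - a) hh' (by linarith)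
    (hend b hb) (fun x h1 h2 => hgb x h1 (by linarith))
  have hall1 := fn_all hor k q p h hh a b ha hg φ (fn_range _ φ hφU) d1 hd1 hr1
  have hall2 := fn_all hor k q p h' hh' (-b) (-a) (hend b hb) hgb φ' (fn_range _ φ' hφ'U) d2 hd2 hr2
  set ψ : ℂ → ℂ × ℂ := fun t => fnJ (k : ℂ) (φ' t) with hψ
  have hψE : EII ψ := fn_EII (k : ℂ) φ' hφ'U.1
  have hall3 : ∀ x, a < x → x < b → fnz h x ∈ Set.range ψ := by
    intro x h1 h2
    obtain ⟨t, ht⟩ := hall2 (-x) (by linarith) (by linarith)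
    refine ⟨t, ?_⟩
    rw [hψ]
    simp only
    rw [ht]
    unfold fnJ fnz
    have h3 := hlast x
    rw [h3]
    ext
    · simp
    · simp only
      rw [Complex.ofReal_neg, fn_VC_neg]
      push_cast
      rw [fn_VR]
      ring
  have hW : ¬ ({w : ℂ × ℂ | φ w.1 = ψ w.2}).Countable := by
    intro hc
    choose! t ht using hall1
    choose! s hs using hall3
    have hmaps : Set.MapsTo (fun x : ℝ => (t x, s x)) (Set.Ioo a b) {w : ℂ × ℂ | φ w.1 = ψ w.2} := by
      rintro x ⟨h1, h2⟩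
      simp only [Set.mem_ofPred_eq]
      rw [ht x h1 h2, hs x h1 h2]
    have hinj : Set.InjOn (fun x : ℝ => (t x, s x)) (Set.Ioo a b) := by
      rintro x ⟨h1, h2⟩ y ⟨h3, h4⟩ hxy
      simp only [Prod.mk.injEq] at hxy
      have h5 := ht x h1 h2
      rw [hxy.1, ht y h3 h4] at h5
      unfold fnz at h5
      have h6 := congrArg Prod.fst h5
      simp only [Complex.ofReal_inj] at h6
      exact h6.symm
    have h1 := hmaps.countable_of_injOn hinj hc
    exact (Cardinal.Real.Ioo_countable_iff.1 h1).not_gt hab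
  obtain ⟨α, β, hα, hαβ⟩ := hg4 φ ψ hφU.1 hψE (fn_acc _ hW)
  refine fn_final (GC k q p) (fn_G_diff k q p).continuous φ ψ hφU hψE ?_ α β hα hαβ
  rcases hφ'U.2 with ⟨l, hl1, hl⟩ | ⟨hl, M, hM⟩
  · left
    refine ⟨l, hl1, fun t => ?_⟩
    rw [hψ]
    simp only
    rw [hl, fn_GJG]
  · right
    refine ⟨fun t => ?_, ?_⟩
    · rw [hψ]
      simp only
      rw [hl, fn_GJG]
    · obtain ⟨C, hC⟩ := fn_bd (fnJ (k : ℂ)) (fn_J_diff (k : ℂ)).continuous M
      exact ⟨C, fun t ht => hC _ (hM t ht)⟩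

end Pool.Agent.MP_2f2443_an.RC
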