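import Pool.Agent.Lib.MP_2f2443_an.RC.StmG

/-!
# MP_2f2443_an, project RC, piece g2: injective holomorphic functions tending to infinity at the frontier
-/

set_option autoImplicit false

namespace Pool.Agent.MP_2f2443_an.RC

open Filter Topology Metric

private theorem g2_point (Ω : Set ℂ) (τ : ℂ → ℂ) (hΩ : IsOpen Ω) (hne : Ω.Nonempty)
    (hinj : Set.InjOn τ Ω) (hd : DifferentiableOn ℂ τ Ω) : ∃ t₁ ∈ Ω, deriv τ t₁ ≠ 0 := by
  by_contra hcon
  push Not at hcon
  obtain ⟨t₀, ht₀⟩ := hne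
  obtain ⟨r, hr, hball⟩ := Metric.isOpen_iff.mp hΩ t₀ ht₀
  obtain ⟨a, ha⟩ := isOpen_ball.exists_is_const_of_deriv_eq_zero
    (convex_ball t₀ r).isPreconnected (hd.mono hball) (fun t ht => hcon t (hball ht))
  have h1 : t₀ ∈ ball t₀ r := mem_ball_self hr
  have h2 : t₀ + (r / 2 : ℝ) ∈ ball t₀ r := by
    rw [mem_ball, dist_self_add_left, Complex.norm_real, Real.norm_eq_abs, abs_of_pos (by positivity)]
    linarith
  have h3 := hinj (hball h1) (hball h2) ((ha _ h1).trans (ha _ h2).symm)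
  have h4 : ((r / 2 : ℝ) : ℂ) = 0 := by
    have := congrArg (fun z => z - t₀) h3
    simp only [sub_self, add_sub_cancel_left] at this
    exact this.symm
  rw [Complex.ofReal_eq_zero] at h4
  linarith

open Classical in
private theorem g2_chi (hra : S_ra) (Ω : Set ℂ) (τ : ℂ → ℂ) (hΩ : IsOpen Ω)
    (hd : DifferentiableOn ℂ τ Ω) (hinj : Set.InjOn τ Ω)
    (hfr : ∀ t₀ ∈ frontier Ω, Tendsto (fun t => ‖τ t‖) (𝓝[Ω] t₀) atTop)
    (t₁ : ℂ) (ht₁ : t₁ ∈ Ω) (hder : deriv τ t₁ ≠ 0) :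
    ∃ χ : ℂ → ℂ, Differentiable ℂ χ ∧ (∀ t, χ t ≠ 0 ↔ t ∈ Ω) ∧
      (∀ t ∈ Ω, χ t * (τ t - τ t₁) = t - t₁) := by
  set g : ℂ → ℂ := dslope τ t₁ with hg
  have hgd : DifferentiableOn ℂ g Ω := (Complex.differentiableOn_dslope (hΩ.mem_nhds ht₁)).mpr hd
  have hgne : ∀ t ∈ Ω, t ≠ t₁ → g t = (τ t - τ t₁) / (t - t₁) := by
    intro t _ h
    rw [hg, dslope_of_ne _ h, slope_def_field]
  have hg1 : g t₁ = deriv τ t₁ := dslope_same _ _
  have hg0 : ∀ t ∈ Ω, g t ≠ 0 := by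
    intro t ht
    by_cases h : t = t₁
    · rw [h, hg1]; exact hder
    · rw [hgne t ht h]
      refine div_ne_zero ?_ (sub_ne_zero.mpr h)
      rw [sub_ne_zero]
      exact fun e => h (hinj ht ht₁ e)
  set χ : ℂ → ℂ := fun t => if t ∈ Ω then (g t)⁻¹ else 0 with hχ
  have c1 : ∀ t ∈ Ω, χ t = (g t)⁻¹ := by
    intro t ht
    simp only [hχ, ht, if_true]
  have c0 : ∀ t, t ∉ Ω → χ t = 0 := by
    intro t ht
    simp only [hχ, ht, if_false]
  have hiff : ∀ t, χ t ≠ 0 ↔ t ∈ Ω := by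
    intro t
    constructor
    · intro h
      by_contra h'
      exact h (c0 t h')
    · intro h
      rw [c1 t h]
      exact inv_ne_zero (hg0 t h)
  have hset : {z | χ z ≠ 0} = Ω := by
    ext t
    exact hiff t
  have hdχ : DifferentiableOn ℂ χ Ω := (hgd.inv hg0).congr c1
  have hcont : Continuous χ := by
    rw [continuous_iff_continuousAt]
    intro t₀
    by_cases h0 : t₀ ∈ Ω
    · exact (hdχ.differentiableAt (hΩ.mem_nhds h0)).continuousAt
    · by_cases h1 : t₀ ∈ frontier Ω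
      · unfold ContinuousAt
        rw [c0 t₀ h0]
        have e1 : Tendsto χ (𝓝[Ω] t₀) (𝓝 0) := by
          have e2 : Tendsto (fun t => ‖τ t - τ t₁‖) (𝓝[Ω] t₀) atTop := by
            refine tendsto_atTop_mono (f := fun t => ‖τ t‖ - ‖τ t₁‖) (fun t => norm_sub_norm_le _ _) ?_
            exact tendsto_atTop_add_const_right _ _ (hfr t₀ h1)
          have e3 : Tendsto (fun t => (τ t - τ t₁)⁻¹) (𝓝[Ω] t₀) (𝓝 0) :=
            tendsto_inv₀_cobounded.comp (tendsto_norm_atTop_iff_cobounded.mp e2)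
          have e4 : Tendsto (fun t => (t - t₁) * (τ t - τ t₁)⁻¹) (𝓝[Ω] t₀) (𝓝 ((t₀ - t₁) * 0)) := by
            refine Tendsto.mul ?_ e3
            exact ((continuous_id.sub continuous_const).tendsto t₀).mono_left nhdsWithin_le_nhds
          rw [mul_zero] at e4
          refine e4.congr' ?_
          have hne' : ∀ᶠ t in 𝓝[Ω] t₀, t ≠ t₁ := by
            have : t₀ ≠ t₁ := fun e => h0 (e ▸ ht₁)
            exact (isOpen_ne.mem_nhds this : {t | t ≠ t₁} ∈ 𝓝 t₀) |> mem_nhdsWithin_of_mem_nhds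
          filter_upwards [hne', self_mem_nhdsWithin] with t h2 h3
          rw [c1 t h3, hgne t h3 h2, inv_div, div_eq_mul_inv]
        have e5 : Tendsto χ (𝓝[Ωᶜ] t₀) (𝓝 0) := by
          refine (tendsto_const_nhds (x := (0 : ℂ))).congr' ?_
          filter_upwards [self_mem_nhdsWithin] with t h3
          exact (c0 t h3).symm
        have := e1.sup e5
        rwa [← nhdsWithin_union, Set.union_compl_self, nhdsWithin_univ] at this
      · have h2 : t₀ ∉ closure Ω := by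
          intro h
          exact h1 ⟨h, fun h3 => h0 (interior_subset h3)⟩
        have h3 : χ =ᶠ[𝓝 t₀] fun _ => 0 := by
          filter_upwards [isClosed_closure.isOpen_compl.mem_nhds h2] with t h4
          exact c0 t (fun h5 => h4 (subset_closure h5))
        exact continuousAt_const.congr h3.symm
  refine ⟨χ, hra χ hcont (by rw [hset]; exact hdχ), hiff, ?_⟩
  intro t ht
  by_cases h : t = t₁
  · rw [h, sub_self, sub_self, mul_zero]
  · have h1 : τ t - τ t₁ ≠ 0 := by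
      rw [sub_ne_zero]
      exact fun e => h (hinj ht ht₁ e)
    rw [c1 t ht, hgne t ht h, inv_div, div_mul_cancel₀ _ h1]

private theorem g2_affine (χ : ℂ → ℂ) (hχ : Differentiable ℂ χ) (t₁ : ℂ) (r ε : ℝ) (hr : 0 < r)
    (hε : 0 < ε) (hb : ∀ t, r ≤ ‖t - t₁‖ → ‖χ t‖ ≤ ‖t - t₁‖ / ε) :
    ∃ A B : ℂ, ∀ t, χ t = A + B * (t - t₁) := by
  set h : ℂ → ℂ := dslope χ t₁ with hh
  have hd : Differentiable ℂ h := by
    rw [← differentiableOn_univ] at hχ ⊢
    exact (Complex.differentiableOn_dslope Filter.univ_mem).mpr hχ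
  obtain ⟨K, hK⟩ := (isCompact_closedBall t₁ r).exists_bound_of_continuousOn hd.continuous.continuousOn
  have hbd : Bornology.IsBounded (Set.range h) := by
    rw [isBounded_iff_forall_norm_le]
    refine ⟨max K (1 / ε + ‖χ t₁‖ / r), ?_⟩
    rintro _ ⟨t, rfl⟩
    by_cases ht : t ∈ closedBall t₁ r
    · exact (hK t ht).trans (le_max_left _ _)
    · rw [mem_closedBall, dist_eq_norm, not_le] at ht
      have hne : t ≠ t₁ := by
        intro e
        rw [e, sub_self, norm_zero] at ht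
        linarith
      have hpos : 0 < ‖t - t₁‖ := hr.trans ht
      refine le_trans ?_ (le_max_right _ _)
      rw [hh, dslope_of_ne _ hne, slope_def_field, norm_div]
      rw [div_le_iff₀ hpos]
      have h1 := hb t ht.le
      have h2 : ‖χ t - χ t₁‖ ≤ ‖χ t‖ + ‖χ t₁‖ := norm_sub_le _ _
      have h3 : ‖χ t₁‖ ≤ ‖χ t₁‖ / r * ‖t - t₁‖ := by
        rw [div_mul_eq_mul_div, le_div_iff₀ hr]
        exact mul_le_mul_of_nonneg_left ht.le (norm_nonneg _)
      calc ‖χ t - χ t₁‖ ≤ ‖t - t₁‖ / ε + ‖χ t₁‖ / r * ‖t - t₁‖ := by linarith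
        _ = (1 / ε + ‖χ t₁‖ / r) * ‖t - t₁‖ := by ring
  refine ⟨χ t₁, h t₁, ?_⟩
  intro t
  by_cases ht : t = t₁
  · rw [ht, sub_self, mul_zero, add_zero]
  · have h1 : h t = h t₁ := hd.apply_eq_apply_of_bounded hbd t t₁
    rw [← h1, hh, dslope_of_ne _ ht, slope_def_field, div_mul_cancel₀ _ (sub_ne_zero.mpr ht)]
    ring

theorem p_g2 : S_ra → S_g2 := by
  intro hra Ω τ hΩ hne hd hinj hfr
  obtain ⟨t₁, ht₁, hder⟩ := g2_point Ω τ hΩ hne hinj hd
  obtain ⟨χ, hχd, hχ0, hχe⟩ := g2_chi hra Ω τ hΩ hd hinj hfr t₁ ht₁ hder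
  obtain ⟨r, hr, hball⟩ := Metric.isOpen_iff.mp hΩ t₁ ht₁
  have hstrict : HasStrictDerivAt τ (deriv τ t₁) t₁ :=
    (hd.analyticAt (hΩ.mem_nhds ht₁)).hasStrictDerivAt
  have hmap : τ '' ball t₁ r ∈ 𝓝 (τ t₁) := by
    rw [← hstrict.map_nhds_eq hder]
    exact image_mem_map (ball_mem_nhds t₁ hr)
  obtain ⟨ε, hε, hεb⟩ := Metric.mem_nhds_iff.mp hmap
  have hb : ∀ t, r ≤ ‖t - t₁‖ → ‖χ t‖ ≤ ‖t - t₁‖ / ε := by
    intro t ht
    by_cases h : t ∈ Ω
    · have h1 : ε ≤ ‖τ t - τ t₁‖ := by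
        by_contra h2
        rw [not_le, ← dist_eq_norm] at h2
        obtain ⟨s, hs, hs'⟩ := hεb (mem_ball.mpr h2)
        have h3 := hinj (hball hs) h hs'
        rw [h3, mem_ball, dist_eq_norm] at hs
        linarith
      have h2 := hχe t h
      rw [le_div_iff₀ hε, ← h2, norm_mul]
      exact mul_le_mul_of_nonneg_left h1 (norm_nonneg _)
    · have : χ t = 0 := by
        by_contra h'
        exact h ((hχ0 t).mp h')
      rw [this, norm_zero]
      positivity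
  obtain ⟨A, B, hAB⟩ := g2_affine χ hχd t₁ r ε hr hε hb
  have hA : A ≠ 0 := by
    have := (hχ0 t₁).mpr ht₁
    rwa [hAB, sub_self, mul_zero, add_zero] at this
  by_cases hB : B = 0
  · left
    have h1 : ∀ t, χ t = A := by
      intro t
      rw [hAB, hB, zero_mul, add_zero]
    have h2 : Ω = Set.univ := by
      ext t
      refine ⟨fun _ => Set.mem_univ _, fun _ => ?_⟩
      rw [← hχ0, h1]
      exact hA
    refine ⟨h2, A⁻¹, τ t₁ - A⁻¹ * t₁, inv_ne_zero hA, ?_⟩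
    intro t
    have h3 := hχe t (h2 ▸ Set.mem_univ t)
    rw [h1] at h3
    have h4 : τ t - τ t₁ = A⁻¹ * (t - t₁) := by
      rw [← h3, ← mul_assoc, inv_mul_cancel₀ hA, one_mul]
    linear_combination h4
  · right
    have hBn : 0 < ‖B‖ := norm_pos_iff.mpr hB
    refine ⟨t₁ - A / B, ‖τ t₁‖ + 2 / ‖B‖, ‖t₁‖ + 2 * ‖A‖ / ‖B‖ + 1, ?_, ?_⟩
    · ext t
      rw [← hχ0, hAB, Set.mem_compl_iff, Set.mem_singleton_iff, not_iff_not]
      constructor
      · intro h
        field_simp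
        linear_combination h
      · intro h
        rw [h]
        field_simp
        ring
    · intro t ht
      have h1 : 2 * ‖A‖ / ‖B‖ + 1 ≤ ‖t - t₁‖ := by
        have := norm_sub_norm_le t t₁
        linarith
      have h1' : 2 * ‖A‖ / ‖B‖ ≤ ‖t - t₁‖ := by linarith
      rw [div_le_iff₀ hBn] at h1'
      have hpos : 0 < ‖t - t₁‖ := by
        have : 0 ≤ 2 * ‖A‖ / ‖B‖ := by positivity
        linarith
      have h2 : ‖B‖ * ‖t - t₁‖ / 2 ≤ ‖χ t‖ := by
        rw [hAB]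
        have h3 : ‖B * (t - t₁)‖ - ‖A‖ ≤ ‖A + B * (t - t₁)‖ := by
          have := norm_sub_norm_le (B * (t - t₁)) (-A)
          rw [norm_neg, sub_neg_eq_add, add_comm (B * (t - t₁))] at this
          exact this
        rw [norm_mul] at h3
        nlinarith
      have h4 : χ t ≠ 0 := by
        intro h
        rw [h, norm_zero] at h2
        have : 0 < ‖B‖ * ‖t - t₁‖ / 2 := by positivity
        linarith
      have h5 := hχe t ((hχ0 t).mp h4)
      have h6 : ‖χ t‖ * ‖τ t - τ t₁‖ = ‖t - t₁‖ := by rw [← norm_mul, h5]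
      have h7 : ‖τ t - τ t₁‖ ≤ 2 / ‖B‖ := by
        rw [le_div_iff₀ hBn]
        have h8 : ‖B‖ * ‖t - t₁‖ / 2 * ‖τ t - τ t₁‖ ≤ ‖t - t₁‖ := by
          rw [← h6]
          rw [h6]
          calc ‖B‖ * ‖t - t₁‖ / 2 * ‖τ t - τ t₁‖ ≤ ‖χ t‖ * ‖τ t - τ t₁‖ :=
                mul_le_mul_of_nonneg_right h2 (norm_nonneg _)
            _ = ‖t - t₁‖ := h6
        have h9 : ‖t - t₁‖ * (‖τ t - τ t₁‖ * ‖B‖) ≤ ‖t - t₁‖ * 2 := by nlinarith
        exact le_of_mul_le_mul_left h9 hpos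
      have h10 : ‖τ t‖ ≤ ‖τ t - τ t₁‖ + ‖τ t₁‖ := by
        have := norm_add_le (τ t - τ t₁) (τ t₁)
        rwa [sub_add_cancel] at this
      linarith

end Pool.Agent.MP_2f2443_an.RC
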