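import Pool.Agent.Lib.MP_2f2443_an.RC.StmG

/-!
# MP_2f2443_an, project RC, piece g3 (local continuation)
-/

set_option autoImplicit false

namespace Pool.Agent.MP_2f2443_an.RC

open Filter Topology Pool.Agent.MP_2f2443_an.IP

/-- a holomorphic local left inverse -/
private lemma g3_inv (g : ℂ → ℂ) (hg : Differentiable ℂ g) (s₀ : ℂ) (h : deriv g s₀ ≠ 0) :
    ∃ σ : ℂ → ℂ, AnalyticAt ℂ σ (g s₀) ∧ ∀ᶠ s in 𝓝 s₀, σ (g s) = s := by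
  have ha : AnalyticAt ℂ g s₀ := hg.analyticAt s₀
  refine ⟨_, ha.analyticAt_localInverse h, ?_⟩
  exact HasStrictDerivAt.eventually_left_inverse _ _

private lemma g3_core (φ ψ : ℂ → ℂ × ℂ) (hφ : Differentiable ℂ φ) (hψ : Differentiable ℂ ψ)
    (hinj : Function.Injective ψ) (t₀ s₀ : ℂ)
    (hacc : AccPt (t₀, s₀) (𝓟 {w : ℂ × ℂ | φ w.1 = ψ w.2})) (ℓ : ℂ × ℂ →L[ℂ] ℂ)
    (hℓ : deriv (fun s => ℓ (ψ s)) s₀ ≠ 0) :
    ∃ U ∈ 𝓝 t₀, ∃ τ : ℂ → ℂ, DifferentiableOn ℂ τ U ∧ τ t₀ = s₀ ∧ ∀ t ∈ U, φ t = ψ (τ t) := by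
  have hcl : IsClosed {w : ℂ × ℂ | φ w.1 = ψ w.2} :=
    isClosed_eq (hφ.continuous.comp continuous_fst) (hψ.continuous.comp continuous_snd)
  have h0 : φ t₀ = ψ s₀ := by
    have : (t₀, s₀) ∈ {w : ℂ × ℂ | φ w.1 = ψ w.2} := by
      rw [isClosed_iff_clusterPt] at hcl
      exact hcl _ hacc.clusterPt
    exact this
  obtain ⟨σ, hσ, hσ2⟩ := g3_inv (fun s => ℓ (ψ s)) (ℓ.differentiable.comp hψ) s₀ hℓ
  have hφa : AnalyticAt ℂ φ t₀ := hφ.analyticAt t₀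
  have hτa : AnalyticAt ℂ (fun t => σ (ℓ (φ t))) t₀ := by
    have h1 : AnalyticAt ℂ (fun t => ℓ (φ t)) t₀ := (ℓ.differentiable.comp hφ).analyticAt t₀
    have h2 : AnalyticAt ℂ σ (ℓ (φ t₀)) := by rw [h0]; exact hσ
    exact AnalyticAt.comp' h2 h1
  have hτ0 : σ (ℓ (φ t₀)) = s₀ := by
    rw [h0]; exact hσ2.self_of_nhds
  have hDa : AnalyticAt ℂ (fun t => φ t - ψ (σ (ℓ (φ t)))) t₀ := by
    refine hφa.sub ?_
    have h1 : AnalyticAt ℂ ψ (σ (ℓ (φ t₀))) := hψ.analyticAt _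
    exact AnalyticAt.comp' h1 hτa
  have hfr : ∃ᶠ t in 𝓝[≠] t₀, φ t - ψ (σ (ℓ (φ t))) = 0 := by
    intro hev
    rw [eventually_nhdsWithin_iff] at hev
    rw [accPt_iff_frequently] at hacc
    apply hacc
    have e1 : ∀ᶠ w : ℂ × ℂ in 𝓝 (t₀, s₀), w.1 ∈ ({t₀}ᶜ : Set ℂ) →
        ¬ (φ w.1 - ψ (σ (ℓ (φ w.1))) = 0) :=
      (continuous_fst.tendsto (t₀, s₀)).eventually hev
    have e2 : ∀ᶠ w : ℂ × ℂ in 𝓝 (t₀, s₀), σ (ℓ (ψ w.2)) = w.2 :=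
      (continuous_snd.tendsto (t₀, s₀)).eventually hσ2
    filter_upwards [e1, e2] with w h1 h2 h3
    obtain ⟨h3, h4⟩ := h3
    have h4' : φ w.1 = ψ w.2 := h4
    by_cases hw : w.1 = t₀
    · apply h3
      rw [hw, h0] at h4'
      have := hinj h4'
      exact Prod.ext hw this.symm
    · apply h1 hw
      rw [h4', h2, sub_self]
  have hz := hDa.frequently_zero_iff_eventually_zero.mp hfr
  have hd : ∀ᶠ t in 𝓝 t₀, DifferentiableAt ℂ (fun t => σ (ℓ (φ t))) t :=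
    hτa.eventually_analyticAt.mono fun t ht => ht.differentiableAt
  refine ⟨{t | φ t - ψ (σ (ℓ (φ t))) = 0 ∧ DifferentiableAt ℂ (fun t => σ (ℓ (φ t))) t},
    hz.and hd, fun t => σ (ℓ (φ t)), ?_, hτ0, ?_⟩
  · intro t ht
    exact ht.2.differentiableWithinAt
  · intro t ht
    exact sub_eq_zero.mp ht.1

theorem p_g3 : S_g3 := by
  intro φ ψ hφ hψ hinj hder t₀ s₀ hacc
  by_cases h1 : deriv (fun s => (ContinuousLinearMap.fst ℂ ℂ ℂ) (ψ s)) s₀ ≠ 0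
  · exact g3_core φ ψ hφ hψ hinj t₀ s₀ hacc _ h1
  · by_cases h2 : deriv (fun s => (ContinuousLinearMap.snd ℂ ℂ ℂ) (ψ s)) s₀ ≠ 0
    · exact g3_core φ ψ hφ hψ hinj t₀ s₀ hacc _ h2
    · exfalso
      push Not at h1 h2
      apply hder s₀
      have hd : HasDerivAt ψ (deriv ψ s₀) s₀ := (hψ s₀).hasDerivAt
      have e1 : HasDerivAt (fun s => (ContinuousLinearMap.fst ℂ ℂ ℂ) (ψ s))
          ((ContinuousLinearMap.fst ℂ ℂ ℂ) (deriv ψ s₀)) s₀ :=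
        (ContinuousLinearMap.fst ℂ ℂ ℂ).hasFDerivAt.comp_hasDerivAt s₀ hd
      have e2 : HasDerivAt (fun s => (ContinuousLinearMap.snd ℂ ℂ ℂ) (ψ s))
          ((ContinuousLinearMap.snd ℂ ℂ ℂ) (deriv ψ s₀)) s₀ :=
        (ContinuousLinearMap.snd ℂ ℂ ℂ).hasFDerivAt.comp_hasDerivAt s₀ hd
      rw [e1.deriv] at h1
      rw [e2.deriv] at h2
      exact Prod.ext h1 h2

end Pool.Agent.MP_2f2443_an.RC
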