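import Pool.Agent.Lib.MP_2f2443_an.RC.StmG

/-!
# MP_2f2443_an, project RC, piece g4: entire injective immersed curves sharing an arc
-/

set_option autoImplicit false

namespace Pool.Agent.MP_2f2443_an.RC

open Filter Topology Pool.Agent.MP_2f2443_an.IP

/-- the domain of continuation -/
private def g4_Om (φ ψ : ℂ → ℂ × ℂ) : Set ℂ :=
  {t | ∃ U ∈ 𝓝 t, ∃ τ : ℂ → ℂ, DifferentiableOn ℂ τ U ∧ ∀ t' ∈ U, φ t' = ψ (τ t')}

open Classical in
/-- the parameter change -/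
private noncomputable def g4_tau (φ ψ : ℂ → ℂ × ℂ) (t : ℂ) : ℂ :=
  if h : ∃ s, φ t = ψ s then h.choose else 0

private lemma g4_tau_eq {φ ψ : ℂ → ℂ × ℂ} (hψ : Function.Injective ψ) {t s : ℂ}
    (h : φ t = ψ s) : g4_tau φ ψ t = s := by
  unfold g4_tau
  have hex : ∃ s, φ t = ψ s := ⟨s, h⟩
  rw [dif_pos hex]
  exact hψ (hex.choose_spec.symm.trans h)

private lemma g4_open (φ ψ : ℂ → ℂ × ℂ) : IsOpen (g4_Om φ ψ) := by
  rw [isOpen_iff_mem_nhds]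
  rintro t ⟨U, hU, τ, h1, h2⟩
  rw [mem_nhds_iff] at hU
  obtain ⟨V, hVU, hV, htV⟩ := hU
  refine Filter.mem_of_superset (hV.mem_nhds htV) ?_
  intro t' ht'
  exact ⟨V, hV.mem_nhds ht', τ, h1.mono hVU, fun s hs => h2 s (hVU hs)⟩

private lemma g4_spec {φ ψ : ℂ → ℂ × ℂ} (hψ : Function.Injective ψ) {t : ℂ}
    (ht : t ∈ g4_Om φ ψ) : φ t = ψ (g4_tau φ ψ t) := by
  obtain ⟨U, hU, τ, h1, h2⟩ := ht
  have := h2 t (mem_of_mem_nhds hU)
  rw [g4_tau_eq hψ this]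
  exact this

private lemma g4_diff {φ ψ : ℂ → ℂ × ℂ} (hψ : Function.Injective ψ) :
    DifferentiableOn ℂ (g4_tau φ ψ) (g4_Om φ ψ) := by
  rintro t ⟨U, hU, τ, h1, h2⟩
  apply DifferentiableAt.differentiableWithinAt
  have h3 : DifferentiableAt ℂ τ t := h1.differentiableAt hU
  refine h3.congr_of_eventuallyEq ?_
  filter_upwards [hU] with t' ht'
  exact g4_tau_eq hψ (h2 t' ht')

private lemma g4_frontier (hg3 : S_g3) {φ ψ : ℂ → ℂ × ℂ} (hφ : EII φ) (hψ : EII ψ) (t₀ : ℂ)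
    (h0 : t₀ ∉ g4_Om φ ψ) :
    Tendsto (fun t => ‖g4_tau φ ψ t‖) (𝓝[g4_Om φ ψ] t₀) atTop := by
  by_contra hnot
  rw [tendsto_atTop] at hnot
  push Not at hnot
  obtain ⟨M, hM⟩ := hnot
  have hM' : ∃ᶠ t in 𝓝[g4_Om φ ψ] t₀, ‖g4_tau φ ψ t‖ ≤ M := by
    refine hM.mono ?_
    intro t ht
    exact ht.le
  -- the restricted filter
  set F : Filter ℂ := 𝓝[g4_Om φ ψ] t₀ ⊓ 𝓟 {t | ‖g4_tau φ ψ t‖ ≤ M} with hF
  have hFne : F.NeBot := by
    rw [hF, ← Filter.frequently_mem_iff_neBot]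
    exact hM'
  have hle : F.map (g4_tau φ ψ) ≤ 𝓟 (Metric.closedBall (0 : ℂ) M) := by
    rw [Filter.le_principal_iff, Filter.mem_map]
    have : {t | ‖g4_tau φ ψ t‖ ≤ M} ∈ F := Filter.mem_inf_of_right (Filter.mem_principal_self _)
    filter_upwards [this] with t ht
    simpa using ht
  obtain ⟨s₀, hs₀, hcl⟩ := (isCompact_closedBall (0 : ℂ) M) hle
  apply h0
  have hacc : AccPt (t₀, s₀) (𝓟 {w : ℂ × ℂ | φ w.1 = ψ w.2}) := by
    rw [accPt_iff_frequently]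
    rw [Filter.frequently_iff]
    intro W hW
    rw [nhds_prod_eq, Filter.mem_prod_iff] at hW
    obtain ⟨U, hU, V, hV, hUV⟩ := hW
    have h1 : ∃ᶠ t in F, g4_tau φ ψ t ∈ V := (mapClusterPt_iff_frequently.mp hcl) V hV
    have h2 : ∀ᶠ t in F, t ∈ U ∩ g4_Om φ ψ := by
      have h3 : U ∩ g4_Om φ ψ ∈ 𝓝[g4_Om φ ψ] t₀ :=
        Filter.inter_mem (mem_nhdsWithin_of_mem_nhds hU) self_mem_nhdsWithin
      exact Filter.mem_inf_of_left h3
    obtain ⟨t, ht1, ht2⟩ := (h1.and_eventually h2).exists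
    refine ⟨(t, g4_tau φ ψ t), hUV ⟨ht2.1, ht1⟩, ?_, ?_⟩
    · intro h
      have : t = t₀ := congrArg Prod.fst h
      rw [this] at ht2
      exact h0 ht2.2
    · exact g4_spec hψ.2.1 ht2.2
  obtain ⟨U, hU, τ, h1, h2, h3⟩ := hg3 φ ψ hφ.1 hψ.1 hψ.2.1 hψ.2.2 t₀ s₀ hacc
  exact ⟨U, hU, τ, h1, h3⟩

theorem p_g4 : S_g2 → S_g3 → S_g4 := by
  intro hg2 hg3 φ ψ hφ hψ hacc
  have hne : (g4_Om φ ψ).Nonempty := by
    obtain ⟨w, hw⟩ := hacc
    obtain ⟨U, hU, τ, h1, h2, h3⟩ := hg3 φ ψ hφ.1 hψ.1 hψ.2.1 hψ.2.2 w.1 w.2 hw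
    exact ⟨w.1, U, hU, τ, h1, h3⟩
  have hinj : Set.InjOn (g4_tau φ ψ) (g4_Om φ ψ) := by
    intro t1 h1 t2 h2 h
    apply hφ.2.1
    rw [g4_spec hψ.2.1 h1, g4_spec hψ.2.1 h2, h]
  have hfr : ∀ t₀ ∈ frontier (g4_Om φ ψ),
      Tendsto (fun t => ‖g4_tau φ ψ t‖) (𝓝[g4_Om φ ψ] t₀) atTop := by
    intro t₀ ht₀
    apply g4_frontier hg3 hφ hψ
    rw [(g4_open φ ψ).frontier_eq] at ht₀
    exact ht₀.2
  rcases hg2 (g4_Om φ ψ) (g4_tau φ ψ) (g4_open φ ψ) hne (g4_diff hψ.2.1) hinj hfr with h | h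
  · obtain ⟨hu, α, β, hα, hτ⟩ := h
    refine ⟨α, β, hα, fun t => ?_⟩
    have : t ∈ g4_Om φ ψ := by
      rw [hu]
      exact Set.mem_univ t
    rw [g4_spec hψ.2.1 this, hτ]
  · exfalso
    obtain ⟨t₀, M, r, hΩ, hM⟩ := h
    obtain ⟨B1, hB1⟩ := (isCompact_closedBall (0 : ℂ) M).exists_bound_of_continuousOn
      hψ.1.continuous.continuousOn
    obtain ⟨B2, hB2⟩ := (isCompact_closedBall (0 : ℂ) (max r (‖t₀‖ + 1))).exists_bound_of_continuousOn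
      hφ.1.continuous.continuousOn
    have hbd : Bornology.IsBounded (Set.range φ) := by
      rw [isBounded_iff_forall_norm_le]
      refine ⟨max B1 B2, ?_⟩
      rintro _ ⟨t, rfl⟩
      by_cases ht : ‖t‖ ≤ max r (‖t₀‖ + 1)
      · exact (hB2 t (by simpa using ht)).trans (le_max_right _ _)
      · rw [not_le] at ht
        have h1 : r ≤ ‖t‖ := (le_max_left _ _).trans ht.le
        have h2 : t ≠ t₀ := by
          rintro rfl
          have := (le_max_right r (‖t‖ + 1)).trans_lt ht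
          linarith
        have h3 : t ∈ g4_Om φ ψ := by
          rw [hΩ]
          simpa using h2
        rw [g4_spec hψ.2.1 h3]
        exact (hB1 _ (by simpa using hM t h1)).trans (le_max_left _ _)
    have h01 : φ 0 = φ 1 := hφ.1.apply_eq_apply_of_bounded hbd 0 1
    exact zero_ne_one (hφ.2.1 h01)

end Pool.Agent.MP_2f2443_an.RC
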