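import Pool.Agent.Lib.MP_2f2443_an.RC.StmG

set_option autoImplicit false

namespace Pool.Agent.MP_2f2443_an.RC

open Filter Topology Pool.Agent.MP_2f2443_an.IP

private theorem gp_iter_deg {k : ℝ} {h : ℝ → ℝ} (hc : Circ k h) (q : ℕ) (x : ℝ) :
    h^[q] (x + 1) = h^[q] x + 1 := by
  induction q generalizing x with
  | zero => rfl
  | succ n ih => rw [Function.iterate_succ_apply, Function.iterate_succ_apply, hc.deg, ih]

private theorem gp_per_nat {D : ℝ → ℝ} (hD : ∀ x, D (x + 1) = D x) (n : ℕ) (x : ℝ) :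
    D (x + n) = D x := by
  induction n with
  | zero => simp
  | succ n ih =>
    rw [← ih, ← hD (x + n)]
    congr 1
    push_cast
    ring

private theorem gp_per_sub {D : ℝ → ℝ} (hD : ∀ x, D (x + 1) = D x) (n : ℕ) (x : ℝ) :
    D (x - n) = D x := by
  rw [← gp_per_nat hD n (x - n)]
  congr 1
  ring

private theorem gp_adj (D : ℝ → ℝ) (hc : Continuous D) (hD : ∀ x, D (x + 1) = D x)
    (x0 x1 : ℝ) (h0 : D x0 = 0) (h1 : D x1 ≠ 0) :
    ∃ a b, a < b ∧ D a = 0 ∧ D b = 0 ∧
      ((∀ x, a < x → x < b → 0 < D x) ∨ (∀ x, a < x → x < b → D x < 0)) := by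
  set A : Set ℝ := {x | x ≤ x1 ∧ D x = 0} with hA
  set B : Set ℝ := {x | x1 ≤ x ∧ D x = 0} with hB
  obtain ⟨n, hn⟩ := exists_nat_ge |x0 - x1|
  have hAne : A.Nonempty := by
    refine ⟨x0 - n, ?_, ?_⟩
    · have := le_abs_self (x0 - x1)
      linarith
    · rw [gp_per_sub hD]; exact h0
  have hBne : B.Nonempty := by
    refine ⟨x0 + n, ?_, ?_⟩
    · have := neg_abs_le (x0 - x1)
      linarith
    · rw [gp_per_nat hD]; exact h0
  have hAc : IsClosed A := (isClosed_Iic).inter (isClosed_eq hc continuous_const)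
  have hBc : IsClosed B := (isClosed_Ici).inter (isClosed_eq hc continuous_const)
  have hAb : BddAbove A := ⟨x1, fun x hx => hx.1⟩
  have hBb : BddBelow B := ⟨x1, fun x hx => hx.1⟩
  have ha := hAc.csSup_mem hAne hAb
  have hb := hBc.csInf_mem hBne hBb
  set a := sSup A with ha'
  set b := sInf B with hb'
  have hax : a < x1 := lt_of_le_of_ne ha.1 (fun h => h1 (h ▸ ha.2))
  have hxb : x1 < b := lt_of_le_of_ne hb.1 (fun h => h1 (h ▸ hb.2))
  have hne : ∀ x, a < x → x < b → D x ≠ 0 := by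
    intro x hx1 hx2 hx3
    rcases le_total x x1 with h | h
    · have : x ≤ a := le_csSup hAb ⟨h, hx3⟩
      linarith
    · have : b ≤ x := csInf_le hBb ⟨h, hx3⟩
      linarith
  refine ⟨a, b, by linarith, ha.2, hb.2, ?_⟩
  have hpre : IsPreconnected (Set.Ioo a b) := isPreconnected_Ioo
  rcases lt_or_gt_of_ne h1 with h | h
  · right
    intro x hx1 hx2
    by_contra hcon
    have hpos : 0 < D x := lt_of_le_of_ne (not_lt.1 hcon) (hne x hx1 hx2).symm
    have := hpre.intermediate_value (a := x1) (b := x) ⟨hax, hxb⟩ ⟨hx1, hx2⟩ hc.continuousOn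
    obtain ⟨y, hy, hy0⟩ := this (⟨h.le, hpos.le⟩ : (0 : ℝ) ∈ Set.Icc (D x1) (D x))
    exact hne y hy.1 hy.2 hy0
  · left
    intro x hx1 hx2
    by_contra hcon
    have hneg : D x < 0 := lt_of_le_of_ne (not_lt.1 hcon) (hne x hx1 hx2)
    have := hpre.intermediate_value (a := x) (b := x1) ⟨hx1, hx2⟩ ⟨hax, hxb⟩ hc.continuousOn
    obtain ⟨y, hy, hy0⟩ := this (⟨hneg.le, h.le⟩ : (0 : ℝ) ∈ Set.Icc (D x) (D x1))
    exact hne y hy.1 hy.2 hy0

private theorem gp_neg_iter (h : ℝ → ℝ) (q : ℕ) (x : ℝ) :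
    (fun x => - h (-x))^[q] x = - h^[q] (-x) := by
  induction q generalizing x with
  | zero => simp
  | succ n ih =>
    rw [Function.iterate_succ_apply, ih, Function.iterate_succ_apply]
    simp

private theorem gp_neg_circ {k : ℝ} {h : ℝ → ℝ} (hc : Circ k h) : Circ k (fun x => - h (-x)) where
  cont := (hc.cont.comp continuous_neg).neg
  mono := fun x y hxy => neg_lt_neg (hc.mono (neg_lt_neg hxy))
  deg := by
    intro x
    have := hc.deg (-(x + 1))
    have e : -(x + 1) + 1 = -x := by ring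
    rw [e] at this
    linarith
  eq := by
    intro x
    have := hc.eq (-x)
    simp only [neg_neg]
    have e : VR k (-h (-x)) = - VR k (h (-x)) := by
      unfold VR
      rw [mul_neg, Real.sin_neg]
      ring
    rw [e, this]
    ring

theorem p_gp : S_gp := by
  intro hfi hor k hk h hc q hq p hx
  obtain ⟨x0, hx0⟩ := hx
  have hqc : Continuous (h^[q]) := hc.cont.iterate q
  have hex : ∃ x1, h^[q] x1 - x1 - p ≠ 0 := by
    by_contra hcon
    push Not at hcon
    have hall : ∀ x, h^[q] x = x + p := fun x => by have := hcon x; linarith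
    have hfix : ∀ x, (SMR k)^[q] (x, h x - x) = (x + (p : ℝ), h x - x + ((0 : ℤ) : ℝ)) := by
      intro x
      rw [hor.1 k h hc q x, Function.iterate_succ_apply, hall x, hall (h x)]
      simp
    have hcont : Continuous (fun x : ℝ => (x, h x - x)) :=
      continuous_id.prodMk (hc.cont.sub continuous_id)
    have hbd : Bornology.IsBounded ((fun x : ℝ => (x, h x - x)) '' Set.Icc 0 1) :=
      (isCompact_Icc.image hcont).isBounded
    have hfin := hfi k hk q hq p 0 _ hbd
    have hsub : (fun x : ℝ => (x, h x - x)) '' Set.Icc 0 1 ⊆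
        {P : ℝ × ℝ | P ∈ (fun x : ℝ => (x, h x - x)) '' Set.Icc 0 1 ∧
          (SMR k)^[q] P = (P.1 + (p : ℝ), P.2 + ((0 : ℤ) : ℝ))} := by
      rintro P ⟨x, hx, rfl⟩
      exact ⟨⟨x, hx, rfl⟩, hfix x⟩
    have hinj : Set.InjOn (fun x : ℝ => (x, h x - x)) (Set.Icc 0 1) := by
      intro x _ y _ hxy
      exact (Prod.mk.injEq _ _ _ _ ▸ hxy : x = y ∧ _).1
    exact (Set.Icc_infinite (zero_lt_one' ℝ)) ((Set.finite_image_iff hinj).1 (hfin.subset hsub))
  obtain ⟨x1, hx1⟩ := hex
  obtain ⟨a, b, hab, ha, hb, hs⟩ := gp_adj (fun x => h^[q] x - x - p)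
    ((hqc.sub continuous_id).sub continuous_const)
    (fun x => by rw [gp_iter_deg hc]; ring) x0 x1 (by linarith) hx1
  rcases hs with hs | hs
  · exact ⟨h, p, a, b, hc, hab, by linarith, by linarith,
      fun x h1 h2 => by have := hs x h1 h2; linarith⟩
  · refine ⟨fun x => - h (-x), -p, -b, -a, gp_neg_circ hc, by linarith, ?_, ?_, ?_⟩
    · rw [gp_neg_iter, neg_neg]; push_cast; linarith
    · rw [gp_neg_iter, neg_neg]; push_cast; linarith
    · intro x h1 h2
      rw [gp_neg_iter]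
      have := hs (-x) (by linarith) (by linarith)
      push_cast
      linarith

end Pool.Agent.MP_2f2443_an.RC
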