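import Pool.Agent.Lib.MP_2f2443_an.RC.StmG

/-!
# MP_2f2443_an, project RC: piece h1 (Poincare's parametrisation of the unstable curve)
-/

set_option autoImplicit false

namespace Pool.Agent.MP_2f2443_an.RC

open Filter Topology Metric

/-- A holomorphic map with vanishing value and derivative at `0` has a small Lipschitz constant on
small balls (by the Schwarz lemma). -/
private theorem h1_lip {E F : Type*} [NormedAddCommGroup E] [NormedSpace ℂ E]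
    [NormedAddCommGroup F] [NormedSpace ℂ F] (n : E → F) (ρ₀ : ℝ) (hρ₀ : 0 < ρ₀)
    (hd : DifferentiableOn ℂ n (ball 0 ρ₀)) (h0 : n 0 = 0)
    (ho : HasFDerivAt n (0 : E →L[ℂ] F) 0) :
    ∃ C : ℝ, 0 ≤ C ∧ ∃ ρ : ℝ, 0 < ρ ∧ ρ ≤ ρ₀ ∧ ∀ s : ℝ, 0 < s → s < ρ → ∀ z z' : E,
      ‖z‖ ≤ s → ‖z'‖ ≤ s → ‖n z - n z'‖ ≤ C * s * ‖z - z'‖ := by
  have hc : ContinuousAt n 0 := ho.continuousAt
  have h1 : ∀ᶠ w in 𝓝 (0 : E), ‖n w‖ < 1 := by
    have := hc.norm
    rw [ContinuousAt, h0, norm_zero] at this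
    exact this.eventually (gt_mem_nhds one_pos)
  obtain ⟨r₀, hr₀, hr₀'⟩ := Metric.eventually_nhds_iff_ball.1 h1
  obtain ⟨r, hr, hr1, hr2⟩ : ∃ r : ℝ, 0 < r ∧ r ≤ r₀ ∧ r ≤ ρ₀ :=
    ⟨min r₀ ρ₀, lt_min hr₀ hρ₀, min_le_left _ _, min_le_right _ _⟩
  have hdr : DifferentiableOn ℂ n (ball 0 r) := hd.mono (ball_subset_ball hr2)
  have hq : ∀ w : E, ‖w‖ < r → ‖n w‖ ≤ (‖w‖ / r) ^ 2 := by
    intro w hw
    have := Complex.dist_le_mul_div_pow_of_mapsTo_ball_of_isLittleO (n := 1) (R₂ := 1) (z := w) hdr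
      (fun v hv => by
        rw [mem_closedBall, h0, dist_zero_right]
        exact (hr₀' v (ball_subset_ball hr1 hv)).le)
      (by
        have := ho.isLittleO
        simp only [h0, zero_apply, sub_zero] at this ⊢
        simpa using this.norm_right)
      (by simpa using hw)
    simpa [h0] using this
  refine ⟨25 / (2 * r ^ 2), by positivity, r / 8, by positivity, by linarith, ?_⟩
  intro s hs hs' z z' hz hz'
  have hsub : ball z' (4 * s) ⊆ ball (0 : E) r := by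
    intro w hw
    rw [mem_ball, dist_eq_norm] at hw
    rw [mem_ball, dist_zero_right]
    calc ‖w‖ = ‖(w - z') + z'‖ := by rw [sub_add_cancel]
      _ ≤ ‖w - z'‖ + ‖z'‖ := norm_add_le _ _
      _ < r := by linarith
  have hmaps : Set.MapsTo n (ball z' (4 * s)) (closedBall (n z') (2 * (5 * s / r) ^ 2)) := by
    intro w hw
    have hw' : ‖w‖ ≤ 5 * s := by
      rw [mem_ball, dist_eq_norm] at hw
      calc ‖w‖ = ‖(w - z') + z'‖ := by rw [sub_add_cancel]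
        _ ≤ ‖w - z'‖ + ‖z'‖ := norm_add_le _ _
        _ ≤ 5 * s := by linarith
    have hwr : ‖w‖ < r := by linarith
    have h1 := hq w hwr
    have h2 := hq z' (by linarith)
    have h3 : (‖w‖ / r) ^ 2 ≤ (5 * s / r) ^ 2 := by gcongr
    have h4 : (‖z'‖ / r) ^ 2 ≤ (5 * s / r) ^ 2 := by
      have : ‖z'‖ ≤ 5 * s := by linarith
      gcongr
    rw [mem_closedBall, dist_eq_norm]
    calc ‖n w - n z'‖ ≤ ‖n w‖ + ‖n z'‖ := norm_sub_le _ _
      _ ≤ _ := by linarith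
  have hzb : z ∈ ball z' (4 * s) := by
    rw [mem_ball, dist_eq_norm]
    calc ‖z - z'‖ ≤ ‖z‖ + ‖z'‖ := norm_sub_le _ _
      _ < 4 * s := by linarith
  have := Complex.dist_le_div_mul_dist_of_mapsTo_ball (hdr.mono hsub) hmaps hzb
  rw [dist_eq_norm, dist_eq_norm] at this
  refine this.trans (le_of_eq ?_)
  field_simp
  ring

/-- The iteration. -/
private noncomputable def h1_seq {E : Type*} [SMul ℂ E] (g : E → E) (e : E) (l : ℝ) : ℕ → ℂ → E
  | 0, t => t • e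
  | n + 1, t => g (h1_seq g e l n (t / l))

private theorem h1_abs {E : Type*} [NormedAddCommGroup E] [NormedSpace ℂ E] [CompleteSpace E]
    (g : E → E) (e : E) (l C ρ : ℝ) (hl : 1 < l) (hC : 0 ≤ C) (hρ : 0 < ρ) (he : ‖e‖ ≤ 1)
    (hd : DifferentiableOn ℂ g (ball 0 ρ))
    (hlip : ∀ s : ℝ, 0 < s → s < ρ → ∀ z z' : E, ‖z‖ ≤ s → ‖z'‖ ≤ s →
      ‖g z - g z'‖ ≤ (l + C * s) * ‖z - z'‖)
    (hq : ∀ t : ℂ, ‖t‖ < ρ → ‖g (t • e) - ((l : ℂ) * t) • e‖ ≤ C * ‖t‖ ^ 2)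
    (S : Set E) (hS : IsClosed S) (hSe : ∀ t : ℝ, (t : ℂ) • e ∈ S)
    (hSg : ∀ z ∈ S, ‖z‖ < ρ → g z ∈ S) :
    ∃ ε : ℝ, 0 < ε ∧ ∃ (M : ℝ) (φ : ℂ → E), DifferentiableOn ℂ φ (ball 0 ε) ∧
      (∀ t ∈ ball (0 : ℂ) ε, ‖φ t - t • e‖ ≤ M * ‖t‖ ^ 2 ∧ ‖φ t‖ < ρ ∧ φ t = g (φ (t / l))) ∧
      ∀ t : ℝ, (t : ℂ) ∈ ball (0 : ℂ) ε → φ t ∈ S := by
  have hl0 : 0 < l := by linarith
  obtain ⟨θ, hθ⟩ : ∃ θ : ℝ, θ = (l + 1) / (2 * l) := ⟨_, rfl⟩
  have hθ0 : 0 < θ := by rw [hθ]; positivity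
  have hθ1 : θ < 1 := by rw [hθ, div_lt_one (by positivity)]; linarith
  obtain ⟨M, hM⟩ : ∃ M : ℝ, M = C / (1 - θ) := ⟨_, rfl⟩
  have h1θ : 0 < 1 - θ := by linarith
  have hM0 : 0 ≤ M := by rw [hM]; positivity
  have hMC : θ * M + C = M := by rw [hM]; field_simp; ring
  obtain ⟨ε, hε, hε1, hε2, hε3⟩ : ∃ ε : ℝ, 0 < ε ∧ 2 * ε < ρ ∧ M * ε ≤ 1 ∧
      C * (2 * ε) ≤ (l ^ 2 - l) / 2 := by
    have hll : 0 < l ^ 2 - l := by nlinarith
    refine ⟨min (ρ / 4) (min (1 / (M + 1)) ((l ^ 2 - l) / (4 * (C + 1)))), ?_, ?_, ?_, ?_⟩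
    · refine lt_min (by positivity) (lt_min (by positivity) (by positivity))
    · have := min_le_left (ρ / 4) (min (1 / (M + 1)) ((l ^ 2 - l) / (4 * (C + 1))))
      linarith
    · have h1 : min (ρ / 4) (min (1 / (M + 1)) ((l ^ 2 - l) / (4 * (C + 1)))) ≤ 1 / (M + 1) :=
        (min_le_right _ _).trans (min_le_left _ _)
      calc M * _ ≤ M * (1 / (M + 1)) := by gcongr
        _ ≤ 1 := by rw [mul_one_div, div_le_one (by linarith)]; linarith
    · have h1 : min (ρ / 4) (min (1 / (M + 1)) ((l ^ 2 - l) / (4 * (C + 1)))) ≤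
          (l ^ 2 - l) / (4 * (C + 1)) := (min_le_right _ _).trans (min_le_right _ _)
      calc C * (2 * _) ≤ C * (2 * ((l ^ 2 - l) / (4 * (C + 1)))) := by gcongr
        _ ≤ (l ^ 2 - l) / 2 := by
          rw [show C * (2 * ((l ^ 2 - l) / (4 * (C + 1)))) = (C / (C + 1)) * ((l ^ 2 - l) / 2) by
            field_simp; ring]
          have : C / (C + 1) ≤ 1 := by rw [div_le_one (by linarith)]; linarith
          nlinarith
  have hdiv : ∀ t : ℂ, ‖t / (l : ℂ)‖ = ‖t‖ / l := by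
    intro t
    rw [norm_div, Complex.norm_real, Real.norm_of_nonneg hl0.le]
  have hdivle : ∀ t : ℂ, ‖t / (l : ℂ)‖ ≤ ‖t‖ := by
    intro t
    rw [hdiv]
    exact div_le_self (norm_nonneg _) hl.le
  have hball : ∀ t ∈ ball (0 : ℂ) ε, t / (l : ℂ) ∈ ball (0 : ℂ) ε := by
    intro t ht
    rw [mem_ball, dist_zero_right] at ht ⊢
    exact (hdivle t).trans_lt ht
  have hfac : (l + C * (2 * ε)) / l ^ 2 ≤ θ := by
    rw [hθ, div_le_div_iff₀ (by positivity) (by positivity)]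
    nlinarith
  set φ := h1_seq g e l with hφ
  have hφ0 : ∀ t, φ 0 t = t • e := fun t => rfl
  have hφs : ∀ n t, φ (n + 1) t = g (φ n (t / l)) := fun n t => rfl
  -- norm bound from the deviation bound
  have hnb : ∀ (t : ℂ) (z : E), t ∈ ball (0 : ℂ) ε → ‖z - t • e‖ ≤ M * ‖t‖ ^ 2 → ‖z‖ ≤ 2 * ‖t‖ := by
    intro t z ht hz
    rw [mem_ball, dist_zero_right] at ht
    have h1 : ‖t • e‖ ≤ ‖t‖ := by
      rw [norm_smul]
      exact mul_le_of_le_one_right (norm_nonneg _) he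
    have h2 : M * ‖t‖ ^ 2 ≤ ‖t‖ := by
      have : M * ‖t‖ ≤ 1 := le_trans (by gcongr) hε2
      nlinarith [norm_nonneg t]
    calc ‖z‖ = ‖(z - t • e) + t • e‖ := by rw [sub_add_cancel]
      _ ≤ ‖z - t • e‖ + ‖t • e‖ := norm_add_le _ _
      _ ≤ 2 * ‖t‖ := by linarith
  have hnb' : ∀ (t : ℂ) (z : E), t ∈ ball (0 : ℂ) ε → ‖z - t • e‖ ≤ M * ‖t‖ ^ 2 → ‖z‖ ≤ 2 * ε := by
    intro t z ht hz
    have := hnb t z ht hz
    rw [mem_ball, dist_zero_right] at ht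
    linarith
  -- P1
  have P1 : ∀ n, ∀ t ∈ ball (0 : ℂ) ε, ‖φ n t - t • e‖ ≤ M * ‖t‖ ^ 2 := by
    intro n
    induction n with
    | zero =>
      intro t ht
      rw [hφ0, sub_self, norm_zero]
      positivity
    | succ n ih =>
      intro t ht
      have ht' := hball t ht
      have i1 := ih _ ht'
      have n1 := hnb' _ _ ht' i1
      have n2 : ‖(t / (l : ℂ)) • e‖ ≤ 2 * ε := hnb' _ _ ht' (by rw [sub_self, norm_zero]; positivity)
      have h1 := hlip (2 * ε) (by linarith) hε1 _ _ n1 n2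
      have h2 : ‖g ((t / (l : ℂ)) • e) - t • e‖ ≤ C * ‖t / (l : ℂ)‖ ^ 2 := by
        have := hq (t / l) (by
          rw [mem_ball, dist_zero_right] at ht'
          linarith)
        rwa [mul_div_cancel₀ t (by exact_mod_cast hl0.ne')] at this
      rw [hφs]
      have e1 : ‖t / (l : ℂ)‖ ^ 2 = ‖t‖ ^ 2 / l ^ 2 := by rw [hdiv, div_pow]
      have e2 : (l + C * (2 * ε)) * (M * ‖t / (l : ℂ)‖ ^ 2) ≤ θ * M * ‖t‖ ^ 2 := by
        rw [e1]
        calc (l + C * (2 * ε)) * (M * (‖t‖ ^ 2 / l ^ 2))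
            = ((l + C * (2 * ε)) / l ^ 2) * (M * ‖t‖ ^ 2) := by ring
          _ ≤ θ * (M * ‖t‖ ^ 2) := by gcongr
          _ = _ := by ring
      have e3 : C * ‖t / (l : ℂ)‖ ^ 2 ≤ C * ‖t‖ ^ 2 := by
        have := hdivle t
        gcongr
      have hpos : 0 ≤ l + C * (2 * ε) := by positivity
      calc ‖g (φ n (t / l)) - t • e‖
          = ‖(g (φ n (t / l)) - g ((t / (l : ℂ)) • e)) + (g ((t / (l : ℂ)) • e) - t • e)‖ := by
            congr 1; abel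
        _ ≤ ‖g (φ n (t / l)) - g ((t / (l : ℂ)) • e)‖ + ‖g ((t / (l : ℂ)) • e) - t • e‖ :=
            norm_add_le _ _
        _ ≤ (l + C * (2 * ε)) * ‖φ n (t / l) - (t / (l : ℂ)) • e‖ + C * ‖t / (l : ℂ)‖ ^ 2 :=
            add_le_add h1 h2
        _ ≤ (l + C * (2 * ε)) * (M * ‖t / (l : ℂ)‖ ^ 2) + C * ‖t / (l : ℂ)‖ ^ 2 := by gcongr
        _ ≤ θ * M * ‖t‖ ^ 2 + C * ‖t‖ ^ 2 := add_le_add e2 e3
        _ = (θ * M + C) * ‖t‖ ^ 2 := by ring
        _ = M * ‖t‖ ^ 2 := by rw [hMC]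
  -- P2
  have P2 : ∀ n, DifferentiableOn ℂ (φ n) (ball 0 ε) := by
    intro n
    induction n with
    | zero =>
      have : Differentiable ℂ (fun t : ℂ => t • e) := by fun_prop
      exact this.differentiableOn
    | succ n ih =>
      have h1 : DifferentiableOn ℂ (fun t : ℂ => φ n (t / l)) (ball 0 ε) := by
        refine ih.comp ?_ (fun t ht => hball t ht)
        fun_prop
      refine hd.comp h1 ?_
      intro t ht
      rw [mem_ball, dist_zero_right]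
      exact (hnb' _ _ (hball t ht) (P1 n _ (hball t ht))).trans_lt hε1
  -- P3
  have P3 : ∀ n, ∀ t ∈ ball (0 : ℂ) ε, ‖φ n t - φ (n + 1) t‖ ≤ M * ‖t‖ ^ 2 * θ ^ n := by
    intro n
    induction n with
    | zero =>
      intro t ht
      have := P1 1 t ht
      rw [hφ0, norm_sub_rev, pow_zero, mul_one]
      exact this
    | succ n ih =>
      intro t ht
      have ht' := hball t ht
      have n1 := hnb' _ _ ht' (P1 n _ ht')
      have n2 := hnb' _ _ ht' (P1 (n + 1) _ ht')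
      have h1 := hlip (2 * ε) (by linarith) hε1 _ _ n1 n2
      have i1 := ih _ ht'
      have e1 : ‖t / (l : ℂ)‖ ^ 2 = ‖t‖ ^ 2 / l ^ 2 := by rw [hdiv, div_pow]
      rw [hφs n t, hφs (n + 1) t]
      calc ‖g (φ n (t / l)) - g (φ (n + 1) (t / l))‖
          ≤ (l + C * (2 * ε)) * ‖φ n (t / l) - φ (n + 1) (t / l)‖ := h1
        _ ≤ (l + C * (2 * ε)) * (M * ‖t / (l : ℂ)‖ ^ 2 * θ ^ n) := by gcongr
        _ = ((l + C * (2 * ε)) / l ^ 2) * (M * ‖t‖ ^ 2 * θ ^ n) := by rw [e1]; ring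
        _ ≤ θ * (M * ‖t‖ ^ 2 * θ ^ n) := by gcongr
        _ = M * ‖t‖ ^ 2 * θ ^ (n + 1) := by ring
  -- P4
  have P4 : ∀ n, ∀ t : ℝ, (t : ℂ) ∈ ball (0 : ℂ) ε → φ n t ∈ S := by
    intro n
    induction n with
    | zero => intro t ht; exact hSe t
    | succ n ih =>
      intro t ht
      have ht' := hball t ht
      rw [hφs]
      have h1 : φ n ((t : ℂ) / l) ∈ S := by
        have := ih (t / l) (by push_cast; exact ht')
        push_cast at this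
        exact this
      exact hSg _ h1 ((hnb' _ _ ht' (P1 n _ ht')).trans_lt hε1)
  -- the limit
  have hcau : ∀ t ∈ ball (0 : ℂ) ε, ∃ w, Tendsto (fun n => φ n t) atTop (𝓝 w) := by
    intro t ht
    refine cauchySeq_tendsto_of_complete
      (cauchySeq_of_le_geometric θ (M * ‖t‖ ^ 2) hθ1 fun n => ?_)
    rw [dist_eq_norm]
    exact P3 n t ht
  choose! Φ hΦ using hcau
  have hdist : ∀ n, ∀ t ∈ ball (0 : ℂ) ε, dist (φ n t) (Φ t) ≤ M * ε ^ 2 * θ ^ n / (1 - θ) := by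
    intro n t ht
    have h1 := dist_le_of_le_geometric_of_tendsto θ (M * ‖t‖ ^ 2) hθ1 (f := fun n => φ n t)
      (fun n => by rw [dist_eq_norm]; exact P3 n t ht) (hΦ t ht) n
    refine h1.trans ?_
    rw [mem_ball, dist_zero_right] at ht
    gcongr
  have hunif : TendstoUniformlyOn φ Φ atTop (ball 0 ε) := by
    rw [Metric.tendstoUniformlyOn_iff]
    intro η hη
    have h1 : Tendsto (fun n : ℕ => M * ε ^ 2 * θ ^ n / (1 - θ)) atTop (𝓝 0) := by
      have := (tendsto_pow_atTop_nhds_zero_of_lt_one hθ0.le hθ1).const_mul (M * ε ^ 2)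
      have := this.div_const (1 - θ)
      simpa using this
    filter_upwards [h1.eventually (gt_mem_nhds hη)] with n hn t ht
    rw [dist_comm]
    exact (hdist n t ht).trans_lt hn
  have hPhi1 : ∀ t ∈ ball (0 : ℂ) ε, ‖Φ t - t • e‖ ≤ M * ‖t‖ ^ 2 := by
    intro t ht
    refine le_of_tendsto ((hΦ t ht).sub_const (t • e)).norm (Eventually.of_forall fun n => P1 n t ht)
  refine ⟨ε, hε, M, Φ, ?_, ?_, ?_⟩
  · exact hunif.tendstoLocallyUniformlyOn.differentiableOn (Eventually.of_forall P2) isOpen_ball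
  · intro t ht
    refine ⟨hPhi1 t ht, (hnb' t _ ht (hPhi1 t ht)).trans_lt hε1, ?_⟩
    have ht' := hball t ht
    have hmem : Φ (t / l) ∈ ball (0 : E) ρ := by
      rw [mem_ball, dist_zero_right]
      exact (hnb' _ _ ht' (hPhi1 _ ht')).trans_lt hε1
    have hcg : ContinuousAt g (Φ (t / l)) :=
      (hd.differentiableAt (isOpen_ball.mem_nhds hmem)).continuousAt
    have h1 : Tendsto (fun n => φ (n + 1) t) atTop (𝓝 (g (Φ (t / l)))) :=
      hcg.tendsto.comp (hΦ _ ht')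
    exact tendsto_nhds_unique ((tendsto_add_atTop_iff_nat 1).2 (hΦ t ht)) h1
  · intro t ht
    exact hS.mem_of_tendsto (hΦ _ ht) (Eventually.of_forall fun n => P4 n t ht)

/-- The linear change of coordinates. -/
private noncomputable def h1_P (L : ℂ) (w : ℂ × ℂ) : ℂ × ℂ :=
  (w.1 + w.2, (1 - 1 / L) * w.1 + (1 - L) * w.2)

private theorem h1_P_norm (l : ℝ) (hl : 1 < l) (w : ℂ × ℂ) : ‖h1_P l w‖ ≤ (2 + l) * ‖w‖ := by
  have hl0 : 0 < l := by linarith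
  have ha : ‖w.1‖ ≤ ‖w‖ := norm_fst_le w
  have hb : ‖w.2‖ ≤ ‖w‖ := norm_snd_le w
  have hw := norm_nonneg w
  have c1 : ‖(1 - 1 / (l : ℂ))‖ ≤ 1 := by
    have : (1 - 1 / (l : ℂ)) = ((1 - 1 / l : ℝ) : ℂ) := by push_cast; ring
    rw [this, Complex.norm_real, Real.norm_eq_abs, abs_le]
    have h1 : 0 < 1 / l := by positivity
    have h2 : 1 / l < 1 := by rw [div_lt_one hl0]; exact hl
    constructor <;> linarith
  have c2 : ‖(1 - (l : ℂ))‖ ≤ l := by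
    have : (1 - (l : ℂ)) = ((1 - l : ℝ) : ℂ) := by push_cast; ring
    rw [this, Complex.norm_real, Real.norm_eq_abs, abs_le]
    constructor <;> linarith
  rw [Prod.norm_def]
  refine max_le ?_ ?_
  · calc ‖w.1 + w.2‖ ≤ ‖w.1‖ + ‖w.2‖ := norm_add_le _ _
      _ ≤ (2 + l) * ‖w‖ := by nlinarith
  · calc ‖(1 - 1 / (l : ℂ)) * w.1 + (1 - (l : ℂ)) * w.2‖
        ≤ ‖(1 - 1 / (l : ℂ)) * w.1‖ + ‖(1 - (l : ℂ)) * w.2‖ := norm_add_le _ _
      _ = ‖(1 - 1 / (l : ℂ))‖ * ‖w.1‖ + ‖(1 - (l : ℂ))‖ * ‖w.2‖ := by rw [norm_mul, norm_mul]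
      _ ≤ 1 * ‖w‖ + l * ‖w‖ := by gcongr
      _ ≤ (2 + l) * ‖w‖ := by nlinarith

private theorem h1_bid (δ : ℝ) (z : ℂ × ℂ) : z ∈ bid δ ↔ ‖z‖ < δ := by
  rw [Prod.norm_def, max_lt_iff]; rfl

private theorem h1_fderiv (R : ℂ × ℂ → ℂ) (δ κ l : ℝ) (hδ : 0 < δ)
    (hRd : DifferentiableOn ℂ R (bid δ))
    (hRx : HasDerivAt (fun x : ℂ => R (x, 0)) (κ : ℂ) 0)
    (hRu : HasDerivAt (fun u : ℂ => R (0, u)) 1 0) :
    HasFDerivAt (fun w : ℂ × ℂ => R (h1_P l w) - κ * (h1_P l w).1 - (h1_P l w).2)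
      (0 : ℂ × ℂ →L[ℂ] ℂ) 0 := by
  have hbid : bid δ = ball (0 : ℂ × ℂ) δ := by
    ext z; rw [h1_bid, mem_ball, dist_zero_right]
  rw [hbid] at hRd
  have hR : HasFDerivAt R (fderiv ℂ R 0) (0 : ℂ × ℂ) :=
    (hRd.differentiableAt (isOpen_ball.mem_nhds (mem_ball_self hδ))).hasFDerivAt
  set R' := fderiv ℂ R (0 : ℂ × ℂ) with hR'
  have e1 : R' (1, 0) = κ := by
    have h1 : HasDerivAt (fun x : ℂ => ((x, 0) : ℂ × ℂ)) (1, 0) 0 :=
      (hasDerivAt_id (0 : ℂ)).prodMk (hasDerivAt_const (0 : ℂ) (0 : ℂ))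
    have h2 : HasDerivAt (fun x : ℂ => R (x, 0)) (R' (1, 0)) 0 :=
      HasFDerivAt.comp_hasDerivAt (0 : ℂ) (f := fun x : ℂ => ((x, 0) : ℂ × ℂ)) hR h1
    exact h2.unique hRx
  have e2 : R' (0, 1) = 1 := by
    have h1 : HasDerivAt (fun x : ℂ => ((0, x) : ℂ × ℂ)) (0, 1) 0 :=
      (hasDerivAt_const (0 : ℂ) (0 : ℂ)).prodMk (hasDerivAt_id (0 : ℂ))
    have h2 : HasDerivAt (fun x : ℂ => R (0, x)) (R' (0, 1)) 0 :=
      HasFDerivAt.comp_hasDerivAt (0 : ℂ) (f := fun x : ℂ => ((0, x) : ℂ × ℂ)) hR h1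
    exact h2.unique hRu
  have e3 : ∀ z : ℂ × ℂ, R' z = κ * z.1 + z.2 := by
    intro z
    have : z = z.1 • ((1, 0) : ℂ × ℂ) + z.2 • ((0, 1) : ℂ × ℂ) := by
      ext <;> simp
    rw [this, map_add, map_smul, map_smul, e1, e2]
    simp [mul_comm]
  -- the linear map `P`
  obtain ⟨P, hP⟩ : ∃ P : ℂ × ℂ →L[ℂ] ℂ × ℂ, ∀ w, P w = h1_P l w := by
    refine ⟨((ContinuousLinearMap.fst ℂ ℂ ℂ) + (ContinuousLinearMap.snd ℂ ℂ ℂ)).prod
      ((1 - 1 / (l : ℂ)) • (ContinuousLinearMap.fst ℂ ℂ ℂ) +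
        (1 - (l : ℂ)) • (ContinuousLinearMap.snd ℂ ℂ ℂ)), ?_⟩
    intro w
    rfl
  have hPf : h1_P l = fun w => P w := by funext w; rw [hP]
  rw [hPf]
  have h4 : HasFDerivAt (fun z : ℂ × ℂ => R z - κ * z.1 - z.2) (0 : ℂ × ℂ →L[ℂ] ℂ) 0 := by
    have h5 : HasFDerivAt (fun z : ℂ × ℂ => (κ : ℂ) * z.1 + z.2) R' 0 := by
      have h6 : (fun z : ℂ × ℂ => (κ : ℂ) * z.1 + z.2) = fun z => R' z := by
        funext z; rw [e3]
      rw [h6]
      exact R'.hasFDerivAt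
    have h7 := hR.sub h5
    rw [sub_self] at h7
    refine h7.congr_of_eventuallyEq (Eventually.of_forall fun z => ?_)
    show R z - κ * z.1 - z.2 = R z - (κ * z.1 + z.2)
    ring
  have h8 : HasFDerivAt (fun w : ℂ × ℂ => P w) P 0 := P.hasFDerivAt
  have h9 := HasFDerivAt.comp (0 : ℂ × ℂ) (g := fun z : ℂ × ℂ => R z - κ * z.1 - z.2)
    (f := fun w : ℂ × ℂ => P w) (by rw [map_zero]; exact h4) h8
  rw [ContinuousLinearMap.zero_comp] at h9
  exact h9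

theorem p_h1 : S_h1 := by
  intro R δ κ l hδ hRd hR0 hRx hRu hl hlκ hreal
  have hl0 : 0 < l := by linarith
  have hlC : (l : ℂ) ≠ 0 := by exact_mod_cast hl0.ne'
  have hl2 : 0 < l ^ 2 - 1 := by nlinarith
  have hl2C : (l : ℂ) ^ 2 - 1 ≠ 0 := by exact_mod_cast hl2.ne'
  have hκ : (κ : ℂ) = l + 1 / l - 2 := by
    have : κ = l + 1 / l - 2 := by linarith
    rw [this]; push_cast; ring
  have hbid : bid δ = ball (0 : ℂ × ℂ) δ := by
    ext z; rw [h1_bid, mem_ball, dist_zero_right]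
  -- the nonlinear part in the new coordinates
  obtain ⟨n, hn⟩ : ∃ n : ℂ × ℂ → ℂ,
      n = fun w : ℂ × ℂ => R (h1_P l w) - κ * (h1_P l w).1 - (h1_P l w).2 := ⟨_, rfl⟩
  have hP0 : h1_P l 0 = 0 := by simp [h1_P]
  have hn0 : n 0 = 0 := by
    rw [hn]
    show R (h1_P l 0) - κ * (h1_P l 0).1 - (h1_P l 0).2 = 0
    rw [hP0]
    have : R 0 = 0 := hR0
    simp [this]
  have hnF : HasFDerivAt n (0 : ℂ × ℂ →L[ℂ] ℂ) 0 := by
    rw [hn]
    exact h1_fderiv R δ κ l hδ hRd hRx hRu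
  have hρ₀ : 0 < δ / (2 + l) := by positivity
  have hPin : ∀ w : ℂ × ℂ, ‖w‖ < δ / (2 + l) → h1_P l w ∈ bid δ := by
    intro w hw
    rw [h1_bid]
    refine (h1_P_norm l hl w).trans_lt ?_
    rw [lt_div_iff₀ (by positivity)] at hw
    linarith
  have hPd : Differentiable ℂ (h1_P l) := by
    unfold h1_P
    fun_prop
  have hnd : DifferentiableOn ℂ n (ball 0 (δ / (2 + l))) := by
    rw [hn]
    have h1 : DifferentiableOn ℂ (fun w => R (h1_P l w)) (ball 0 (δ / (2 + l))) := by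
      refine hRd.comp hPd.differentiableOn ?_
      intro w hw
      rw [mem_ball, dist_zero_right] at hw
      exact hPin w hw
    have h2 : Differentiable ℂ (fun w => (κ : ℂ) * (h1_P l w).1) := by fun_prop
    have h3 : Differentiable ℂ (fun w => (h1_P l w).2) := by fun_prop
    exact (h1.sub h2.differentiableOn).sub h3.differentiableOn
  obtain ⟨C, hC, ρ, hρ, hρ', hlip⟩ := h1_lip n _ hρ₀ hnd hn0 hnF
  obtain ⟨α, hα⟩ : ∃ α : ℂ, α = (l : ℂ) ^ 2 / ((l : ℂ) ^ 2 - 1) := ⟨_, rfl⟩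
  obtain ⟨β, hβ⟩ : ∃ β : ℂ, β = -1 / ((l : ℂ) ^ 2 - 1) := ⟨_, rfl⟩
  have hαβ : α + β = 1 := by
    rw [hα, hβ]; field_simp; ring
  have hαβ' : (1 - 1 / (l : ℂ)) * α + (1 - l) * β = 1 := by
    rw [hα, hβ]; field_simp; ring
  have hαim : α.im = 0 := by
    have : α = ((l ^ 2 / (l ^ 2 - 1) : ℝ) : ℂ) := by rw [hα]; push_cast; ring
    rw [this, Complex.ofReal_im]
  have hβim : β.im = 0 := by
    have : β = ((-1 / (l ^ 2 - 1) : ℝ) : ℂ) := by rw [hβ]; push_cast; ring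
    rw [this, Complex.ofReal_im]
  obtain ⟨g, hg⟩ : ∃ g : ℂ × ℂ → ℂ × ℂ,
      g = fun w : ℂ × ℂ => (l * w.1 + α * n w, w.2 / l + β * n w) := ⟨_, rfl⟩
  obtain ⟨K, hK⟩ : ∃ K : ℝ, K = ‖α‖ + ‖β‖ := ⟨_, rfl⟩
  have hK0 : 0 ≤ K := by rw [hK]; positivity
  have hαK : ‖α‖ ≤ K := by rw [hK]; linarith [norm_nonneg β]
  have hβK : ‖β‖ ≤ K := by rw [hK]; linarith [norm_nonneg α]
  have hgd : DifferentiableOn ℂ g (ball 0 ρ) := by
    rw [hg]
    have hnd' := hnd.mono (ball_subset_ball hρ')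
    refine DifferentiableOn.prodMk ?_ ?_
    · refine DifferentiableOn.add ?_ (hnd'.const_mul α)
      fun_prop
    · refine DifferentiableOn.add ?_ (hnd'.const_mul β)
      fun_prop
  have hglip : ∀ s : ℝ, 0 < s → s < ρ → ∀ z z' : ℂ × ℂ, ‖z‖ ≤ s → ‖z'‖ ≤ s →
      ‖g z - g z'‖ ≤ (l + K * C * s) * ‖z - z'‖ := by
    intro s hs hsρ z z' hz hz'
    have h1 := hlip s hs hsρ z z' hz hz'
    have ha : ‖z.1 - z'.1‖ ≤ ‖z - z'‖ := norm_fst_le (z - z')
    have hb : ‖z.2 - z'.2‖ ≤ ‖z - z'‖ := norm_snd_le (z - z')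
    have hzz := norm_nonneg (z - z')
    rw [hg, Prod.norm_def]
    refine max_le ?_ ?_
    · show ‖(l * z.1 + α * n z) - (l * z'.1 + α * n z')‖ ≤ _
      calc ‖(l * z.1 + α * n z) - (l * z'.1 + α * n z')‖
          = ‖(l : ℂ) * (z.1 - z'.1) + α * (n z - n z')‖ := by congr 1; ring
        _ ≤ ‖(l : ℂ) * (z.1 - z'.1)‖ + ‖α * (n z - n z')‖ := norm_add_le _ _
        _ = l * ‖z.1 - z'.1‖ + ‖α‖ * ‖n z - n z'‖ := by
          rw [norm_mul, norm_mul, Complex.norm_real, Real.norm_of_nonneg hl0.le]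
        _ ≤ l * ‖z - z'‖ + K * (C * s * ‖z - z'‖) := by gcongr
        _ = (l + K * C * s) * ‖z - z'‖ := by ring
    · show ‖(z.2 / l + β * n z) - (z'.2 / l + β * n z')‖ ≤ _
      have h2 : ‖(z.2 - z'.2) / (l : ℂ)‖ ≤ l * ‖z - z'‖ := by
        rw [norm_div, Complex.norm_real, Real.norm_of_nonneg hl0.le, div_le_iff₀ hl0]
        nlinarith
      calc ‖(z.2 / l + β * n z) - (z'.2 / l + β * n z')‖
          = ‖(z.2 - z'.2) / (l : ℂ) + β * (n z - n z')‖ := by congr 1; ring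
        _ ≤ ‖(z.2 - z'.2) / (l : ℂ)‖ + ‖β * (n z - n z')‖ := norm_add_le _ _
        _ = ‖(z.2 - z'.2) / (l : ℂ)‖ + ‖β‖ * ‖n z - n z'‖ := by rw [norm_mul β]
        _ ≤ l * ‖z - z'‖ + K * (C * s * ‖z - z'‖) := by gcongr
        _ = (l + K * C * s) * ‖z - z'‖ := by ring
  have hgq : ∀ t : ℂ, ‖t‖ < ρ →
      ‖g (t • ((1, 0) : ℂ × ℂ)) - ((l : ℂ) * t) • ((1, 0) : ℂ × ℂ)‖ ≤ K * C * ‖t‖ ^ 2 := by
    intro t ht
    have hnt : ‖n (t • ((1, 0) : ℂ × ℂ))‖ ≤ C * ‖t‖ ^ 2 := by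
      rcases eq_or_ne t 0 with rfl | ht0
      · rw [zero_smul, hn0]; simp
      · have ht' : 0 < ‖t‖ := norm_pos_iff.2 ht0
        have hte : ‖t • ((1, 0) : ℂ × ℂ)‖ = ‖t‖ := by
          rw [norm_smul]; simp [Prod.norm_def]
        have := hlip ‖t‖ ht' ht (t • ((1, 0) : ℂ × ℂ)) 0 hte.le (by simp)
        rw [hn0, sub_zero, sub_zero, hte] at this
        calc _ ≤ C * ‖t‖ * ‖t‖ := this
          _ = _ := by ring
    have h1 : g (t • ((1, 0) : ℂ × ℂ)) - ((l : ℂ) * t) • ((1, 0) : ℂ × ℂ) =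
        (α * n (t • ((1, 0) : ℂ × ℂ)), β * n (t • ((1, 0) : ℂ × ℂ))) := by
      rw [hg]
      ext <;> simp
    rw [h1, Prod.norm_def]
    refine max_le ?_ ?_
    · show ‖α * n (t • ((1, 0) : ℂ × ℂ))‖ ≤ _
      rw [norm_mul, mul_assoc]
      gcongr
    · show ‖β * n (t • ((1, 0) : ℂ × ℂ))‖ ≤ _
      rw [norm_mul, mul_assoc]
      gcongr
  have hnreal : ∀ w : ℂ × ℂ, w.1.im = 0 → w.2.im = 0 → ‖w‖ < δ / (2 + l) → (n w).im = 0 := by
    intro w h1 h2 hw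
    have e1 : w.1 = ((w.1.re : ℝ) : ℂ) := Complex.ext (by simp) (by simp [h1])
    have e2 : w.2 = ((w.2.re : ℝ) : ℂ) := Complex.ext (by simp) (by simp [h2])
    obtain ⟨x, hx⟩ : ∃ x : ℝ, x = w.1.re := ⟨_, rfl⟩
    obtain ⟨y, hy⟩ : ∃ y : ℝ, y = w.2.re := ⟨_, rfl⟩
    rw [← hx] at e1
    rw [← hy] at e2
    have hPw : h1_P l w = (((x + y : ℝ) : ℂ), (((1 - 1 / l) * x + (1 - l) * y : ℝ) : ℂ)) := by
      unfold h1_P
      rw [e1, e2]
      ext1 <;> simp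
    have hin := hPin w hw
    rw [hPw] at hin
    have := hreal _ _ hin
    rw [hn]
    show (R (h1_P l w) - κ * (h1_P l w).1 - (h1_P l w).2).im = 0
    rw [hPw, Complex.sub_im, Complex.sub_im, this, Complex.im_ofReal_mul]
    simp
  obtain ⟨ε, hε, M, φ, hφd, hφ, hφS⟩ := h1_abs g ((1, 0) : ℂ × ℂ) l (K * C) ρ hl (by positivity) hρ
    (by simp [Prod.norm_def]) hgd hglip hgq {w : ℂ × ℂ | w.1.im = 0 ∧ w.2.im = 0}
    (by
      refine IsClosed.inter (isClosed_eq ?_ continuous_const) (isClosed_eq ?_ continuous_const)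
      · exact Complex.continuous_im.comp continuous_fst
      · exact Complex.continuous_im.comp continuous_snd)
    (by
      intro t
      simp)
    (by
      rintro w ⟨h1, h2⟩ hw
      have h3 := hnreal w h1 h2 (hw.trans_le hρ')
      rw [hg]
      constructor
      · show (l * w.1 + α * n w).im = 0
        rw [Complex.add_im, Complex.im_ofReal_mul, Complex.mul_im, h1, h3, hαim]
        simp
      · show (w.2 / l + β * n w).im = 0
        rw [Complex.add_im, Complex.div_ofReal_im, Complex.mul_im, h2, h3, hβim]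
        simp)
  have hball : ∀ t ∈ ball (0 : ℂ) ε, t / (l : ℂ) ∈ ball (0 : ℂ) ε := by
    intro t ht
    rw [mem_ball, dist_zero_right] at ht ⊢
    rw [norm_div, Complex.norm_real, Real.norm_of_nonneg hl0.le]
    exact (div_le_self (norm_nonneg _) hl.le).trans_lt ht
  -- the relation
  have hU : ∀ t ∈ ball (0 : ℂ) ε, (1 - 1 / (l : ℂ)) * (φ t).1 + (1 - l) * (φ t).2 =
      ((φ t).1 + (φ t).2) - ((φ (t / l)).1 + (φ (t / l)).2) := by
    intro t ht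
    have h1 := (hφ t ht).2.2
    rw [hg] at h1
    have h2 : (φ t).1 = l * (φ (t / l)).1 + α * n (φ (t / l)) := congrArg Prod.fst h1
    have h3 : (φ t).2 = (φ (t / l)).2 / l + β * n (φ (t / l)) := congrArg Prod.snd h1
    rw [h2, h3]
    have h4 : (1 - 1 / (l : ℂ)) * (l * (φ (t / l)).1 + α * n (φ (t / l))) +
        (1 - l) * ((φ (t / l)).2 / l + β * n (φ (t / l))) =
        (l - 1) * (φ (t / l)).1 + (1 / l - 1) * (φ (t / l)).2 +
          ((1 - 1 / (l : ℂ)) * α + (1 - l) * β) * n (φ (t / l)) := by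
      field_simp
      ring
    have h5 : (l * (φ (t / l)).1 + α * n (φ (t / l))) +
        ((φ (t / l)).2 / l + β * n (φ (t / l))) - ((φ (t / l)).1 + (φ (t / l)).2) =
        (l - 1) * (φ (t / l)).1 + (1 / l - 1) * (φ (t / l)).2 + (α + β) * n (φ (t / l)) := by
      field_simp
      ring
    rw [h4, h5, hαβ, hαβ']
  have hPφ : ∀ t ∈ ball (0 : ℂ) ε, h1_P l (φ t) =
      ((φ t).1 + (φ t).2, ((φ t).1 + (φ t).2) - ((φ (t / l)).1 + (φ (t / l)).2)) := by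
    intro t ht
    unfold h1_P
    rw [hU t ht]
  refine ⟨ε, hε, fun t => (φ t).1 + (φ t).2, ?_, ?_, ?_, ?_, ?_⟩
  · exact (differentiable_fst.comp_differentiableOn hφd).add
      (differentiable_snd.comp_differentiableOn hφd)
  · have h1 := (hφ 0 (mem_ball_self hε)).1
    have h2 : φ 0 = 0 := by
      rw [← norm_le_zero_iff]
      simpa using h1
    show (φ 0).1 + (φ 0).2 = 0
    rw [h2]; simp
  · have h0 : φ 0 = 0 := by
      have h1 := (hφ 0 (mem_ball_self hε)).1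
      rw [← norm_le_zero_iff]
      simpa using h1
    rw [hasDerivAt_iff_isLittleO]
    have h1 : (fun t : ℂ => (φ t).1 + (φ t).2 - ((φ 0).1 + (φ 0).2) - (t - 0) • (1 : ℂ))
        =O[𝓝 0] fun t : ℂ => t ^ 2 := by
      refine Asymptotics.IsBigO.of_bound (2 * M) ?_
      filter_upwards [ball_mem_nhds (0 : ℂ) hε] with t ht
      have h2 := (hφ t ht).1
      have ha : ‖(φ t).1 - t‖ ≤ ‖φ t - t • ((1, 0) : ℂ × ℂ)‖ := by
        have := norm_fst_le (φ t - t • ((1, 0) : ℂ × ℂ))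
        simpa using this
      have hb : ‖(φ t).2‖ ≤ ‖φ t - t • ((1, 0) : ℂ × ℂ)‖ := by
        have := norm_snd_le (φ t - t • ((1, 0) : ℂ × ℂ))
        simpa using this
      rw [h0, norm_pow]
      calc ‖(φ t).1 + (φ t).2 - ((0 : ℂ × ℂ).1 + (0 : ℂ × ℂ).2) - (t - 0) • (1 : ℂ)‖
          = ‖((φ t).1 - t) + (φ t).2‖ := by
            congr 1; simp; ring
        _ ≤ ‖(φ t).1 - t‖ + ‖(φ t).2‖ := norm_add_le _ _
        _ ≤ 2 * M * ‖t‖ ^ 2 := by linarith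
    refine h1.trans_isLittleO ?_
    have h3 : (fun t : ℂ => t ^ 2) =o[𝓝 0] fun t : ℂ => t := by
      have := Asymptotics.isLittleO_pow_pow (𝕜 := ℂ) (m := 1) (n := 2) one_lt_two
      simpa using this
    simpa using h3
  · intro t ht
    have ht' := hball t ht
    have htt : t / (l : ℂ) / l = t / (l : ℂ) ^ 2 := by rw [div_div, pow_two]
    have hin : ((φ t).1 + (φ t).2, ((φ t).1 + (φ t).2) - ((φ (t / l)).1 + (φ (t / l)).2)) ∈
        bid δ := by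
      rw [← hPφ t ht]
      exact hPin _ ((hφ t ht).2.1.trans_le hρ')
    refine ⟨hin, ?_⟩
    show (φ t).1 + (φ t).2 = ((φ (t / l)).1 + (φ (t / l)).2) +
      R ((φ (t / l)).1 + (φ (t / l)).2,
        ((φ (t / l)).1 + (φ (t / l)).2) - ((φ (t / l ^ 2)).1 + (φ (t / l ^ 2)).2))
    have h6 := hPφ _ ht'
    rw [htt] at h6
    rw [← h6]
    have h1 := (hφ t ht).2.2
    rw [hg] at h1
    have h2 : (φ t).1 = l * (φ (t / l)).1 + α * n (φ (t / l)) := congrArg Prod.fst h1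
    have h3 : (φ t).2 = (φ (t / l)).2 / l + β * n (φ (t / l)) := congrArg Prod.snd h1
    have h7 : R (h1_P l (φ (t / l))) =
        n (φ (t / l)) + κ * (h1_P l (φ (t / l))).1 + (h1_P l (φ (t / l))).2 := by
      rw [hn]; ring
    rw [h7, h2, h3, hκ]
    have h8 : (l * (φ (t / l)).1 + α * n (φ (t / l))) +
        ((φ (t / l)).2 / l + β * n (φ (t / l))) =
        l * (φ (t / l)).1 + (φ (t / l)).2 / l + (α + β) * n (φ (t / l)) := by ring
    rw [h8, hαβ]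
    unfold h1_P
    field_simp
    ring
  · intro t ht
    have h1 := hφS t ht
    show ((φ t).1 + (φ t).2).im = 0
    rw [Complex.add_im, h1.1, h1.2, add_zero]

end Pool.Agent.MP_2f2443_an.RC
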