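import Pool.Agent.Lib.MP_2f2443_an.RC.StmG

/-!
# The hyperbolic endpoint
-/

set_option autoImplicit false

namespace Pool.Agent.MP_2f2443_an.RC

open Filter Topology Pool.Agent.MP_2f2443_an.IP

private lemma hy_l (κ : ℝ) (hκ : 0 < κ) : ∃ l : ℝ, 1 < l ∧ l + 1 / l = 2 + κ := by
  have h1 : 0 < (2 + κ) ^ 2 - 4 := by nlinarith
  obtain ⟨s, hs0, hs2⟩ : ∃ s : ℝ, 0 < s ∧ s ^ 2 = (2 + κ) ^ 2 - 4 :=
    ⟨Real.sqrt ((2 + κ) ^ 2 - 4), Real.sqrt_pos.mpr h1, Real.sq_sqrt h1.le⟩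
  refine ⟨(2 + κ + s) / 2, by linarith, ?_⟩
  have h2 : (2 + κ + s) / 2 ≠ 0 := by
    have : 0 < (2 + κ + s) / 2 := by linarith
    exact this.ne'
  have h3 : (2 + κ + s) / 2 * ((2 + κ - s) / 2) = 1 := by nlinarith
  have h4 : 1 / ((2 + κ + s) / 2) = (2 + κ - s) / 2 := by
    rw [div_eq_iff h2]
    linarith
  rw [h4]
  ring

private lemma hy_lip {f : ℂ → ℂ} {ε : ℝ} (hε : 0 < ε)
    (hf : DifferentiableOn ℂ f (Metric.ball 0 ε)) {c : ℂ} (hc : HasDerivAt f c 0) {η : ℝ}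
    (hη : 0 < η) :
    ∃ ε1 > 0, ε1 ≤ ε ∧ (∀ t ∈ Metric.ball (0 : ℂ) ε1, ‖deriv f t - c‖ ≤ η) ∧
      ∀ s ∈ Metric.ball (0 : ℂ) ε1, ∀ t ∈ Metric.ball (0 : ℂ) ε1,
        ‖f t - f s - c * (t - s)‖ ≤ η * ‖t - s‖ := by
  have hcont : ContinuousAt (deriv f) 0 :=
    ((hf.deriv Metric.isOpen_ball).continuousOn).continuousAt
      (Metric.isOpen_ball.mem_nhds (Metric.mem_ball_self hε))
  have hev : ∀ᶠ t in 𝓝 (0 : ℂ), ‖deriv f t - c‖ < η := by
    have h1 : Tendsto (fun t => ‖deriv f t - c‖) (𝓝 0) (𝓝 ‖deriv f 0 - c‖) :=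
      (hcont.sub continuousAt_const).norm
    rw [hc.deriv, sub_self, norm_zero] at h1
    exact h1.eventually_lt_const hη
  obtain ⟨ε2, hε2, h2⟩ := Metric.eventually_nhds_iff_ball.mp hev
  refine ⟨min ε ε2, lt_min hε hε2, min_le_left _ _, ?_, ?_⟩
  · intro t ht
    exact (h2 t (Metric.ball_subset_ball (min_le_right _ _) ht)).le
  · intro s hs t ht
    have hd : ∀ x ∈ Metric.ball (0 : ℂ) (min ε ε2), HasDerivAt (fun t => f t - c * t)
        (deriv f x - c) x := by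
      intro x hx
      have h3 : HasDerivAt f (deriv f x) x :=
        ((hf.differentiableAt (Metric.isOpen_ball.mem_nhds
          (Metric.ball_subset_ball (min_le_left _ _) hx))).hasDerivAt)
      have h4 : HasDerivAt (fun t : ℂ => c * t) c x := by
        have := (hasDerivAt_id x).const_mul c
        simpa using this
      exact h3.sub h4
    have h5 := Convex.norm_image_sub_le_of_norm_deriv_le (𝕜 := ℂ) (f := fun t => f t - c * t)
      (s := Metric.ball (0 : ℂ) (min ε ε2)) (C := η) (x := s) (y := t)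
      (fun x hx => (hd x hx).differentiableAt)
      (fun x hx => by
        rw [(hd x hx).deriv]
        exact (h2 x (Metric.ball_subset_ball (min_le_right _ _) hx)).le)
      (convex_ball _ _) hs ht
    have h6 : f t - c * t - (f s - c * s) = f t - f s - c * (t - s) := by ring
    rw [← h6]
    exact h5

private lemma hy_mem {δ : ℝ} {x u : ℂ} : (x, u) ∈ bid δ ↔ ‖x‖ < δ ∧ ‖u‖ < δ := Iff.rfl

private lemma hy_holx {R : ℂ × ℂ → ℂ} {δ : ℝ} (hR : DifferentiableOn ℂ R (bid δ)) {u : ℂ}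
    (hu : ‖u‖ < δ) : DifferentiableOn ℂ (fun x : ℂ => R (x, u)) (Metric.ball 0 δ) := by
  have h1 : DifferentiableOn ℂ (fun x : ℂ => (x, u)) (Metric.ball 0 δ) :=
    (differentiable_id.prodMk (differentiable_const u)).differentiableOn
  exact hR.comp h1 (fun x hx => hy_mem.mpr ⟨mem_ball_zero_iff.mp hx, hu⟩)

private lemma hy_derivu {G : ℂ × ℂ → ℂ × ℂ} {a δ C : ℝ} {R : ℂ × ℂ → ℂ} {Ψ : ℂ × ℂ → ℂ × ℂ}
    (hL : Loc G a δ C R Ψ) : HasDerivAt (fun u : ℂ => R (0, u)) 1 0 := by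
  rw [hasDerivAt_iff_isLittleO_nhds_zero, Asymptotics.isLittleO_iff]
  intro c hc
  have hd : 0 < min δ (c / C) := lt_min hL.dpos (div_pos hc hL.cpos)
  filter_upwards [Metric.ball_mem_nhds (0 : ℂ) hd] with u hu
  rw [mem_ball_zero_iff, lt_min_iff] at hu
  have h1 := hL.est (0, u) (hy_mem.mpr ⟨by rw [norm_zero]; exact hL.dpos, hu.1⟩)
  have h2 : R ((0 : ℂ), (0 : ℂ)) = 0 := hL.zero
  simp only [h2, sub_zero, norm_zero, add_zero] at h1
  simp only [zero_add, h2, sub_zero, smul_eq_mul, mul_one]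
  calc ‖R (0, u) - u‖ ≤ C * ‖u‖ * ‖u‖ := h1
    _ ≤ c * ‖u‖ := by
      apply mul_le_mul_of_nonneg_right _ (norm_nonneg u)
      have := hu.2.le
      rw [le_div_iff₀ hL.cpos] at this
      linarith

private lemma hy_gu {R : ℂ × ℂ → ℂ} {δ : ℝ} (hδ : 0 < δ) (hR : DifferentiableOn ℂ R (bid δ))
    (hlip : ∀ x u v : ℂ, (x, u) ∈ bid δ → (x, v) ∈ bid δ →
      ‖R (x, u) - R (x, v) - (u - v)‖ ≤ 1 / 2 * ‖u - v‖) {u : ℂ} (hu : ‖u‖ < δ) :
    ∀ x ∈ Metric.ball (0 : ℂ) (δ / 2), ∀ y ∈ Metric.ball (0 : ℂ) (δ / 2),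
      ‖(R (y, u) - R (y, 0)) - (R (x, u) - R (x, 0))‖ ≤ 6 * ‖u‖ / δ * ‖y - x‖ := by
  have hg : DifferentiableOn ℂ (fun x : ℂ => R (x, u) - R (x, 0)) (Metric.ball 0 δ) :=
    (hy_holx hR hu).sub (hy_holx hR (by rw [norm_zero]; exact hδ))
  have hbd : ∀ x ∈ Metric.ball (0 : ℂ) δ, ‖R (x, u) - R (x, 0)‖ ≤ 3 / 2 * ‖u‖ := by
    intro x hx
    rw [mem_ball_zero_iff] at hx
    have h1 := hlip x u 0 (hy_mem.mpr ⟨hx, hu⟩) (hy_mem.mpr ⟨hx, by rw [norm_zero]; exact hδ⟩)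
    rw [sub_zero] at h1
    have h2 : R (x, u) - R (x, 0) = (R (x, u) - R (x, 0) - u) + u := by ring
    rw [h2]
    refine (norm_add_le _ _).trans ?_
    linarith
  intro x hx y hy
  have hsub : Metric.ball (0 : ℂ) (δ / 2) ⊆ Metric.ball 0 δ :=
    Metric.ball_subset_ball (by linarith)
  refine Convex.norm_image_sub_le_of_norm_deriv_le (𝕜 := ℂ)
    (f := fun x : ℂ => R (x, u) - R (x, 0)) (s := Metric.ball (0 : ℂ) (δ / 2))
    (C := 6 * ‖u‖ / δ) (x := x) (y := y)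
    (fun z hz => hg.differentiableAt (Metric.isOpen_ball.mem_nhds (hsub hz)))
    (fun z hz => ?_) (convex_ball _ _) hx hy
  have hz' : ‖z‖ < δ / 2 := mem_ball_zero_iff.mp hz
  have hcl : Metric.closedBall z (δ / 4) ⊆ Metric.ball 0 δ := by
    intro w hw
    rw [Metric.mem_closedBall, dist_eq_norm] at hw
    rw [mem_ball_zero_iff]
    have : w = (w - z) + z := by ring
    rw [this]
    refine (norm_add_le _ _).trans_lt ?_
    linarith
  have h1 := Complex.norm_deriv_le_of_forall_mem_sphere_norm_le (c := z) (R := δ / 4)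
    (C := 3 / 2 * ‖u‖) (f := fun x : ℂ => R (x, u) - R (x, 0)) (by linarith)
    (DifferentiableOn.diffContOnCl (hg.mono
      ((closure_mono Metric.ball_subset_closedBall).trans
        (by rw [Metric.isClosed_closedBall.closure_eq]; exact hcl))))
    (fun w hw => hbd w (hcl (Metric.sphere_subset_closedBall hw)))
  have h2 : 3 / 2 * ‖u‖ / (δ / 4) = 6 * ‖u‖ / δ := by
    field_simp
    ring
  rw [h2] at h1
  exact h1

private lemma hy_monx {G : ℂ × ℂ → ℂ × ℂ} {a δ C : ℝ} {R : ℂ × ℂ → ℂ} {Ψ : ℂ × ℂ → ℂ × ℂ}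
    (hL : Loc G a δ C R Ψ) {κ : ℝ} (hκ : 0 < κ)
    (hd : HasDerivAt (fun x : ℂ => R (x, 0)) (κ : ℂ) 0) :
    ∃ d > 0, d ≤ δ ∧ ∀ x y u : ℝ, 0 < x → x ≤ y → y < d → 0 < u → u < d →
      (R ((x : ℂ), (u : ℂ))).re ≤ (R ((y : ℂ), (u : ℂ))).re := by
  have hδ := hL.dpos
  obtain ⟨ε1, hε1, hε1δ, -, hK⟩ := hy_lip hδ
    (hy_holx hL.holR (by rw [norm_zero]; exact hδ)) hd (η := κ / 4) (by linarith)
  refine ⟨min ε1 (min (δ / 2) (κ * δ / 24)), lt_min hε1 (lt_min (by linarith) (by positivity)),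
    (min_le_left _ _).trans hε1δ, ?_⟩
  intro x y u hx hxy hyd hu hud
  rw [lt_min_iff, lt_min_iff] at hyd hud
  have hnx : ‖(x : ℂ)‖ = x := by rw [Complex.norm_real, Real.norm_of_nonneg hx.le]
  have hny : ‖(y : ℂ)‖ = y := by rw [Complex.norm_real, Real.norm_of_nonneg (hx.le.trans hxy)]
  have hnu : ‖(u : ℂ)‖ = u := by rw [Complex.norm_real, Real.norm_of_nonneg hu.le]
  have h1 := hK (x : ℂ) (by rw [mem_ball_zero_iff, hnx]; linarith) (y : ℂ)
    (by rw [mem_ball_zero_iff, hny]; linarith)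
  have h2 := hy_gu hδ hL.holR hL.lip (u := (u : ℂ)) (by rw [hnu]; linarith) (x : ℂ)
    (by rw [mem_ball_zero_iff, hnx]; linarith) (y : ℂ)
    (by rw [mem_ball_zero_iff, hny]; linarith)
  have hnxy : ‖(y : ℂ) - (x : ℂ)‖ = y - x := by
    rw [← Complex.ofReal_sub, Complex.norm_real, Real.norm_of_nonneg (by linarith)]
  rw [hnxy] at h1 h2
  rw [hnu] at h2
  have h3 : 6 * u / δ ≤ κ / 4 := by
    rw [div_le_iff₀ hδ]
    have := hud.2.2
    linarith
  have h4 : 6 * u / δ * (y - x) ≤ κ / 4 * (y - x) :=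
    mul_le_mul_of_nonneg_right h3 (by linarith)
  have e1 : (R ((y : ℂ), (u : ℂ))).re - (R ((x : ℂ), (u : ℂ))).re =
      (R ((y : ℂ), 0) - R ((x : ℂ), 0) - (κ : ℂ) * ((y : ℂ) - (x : ℂ))).re +
      ((R ((y : ℂ), (u : ℂ)) - R ((y : ℂ), 0)) - (R ((x : ℂ), (u : ℂ)) - R ((x : ℂ), 0))).re +
      κ * (y - x) := by
    simp only [Complex.sub_re, Complex.mul_re, Complex.ofReal_re, Complex.ofReal_im,
      Complex.sub_im]
    ring
  have h5 := (abs_le.mp ((Complex.abs_re_le_norm _).trans h1)).1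
  have h6 := (abs_le.mp ((Complex.abs_re_le_norm _).trans (h2.trans h4))).1
  have h7 : 0 ≤ κ * (y - x) := mul_nonneg hκ.le (by linarith)
  linarith

/-- real and imaginary parts of the increments of a function close to the identity -/
private lemma hy_inc {X : ℂ → ℂ} {ε1 : ℝ}
    (hX : ∀ s ∈ Metric.ball (0 : ℂ) ε1, ∀ t ∈ Metric.ball (0 : ℂ) ε1,
      ‖X t - X s - 1 * (t - s)‖ ≤ 1 / 2 * ‖t - s‖) {s t : ℝ} (hs : 0 ≤ s) (hst : s ≤ t)
    (ht : t < ε1) : (t - s) / 2 ≤ (X (t : ℂ)).re - (X (s : ℂ)).re ∧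
      (X (t : ℂ)).re - (X (s : ℂ)).re ≤ 3 / 2 * (t - s) := by
  have h1 := hX (s : ℂ) (by
    rw [mem_ball_zero_iff, Complex.norm_real, Real.norm_of_nonneg hs]; linarith) (t : ℂ) (by
    rw [mem_ball_zero_iff, Complex.norm_real, Real.norm_of_nonneg (hs.trans hst)]; linarith)
  have h2 : ‖(t : ℂ) - (s : ℂ)‖ = t - s := by
    rw [← Complex.ofReal_sub, Complex.norm_real, Real.norm_of_nonneg (by linarith)]
  rw [h2] at h1
  have h3 := abs_le.mp ((Complex.abs_re_le_norm _).trans h1)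
  have h4 : (X (t : ℂ) - X (s : ℂ) - 1 * ((t : ℂ) - (s : ℂ))).re =
      (X (t : ℂ)).re - (X (s : ℂ)).re - (t - s) := by
    simp only [one_mul, Complex.sub_re, Complex.ofReal_re]
  rw [h4] at h3
  constructor <;> linarith [h3.1, h3.2]

theorem p_hy : S_hy := by
  intro h1 h_eh h_cm G a δ C R Ψ hL κ hκ hd
  obtain ⟨l, hl1, hl⟩ := hy_l κ hκ
  obtain ⟨ε, hε, X, hXd, hX0, hX1, hXe, hXr⟩ := h1 R δ κ l hL.dpos hL.holR hL.zero hd
    (hy_derivu hL) hl1 hl hL.real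
  obtain ⟨ε1, hε1, hε1ε, hXder, hXlip⟩ := hy_lip hε hXd hX1 (η := 1 / 2) (by norm_num)
  have hl0 : 0 < l := by linarith
  have hlc : (l : ℂ) ≠ 0 := Complex.ofReal_ne_zero.mpr hl0.ne'
  have hsub : Metric.ball (0 : ℂ) ε1 ⊆ Metric.ball 0 ε := Metric.ball_subset_ball hε1ε
  have hdiv : ∀ (r : ℝ) (t : ℂ), t ∈ Metric.ball (0 : ℂ) r → t / l ∈ Metric.ball (0 : ℂ) r := by
    intro r t ht
    rw [mem_ball_zero_iff] at ht ⊢
    rw [norm_div, Complex.norm_real, Real.norm_of_nonneg hl0.le]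
    exact (div_le_self (norm_nonneg t) hl1.le).trans_lt ht
  let φ₀ : ℂ → ℂ × ℂ := fun t => Ψ (X t, X t - X (t / l))
  have hmap : ∀ t ∈ Metric.ball (0 : ℂ) ε1, (X t, X t - X (t / l)) ∈ bid δ := fun t ht =>
    (hXe t (hsub ht)).1
  have hXdl : DifferentiableOn ℂ (fun t : ℂ => X (t / l)) (Metric.ball 0 ε1) := by
    refine (hXd.mono hsub).comp ?_ (fun t ht => hdiv ε1 t ht)
    exact (differentiable_id.div_const (l : ℂ)).differentiableOn
  have hφd : DifferentiableOn ℂ φ₀ (Metric.ball 0 ε1) :=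
    hL.holP.comp ((hXd.mono hsub).prodMk ((hXd.mono hsub).sub hXdl)) hmap
  have hφ1 : ∀ t ∈ Metric.ball (0 : ℂ) ε1, (φ₀ t).1 = a + X t := fun t ht =>
    hL.fst _ (hmap t ht)
  have hXinj : ∀ s ∈ Metric.ball (0 : ℂ) ε1, ∀ t ∈ Metric.ball (0 : ℂ) ε1, X t = X s → t = s := by
    intro s hs t ht h
    have h2 := hXlip s hs t ht
    rw [h, sub_self, one_mul, zero_sub, norm_neg] at h2
    have h3 : ‖t - s‖ = 0 := le_antisymm (by linarith [norm_nonneg (t - s)]) (norm_nonneg _)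
    exact sub_eq_zero.mp (norm_eq_zero.mp h3)
  have hinj : Set.InjOn φ₀ (Metric.ball 0 ε1) := by
    intro s hs t ht h
    have h2 : (φ₀ s).1 = (φ₀ t).1 := by rw [h]
    rw [hφ1 s hs, hφ1 t ht] at h2
    exact hXinj t ht s hs (add_left_cancel h2)
  have hder : ∀ t ∈ Metric.ball (0 : ℂ) ε1, deriv φ₀ t ≠ 0 := by
    intro t ht h0
    have hnh : Metric.ball (0 : ℂ) ε1 ∈ 𝓝 t := Metric.isOpen_ball.mem_nhds ht
    have h2 : HasDerivAt φ₀ (deriv φ₀ t) t := (hφd.differentiableAt hnh).hasDerivAt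
    have h3 : HasDerivAt (fun t => (φ₀ t).1) (deriv φ₀ t).1 t :=
      (ContinuousLinearMap.fst ℂ ℂ ℂ).hasFDerivAt.comp_hasDerivAt t h2
    have h4 : HasDerivAt (fun t => (a : ℂ) + X t) (deriv X t) t :=
      ((hXd.mono hsub).differentiableAt hnh).hasDerivAt.const_add (a : ℂ)
    have h5 : (fun t => (φ₀ t).1) =ᶠ[𝓝 t] fun t => (a : ℂ) + X t := by
      filter_upwards [hnh] with s hs
      exact hφ1 s hs
    have h6 := (h4.congr_of_eventuallyEq h5).unique h3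
    rw [h0] at h6
    have h7 := hXder t ht
    rw [h6] at h7
    simp only [Prod.fst_zero, zero_sub, norm_neg, norm_one] at h7
    norm_num at h7
  have hdd : ∀ t : ℂ, t / (l : ℂ) / (l : ℂ) = t / (l : ℂ) ^ 2 := by
    intro t
    rw [div_div, pow_two]
  have heq : ∀ t ∈ Metric.ball (0 : ℂ) ε1, φ₀ t = G (φ₀ (t / l)) := by
    intro t ht
    have h2 := hXe t (hsub ht)
    have h3 := (hXe (t / l) (hsub (hdiv ε1 t ht))).1
    rw [hdd] at h3
    have h4 : R (X (t / l), X (t / l) - X (t / l ^ 2)) = X t - X (t / l) := by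
      linear_combination -h2.2
    have h5 : ((X (t / l), X (t / l) - X (t / l ^ 2)).1 +
        R (X (t / l), X (t / l) - X (t / l ^ 2)), R (X (t / l), X (t / l) - X (t / l ^ 2))) =
        (X t, X t - X (t / l)) := by
      rw [h4]
      simp only [Prod.mk.injEq, and_true]
      ring
    have h6 := hL.eqn _ h3 (by rw [h5]; exact h2.1)
    rw [h5] at h6
    show Ψ (X t, X t - X (t / l)) = G (Ψ (X (t / l), X (t / l) - X (t / l / l)))
    rw [hdd]
    exact h6.symm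
  obtain ⟨φ, hφ, hφφ⟩ := h_eh G l ε1 φ₀ hL.aut hl1 hε1 hφd hinj hder heq
  refine ⟨φ, hφ, ?_⟩
  obtain ⟨d1, hd1, hd1δ, hmon⟩ := hy_monx hL hκ hd
  have hX0r : (X ((0 : ℝ) : ℂ)).re = 0 := by
    rw [Complex.ofReal_zero, hX0, Complex.zero_re]
  refine ⟨min d1 (ε1 / 4), lt_min hd1 (by linarith), ?_⟩
  intro ξ hξ hξ0
  rw [lt_min_iff] at hξ0
  obtain ⟨hξpos, hξlim, hξeq⟩ := hξ
  have hξ0pos : 0 < ξ 0 := (hξpos 0).1.trans (hξpos 0).2
  -- the parameter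
  have hcont : ContinuousOn (fun t : ℝ => (X (t : ℂ)).re) (Set.Icc 0 (ε1 / 2)) := by
    intro t ht
    have h2 : (t : ℂ) ∈ Metric.ball (0 : ℂ) ε1 := by
      rw [mem_ball_zero_iff, Complex.norm_real, Real.norm_of_nonneg ht.1]
      linarith [ht.2]
    have h3 : ContinuousAt X (t : ℂ) :=
      ((hXd.mono hsub).continuousOn).continuousAt (Metric.isOpen_ball.mem_nhds h2)
    have h4 : ContinuousAt (fun t : ℝ => X (t : ℂ)) t :=
      ContinuousAt.comp (f := fun t : ℝ => (t : ℂ)) h3 Complex.continuous_ofReal.continuousAt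
    exact (Complex.continuous_re.continuousAt.comp h4).continuousWithinAt
  have hend := (hy_inc hXlip (le_refl (0 : ℝ)) (by linarith : (0 : ℝ) ≤ ε1 / 2) (by linarith)).1
  rw [hX0r] at hend
  obtain ⟨t₀, ht₀, ht₀e⟩ := intermediate_value_Icc (by linarith : (0 : ℝ) ≤ ε1 / 2) hcont
    (show ξ 0 ∈ Set.Icc _ _ from ⟨by rw [hX0r]; exact hξ0pos.le, by linarith⟩)
  simp only at ht₀e
  have ht₀pos : 0 < t₀ := by
    rcases ht₀.1.lt_or_eq with h | h
    · exact h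
    · exfalso
      rw [← h, hX0r] at ht₀e
      linarith
  have ht₀lt : t₀ < ε1 := by linarith [ht₀.2]
  -- the orbit
  let η : ℕ → ℝ := fun j => (X ((t₀ / l ^ j : ℝ) : ℂ)).re
  have hlj : ∀ j : ℕ, 0 < l ^ j := fun j => pow_pos hl0 j
  have htpos : ∀ j : ℕ, 0 < t₀ / l ^ j := fun j => div_pos ht₀pos (hlj j)
  have htle : ∀ j : ℕ, t₀ / l ^ j < ε1 := fun j =>
    (div_le_self ht₀pos.le (one_le_pow₀ hl1.le)).trans_lt ht₀lt
  have htlt : ∀ j : ℕ, t₀ / l ^ (j + 1) < t₀ / l ^ j := fun j =>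
    div_lt_div_of_pos_left ht₀pos (hlj j) (pow_lt_pow_right₀ hl1 (Nat.lt_succ_self j))
  have hηpos : ∀ j, 0 < η j := by
    intro j
    have h2 := (hy_inc hXlip (le_refl (0 : ℝ)) (htpos j).le (htle j)).1
    rw [hX0r] at h2
    have := htpos j
    show 0 < (X ((t₀ / l ^ j : ℝ) : ℂ)).re
    linarith
  have hηlt : ∀ j, η (j + 1) < η j := by
    intro j
    have h2 := (hy_inc hXlip (htpos (j + 1)).le (htlt j).le (htle j)).1
    have := htlt j
    show (X ((t₀ / l ^ (j + 1) : ℝ) : ℂ)).re < (X ((t₀ / l ^ j : ℝ) : ℂ)).re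
    linarith
  have hηle : ∀ j, η j ≤ 3 / 2 * (t₀ / l ^ j) := by
    intro j
    have h2 := (hy_inc hXlip (le_refl (0 : ℝ)) (htpos j).le (htle j)).2
    rw [hX0r] at h2
    show (X ((t₀ / l ^ j : ℝ) : ℂ)).re ≤ _
    linarith
  have hηlim : Tendsto η atTop (𝓝 0) := by
    have h2 : Tendsto (fun j : ℕ => t₀ / l ^ j) atTop (𝓝 0) :=
      (tendsto_pow_atTop_atTop_of_one_lt hl1).const_div_atTop t₀
    have h3 := h2.const_mul (3 / 2)
    rw [mul_zero] at h3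
    exact squeeze_zero (fun j => (hηpos j).le) hηle h3
  have hηX : ∀ j, X ((t₀ / l ^ j : ℝ) : ℂ) = (η j : ℂ) := by
    intro j
    apply Complex.ext
    · rw [Complex.ofReal_re]
    · rw [Complex.ofReal_im]
      apply hXr
      rw [mem_ball_zero_iff, Complex.norm_real, Real.norm_of_nonneg (htpos j).le]
      linarith [htle j]
  have hηeq : ∀ j, (η j : ℂ) = η (j + 1) +
      R ((η (j + 1) : ℂ), ((η (j + 1) - η (j + 2) : ℝ) : ℂ)) := by
    intro j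
    have h2 := (hXe ((t₀ / l ^ j : ℝ) : ℂ) (by
      rw [mem_ball_zero_iff, Complex.norm_real, Real.norm_of_nonneg (htpos j).le]
      linarith [htle j])).2
    have e1 : ((t₀ / l ^ j : ℝ) : ℂ) / (l : ℂ) = ((t₀ / l ^ (j + 1) : ℝ) : ℂ) := by
      rw [← Complex.ofReal_div, div_div, pow_succ]
    have e2 : ((t₀ / l ^ j : ℝ) : ℂ) / (l : ℂ) ^ 2 = ((t₀ / l ^ (j + 2) : ℝ) : ℂ) := by
      rw [← Complex.ofReal_pow, ← Complex.ofReal_div, div_div, pow_add]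
    rw [e1, e2, hηX, hηX, hηX, ← Complex.ofReal_sub] at h2
    exact h2
  have hη0 : η 0 = ξ 0 := by
    show (X ((t₀ / l ^ 0 : ℝ) : ℂ)).re = ξ 0
    rw [pow_zero, div_one]
    exact ht₀e
  have hre : ∀ ζ : ℕ → ℝ, (∀ j, (ζ j : ℂ) = ζ (j + 1) +
      R ((ζ (j + 1) : ℂ), ((ζ (j + 1) - ζ (j + 2) : ℝ) : ℂ))) → ∀ j,
      ζ j - ζ (j + 1) = (R ((ζ (j + 1) : ℂ), ((ζ (j + 1) - ζ (j + 2) : ℝ) : ℂ))).re := by
    intro ζ hζ j
    have h2 := congrArg Complex.re (hζ j)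
    rw [Complex.add_re, Complex.ofReal_re, Complex.ofReal_re] at h2
    linarith
  have hcmp : ∀ n : ℕ, |ξ 1 - η 1| ≤ |ξ (n + 1) - η (n + 1)| := by
    intro n
    refine h_cm (fun x u => (R ((x : ℂ), (u : ℂ))).re) (fun _ _ => True) d1 n ξ η ?_ ?_
      hη0.symm hξ0.1 ?_ ?_
    · intro x u v hx hxd hu huv hvd
      have hnx : ‖(x : ℂ)‖ = x := by rw [Complex.norm_real, Real.norm_of_nonneg hx.le]
      have hnu : ‖(u : ℂ)‖ = u := by rw [Complex.norm_real, Real.norm_of_nonneg hu.le]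
      have hnv : ‖(v : ℂ)‖ = v := by
        rw [Complex.norm_real, Real.norm_of_nonneg (hu.le.trans huv.le)]
      have h2 := hL.lip (x : ℂ) (v : ℂ) (u : ℂ)
        (hy_mem.mpr ⟨by rw [hnx]; linarith, by rw [hnv]; linarith⟩)
        (hy_mem.mpr ⟨by rw [hnx]; linarith, by rw [hnu]; linarith⟩)
      have h3 : ‖(v : ℂ) - (u : ℂ)‖ = v - u := by
        rw [← Complex.ofReal_sub, Complex.norm_real, Real.norm_of_nonneg (by linarith)]
      rw [h3] at h2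
      have h4 := (abs_le.mp ((Complex.abs_re_le_norm _).trans h2)).1
      simp only [Complex.sub_re, Complex.ofReal_re] at h4
      show (R ((x : ℂ), (u : ℂ))).re < (R ((x : ℂ), (v : ℂ))).re
      linarith
    · intro x y u hx hxy hyd hu hud _
      exact hmon x y u hx hxy hyd hu hud
    · intro j _
      exact ⟨(hξpos j).1, (hξpos j).2, hηpos (j + 1), hηlt j⟩
    · intro j _
      exact ⟨hre ξ hξeq j, hre η hηeq j, trivial, trivial⟩
  have hlim : Tendsto (fun n : ℕ => |ξ (n + 1) - η (n + 1)|) atTop (𝓝 0) := by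
    have h2 : Tendsto (fun n : ℕ => ξ (n + 1) - η (n + 1)) atTop (𝓝 (0 - 0)) :=
      ((tendsto_add_atTop_iff_nat 1).mpr hξlim).sub ((tendsto_add_atTop_iff_nat 1).mpr hηlim)
    rw [sub_zero] at h2
    have h3 := h2.abs
    rw [abs_zero] at h3
    exact h3
  have hle : |ξ 1 - η 1| ≤ 0 := ge_of_tendsto' hlim hcmp
  have h11 : ξ 1 = η 1 := by
    have := abs_nonpos_iff.mp hle
    linarith
  have ht₀mem : (t₀ : ℂ) ∈ Metric.ball (0 : ℂ) ε1 := by
    rw [mem_ball_zero_iff, Complex.norm_real, Real.norm_of_nonneg ht₀pos.le]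
    exact ht₀lt
  refine ⟨(t₀ : ℂ), ?_⟩
  rw [hφφ _ ht₀mem]
  show Ψ (X (t₀ : ℂ), X (t₀ : ℂ) - X ((t₀ : ℂ) / l)) = _
  have e0 : X (t₀ : ℂ) = (ξ 0 : ℂ) := by
    have h2 := hηX 0
    rw [pow_zero, div_one, hη0] at h2
    exact h2
  have e1 : X ((t₀ : ℂ) / l) = (ξ 1 : ℂ) := by
    have h2 := hηX 1
    rw [pow_one, ← h11, Complex.ofReal_div] at h2
    exact h2
  rw [e0, e1, ← Complex.ofReal_sub]

end Pool.Agent.MP_2f2443_an.RC
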