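import Pool.Agent.Lib.MP_2f2443_an.RC.StmQ

/-!
# MP_2f2443_an, project RC, piece ic: the curve is invariant
-/

set_option autoImplicit false

namespace Pool.Agent.MP_2f2443_an.RC

open Filter Topology Pool.Agent.MP_2f2443_an.IP

/-- A new first point in front of a backward orbit. -/
private def ic_cons (x : ℝ) (ξ : ℕ → ℝ) : ℕ → ℝ
  | 0 => x
  | n + 1 => ξ n

private theorem ic_BO {R : ℂ × ℂ → ℂ} {ξ : ℕ → ℝ} (h : BO R ξ) (x : ℝ) (hx : ξ 0 < x)
    (h0 : 0 < ξ 0)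
    (hR : (x : ℂ) = ξ 0 + R ((ξ 0 : ℂ), ((ξ 0 - ξ 1 : ℝ) : ℂ))) : BO R (ic_cons x ξ) := by
  obtain ⟨h1, h2, h3⟩ := h
  refine ⟨?_, ?_, ?_⟩
  · intro j
    cases j with
    | zero => exact ⟨h0, hx⟩
    | succ j => exact h1 j
  · rw [← tendsto_add_atTop_iff_nat 1]
    exact h2
  · intro j
    cases j with
    | zero => exact hR
    | succ j => exact h3 j

private theorem ic_mem {C₂ C₃ : ℝ} (h : C₂ + 2 ≤ C₃) {w z : ℂ} (hw : w ∈ Wd C₃)
    (hz : ‖z - w - 1‖ ≤ 1 / 7) : z ∈ Wd C₂ := by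
  have hw' : w.re + C₃ < |w.im| := hw
  change z.re + C₂ < |z.im|
  have h1 := (Complex.abs_re_le_norm (z - w - 1)).trans hz
  have h2 := (Complex.abs_im_le_norm (z - w - 1)).trans hz
  simp only [Complex.sub_re, Complex.sub_im, Complex.one_re, Complex.one_im, sub_zero] at h1 h2
  have h3 := (abs_le.1 h1).2
  have h4 : |w.im| ≤ |z.im| + |z.im - w.im| := by
    have h5 : w.im = z.im - (z.im - w.im) := by ring
    calc |w.im| = |z.im - (z.im - w.im)| := by rw [← h5]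
      _ ≤ |z.im| + |z.im - w.im| := abs_sub _ _
  linarith

theorem p_ic : S_ic := by
  intro hp0 hwd G a δ C R Ψ m κ C₁ A σ C₂ M W S E g hLoc hK hT hLk hC12 hM hCu hBO
  obtain ⟨hν, hcc, hchi, homd, hne, hpos, hmono, hsurj, -, -⟩ := hp0 m κ hK.1 hK.2.1
  obtain ⟨hg1, hg2, hg3, hg4⟩ := hCu
  obtain ⟨d, hd, hBO⟩ := hBO
  -- the size of chi
  have hlim : Tendsto (fun t : ℝ => (cc m κ * t) ^ (-(1 / nu m))) atTop (𝓝 0) :=
    (tendsto_rpow_neg_atTop (one_div_pos.2 hν)).comp (tendsto_id.const_mul_atTop hcc)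
  obtain ⟨T, hTT⟩ := eventually_atTop.1 (hlim.eventually (gt_mem_nhds hd))
  have hC1 : 1 ≤ C₁ := hT.cpos
  have hA : 0 < A := hT.apos
  set C₃ : ℝ := C₂ + 2 + 112 * A + |T| with hC3def
  have hTabs : T ≤ |T| := le_abs_self T
  have hTn : 0 ≤ |T| := abs_nonneg T
  have hC3a : C₂ + 2 ≤ C₃ := by rw [hC3def]; nlinarith
  have hC3b : 112 * A ≤ C₃ := by rw [hC3def]; nlinarith
  have hC3c : T ≤ C₃ := by rw [hC3def]; nlinarith
  have hC30 : 0 ≤ C₃ := by linarith
  have hC20 : 0 ≤ C₂ := by linarith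
  obtain ⟨hopen, hpre, -, -, hnorm, hreal⟩ := hwd C₃ hC30
  obtain ⟨-, -, -, -, hnorm2, hreal2⟩ := hwd C₂ hC20
  have hsub32 : ∀ w ∈ Wd C₃, w ∈ Wd C₂ := by
    intro w hw
    have hw' : w.re + C₃ < |w.im| := hw
    change w.re + C₂ < |w.im|
    linarith
  have hsub21 : ∀ w ∈ Wd C₂, w ∈ Wd C₁ := by
    intro w hw
    have hw' : w.re + C₂ < |w.im| := hw
    change w.re + C₁ < |w.im|
    linarith
  have hgs : ∀ w ∈ Wd C₂, ‖g w‖ < 1 / 2 := by
    intro w hw
    have := (hg2 w hw).2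
    linarith
  -- the estimate for f w = W (w, g w)
  have hest : ∀ w ∈ Wd C₃, ‖W (w, g w) - w - 1‖ ≤ 1 / 7 := by
    intro w hw
    have hw2 := hsub32 w hw
    have hw1 := hsub21 w hw2
    have h1 := hT.w1 w (g w) hw1 (hgs w hw2)
    obtain ⟨h2, h3⟩ := hnorm w hw
    have h4 : A / ‖w‖ ≤ 1 / 56 := by
      rw [div_le_iff₀ h3]
      linarith
    have h5 := (hg2 w hw2).2
    have h6 : W (w, g w) - w - 1 = (W (w, g w) - w - 1 - g w) + g w := by ring
    rw [h6]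
    have h7 := norm_add_le (W (w, g w) - w - 1 - g w) (g w)
    linarith
  have hmap : ∀ w ∈ Wd C₃, W (w, g w) ∈ Wd C₂ := fun w hw => ic_mem hC3a hw (hest w hw)
  -- the real points
  have hre : ∀ w : ℝ, (w : ℂ) ∈ Wd C₃ → S ((w : ℂ), g w) = g (W ((w : ℂ), g w)) := by
    intro w hw
    have hw2 := hsub32 _ hw
    have hw1 := hsub21 _ hw2
    have hwl : w < -C₃ := (hreal w).1 hw
    have hw0 : w < 0 := by linarith
    have hwne : (w : ℂ) ≠ 0 := by exact_mod_cast hw0.ne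
    obtain ⟨x, hx0, hx⟩ := hpos w hw0
    have hxn : x = (cc m κ * ‖(w : ℂ)‖) ^ (-(1 / nu m)) := by
      rw [← (hne w hwne).2.2.1, hx, Complex.norm_real, Real.norm_eq_abs, abs_of_pos hx0]
    have hxd : x < d := by
      rw [hxn, Complex.norm_real, Real.norm_eq_abs, abs_of_neg hw0]
      exact hTT (-w) (by linarith)
    obtain ⟨ξ, hξ, hξ0⟩ := hBO x hx0 hxd
    have hu := hg4 w hw2 ξ hξ (by rw [hx, hξ0])
    obtain ⟨l1, l2, l3, l4⟩ := hLk w hw1 (g w) (hgs _ hw2)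
    -- f w is real
    set z : ℂ := W ((w : ℂ), g w) with hz
    have hgre : g w = (((g w).re : ℝ) : ℂ) := by
      apply Complex.ext
      · simp
      · simp [hg3 w hw2]
    have hgabs : |(g w).re| < 1 / 2 := lt_of_le_of_lt (Complex.abs_re_le_norm _) (hgs _ hw2)
    have hzim : z.im = 0 := by
      have := (hT.real w (g w).re hw1 hgabs).1
      rw [← hgre] at this
      exact this
    have hzre : z = ((z.re : ℝ) : ℂ) := by
      apply Complex.ext
      · simp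
      · simp [hzim]
    have hzmem : z ∈ Wd C₂ := hmap _ hw
    have hzmem' : ((z.re : ℝ) : ℂ) ∈ Wd C₂ := by rw [← hzre]; exact hzmem
    have hzl : z.re < -C₂ := (hreal2 z.re).1 hzmem'
    have hz0 : z.re < 0 := by linarith
    have hwz : w < z.re := by
      have h1 := (Complex.abs_re_le_norm (z - w - 1)).trans (hest _ hw)
      simp only [Complex.sub_re, Complex.ofReal_re, Complex.one_re] at h1
      have := (abs_le.1 h1).1
      linarith
    obtain ⟨x', hx'0, hx'⟩ := hpos z.re hz0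
    have hlt : x < x' := by
      have := hmono w z.re hwz hz0
      rw [hx, hx', Complex.ofReal_re, Complex.ofReal_re] at this
      exact this
    have hzz : chi m κ z = x' := by rw [hzre]; exact hx'
    -- the longer backward orbit
    have hRx : (x' : ℂ) = ξ 0 + R ((ξ 0 : ℂ), ((ξ 0 - ξ 1 : ℝ) : ℂ)) := by
      rw [hu, ← hzz, hξ0, l3, hx]
    have hη : BO R (ic_cons x' ξ) := ic_BO hξ x' (by rw [hξ0]; exact hlt) (by rw [hξ0]; exact hx0) hRx
    have hv := hg4 z.re hzmem' (ic_cons x' ξ) hη (by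
      rw [hx']
      rfl)
    rw [← hzre] at hv
    have hv' : ((x' - ξ 0 : ℝ) : ℂ) = om m κ z * (1 + g z) := hv
    have hv2 : ((x' - ξ 0 : ℝ) : ℂ) = om m κ z * (1 + S ((w : ℂ), g w)) := by
      have h9 : R (chi m κ w, om m κ w * (1 + g w)) = (x' : ℂ) - ξ 0 := by
        rw [hx, ← hξ0, ← hu]
        exact eq_sub_of_add_eq' hRx.symm
      rw [l4, h9, Complex.ofReal_sub]
    have hzne : z ≠ 0 := by
      rw [hzre]
      exact_mod_cast hz0.ne
    have hom : om m κ z ≠ 0 := (hne z hzne).2.1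
    have := mul_left_cancel₀ hom (hv'.symm.trans hv2)
    exact (add_left_cancel this).symm
  -- the identity theorem
  have hfd : DifferentiableOn ℂ (fun w : ℂ => ((w, g w) : ℂ × ℂ)) (Wd C₃) :=
    differentiableOn_id.prodMk (hg1.mono hsub32)
  have hfm : ∀ w ∈ Wd C₃, (w, g w) ∈ {z : ℂ × ℂ | z.1 ∈ Wd C₁ ∧ ‖z.2‖ < 1 / 2} :=
    fun w hw => ⟨hsub21 w (hsub32 w hw), hgs w (hsub32 w hw)⟩
  have hd1 : DifferentiableOn ℂ (fun w : ℂ => S (w, g w)) (Wd C₃) := hT.holS.comp hfd hfm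
  have hd2 : DifferentiableOn ℂ (fun w : ℂ => W (w, g w)) (Wd C₃) := hT.holW.comp hfd hfm
  have hd3 : DifferentiableOn ℂ (fun w : ℂ => g (W (w, g w))) (Wd C₃) := hg1.comp hd2 hmap
  have hz0mem : (((-C₃ - 1 : ℝ)) : ℂ) ∈ Wd C₃ := (hreal _).2 (by linarith)
  have htend : Tendsto (fun n : ℕ => (((-C₃ - 1 - 1 / ((n : ℝ) + 1) : ℝ)) : ℂ)) atTop
      (𝓝[≠] (((-C₃ - 1 : ℝ)) : ℂ)) := by
    rw [tendsto_nhdsWithin_iff]
    constructor
    · have h1 : Tendsto (fun n : ℕ => (-C₃ - 1 - 1 / ((n : ℝ) + 1) : ℝ)) atTop (𝓝 (-C₃ - 1 - 0)) :=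
        tendsto_const_nhds.sub tendsto_one_div_add_atTop_nhds_zero_nat
      rw [sub_zero] at h1
      exact (Complex.continuous_ofReal.tendsto _).comp h1
    · refine Eventually.of_forall fun n => ?_
      intro he
      have h2 : (-C₃ - 1 - 1 / ((n : ℝ) + 1) : ℝ) = -C₃ - 1 := Complex.ofReal_injective he
      have h3 : 0 < 1 / ((n : ℝ) + 1) := Nat.one_div_pos_of_nat
      linarith
  have heq : Set.EqOn (fun w : ℂ => S (w, g w)) (fun w : ℂ => g (W (w, g w))) (Wd C₃) := by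
    refine AnalyticOnNhd.eqOn_of_preconnected_of_frequently_eq (hd1.analyticOnNhd hopen)
      (hd3.analyticOnNhd hopen) hpre hz0mem ?_
    refine htend.frequently (Frequently.of_forall fun n => ?_)
    have h3 : 0 < 1 / ((n : ℝ) + 1) := Nat.one_div_pos_of_nat
    exact hre _ ((hreal _).2 (by linarith))
  exact ⟨C₃, by linarith, fun w hw => ⟨hmap w hw, heq hw, hest w hw⟩⟩

end Pool.Agent.MP_2f2443_an.RC
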