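import Pool.Agent.Lib.MP_2f2443_an.RC.StmQ

/-! [RC iv] the inverse of `z ↦ z + 1 + b z` on `Wd C`. -/

set_option autoImplicit false

namespace Pool.Agent.MP_2f2443_an.RC

open Filter Topology Pool.Agent.MP_2f2443_an.IP

/-- the iterates -/
private noncomputable def iv_B (b : ℂ → ℂ) : ℕ → ℂ → ℂ
  | 0 => fun w => w - 1
  | n + 1 => fun w => w - 1 - b (iv_B b n w)

private lemma iv_mem {C : ℝ} (hadd : ∀ w ∈ Wd C, ∀ v : ℂ, ‖v + 1‖ ≤ 7 / 10 → w + v ∈ Wd C)
    {w z : ℂ} (hw : w ∈ Wd C) (hz : ‖z - (w - 1)‖ ≤ 7 / 10) : z ∈ Wd C := by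
  have h := hadd w hw (z - w) (by
    have : z - w + 1 = z - (w - 1) := by ring
    rw [this]; exact hz)
  have h2 : w + (z - w) = z := by ring
  rwa [h2] at h

private lemma iv_deriv {C : ℝ}
    (hadd : ∀ w ∈ Wd C, ∀ v : ℂ, ‖v + 1‖ ≤ 7 / 10 → w + v ∈ Wd C) {b : ℂ → ℂ}
    (hb : DifferentiableOn ℂ b (Wd C)) (hb7 : ∀ w ∈ Wd C, ‖b w‖ ≤ 1 / 7)
    {w z : ℂ} (hw : w ∈ Wd C) (hz : ‖z - (w - 1)‖ ≤ 1 / 4) : ‖deriv b z‖ ≤ 1 / 3 := by
  have hsub : Metric.closedBall z (9 / 20) ⊆ Wd C := by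
    intro u hu
    rw [Metric.mem_closedBall, dist_eq_norm] at hu
    apply iv_mem hadd hw
    have h1 : u - (w - 1) = (u - z) + (z - (w - 1)) := by ring
    rw [h1]
    refine (norm_add_le _ _).trans ?_
    linarith
  have hd : DiffContOnCl ℂ b (Metric.ball z (9 / 20)) := by
    apply DifferentiableOn.diffContOnCl
    rw [closure_ball z (by norm_num : (9 / 20 : ℝ) ≠ 0)]
    exact hb.mono hsub
  have h := Complex.norm_deriv_le_of_forall_mem_sphere_norm_le (by norm_num : (0 : ℝ) < 9 / 20) hd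
    (C := 1 / 7) (fun u hu => hb7 u (hsub (Metric.sphere_subset_closedBall hu)))
  refine h.trans ?_
  norm_num

private lemma iv_lip {C : ℝ} (hopen : IsOpen (Wd C))
    (hadd : ∀ w ∈ Wd C, ∀ v : ℂ, ‖v + 1‖ ≤ 7 / 10 → w + v ∈ Wd C) {b : ℂ → ℂ}
    (hb : DifferentiableOn ℂ b (Wd C)) (hb7 : ∀ w ∈ Wd C, ‖b w‖ ≤ 1 / 7)
    {w x y : ℂ} (hw : w ∈ Wd C) (hx : ‖x - (w - 1)‖ ≤ 1 / 4) (hy : ‖y - (w - 1)‖ ≤ 1 / 4) :
    ‖b y - b x‖ ≤ 1 / 3 * ‖y - x‖ := by
  apply Convex.norm_image_sub_le_of_norm_deriv_le (s := Metric.closedBall (w - 1) (1 / 4)) (𝕜 := ℂ)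
  · intro z hz
    rw [Metric.mem_closedBall, dist_eq_norm] at hz
    have hzW : z ∈ Wd C := iv_mem hadd hw (by linarith)
    exact (hb z hzW).differentiableAt (hopen.mem_nhds hzW)
  · intro z hz
    rw [Metric.mem_closedBall, dist_eq_norm] at hz
    exact iv_deriv hadd hb hb7 hw hz
  · exact convex_closedBall _ _
  · rw [Metric.mem_closedBall, dist_eq_norm]; exact hx
  · rw [Metric.mem_closedBall, dist_eq_norm]; exact hy

theorem p_iv : S_iv := by
  intro hwd C b hC hb hb7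
  obtain ⟨hopen, -, hadd, -, -, -⟩ := hwd C hC
  -- the iterates stay close to `w - 1`
  have hclose : ∀ n, ∀ w ∈ Wd C, ‖iv_B b n w - (w - 1)‖ ≤ 1 / 7 := by
    intro n
    induction n with
    | zero => intro w hw; simp [iv_B]
    | succ n ih =>
      intro w hw
      have h1 : iv_B b (n + 1) w - (w - 1) = - b (iv_B b n w) := by
        show w - 1 - b (iv_B b n w) - (w - 1) = _
        ring
      rw [h1, norm_neg]
      apply hb7
      exact iv_mem hadd hw ((ih w hw).trans (by norm_num))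
  have hmem : ∀ n, ∀ w ∈ Wd C, iv_B b n w ∈ Wd C := fun n w hw =>
    iv_mem hadd hw ((hclose n w hw).trans (by norm_num))
  have hdiff : ∀ n, DifferentiableOn ℂ (iv_B b n) (Wd C) := by
    intro n
    induction n with
    | zero =>
      show DifferentiableOn ℂ (fun w : ℂ => w - 1) (Wd C)
      fun_prop
    | succ n ih =>
      show DifferentiableOn ℂ (fun w : ℂ => w - 1 - b (iv_B b n w)) (Wd C)
      apply DifferentiableOn.sub
      · fun_prop
      · exact hb.comp ih (fun w hw => hmem n w hw)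
  have hstep : ∀ w ∈ Wd C, ∀ n, dist (iv_B b n w) (iv_B b (n + 1) w) ≤ 1 / 7 * (1 / 3 : ℝ) ^ n := by
    intro w hw n
    induction n with
    | zero =>
      rw [dist_comm, dist_eq_norm, pow_zero, mul_one]
      exact hclose 1 w hw
    | succ n ih =>
      rw [dist_comm, dist_eq_norm] at ih ⊢
      have h1 : iv_B b (n + 1 + 1) w - iv_B b (n + 1) w =
          -(b (iv_B b (n + 1) w) - b (iv_B b n w)) := by
        show w - 1 - b (iv_B b (n + 1) w) - (w - 1 - b (iv_B b n w)) = _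
        ring
      rw [h1, norm_neg]
      have h2 := iv_lip hopen hadd hb hb7 hw ((hclose n w hw).trans (by norm_num))
        ((hclose (n + 1) w hw).trans (by norm_num))
      refine h2.trans ?_
      rw [pow_succ]
      nlinarith [ih]
  -- the limit
  set B : ℂ → ℂ := fun w => limUnder atTop (fun n => iv_B b n w) with hB
  have hlim : ∀ w ∈ Wd C, Tendsto (fun n => iv_B b n w) atTop (𝓝 (B w)) := by
    intro w hw
    have hc : CauchySeq (fun n => iv_B b n w) :=
      cauchySeq_of_le_geometric (1 / 3) (1 / 7) (by norm_num) (hstep w hw)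
    exact CauchySeq.tendsto_limUnder hc
  have hrate : ∀ w ∈ Wd C, ∀ n, dist (iv_B b n w) (B w) ≤ 1 / 7 * (1 / 3 : ℝ) ^ n / (1 - 1 / 3) :=
    fun w hw n => dist_le_of_le_geometric_of_tendsto (1 / 3) (1 / 7) (by norm_num) (hstep w hw)
      (hlim w hw) n
  have hB7 : ∀ w ∈ Wd C, ‖B w - (w - 1)‖ ≤ 1 / 7 := by
    intro w hw
    have h1 : Tendsto (fun n => ‖iv_B b n w - (w - 1)‖) atTop (𝓝 ‖B w - (w - 1)‖) :=
      ((hlim w hw).sub_const _).norm
    exact le_of_tendsto h1 (Eventually.of_forall (fun n => hclose n w hw))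
  have hBmem : ∀ w ∈ Wd C, B w ∈ Wd C := fun w hw =>
    iv_mem hadd hw ((hB7 w hw).trans (by norm_num))
  have hunif : TendstoUniformlyOn (fun n => iv_B b n) B atTop (Wd C) := by
    rw [Metric.tendstoUniformlyOn_iff]
    intro ε hε
    have h1 : Tendsto (fun n : ℕ => 1 / 7 * (1 / 3 : ℝ) ^ n / (1 - 1 / 3)) atTop (𝓝 0) := by
      have h2 := tendsto_pow_atTop_nhds_zero_of_lt_one (by norm_num : (0 : ℝ) ≤ 1 / 3)
        (by norm_num : (1 / 3 : ℝ) < 1)
      have h3 := (h2.const_mul (1 / 7)).div_const (1 - 1 / 3)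
      simpa using h3
    filter_upwards [h1.eventually (eventually_lt_nhds hε)] with n hn w hw
    rw [dist_comm]
    exact (hrate w hw n).trans_lt hn
  have hBdiff : DifferentiableOn ℂ B (Wd C) :=
    hunif.tendstoLocallyUniformlyOn.differentiableOn (Eventually.of_forall hdiff) hopen
  have hfix : ∀ w ∈ Wd C, B w + 1 + b (B w) = w := by
    intro w hw
    have hcb : ContinuousAt b (B w) :=
      ((hb (B w) (hBmem w hw)).differentiableAt (hopen.mem_nhds (hBmem w hw))).continuousAt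
    have h1 : Tendsto (fun n => w - 1 - b (iv_B b n w)) atTop (𝓝 (w - 1 - b (B w))) :=
      (hcb.tendsto.comp (hlim w hw)).const_sub (w - 1)
    have h2 : Tendsto (fun n => iv_B b (n + 1) w) atTop (𝓝 (B w)) :=
      (hlim w hw).comp (tendsto_add_atTop_nat 1)
    have h3 : B w = w - 1 - b (B w) := tendsto_nhds_unique h2 h1
    linear_combination h3
  refine ⟨B, hBdiff, fun w hw => ⟨hBmem w hw, hB7 w hw, hfix w hw⟩, ?_, ?_⟩
  · intro w hw z hz hz4 hzw
    have h1 := iv_lip hopen hadd hb hb7 hw ((hB7 w hw).trans (by norm_num)) hz4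
    have h2 : z - B w = -(b z - b (B w)) := by
      have := hfix w hw
      linear_combination hzw - this
    have h3 : ‖z - B w‖ ≤ 1 / 3 * ‖z - B w‖ := by
      conv_lhs => rw [h2, norm_neg]
      exact h1
    have h4 : ‖z - B w‖ ≤ 0 := by linarith [norm_nonneg (z - B w)]
    exact sub_eq_zero.mp (norm_le_zero_iff.mp h4)
  · intro hre w hw
    have him : ∀ n, (iv_B b n (w : ℂ)).im = 0 := by
      intro n
      induction n with
      | zero => show ((w : ℂ) - 1).im = 0; simp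
      | succ n ih =>
        show ((w : ℂ) - 1 - b (iv_B b n w)).im = 0
        have h1 : iv_B b n (w : ℂ) = (((iv_B b n (w : ℂ)).re : ℝ) : ℂ) := by
          apply Complex.ext
          · simp
          · simp [ih]
        have h2 : (b (iv_B b n (w : ℂ))).im = 0 := by
          have h3 := hmem n (w : ℂ) hw
          rw [h1] at h3 ⊢
          exact hre _ h3
        simp [h2]
    have h1 : Tendsto (fun n => (iv_B b n (w : ℂ)).im) atTop (𝓝 (B (w : ℂ)).im) :=
      (Complex.continuous_im.tendsto _).comp (hlim w hw)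
    have h2 : (fun n => (iv_B b n (w : ℂ)).im) = fun _ => (0 : ℝ) := funext him
    rw [h2] at h1
    exact (tendsto_nhds_unique h1 tendsto_const_nhds)

end Pool.Agent.MP_2f2443_an.RC
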