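import Pool.Agent.Lib.MP_2f2443_an.RC.StmG

/-!
# MP_2f2443_an, project RC, piece lo: local coordinates
-/

set_option autoImplicit false

namespace Pool.Agent.MP_2f2443_an.RC

open Filter Topology Pool.Agent.MP_2f2443_an.IP

/-! ### Cauchy estimates in two variables -/

private lemma lo_cauchy (f : ℂ × ℂ → ℂ × ℂ) (z : ℂ × ℂ) (r M : ℝ) (hr : 0 < r)
    (hf : ∀ w, ‖w - z‖ < r → DifferentiableAt ℂ f w) (hM : ∀ w, ‖w - z‖ < r → ‖f w‖ ≤ M) :
    ‖fderiv ℂ f z‖ ≤ 2 * M / r := by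
  have hM0 : 0 ≤ M := le_trans (norm_nonneg _) (hM z (by simpa using hr))
  refine ContinuousLinearMap.opNorm_le_bound _ (by positivity) (fun v => ?_)
  by_cases hv : v = 0
  · subst hv; simp
  have hv' : 0 < ‖v‖ := norm_pos_iff.mpr hv
  set ρ : ℝ := r / (2 * ‖v‖) with hρ
  have hρ0 : 0 < ρ := by positivity
  have hρv : ρ * ‖v‖ = r / 2 := by rw [hρ]; field_simp
  have hin : ∀ t : ℂ, ‖t‖ ≤ ρ → ‖(z + t • v) - z‖ < r := by
    intro t ht
    rw [add_sub_cancel_left, norm_smul]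
    calc ‖t‖ * ‖v‖ ≤ ρ * ‖v‖ := by gcongr
      _ = r / 2 := hρv
      _ < r := by linarith
  have hg : ∀ t : ℂ, ‖t‖ ≤ ρ →
      HasDerivAt (fun t : ℂ => f (z + t • v)) (fderiv ℂ f (z + t • v) v) t := by
    intro t ht
    have h1 : HasDerivAt (fun t : ℂ => z + t • v) v t := by
      simpa using ((hasDerivAt_id t).smul_const v).const_add z
    exact (hf _ (hin t ht)).hasFDerivAt.comp_hasDerivAt t h1
  have h0 := hg 0 (by simpa using hρ0.le)
  simp only [zero_smul, add_zero] at h0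
  have h1 : DiffContOnCl ℂ (fun t : ℂ => f (z + t • v)) (Metric.ball 0 ρ) := by
    refine DifferentiableOn.diffContOnCl_ball (U := Metric.closedBall 0 ρ) ?_ subset_rfl
    intro t ht
    exact (hg t (by simpa using ht)).differentiableAt.differentiableWithinAt
  have h2 := Complex.norm_deriv_le_of_forall_mem_sphere_norm_le hρ0 h1 (C := M) (by
    intro t ht
    exact hM _ (hin t (by simpa using (mem_sphere_zero_iff_norm.mp ht).le)))
  rw [h0.deriv] at h2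
  refine h2.trans (le_of_eq ?_)
  rw [hρ]
  field_simp

private lemma lo_lip (f : ℂ × ℂ → ℂ × ℂ) (z₀ : ℂ × ℂ)
    (hf : ∀ᶠ w in 𝓝 z₀, DifferentiableAt ℂ f w) :
    ∃ r > 0, ∃ K > 0, (∀ w, ‖w - z₀‖ < r → DifferentiableAt ℂ f w) ∧
      (∀ w w', ‖w - z₀‖ < r → ‖w' - z₀‖ < r → ‖f w - f w'‖ ≤ K * ‖w - w'‖) ∧
      (∀ w w', ‖w - z₀‖ < r → ‖w' - z₀‖ < r →
        ‖fderiv ℂ f w - fderiv ℂ f w'‖ ≤ K * ‖w - w'‖) := by
  have hc : ContinuousAt f z₀ := hf.self_of_nhds.continuousAt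
  have hb : ∀ᶠ w in 𝓝 z₀, ‖f w‖ < ‖f z₀‖ + 1 :=
    hc.norm.eventually_lt continuousAt_const (by linarith)
  obtain ⟨r₀, hr₀, h₀⟩ := Metric.eventually_nhds_iff.mp (hf.and hb)
  set M : ℝ := ‖f z₀‖ + 1 with hM
  have hM0 : 0 < M := by positivity
  have hd : ∀ w, ‖w - z₀‖ < r₀ → DifferentiableAt ℂ f w := fun w hw =>
    (h₀ (by rwa [dist_eq_norm])).1
  have hbd : ∀ w, ‖w - z₀‖ < r₀ → ‖f w‖ ≤ M := fun w hw =>
    (h₀ (by rwa [dist_eq_norm])).2.le
  set K₀ : ℝ := 2 * M / (r₀ / 2) with hK₀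
  have hK₀' : 0 < K₀ := by positivity
  have h1 : ∀ z, ‖z - z₀‖ < r₀ / 2 → ‖fderiv ℂ f z‖ ≤ K₀ := by
    intro z hz
    have hin : ∀ w, ‖w - z‖ < r₀ / 2 → ‖w - z₀‖ < r₀ := by
      intro w hw
      calc ‖w - z₀‖ = ‖(w - z) + (z - z₀)‖ := by congr 1; abel
        _ ≤ ‖w - z‖ + ‖z - z₀‖ := norm_add_le _ _
        _ < r₀ := by linarith
    exact lo_cauchy f z (r₀ / 2) M (by linarith) (fun w hw => hd w (hin w hw))
      (fun w hw => hbd w (hin w hw))
  have h2 : ∀ w w', ‖w - z₀‖ < r₀ / 2 → ‖w' - z₀‖ < r₀ / 2 → ‖f w - f w'‖ ≤ K₀ * ‖w - w'‖ := by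
    intro w w' hw hw'
    refine Convex.norm_image_sub_le_of_norm_fderiv_le (𝕜 := ℂ) (s := Metric.ball z₀ (r₀ / 2))
      ?_ ?_ (convex_ball _ _) ?_ ?_
    · intro z hz
      exact hd z (by rw [Metric.mem_ball, dist_eq_norm] at hz; linarith)
    · intro z hz
      exact h1 z (by rwa [Metric.mem_ball, dist_eq_norm] at hz)
    · rwa [Metric.mem_ball, dist_eq_norm]
    · rwa [Metric.mem_ball, dist_eq_norm]
  have h3 : ∀ w z, ‖w - z₀‖ < r₀ / 8 → ‖z - z₀‖ < r₀ / 8 →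
      ‖fderiv ℂ f w - fderiv ℂ f z‖ ≤ 8 * K₀ / r₀ * ‖w - z‖ := by
    intro w z hw hz
    have hin1 : ∀ x, ‖x - z‖ < r₀ / 4 → ‖x - z₀‖ < r₀ / 2 := by
      intro x hx
      calc ‖x - z₀‖ = ‖(x - z) + (z - z₀)‖ := by congr 1; abel
        _ ≤ ‖x - z‖ + ‖z - z₀‖ := norm_add_le _ _
        _ < r₀ / 2 := by linarith
    have hin2 : ∀ x, ‖x - z‖ < r₀ / 4 → ‖x + (w - z) - z₀‖ < r₀ / 2 := by
      intro x hx
      calc ‖x + (w - z) - z₀‖ = ‖(x - z) + (w - z₀)‖ := by congr 1; abel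
        _ ≤ ‖x - z‖ + ‖w - z₀‖ := norm_add_le _ _
        _ < r₀ / 2 := by linarith
    have hda : ∀ x, ‖x - z‖ < r₀ / 4 → HasFDerivAt (fun x => f (x + (w - z)) - f x)
        (fderiv ℂ f (x + (w - z)) - fderiv ℂ f x) x := by
      intro x hx
      have e1 : HasFDerivAt (fun x => f (x + (w - z))) (fderiv ℂ f (x + (w - z))) x := by
        have e2 : HasFDerivAt (fun x : ℂ × ℂ => x + (w - z)) (ContinuousLinearMap.id ℂ (ℂ × ℂ)) x :=
          (hasFDerivAt_id x).add_const (w - z)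
        have e3 := (hd _ (by linarith [hin2 x hx] : ‖x + (w - z) - z₀‖ < r₀)).hasFDerivAt.comp x e2
        rw [ContinuousLinearMap.comp_id] at e3
        exact e3
      exact e1.sub (hd _ (by linarith [hin1 x hx])).hasFDerivAt
    have h4 := lo_cauchy (fun x => f (x + (w - z)) - f x) z (r₀ / 4) (K₀ * ‖w - z‖) (by linarith)
      (fun x hx => (hda x hx).differentiableAt) (by
        intro x hx
        have := h2 _ _ (hin2 x hx) (hin1 x hx)
        simpa using this)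
    rw [(hda z (by simpa using (by linarith : (0:ℝ) < r₀ / 4))).fderiv] at h4
    have h5 : z + (w - z) = w := by abel
    rw [h5] at h4
    refine h4.trans (le_of_eq ?_)
    field_simp
    ring
  refine ⟨r₀ / 8, by linarith, K₀ + 8 * K₀ / r₀, by positivity, ?_, ?_, ?_⟩
  · intro w hw
    exact hd w (by linarith)
  · intro w w' hw hw'
    refine (h2 w w' (by linarith) (by linarith)).trans ?_
    have : 0 ≤ 8 * K₀ / r₀ * ‖w - w'‖ := by positivity
    nlinarith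
  · intro w w' hw hw'
    refine (h3 w w' hw hw').trans ?_
    have : 0 ≤ K₀ * ‖w - w'‖ := by positivity
    nlinarith

private lemma lo_cont (f : ℂ × ℂ → ℂ × ℂ) (hf : Differentiable ℂ f) :
    Continuous (fun z => fderiv ℂ f z) := by
  rw [continuous_iff_continuousAt]
  intro z₀
  obtain ⟨r, hr, K, hK, -, -, h⟩ := lo_lip f z₀ (Eventually.of_forall fun w => hf w)
  rw [Metric.continuousAt_iff]
  intro ε hε
  refine ⟨min r (ε / (2 * K)), by positivity, ?_⟩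
  intro w hw
  rw [dist_eq_norm] at hw ⊢
  have h1 := h w z₀ (lt_of_lt_of_le hw (min_le_left _ _)) (by simpa using hr)
  have h2 : ‖w - z₀‖ < ε / (2 * K) := lt_of_lt_of_le hw (min_le_right _ _)
  calc ‖fderiv ℂ f w - fderiv ℂ f z₀‖ ≤ K * ‖w - z₀‖ := h1
    _ ≤ K * (ε / (2 * K)) := by gcongr
    _ = ε / 2 := by field_simp
    _ < ε := by linarith

/-! ### linear algebra -/

private lemma lo_det (L L' : ℂ × ℂ →L[ℂ] ℂ × ℂ)
    (hdet : LinearMap.det (L : ℂ × ℂ →ₗ[ℂ] ℂ × ℂ) = 1) (h : ∀ v, L' (L v) = v) :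
    (L' (0, 1)).1 = -(L (0, 1)).1 := by
  have h1 : (L (1, 0)).1 * (L (0, 1)).2 - (L (0, 1)).1 * (L (1, 0)).2 = 1 := by
    rw [← LinearMap.det_toMatrix (Module.Basis.finTwoProd ℂ), Matrix.det_fin_two] at hdet
    simpa [LinearMap.toMatrix_apply] using hdet
  set A := (L (1, 0)).1
  set C := (L (1, 0)).2
  set B := (L (0, 1)).1
  set D := (L (0, 1)).2
  have h2 : ((0, 1) : ℂ × ℂ) = A • L (0, 1) - B • L (1, 0) := by
    ext
    · simp [A, B]; ring
    · simp only [Prod.snd_sub, Prod.smul_snd, smul_eq_mul]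
      exact h1.symm
  rw [h2, map_sub, map_smul, map_smul, h, h]
  simp [B]

private lemma lo_equiv (L : ℂ × ℂ →L[ℂ] ℂ × ℂ) (h : Function.Injective L) :
    ∃ e : (ℂ × ℂ) ≃L[ℂ] (ℂ × ℂ), (e : ℂ × ℂ →L[ℂ] ℂ × ℂ) = L := by
  refine ⟨(LinearEquiv.ofInjectiveEndo (L : ℂ × ℂ →ₗ[ℂ] ℂ × ℂ) h).toContinuousLinearEquiv, ?_⟩
  ext <;> rfl

/-! ### conjugation -/

private lemma lo_id (f g : ℂ → ℂ) (hf : Differentiable ℂ f) (hg : Differentiable ℂ g)
    (h : ∀ x : ℝ, f x = g x) : f = g := by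
  refine AnalyticOnNhd.eq_of_frequently_eq (𝕜 := ℂ) (z₀ := 0)
    (fun z _ => hf.analyticAt z) (fun z _ => hg.analyticAt z) ?_
  rw [frequently_nhdsWithin_iff]
  rw [Filter.frequently_iff]
  intro U hU
  obtain ⟨ε, hε, hU'⟩ := Metric.mem_nhds_iff.mp hU
  refine ⟨((ε / 2 : ℝ) : ℂ), hU' ?_, h _, ?_⟩
  · rw [Metric.mem_ball, dist_zero_right, Complex.norm_real, Real.norm_eq_abs,
      abs_of_pos (by linarith)]
    linarith
  · simp only [Set.mem_compl_iff, Set.mem_singleton_iff, Complex.ofReal_eq_zero]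
    linarith

private lemma lo_conj (g : ℂ × ℂ → ℂ) (hg : Differentiable ℂ g)
    (hr : ∀ x y : ℝ, (g ((x : ℂ), (y : ℂ))).im = 0) (z : ℂ × ℂ) :
    g (starRingEnd ℂ z.1, starRingEnd ℂ z.2) = starRingEnd ℂ (g z) := by
  have h1 : ∀ (y : ℝ) (x : ℂ), starRingEnd ℂ (g (starRingEnd ℂ x, (y : ℂ))) = g (x, (y : ℂ)) := by
    intro y x
    have h2 : Differentiable ℂ (fun x : ℂ => g (x, (y : ℂ))) := by fun_prop
    have h3 : Differentiable ℂ (fun x : ℂ => starRingEnd ℂ (g (starRingEnd ℂ x, (y : ℂ)))) :=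
      fun x => by
        have h5 := (h2 (starRingEnd ℂ x)).conj_conj
        rw [Complex.conj_conj] at h5
        exact h5
    refine congrFun (lo_id _ _ h3 h2 ?_) x
    intro t
    simp only [Complex.conj_ofReal]
    exact Complex.conj_eq_iff_im.mpr (hr t y)
  have h4 : ∀ (x y : ℂ), starRingEnd ℂ (g (starRingEnd ℂ x, starRingEnd ℂ y)) = g (x, y) := by
    intro x y
    have h2 : Differentiable ℂ (fun y : ℂ => g (x, y)) := by fun_prop
    have h2' : Differentiable ℂ (fun y : ℂ => g (starRingEnd ℂ x, y)) := by fun_prop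
    have h3 : Differentiable ℂ
        (fun y : ℂ => starRingEnd ℂ (g (starRingEnd ℂ x, starRingEnd ℂ y))) :=
      fun y => by
        have h5 := (h2' (starRingEnd ℂ y)).conj_conj
        rw [Complex.conj_conj] at h5
        exact h5
    refine congrFun (lo_id _ _ h3 h2 ?_) y
    intro t
    simp only [Complex.conj_ofReal]
    exact h1 t x
  have := h4 z.1 z.2
  rw [← this, Complex.conj_conj]

/-! ### the piece -/

/-- Local coordinates at a fixed point. -/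
theorem p_lo : S_lo := by
  intro G G' a b hG hG' h1 h2 hdet hGr hG'r hfix hne
  set P₀ : ℂ × ℂ := ((a : ℂ), (b : ℂ)) with hP₀
  have hG'fix : G' P₀ = P₀ := by
    have := h1 P₀
    rwa [hfix] at this
  -- the partial derivative of the inverse
  set κ : ℂ × ℂ → ℂ := fun z => (fderiv ℂ G' z (0, 1)).1 with hκ
  have hκc : Continuous κ :=
    continuous_fst.comp ((lo_cont G' hG').clm_apply continuous_const)
  -- the map `Θ`
  set A₀ : ℂ × ℂ →L[ℂ] ℂ × ℂ :=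
    (ContinuousLinearMap.fst ℂ ℂ ℂ).prod (ContinuousLinearMap.fst ℂ ℂ ℂ) with hA₀
  set B₀ : ℂ × ℂ →L[ℂ] ℂ × ℂ :=
    (0 : ℂ × ℂ →L[ℂ] ℂ).prod (ContinuousLinearMap.fst ℂ ℂ ℂ) with hB₀
  set Θ : ℂ × ℂ → ℂ × ℂ := fun z => (z.1 - a, z.1 - (G' z).1) with hΘdef
  set ΘL : ℂ × ℂ → (ℂ × ℂ →L[ℂ] ℂ × ℂ) := fun z => A₀ - B₀.comp (fderiv ℂ G' z) with hΘL
  have hΘLv : ∀ z v, ΘL z v = (v.1, v.1 - (fderiv ℂ G' z v).1) := by
    intro z v
    ext <;> simp [hΘL, hA₀, hB₀]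
  have hΘ : ∀ z, HasFDerivAt Θ (ΘL z) z := by
    intro z
    have e1 : HasFDerivAt (fun z => A₀ z - ((a : ℂ), (0 : ℂ)) - B₀ (G' z)) (ΘL z) z := by
      exact (A₀.hasFDerivAt.sub_const _).sub (B₀.hasFDerivAt.comp z (hG' z).hasFDerivAt)
    have e2 : Θ = fun z => A₀ z - ((a : ℂ), (0 : ℂ)) - B₀ (G' z) := by
      funext z
      ext <;> simp [hΘdef, hA₀, hB₀]
    rw [e2]
    exact e1
  have hΘLc : Continuous ΘL :=
    continuous_const.sub (continuous_const.clm_comp (lo_cont G' hG'))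
  have hinj : ∀ z, κ z ≠ 0 → Function.Injective (ΘL z) := by
    intro z hz
    rw [injective_iff_map_eq_zero]
    intro v hv
    rw [hΘLv] at hv
    have h3 : v.1 = 0 := congrArg Prod.fst hv
    have h4 : v.1 - (fderiv ℂ G' z v).1 = 0 := congrArg Prod.snd hv
    have h5 : v = v.2 • ((0, 1) : ℂ × ℂ) := by
      ext <;> simp [h3]
    have h6 : (fderiv ℂ G' z v).1 = v.2 * κ z := by
      conv_lhs => rw [h5, map_smul]
      simp [hκ]
    rw [h3, h6, zero_sub, neg_eq_zero] at h4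
    rcases mul_eq_zero.mp h4 with h7 | h7
    · ext
      · exact h3
      · exact h7
    · exact absurd h7 hz
  have hκ0 : κ P₀ ≠ 0 := hne
  obtain ⟨E₀, hE₀⟩ := lo_equiv (ΘL P₀) (hinj P₀ hκ0)
  have hstrict : HasStrictFDerivAt Θ (E₀ : ℂ × ℂ →L[ℂ] ℂ × ℂ) P₀ := by
    rw [hE₀]
    exact hasStrictFDerivAt_of_hasFDerivAt_of_continuousAt (Eventually.of_forall hΘ)
      hΘLc.continuousAt
  set e := hstrict.toOpenPartialHomeomorph Θ with he
  have hecoe : ∀ z, e z = Θ z := fun z => rfl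
  have hsrc : P₀ ∈ e.source := hstrict.mem_toOpenPartialHomeomorph_source
  have hΘ0 : Θ P₀ = 0 := by
    ext
    · simp [hΘdef, hP₀]
    · simp [hΘdef, hG'fix]
  have htgt : (0 : ℂ × ℂ) ∈ e.target := by
    have := hstrict.image_mem_toOpenPartialHomeomorph_target
    rwa [hΘ0] at this
  set Ψ : ℂ × ℂ → ℂ × ℂ := ⇑e.symm with hΨ
  have hΨ0 : Ψ 0 = P₀ := by
    have := e.left_inv hsrc
    rwa [hecoe, hΘ0] at this
  have hΨc : ContinuousAt Ψ 0 := e.continuousAt_symm htgt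
  have hΘΨ : ∀ w ∈ e.target, Θ (Ψ w) = w := fun w hw => e.right_inv hw
  have hΨ1 : ∀ w ∈ e.target, (Ψ w).1 = a + w.1 := by
    intro w hw
    have := congrArg Prod.fst (hΘΨ w hw)
    simp only [hΘdef] at this
    rw [← this]; ring
  have hD : ∀ w ∈ e.target, κ (Ψ w) ≠ 0 → ∃ D : ℂ × ℂ →L[ℂ] ℂ × ℂ, HasFDerivAt Ψ D w ∧
      ∀ v, ΘL (Ψ w) (D v) = v := by
    intro w hw hk
    obtain ⟨E, hE⟩ := lo_equiv (ΘL (Ψ w)) (hinj _ hk)
    refine ⟨E.symm, e.hasFDerivAt_symm hw ?_, ?_⟩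
    · rw [hE]
      exact hΘ _
    · intro v
      rw [← hE]
      simp
  have ev1 : ∀ᶠ w in 𝓝 (0 : ℂ × ℂ), w ∈ e.target := e.open_target.mem_nhds htgt
  have hκΨ : ContinuousAt (fun w => κ (Ψ w)) 0 :=
    ContinuousAt.comp (g := κ) hκc.continuousAt hΨc
  set m₀ : ℝ := ‖κ P₀‖ / 2 with hm₀
  have hm₀' : 0 < m₀ := by
    have := norm_pos_iff.mpr hκ0
    positivity
  have ev2 : ∀ᶠ w in 𝓝 (0 : ℂ × ℂ), m₀ < ‖κ (Ψ w)‖ := by
    refine (hκΨ.norm).eventually_const_lt ?_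
    simp only [hΨ0]
    have := norm_pos_iff.mpr hκ0
    linarith
  have hk0 : ∀ w, m₀ < ‖κ (Ψ w)‖ → κ (Ψ w) ≠ 0 := fun w hw =>
    norm_pos_iff.mp (hm₀'.trans hw)
  obtain ⟨r₂, hr₂, L, hL, -, hΨl, -⟩ := lo_lip Ψ 0 ((ev1.and ev2).mono (by
    rintro w ⟨hw1, hw2⟩
    obtain ⟨D, hD1, -⟩ := hD w hw1 (hk0 w hw2)
    exact hD1.differentiableAt))
  obtain ⟨r₁, hr₁, K, hK, -, -, hG'l⟩ := lo_lip G' P₀ (Eventually.of_forall fun w => hG' w)
  have hκl : ∀ w w', ‖w - P₀‖ < r₁ → ‖w' - P₀‖ < r₁ → ‖κ w - κ w'‖ ≤ K * ‖w - w'‖ := by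
    intro w w' hw hw'
    have e1 : κ w - κ w' = ((fderiv ℂ G' w - fderiv ℂ G' w') (0, 1)).1 := by
      simp [hκ]
    rw [e1]
    refine (norm_fst_le _).trans ?_
    refine (ContinuousLinearMap.le_opNorm _ _).trans ?_
    have e2 : ‖((0, 1) : ℂ × ℂ)‖ = 1 := by simp [Prod.norm_def]
    rw [e2, mul_one]
    exact hG'l w w' hw hw'
  -- the function `R`
  set R : ℂ × ℂ → ℂ := fun z => (G (Ψ z)).1 - a - z.1 with hR
  have hGΨ : ContinuousAt (fun w => G (Ψ w)) 0 :=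
    ContinuousAt.comp (g := G) hG.continuous.continuousAt hΨc
  have hGΨ0 : G (Ψ 0) = P₀ := by rw [hΨ0, hfix]
  have hRc : ContinuousAt R 0 :=
    ((continuous_fst.continuousAt.comp hGΨ).sub continuousAt_const).sub continuous_fst.continuousAt
  have hR0 : R 0 = 0 := by
    simp only [hR, hGΨ0, hP₀, Prod.fst_zero]
    ring
  have hΘG : ∀ w ∈ e.target, Θ (G (Ψ w)) = (w.1 + R w, R w) := by
    intro w hw
    have e1 := hΨ1 w hw
    ext
    · simp only [hΘdef, hR]; ring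
    · simp only [hΘdef, hR, h1, e1]; ring
  set C₁ : ℝ := K * L / m₀ with hC₁
  have hC₁' : 0 < C₁ := by positivity
  -- the eventual conditions
  have ev3 : ∀ᶠ w in 𝓝 (0 : ℂ × ℂ), G (Ψ w) ∈ e.source :=
    hGΨ.eventually_mem (e.open_source.mem_nhds (by rw [hGΨ0]; exact hsrc))
  have ev4 : ∀ᶠ w in 𝓝 (0 : ℂ × ℂ),
      (starRingEnd ℂ (Ψ w).1, starRingEnd ℂ (Ψ w).2) ∈ e.source := by
    have c1 : ContinuousAt (fun w => (starRingEnd ℂ (Ψ w).1, starRingEnd ℂ (Ψ w).2)) 0 := by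
      have c2 : Continuous (fun z : ℂ × ℂ => (starRingEnd ℂ z.1, starRingEnd ℂ z.2)) :=
        (Complex.continuous_conj.comp continuous_fst).prodMk
          (Complex.continuous_conj.comp continuous_snd)
      exact ContinuousAt.comp (g := fun z : ℂ × ℂ => (starRingEnd ℂ z.1, starRingEnd ℂ z.2))
        c2.continuousAt hΨc
    refine c1.eventually_mem (e.open_source.mem_nhds ?_)
    rw [hΨ0]
    simpa [hP₀] using hsrc
  have ev5 : ∀ᶠ w in 𝓝 (0 : ℂ × ℂ), ‖Ψ w - P₀‖ < r₁ := by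
    refine ((hΨc.sub continuousAt_const).norm).eventually_lt_const ?_
    show ‖Ψ 0 - P₀‖ < r₁
    rw [hΨ0, sub_self, norm_zero]
    exact hr₁
  have ev6 : ∀ᶠ w in 𝓝 (0 : ℂ × ℂ), ‖G (Ψ w) - P₀‖ < r₁ := by
    refine ((hGΨ.sub continuousAt_const).norm).eventually_lt_const ?_
    show ‖G (Ψ 0) - P₀‖ < r₁
    rw [hGΨ0, sub_self, norm_zero]
    exact hr₁
  have ev7 : ∀ᶠ w in 𝓝 (0 : ℂ × ℂ), ‖w‖ < r₂ :=
    (continuous_norm.continuousAt).eventually_lt_const (by simpa using hr₂)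
  have ev8 : ∀ᶠ w in 𝓝 (0 : ℂ × ℂ), ‖Θ (G (Ψ w))‖ < r₂ := by
    have c1 : ContinuousAt (fun w => Θ (G (Ψ w))) 0 :=
      ContinuousAt.comp (g := Θ) (hΘ _).continuousAt hGΨ
    refine c1.norm.eventually_lt_const ?_
    simpa [hGΨ0, hΘ0] using hr₂
  have ev9 : ∀ᶠ w in 𝓝 (0 : ℂ × ℂ), C₁ * (‖R w‖ + ‖w.2‖) < 1 / 2 := by
    have c1 : ContinuousAt (fun w : ℂ × ℂ => C₁ * (‖R w‖ + ‖w.2‖)) 0 :=
      continuousAt_const.mul (hRc.norm.add continuous_snd.continuousAt.norm)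
    refine c1.eventually_lt_const ?_
    simp [hR0]
  obtain ⟨δ, hδ, hall⟩ := Metric.eventually_nhds_iff.mp
    (ev1.and (ev2.and (ev3.and (ev4.and (ev5.and (ev6.and (ev7.and (ev8.and ev9))))))))
  have hbid : ∀ w : ℂ × ℂ, w ∈ bid δ → dist w 0 < δ := by
    rintro w ⟨hw1, hw2⟩
    rw [dist_zero_right, Prod.norm_def]
    exact max_lt hw1 hw2
  -- the derivative of `R` in the second variable
  have hLL : ∀ z v, fderiv ℂ G' (G z) (fderiv ℂ G z v) = v := by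
    intro z v
    have e1 : HasFDerivAt (fun z => G' (G z)) ((fderiv ℂ G' (G z)).comp (fderiv ℂ G z)) z :=
      (hG' (G z)).hasFDerivAt.comp z (hG z).hasFDerivAt
    have e2 : HasFDerivAt (fun z => G' (G z)) (ContinuousLinearMap.id ℂ (ℂ × ℂ)) z := by
      have : (fun z => G' (G z)) = fun z => z := funext h1
      rw [this]
      exact hasFDerivAt_id z
    have e3 := e1.unique e2
    exact DFunLike.congr_fun e3 v
  have hRd : ∀ w ∈ e.target, κ (Ψ w) ≠ 0 →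
      HasDerivAt (fun u : ℂ => R (w.1, u)) (κ (G (Ψ w)) / κ (Ψ w)) w.2 := by
    intro w hw hk
    obtain ⟨D, hD1, hD2⟩ := hD w hw hk
    have e1 := hD2 (0, 1)
    rw [hΘLv] at e1
    have e2 : (D (0, 1)).1 = 0 := congrArg Prod.fst e1
    have e3 : (D (0, 1)).1 - (fderiv ℂ G' (Ψ w) (D (0, 1))).1 = 1 := congrArg Prod.snd e1
    have e4 : D (0, 1) = (D (0, 1)).2 • ((0, 1) : ℂ × ℂ) := by
      ext <;> simp [e2]
    set Y := (D (0, 1)).2 with hY
    have e5 : (fderiv ℂ G' (Ψ w) (D (0, 1))).1 = Y * κ (Ψ w) := by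
      rw [e4, map_smul]
      simp [hκ]
    rw [e2, e5, zero_sub] at e3
    have e6 : HasDerivAt (fun u : ℂ => ((w.1, u) : ℂ × ℂ)) (0, 1) w.2 :=
      (hasDerivAt_const w.2 w.1).prodMk (hasDerivAt_id w.2)
    have e7 : HasDerivAt (fun u : ℂ => Ψ (w.1, u)) (D (0, 1)) w.2 :=
      HasFDerivAt.comp_hasDerivAt (l := Ψ) w.2 hD1 e6
    have e8 : HasDerivAt (fun u : ℂ => G (Ψ (w.1, u))) (fderiv ℂ G (Ψ w) (D (0, 1))) w.2 :=
      HasFDerivAt.comp_hasDerivAt (l := G) w.2 (hG (Ψ w)).hasFDerivAt e7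
    have e9 : HasDerivAt (fun u : ℂ => (G (Ψ (w.1, u))).1) (fderiv ℂ G (Ψ w) (D (0, 1))).1 w.2 :=
      HasFDerivAt.comp_hasDerivAt (l := fun z : ℂ × ℂ => z.1) w.2
        (ContinuousLinearMap.fst ℂ ℂ ℂ).hasFDerivAt e8
    have e10 := (e9.sub_const (a : ℂ)).sub_const w.1
    have e11 : (fderiv ℂ G (Ψ w) (D (0, 1))).1 = κ (G (Ψ w)) / κ (Ψ w) := by
      have e12 := lo_det (fderiv ℂ G (Ψ w)) (fderiv ℂ G' (G (Ψ w))) (hdet _) (hLL _)
      rw [e4, map_smul]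
      simp only [Prod.smul_fst, smul_eq_mul]
      have e13 : (fderiv ℂ G (Ψ w) (0, 1)).1 = -κ (G (Ψ w)) := by
        simp only [hκ]
        rw [e12, neg_neg]
      rw [e13, eq_div_iff hk]
      linear_combination κ (G (Ψ w)) * e3
    rw [e11] at e10
    exact e10
  have hRb : ∀ w : ℂ × ℂ, w ∈ bid δ →
      ‖κ (G (Ψ w)) / κ (Ψ w) - 1‖ ≤ C₁ * (‖R w‖ + ‖w.2‖) := by
    intro w hw
    obtain ⟨a1, a2, a3, a4, a5, a6, a7, a8, a9⟩ := hall (hbid w hw)
    have hk := hk0 w a2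
    have b1 : κ (G (Ψ w)) / κ (Ψ w) - 1 = (κ (G (Ψ w)) - κ (Ψ w)) / κ (Ψ w) := by
      field_simp
    have b2 : ‖G (Ψ w) - Ψ w‖ ≤ L * (‖R w‖ + ‖w.2‖) := by
      have b3 : Ψ (Θ (G (Ψ w))) = G (Ψ w) := e.left_inv a3
      have b4 := hΨl (Θ (G (Ψ w))) w (by simpa using a8) (by simpa using a7)
      rw [b3] at b4
      refine b4.trans ?_
      gcongr
      rw [hΘG w a1]
      have b5 : ((w.1 + R w, R w) : ℂ × ℂ) - w = (R w, R w - w.2) := by
        ext <;> simp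
      rw [b5, Prod.norm_def]
      refine max_le ?_ ?_
      · exact le_add_of_nonneg_right (norm_nonneg _)
      · exact norm_sub_le _ _
    rw [b1, norm_div, div_le_iff₀ (hm₀'.trans a2)]
    calc ‖κ (G (Ψ w)) - κ (Ψ w)‖ ≤ K * ‖G (Ψ w) - Ψ w‖ := hκl _ _ a6 a5
      _ ≤ K * (L * (‖R w‖ + ‖w.2‖)) := by gcongr
      _ = C₁ * (‖R w‖ + ‖w.2‖) * m₀ := by
        rw [hC₁]; field_simp
      _ ≤ C₁ * (‖R w‖ + ‖w.2‖) * ‖κ (Ψ w)‖ := by
        gcongr
  have hlip : ∀ x u v : ℂ, (x, u) ∈ bid δ → (x, v) ∈ bid δ →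
      ‖R (x, u) - R (x, v) - (u - v)‖ ≤ 1 / 2 * ‖u - v‖ := by
    intro x u v hu hv
    have c1 : ∀ t ∈ Metric.ball (0 : ℂ) δ, (x, t) ∈ bid δ := by
      intro t ht
      exact ⟨hu.1, by simpa using ht⟩
    have c2 := Convex.norm_image_sub_le_of_norm_hasDerivWithin_le (𝕜 := ℂ)
      (f := fun t => R (x, t) - t) (f' := fun t => κ (G (Ψ (x, t))) / κ (Ψ (x, t)) - 1)
      (s := Metric.ball (0 : ℂ) δ) (C := 1 / 2) (x := v) (y := u) ?_ ?_ (convex_ball _ _) ?_ ?_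
    · have c3 : R (x, u) - R (x, v) - (u - v) = (R (x, u) - u) - (R (x, v) - v) := by ring
      rw [c3]
      exact c2
    · intro t ht
      obtain ⟨a1, a2, -⟩ := hall (hbid _ (c1 t ht))
      exact ((hRd (x, t) a1 (hk0 _ a2)).sub (hasDerivAt_id t)).hasDerivWithinAt
    · intro t ht
      obtain ⟨a1, a2, a3, a4, a5, a6, a7, a8, a9⟩ := hall (hbid _ (c1 t ht))
      exact (hRb _ (c1 t ht)).trans a9.le
    · simpa using hv.2
    · simpa using hu.2
  refine ⟨δ, 3 * C₁ + 1, R, Ψ, ?_, ?_⟩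
  · refine ⟨⟨hG, G', hG', h1, h2⟩, hδ, by positivity, ?_, ?_, ?_, ?_, ?_, ?_, hR0, ?_, hlip, ?_⟩
    · -- holR
      intro w hw
      obtain ⟨a1, a2, -⟩ := hall (hbid w hw)
      obtain ⟨D, hD1, -⟩ := hD w a1 (hk0 w a2)
      have d1 : DifferentiableAt ℂ (fun w => G (Ψ w)) w :=
        DifferentiableAt.comp (g := G) w (hG _) hD1.differentiableAt
      have d2 : DifferentiableAt ℂ R w := by
        simp only [hR]
        exact (d1.fst.sub_const _).sub differentiableAt_fst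
      exact d2.differentiableWithinAt
    · -- holP
      intro w hw
      obtain ⟨a1, a2, -⟩ := hall (hbid w hw)
      obtain ⟨D, hD1, -⟩ := hD w a1 (hk0 w a2)
      exact hD1.differentiableAt.differentiableWithinAt
    · -- fst
      intro w hw
      obtain ⟨a1, -⟩ := hall (hbid w hw)
      exact hΨ1 w a1
    · -- fstG
      intro w _
      simp only [hR]
      ring
    · -- inj
      intro w hw w' hw' hww
      obtain ⟨a1, -⟩ := hall (hbid w hw)
      obtain ⟨a1', -⟩ := hall (hbid w' hw')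
      rw [← hΘΨ w a1, ← hΘΨ w' a1', hww]
    · -- eqn
      intro w hw _
      obtain ⟨a1, a2, a3, -⟩ := hall (hbid w hw)
      rw [← hΘG w a1]
      exact (e.left_inv a3).symm
    · -- est
      rintro ⟨x, u⟩ hw
      have c0 : ∀ t : ℂ, ‖t‖ ≤ ‖u‖ → (x, t) ∈ bid δ := fun t ht =>
        ⟨hw.1, lt_of_le_of_lt ht hw.2⟩
      have c1 := Convex.norm_image_sub_le_of_norm_hasDerivWithin_le (𝕜 := ℂ)
        (f := fun t => R (x, t) - t) (f' := fun t => κ (G (Ψ (x, t))) / κ (Ψ (x, t)) - 1)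
        (s := Metric.closedBall (0 : ℂ) ‖u‖) (C := C₁ * (‖R (x, 0)‖ + 5 / 2 * ‖u‖))
        (x := 0) (y := u) ?_ ?_ (convex_closedBall _ _) ?_ ?_
      · have c3 : R (x, u) - u - R (x, 0) = (R (x, u) - u) - (R (x, 0) - 0) := by ring
        simp only
        rw [c3]
        refine c1.trans ?_
        rw [sub_zero]
        have p1 : 0 ≤ ‖u‖ := norm_nonneg _
        have p2 : 0 ≤ ‖R (x, 0)‖ := norm_nonneg _
        have p3 : 0 ≤ C₁ * ‖R (x, 0)‖ * ‖u‖ := by positivity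
        have p4 : 0 ≤ C₁ * ‖u‖ * ‖u‖ := by positivity
        have p5 : 0 ≤ ‖R (x, 0)‖ * ‖u‖ := by positivity
        have p6 : 0 ≤ ‖u‖ * ‖u‖ := by positivity
        nlinarith
      · intro t ht
        obtain ⟨a1, a2, -⟩ := hall (hbid _ (c0 t (by simpa using ht)))
        exact ((hRd (x, t) a1 (hk0 _ a2)).sub (hasDerivAt_id t)).hasDerivWithinAt
      · intro t ht
        have ht' : ‖t‖ ≤ ‖u‖ := by simpa using ht
        refine (hRb _ (c0 t ht')).trans ?_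
        gcongr ?_ * ?_
        have q1 := hlip x t 0 (c0 t ht') (c0 0 (by simp))
        have q2 : ‖R (x, t)‖ ≤ ‖R (x, t) - R (x, 0) - (t - 0)‖ + ‖R (x, 0)‖ + ‖t‖ := by
          calc ‖R (x, t)‖ = ‖(R (x, t) - R (x, 0) - (t - 0)) + R (x, 0) + t‖ := by
                congr 1; ring
            _ ≤ _ := norm_add₃_le
        rw [sub_zero] at q1 q2
        show ‖R (x, t)‖ + ‖t‖ ≤ ‖R (x, 0)‖ + 5 / 2 * ‖u‖
        linarith
      · simp
      · simp
    · -- real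
      intro x u hxu
      obtain ⟨a1, a2, a3, a4, -⟩ := hall (hbid _ hxu)
      set w : ℂ × ℂ := ((x : ℂ), (u : ℂ)) with hw
      set z := Ψ w with hz
      have d1 : z ∈ e.source := e.map_target a1
      have d2 : Θ (starRingEnd ℂ z.1, starRingEnd ℂ z.2) = Θ z := by
        have d3 : (G' (starRingEnd ℂ z.1, starRingEnd ℂ z.2)).1 = starRingEnd ℂ (G' z).1 :=
          lo_conj (fun z => (G' z).1) (fun z => (hG' z).fst) (fun x y => (hG'r x y).1) z
        have d4 : Θ z = w := hΘΨ w a1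
        have d5 : z.1 - a = x := congrArg Prod.fst d4
        have d6 : z.1 - (G' z).1 = u := congrArg Prod.snd d4
        rw [d4]
        simp only [hΘdef]
        rw [d3]
        ext
        · show starRingEnd ℂ z.1 - (a : ℂ) = x
          have := congrArg (starRingEnd ℂ) d5
          simpa using this
        · show starRingEnd ℂ z.1 - starRingEnd ℂ (G' z).1 = u
          have := congrArg (starRingEnd ℂ) d6
          simpa using this
      have d7 : ((starRingEnd ℂ z.1, starRingEnd ℂ z.2) : ℂ × ℂ) = z := e.injOn a4 d1 d2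
      have d8 : z.1.im = 0 := Complex.conj_eq_iff_im.mp (congrArg Prod.fst d7)
      have d9 : z.2.im = 0 := Complex.conj_eq_iff_im.mp (congrArg Prod.snd d7)
      have d10 : z = ((z.1.re : ℂ), (z.2.re : ℂ)) := by
        ext
        · exact Complex.ext (by simp) (by simp [d8])
        · exact Complex.ext (by simp) (by simp [d9])
      have d11 := (hGr z.1.re z.2.re).1
      rw [← d10] at d11
      simp only [hR, Complex.sub_im, Complex.ofReal_im]
      rw [← hz, d11]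
      simp [hw]
  · -- the neighbourhood
    have f1 : ∀ᶠ z in 𝓝 P₀, z ∈ e.source := e.open_source.mem_nhds hsrc
    have f2 : ∀ᶠ z in 𝓝 P₀, ‖Θ z‖ < δ := by
      refine ((hΘ P₀).continuousAt.norm).eventually_lt_const ?_
      simpa [hΘ0] using hδ
    obtain ⟨ε, hε, hε'⟩ := Metric.eventually_nhds_iff.mp (f1.and f2)
    refine ⟨ε, hε, ?_⟩
    intro z hz
    obtain ⟨g1, g2⟩ := hε' (by rwa [dist_eq_norm])
    refine ⟨?_, e.left_inv g1⟩
    rw [Prod.norm_def, max_lt_iff] at g2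
    exact g2

end Pool.Agent.MP_2f2443_an.RC
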