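import Pool.Agent.Lib.MP_2f2443_an.RC.StmQ

/-!
# MP_2f2443_an, project RC, piece mo (monotonicity of `R` in `x`)
-/

set_option autoImplicit false

namespace Pool.Agent.MP_2f2443_an.RC

open Filter Topology Pool.Agent.MP_2f2443_an.IP

private lemma mo_open (δ : ℝ) : IsOpen (bid δ) :=
  (isOpen_lt (continuous_norm.comp continuous_fst) continuous_const).inter
    (isOpen_lt (continuous_norm.comp continuous_snd) continuous_const)

private lemma mo_diff {δ : ℝ} {R : ℂ × ℂ → ℂ} (hR : DifferentiableOn ℂ R (bid δ)) (u ζ : ℂ)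
    (h : (ζ, u) ∈ bid δ) : DifferentiableAt ℂ (fun z => R (z, u)) ζ := by
  have h1 : DifferentiableAt ℂ R (ζ, u) := hR.differentiableAt ((mo_open δ).mem_nhds h)
  have h2 : DifferentiableAt ℂ (fun z : ℂ => (z, u)) ζ :=
    differentiableAt_id.prodMk (differentiableAt_const u)
  exact DifferentiableAt.comp (f := fun z : ℂ => (z, u)) ζ h1 h2

theorem p_mo : S_mo := by
  intro G a δ C R Ψ m κ L hK A hA
  obtain ⟨hm, hκ, hKe⟩ := hK
  have hδ := L.dpos
  have hC := L.cpos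
  obtain ⟨n, rfl⟩ : ∃ n, m = n + 1 := ⟨m - 1, by omega⟩
  obtain ⟨M, hM⟩ : ∃ M : ℝ, M = C * A + C * (κ + C) * 2 ^ (n + 1) + C * 2 ^ (n + 2) := ⟨_, rfl⟩
  have hM0 : 0 < M := by rw [hM]; positivity
  refine ⟨min (δ / 2) (min (1 / 2) (κ / (2 * M))), by positivity, ?_⟩
  intro x y u hx hxy hyd hu hud hu2
  have hb : ∀ v : ℝ, v < min (δ / 2) (min (1 / 2) (κ / (2 * M))) →
      v < δ / 2 ∧ v < 1 / 2 ∧ 2 * M * v ≤ κ := by
    intro v hv
    have h1 := hv.trans_le (min_le_left _ _)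
    have h2 := hv.trans_le (min_le_right _ _)
    have h3 := h2.trans_le (min_le_left _ _)
    have h4 := h2.trans_le (min_le_right _ _)
    refine ⟨h1, h3, ?_⟩
    rw [lt_div_iff₀ (by positivity)] at h4
    linarith
  obtain ⟨hu3, hu4, hu5⟩ := hb u hud
  -- the estimate of the derivative
  have key : ∀ t : ℝ, x ≤ t → t ≤ y → ∃ D : ℂ, HasDerivAt (fun z => R (z, (u : ℂ))) D (t : ℂ) ∧
      0 ≤ D.re := by
    intro t hxt hty
    have ht : 0 < t := hx.trans_le hxt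
    obtain ⟨ht3, ht4, ht5⟩ := hb t (hty.trans_lt hyd)
    have hu6 : u ^ 2 ≤ A * t ^ (n + 2) := by
      refine hu2.trans ?_
      exact mul_le_mul_of_nonneg_left (pow_le_pow_left₀ hx.le hxt _) hA.le
    have hmem : ∀ ζ : ℂ, ‖ζ - t‖ ≤ t / 2 → ‖ζ‖ ≤ 2 * t ∧ ‖ζ‖ < δ ∧ ‖ζ‖ ≤ 1 ∧ (ζ, (u : ℂ)) ∈ bid δ := by
      intro ζ hζ
      have h1 : ‖ζ‖ ≤ ‖ζ - t‖ + ‖(t : ℂ)‖ := by
        have := norm_add_le (ζ - t) (t : ℂ)
        rwa [sub_add_cancel] at this
      have h2 : ‖(t : ℂ)‖ = t := by rw [Complex.norm_real, Real.norm_of_nonneg ht.le]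
      rw [h2] at h1
      refine ⟨by linarith, by linarith, by linarith, ⟨?_, ?_⟩⟩
      · show ‖ζ‖ < δ
        linarith
      · show ‖(u : ℂ)‖ < δ
        rw [Complex.norm_real, Real.norm_of_nonneg hu.le]; linarith
    have htm : ((t : ℂ), (u : ℂ)) ∈ bid δ := (hmem t (by simp; linarith)).2.2.2
    obtain ⟨D, hD⟩ : ∃ D, HasDerivAt (fun z => R (z, (u : ℂ))) D (t : ℂ) :=
      ⟨_, (mo_diff L.holR u t htm).hasDerivAt⟩
    refine ⟨D, hD, ?_⟩
    -- the remainder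
    have hE : HasDerivAt (fun z : ℂ => R (z, (u : ℂ)) - u - κ * z ^ (n + 1))
        (D - κ * (((n + 1 : ℕ) : ℂ) * (t : ℂ) ^ n)) (t : ℂ) := by
      have h1 : HasDerivAt (fun z : ℂ => z ^ (n + 1)) (((n + 1 : ℕ) : ℂ) * (t : ℂ) ^ n) (t : ℂ) := by
        have := hasDerivAt_pow (n + 1) (t : ℂ)
        simpa using this
      exact (hD.sub_const _).sub (h1.const_mul _)
    have hnorm : ‖D - κ * (((n + 1 : ℕ) : ℂ) * (t : ℂ) ^ n)‖ ≤ κ * t ^ n := by
      have hdc : DiffContOnCl ℂ (fun z : ℂ => R (z, (u : ℂ)) - u - κ * z ^ (n + 1))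
          (Metric.ball (t : ℂ) (t / 2)) := by
        apply DifferentiableOn.diffContOnCl
        intro ζ hζ
        rw [closure_ball _ (by positivity)] at hζ
        rw [Metric.mem_closedBall, dist_eq_norm] at hζ
        apply DifferentiableAt.differentiableWithinAt
        have h1 := mo_diff L.holR (u : ℂ) ζ (hmem ζ hζ).2.2.2
        exact (h1.sub_const _).sub ((differentiableAt_id.pow (n + 1)).const_mul _)
      have hsph : ∀ ζ ∈ Metric.sphere (t : ℂ) (t / 2),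
          ‖R (ζ, (u : ℂ)) - u - κ * ζ ^ (n + 1)‖ ≤
            C * (A * t ^ (n + 2)) + C * u * ((κ + C) * (2 * t) ^ (n + 1)) + C * (2 * t) ^ (n + 2) := by
        intro ζ hζ
        rw [mem_sphere_iff_norm] at hζ
        obtain ⟨h1, h2, h3, h4⟩ := hmem ζ hζ.le
        have e1 := L.est (ζ, (u : ℂ)) h4
        simp only at e1
        have e2 := hKe ζ h2
        have hnu : ‖(u : ℂ)‖ = u := by rw [Complex.norm_real, Real.norm_of_nonneg hu.le]
        rw [hnu] at e1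
        have hp1 : ‖ζ‖ ^ (n + 1) ≤ (2 * t) ^ (n + 1) := pow_le_pow_left₀ (norm_nonneg _) h1 _
        have hp2 : ‖ζ‖ ^ (n + 2) ≤ (2 * t) ^ (n + 2) := pow_le_pow_left₀ (norm_nonneg _) h1 _
        have hp3 : ‖ζ‖ ^ (n + 2) ≤ ‖ζ‖ ^ (n + 1) :=
          pow_le_pow_of_le_one (norm_nonneg _) h3 (by omega)
        have hKn : ‖R (ζ, 0)‖ ≤ (κ + C) * (2 * t) ^ (n + 1) := by
          have h5 : ‖R (ζ, 0)‖ ≤ ‖R (ζ, 0) - κ * ζ ^ (n + 1)‖ + ‖(κ : ℂ) * ζ ^ (n + 1)‖ := by
            have := norm_add_le (R (ζ, 0) - κ * ζ ^ (n + 1)) ((κ : ℂ) * ζ ^ (n + 1))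
            rwa [sub_add_cancel] at this
          have h6 : ‖(κ : ℂ) * ζ ^ (n + 1)‖ = κ * ‖ζ‖ ^ (n + 1) := by
            rw [norm_mul, norm_pow, Complex.norm_real, Real.norm_of_nonneg hκ.le]
          rw [h6] at h5
          have h7 : ‖R (ζ, 0)‖ ≤ (κ + C) * ‖ζ‖ ^ (n + 1) := by
            have := mul_le_mul_of_nonneg_left hp3 hC.le
            calc ‖R (ζ, 0)‖ ≤ C * ‖ζ‖ ^ (n + 1 + 1) + κ * ‖ζ‖ ^ (n + 1) := by linarith
              _ ≤ C * ‖ζ‖ ^ (n + 1) + κ * ‖ζ‖ ^ (n + 1) := by linarith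
              _ = (κ + C) * ‖ζ‖ ^ (n + 1) := by ring
          exact h7.trans (mul_le_mul_of_nonneg_left hp1 (by positivity))
        have h8 : ‖R (ζ, (u : ℂ)) - u - κ * ζ ^ (n + 1)‖ ≤
            ‖R (ζ, (u : ℂ)) - u - R (ζ, 0)‖ + ‖R (ζ, 0) - κ * ζ ^ (n + 1)‖ := by
          have := norm_add_le (R (ζ, (u : ℂ)) - u - R (ζ, 0)) (R (ζ, 0) - κ * ζ ^ (n + 1))
          rwa [sub_add_sub_cancel] at this
        have h9 : C * u * (u + ‖R (ζ, 0)‖) ≤ C * (A * t ^ (n + 2)) +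
            C * u * ((κ + C) * (2 * t) ^ (n + 1)) := by
          have e3 : C * u * ‖R (ζ, 0)‖ ≤ C * u * ((κ + C) * (2 * t) ^ (n + 1)) :=
            mul_le_mul_of_nonneg_left hKn (by positivity)
          have e4 : C * u ^ 2 ≤ C * (A * t ^ (n + 2)) := mul_le_mul_of_nonneg_left hu6 hC.le
          calc C * u * (u + ‖R (ζ, 0)‖) = C * u ^ 2 + C * u * ‖R (ζ, 0)‖ := by ring
            _ ≤ _ := by linarith
        have h10 : C * ‖ζ‖ ^ (n + 1 + 1) ≤ C * (2 * t) ^ (n + 2) :=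
          mul_le_mul_of_nonneg_left hp2 hC.le
        linarith
      have hcau := Complex.norm_deriv_le_of_forall_mem_sphere_norm_le (by positivity : 0 < t / 2)
        hdc hsph
      rw [hE.deriv] at hcau
      refine hcau.trans ?_
      rw [div_le_iff₀ (by positivity)]
      have hfac : C * (A * t ^ (n + 2)) + C * u * ((κ + C) * (2 * t) ^ (n + 1)) +
          C * (2 * t) ^ (n + 2) = t ^ (n + 1) * (C * A * t + C * (κ + C) * 2 ^ (n + 1) * u +
            C * 2 ^ (n + 2) * t) := by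
        rw [mul_pow, mul_pow]; ring
      rw [hfac]
      have hgoal : κ * t ^ n * (t / 2) = t ^ (n + 1) * (κ / 2) := by ring
      rw [hgoal]
      refine mul_le_mul_of_nonneg_left ?_ (by positivity)
      rcases le_total u t with hut | htu
      · have : C * (κ + C) * 2 ^ (n + 1) * u ≤ C * (κ + C) * 2 ^ (n + 1) * t :=
          mul_le_mul_of_nonneg_left hut (by positivity)
        calc C * A * t + C * (κ + C) * 2 ^ (n + 1) * u + C * 2 ^ (n + 2) * t ≤ M * t := by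
              rw [hM]; linarith
          _ ≤ κ / 2 := by linarith
      · have h1 : C * A * t ≤ C * A * u := mul_le_mul_of_nonneg_left htu (by positivity)
        have h2 : C * 2 ^ (n + 2) * t ≤ C * 2 ^ (n + 2) * u :=
          mul_le_mul_of_nonneg_left htu (by positivity)
        calc C * A * t + C * (κ + C) * 2 ^ (n + 1) * u + C * 2 ^ (n + 2) * t ≤ M * u := by
              rw [hM]; linarith
          _ ≤ κ / 2 := by linarith
    have hre : |(D - κ * (((n + 1 : ℕ) : ℂ) * (t : ℂ) ^ n)).re| ≤ κ * t ^ n :=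
      (Complex.abs_re_le_norm _).trans hnorm
    have hre2 : (D - κ * (((n + 1 : ℕ) : ℂ) * (t : ℂ) ^ n)).re = D.re - κ * ((n + 1 : ℕ) * t ^ n) := by
      have : (κ : ℂ) * (((n + 1 : ℕ) : ℂ) * (t : ℂ) ^ n) = ((κ * ((n + 1 : ℕ) * t ^ n) : ℝ) : ℂ) := by
        push_cast; ring
      rw [this, Complex.sub_re, Complex.ofReal_re]
    rw [hre2, abs_le] at hre
    have h1 : κ * t ^ n ≤ κ * ((n + 1 : ℕ) * t ^ n) := by
      apply mul_le_mul_of_nonneg_left _ hκ.le
      have h2 : (1 : ℝ) ≤ (n + 1 : ℕ) := by push_cast; linarith [Nat.cast_nonneg (α := ℝ) n]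
      have h3 : 0 ≤ t ^ n := by positivity
      nlinarith
    linarith [hre.1]
  -- monotonicity
  have hmono : MonotoneOn (fun t : ℝ => (R ((t : ℂ), (u : ℂ))).re) (Set.Icc x y) := by
    have hder : ∀ t ∈ Set.Icc x y, ∃ D : ℝ,
        HasDerivAt (fun t : ℝ => (R ((t : ℂ), (u : ℂ))).re) D t ∧ 0 ≤ D := by
      intro t ht
      obtain ⟨D, hD, hD0⟩ := key t ht.1 ht.2
      exact ⟨D.re, hD.real_of_complex, hD0⟩
    apply monotoneOn_of_deriv_nonneg (convex_Icc x y)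
    · intro t ht
      obtain ⟨D, hD, -⟩ := hder t ht
      exact hD.continuousAt.continuousWithinAt
    · intro t ht
      obtain ⟨D, hD, -⟩ := hder t (interior_subset ht)
      exact hD.differentiableAt.differentiableWithinAt
    · intro t ht
      obtain ⟨D, hD, hD0⟩ := hder t (interior_subset ht)
      rw [hD.deriv]
      exact hD0
  exact hmono ⟨le_refl x, hxy⟩ ⟨hxy, le_refl y⟩ hxy

end Pool.Agent.MP_2f2443_an.RC
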