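import Pool.Agent.Lib.MP_2f2443_an.RC.StmQ

/-!
# MP_2f2443_an, project RC: the functions chi and om
-/

set_option autoImplicit false

namespace Pool.Agent.MP_2f2443_an.RC

open Filter Topology Pool.Agent.MP_2f2443_an.IP

private lemma p0_nu_pos {m : ℕ} (hm : 2 ≤ m) : 0 < nu m := by
  unfold nu
  have h : (2 : ℝ) ≤ (m : ℝ) := by exact_mod_cast hm
  linarith

private lemma p0_frac_pos {m : ℕ} {κ : ℝ} (hκ : 0 < κ) : 0 < 2 * κ / ((m : ℝ) + 1) := by
  positivity

private lemma p0_cc_pos {m : ℕ} {κ : ℝ} (hm : 2 ≤ m) (hκ : 0 < κ) : 0 < cc m κ :=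
  mul_pos (p0_nu_pos hm) (Real.sqrt_pos.2 (p0_frac_pos hκ))

private lemma p0_cc_sq {m : ℕ} {κ : ℝ} (hκ : 0 < κ) :
    cc m κ ^ 2 = nu m ^ 2 * (2 * κ / ((m : ℝ) + 1)) := by
  unfold cc
  rw [mul_pow, Real.sq_sqrt (p0_frac_pos hκ).le]

private lemma p0_mem {w : ℂ} (hw : w ∈ Wd 0) : w.re < |w.im| := by
  have h : w.re + 0 < |w.im| := hw
  linarith

private lemma p0_ne {w : ℂ} (hw : w ∈ Wd 0) : w ≠ 0 := by
  intro h
  have h1 := p0_mem hw
  rw [h] at h1
  simp at h1

private lemma p0_slit {w : ℂ} (hw : w ∈ Wd 0) {c : ℝ} (hc : 0 < c) :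
    (c : ℂ) * -w ∈ Complex.slitPlane := by
  rw [Complex.mem_slitPlane_iff]
  have h1 := p0_mem hw
  by_cases h : w.im = 0
  · left
    rw [h, abs_zero] at h1
    simp only [Complex.mul_re, Complex.ofReal_re, Complex.neg_re, Complex.ofReal_im, Complex.neg_im,
      zero_mul, sub_zero]
    exact mul_pos hc (by linarith)
  · right
    simp only [Complex.mul_im, Complex.ofReal_re, Complex.neg_im, Complex.ofReal_im, Complex.neg_re,
      zero_mul, add_zero]
    exact mul_ne_zero hc.ne' (neg_ne_zero.2 h)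

private lemma p0_arg {w : ℂ} (hw : w ∈ Wd 0) {c : ℝ} (hc : 0 < c) :
    |((c : ℂ) * -w).arg| < 3 * Real.pi / 4 := by
  rw [Complex.arg_real_mul (-w) hc]
  have h1 := p0_mem hw
  have hre := Complex.norm_mul_cos_arg (-w)
  have him := Complex.norm_mul_sin_arg (-w)
  have hn : 0 < ‖-w‖ := norm_pos_iff.2 (neg_ne_zero.2 (p0_ne hw))
  by_contra hcon
  have h2 : 3 * Real.pi / 4 ≤ |(-w).arg| := not_lt.1 hcon
  have h3 : |(-w).arg| ≤ Real.pi := Complex.abs_arg_le_pi _
  have hpi := Real.pi_pos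
  -- put `θ = π - |arg|`, in `[0, π / 4]`
  have hcos : Real.cos (-w).arg = Real.cos |(-w).arg| := (Real.cos_abs _).symm
  have hsin : |Real.sin (-w).arg| = Real.sin |(-w).arg| := by
    rcases le_total 0 (-w).arg with h | h
    · rw [abs_of_nonneg h, abs_of_nonneg (Real.sin_nonneg_of_nonneg_of_le_pi h
        (Complex.arg_le_pi _))]
    · have h5 : 0 ≤ -(-w).arg := by linarith
      have h6 : -(-w).arg ≤ Real.pi := by
        have := Complex.neg_pi_lt_arg (-w)
        linarith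
      have h7 := Real.sin_nonneg_of_nonneg_of_le_pi h5 h6
      rw [abs_of_nonpos h]
      rw [Real.sin_neg] at h7
      rw [Real.sin_neg, abs_of_nonpos (by linarith)]
  have hc1 : Real.cos |(-w).arg| ≤ -(Real.sqrt 2 / 2) := by
    have h8 : Real.cos (Real.pi - |(-w).arg|) = -Real.cos |(-w).arg| := Real.cos_pi_sub _
    have h9 : Real.cos (Real.pi / 4) ≤ Real.cos (Real.pi - |(-w).arg|) :=
      Real.cos_le_cos_of_nonneg_of_le_pi (by linarith) (by linarith) (by linarith)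
    rw [Real.cos_pi_div_four, h8] at h9
    linarith
  have hs1 : Real.sin |(-w).arg| ≤ Real.sqrt 2 / 2 := by
    have h8 : Real.sin (Real.pi - |(-w).arg|) = Real.sin |(-w).arg| := Real.sin_pi_sub _
    have h9 : Real.sin (Real.pi - |(-w).arg|) ≤ Real.sin (Real.pi / 4) :=
      Real.sin_le_sin_of_le_of_le_pi_div_two (by linarith) (by linarith) (by linarith)
    rw [Real.sin_pi_div_four, h8] at h9
    exact h9
  have h10 : (-w).re + |(-w).im| ≤ 0 := by
    rw [← hre, ← him, abs_mul, abs_of_pos hn, hcos, hsin]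
    have : ‖-w‖ * (Real.cos |(-w).arg| + Real.sin |(-w).arg|) ≤ 0 :=
      mul_nonpos_of_nonneg_of_nonpos hn.le (by linarith)
    linarith
  simp only [Complex.neg_re, Complex.neg_im, abs_neg] at h10
  linarith

private lemma p0_chi_ne (m : ℕ) (κ : ℝ) (w : ℂ) : chi m κ w ≠ 0 := Complex.exp_ne_zero _

private lemma p0_hasDeriv {m : ℕ} {κ : ℝ} (hm : 2 ≤ m) (hκ : 0 < κ) {w : ℂ} (hw : w ∈ Wd 0) :
    HasDerivAt (chi m κ) (om m κ w) w := by
  have hc := p0_cc_pos hm hκ
  have hn := p0_nu_pos hm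
  have hcC : (cc m κ : ℂ) ≠ 0 := by exact_mod_cast hc.ne'
  have hnC : (nu m : ℂ) ≠ 0 := by exact_mod_cast hn.ne'
  have hw0 := p0_ne hw
  have h1 : HasDerivAt (fun z : ℂ => (cc m κ : ℂ) * -z) ((cc m κ : ℂ) * -1) w :=
    (hasDerivAt_id w).neg.const_mul _
  have h2 := h1.clog (p0_slit hw hc)
  have h3 := (h2.const_mul (-(1 / (nu m : ℂ)))).cexp
  have h4 : om m κ w = Complex.exp (-(1 / (nu m : ℂ)) * Complex.log ((cc m κ : ℂ) * -w)) *
      (-(1 / (nu m : ℂ)) * ((cc m κ : ℂ) * -1 / ((cc m κ : ℂ) * -w))) := by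
    unfold om chi
    field_simp
  rw [h4]
  exact h3

private lemma p0_real {m : ℕ} {κ : ℝ} (hm : 2 ≤ m) (hκ : 0 < κ) {w : ℝ} (hw : w < 0) :
    chi m κ (w : ℂ) = ((Real.exp (-(1 / nu m) * Real.log (cc m κ * -w)) : ℝ) : ℂ) := by
  have hc := p0_cc_pos hm hκ
  unfold chi
  have h1 : (cc m κ : ℂ) * -(w : ℂ) = ((cc m κ * -w : ℝ) : ℂ) := by push_cast; ring
  rw [h1, ← Complex.ofReal_log (mul_nonneg hc.le (by linarith))]
  push_cast
  ring_nf

private lemma p0_norm {m : ℕ} {κ : ℝ} (hm : 2 ≤ m) (hκ : 0 < κ) {w : ℂ} (hw : w ≠ 0) :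
    ‖chi m κ w‖ = (cc m κ * ‖w‖) ^ (-(1 / nu m)) := by
  have hc := p0_cc_pos hm hκ
  have hpos : 0 < cc m κ * ‖w‖ := mul_pos hc (norm_pos_iff.2 hw)
  have h1 : ‖(cc m κ : ℂ) * -w‖ = cc m κ * ‖w‖ := by
    rw [norm_mul, norm_neg, Complex.norm_real, Real.norm_of_nonneg hc.le]
  unfold chi
  rw [Complex.norm_exp, Real.rpow_def_of_pos hpos]
  congr 1
  have h2 : -(1 / (nu m : ℂ)) = ((-(1 / nu m) : ℝ) : ℂ) := by push_cast; ring
  rw [h2, Complex.re_ofReal_mul, Complex.log_re, h1]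
  ring

private lemma p0_pow {m : ℕ} {κ : ℝ} (hm : 2 ≤ m) (hκ : 0 < κ) {w : ℂ} (hw : w ≠ 0) :
    chi m κ w ^ (m - 1) * ((cc m κ : ℂ) * w) ^ 2 = 1 := by
  have hc := p0_cc_pos hm hκ
  have hn := p0_nu_pos hm
  have hcC : (cc m κ : ℂ) ≠ 0 := by exact_mod_cast hc.ne'
  have hnC : (nu m : ℂ) ≠ 0 := by exact_mod_cast hn.ne'
  have hA : (cc m κ : ℂ) * -w ≠ 0 := mul_ne_zero hcC (neg_ne_zero.2 hw)
  have h1 : ((m - 1 : ℕ) : ℂ) = 2 * (nu m : ℂ) := by
    unfold nu
    push_cast [Nat.cast_sub (show 1 ≤ m by omega)]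
    ring
  have h2 : chi m κ w ^ (m - 1) = Complex.exp (-(2 * Complex.log ((cc m κ : ℂ) * -w))) := by
    unfold chi
    rw [← Complex.exp_nat_mul, h1]
    congr 1
    field_simp
  have h3 : Complex.exp (2 * Complex.log ((cc m κ : ℂ) * -w)) = ((cc m κ : ℂ) * w) ^ 2 := by
    rw [two_mul, Complex.exp_add, Complex.exp_log hA]
    ring
  rw [h2, ← h3, ← Complex.exp_add]
  simp

private lemma p0_log {w b : ℂ} {c ν : ℝ} (hc : 0 < c) (hν : 0 < ν) (hw : w ∈ Wd 0)
    (hb : ‖b‖ ≤ 1 / (4 * (1 + ν))) :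
    Complex.log ((c : ℂ) * -(w * Complex.exp (-(ν : ℂ) * Complex.log (1 + b)))) =
      Complex.log ((c : ℂ) * -w) + -(ν : ℂ) * Complex.log (1 + b) := by
  have hcC : (c : ℂ) ≠ 0 := by exact_mod_cast hc.ne'
  have hA : (c : ℂ) * -w ≠ 0 := mul_ne_zero hcC (neg_ne_zero.2 (p0_ne hw))
  have hb2 : ‖b‖ ≤ 1 / 2 := by
    refine le_trans hb ?_
    rw [div_le_div_iff₀ (by positivity) (by norm_num)]
    linarith
  have hlog : ‖Complex.log (1 + b)‖ ≤ 3 / 2 * ‖b‖ := Complex.norm_log_one_add_half_le_self hb2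
  have him : |(-(ν : ℂ) * Complex.log (1 + b)).im| ≤ 3 / 8 := by
    have h1 : |(-(ν : ℂ) * Complex.log (1 + b)).im| ≤ ‖-(ν : ℂ) * Complex.log (1 + b)‖ :=
      Complex.abs_im_le_norm _
    have h2 : ‖-(ν : ℂ) * Complex.log (1 + b)‖ = ν * ‖Complex.log (1 + b)‖ := by
      rw [norm_mul, norm_neg, Complex.norm_real, Real.norm_of_nonneg hν.le]
    have h3 : ν * ‖Complex.log (1 + b)‖ ≤ ν * (3 / 2 * (1 / (4 * (1 + ν)))) :=
      mul_le_mul_of_nonneg_left (le_trans hlog (by linarith)) hν.le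
    have h4 : ν * (3 / 2 * (1 / (4 * (1 + ν)))) ≤ 3 / 8 := by
      have h5 : ν * (3 / 2 * (1 / (4 * (1 + ν)))) = 3 / 8 * (ν / (1 + ν)) := by
        field_simp
        ring
      rw [h5]
      have h6 : ν / (1 + ν) ≤ 1 := by
        rw [div_le_one (by linarith)]
        linarith
      linarith
    linarith
  have harg := p0_arg hw hc
  have hsum : Complex.exp (Complex.log ((c : ℂ) * -w) + -(ν : ℂ) * Complex.log (1 + b)) =
      (c : ℂ) * -(w * Complex.exp (-(ν : ℂ) * Complex.log (1 + b))) := by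
    rw [Complex.exp_add, Complex.exp_log hA]
    ring
  rw [← hsum]
  have hpi := Real.pi_gt_three
  have him2 : (Complex.log ((c : ℂ) * -w)).im = ((c : ℂ) * -w).arg := Complex.log_im _
  apply Complex.log_exp
  · rw [Complex.add_im, him2]
    have h1 := (abs_lt.1 harg).1
    have h2 := (abs_le.1 him).1
    linarith
  · rw [Complex.add_im, him2]
    have h1 := (abs_lt.1 harg).2
    have h2 := (abs_le.1 him).2
    linarith

theorem p_p0 : S_p0 := by
  intro m κ hm hκ
  have hn := p0_nu_pos hm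
  have hc := p0_cc_pos hm hκ
  have hnC : (nu m : ℂ) ≠ 0 := by exact_mod_cast hn.ne'
  have hcC : (cc m κ : ℂ) ≠ 0 := by exact_mod_cast hc.ne'
  refine ⟨hn, hc, fun w hw => p0_hasDeriv hm hκ hw, ?_, ?_, ?_, ?_, ?_, ?_, ?_⟩
  · intro w hw
    have h1 : DifferentiableAt ℂ (chi m κ) w := (p0_hasDeriv hm hκ hw).differentiableAt
    have h2 : DifferentiableAt ℂ (fun z : ℂ => (nu m : ℂ) * -z) w := by fun_prop
    have h3 : (nu m : ℂ) * -w ≠ 0 := mul_ne_zero hnC (neg_ne_zero.2 (p0_ne hw))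
    exact (h1.div h2 h3).differentiableWithinAt
  · intro w hw
    have hd : (nu m : ℂ) * -w ≠ 0 := mul_ne_zero hnC (neg_ne_zero.2 hw)
    have hpow := p0_pow hm hκ hw
    refine ⟨p0_chi_ne m κ w, div_ne_zero (p0_chi_ne m κ w) hd, p0_norm hm hκ hw, ?_, hpow, ?_⟩
    · unfold om
      rw [norm_div, p0_norm hm hκ hw, norm_mul, norm_neg, Complex.norm_real,
        Real.norm_of_nonneg hn.le]
    · have h1 : chi m κ w ^ (m + 1) = chi m κ w ^ 2 * chi m κ w ^ (m - 1) := by
        rw [← pow_add]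
        congr 1
        omega
      have h2 : chi m κ w ^ (m - 1) = 1 / ((cc m κ : ℂ) * w) ^ 2 := by
        rw [eq_div_iff (pow_ne_zero 2 (mul_ne_zero hcC hw))]
        exact hpow
      have h3 : (cc m κ : ℂ) ^ 2 = (nu m : ℂ) ^ 2 * ((2 * κ / ((m : ℝ) + 1) : ℝ) : ℂ) := by
        have h4 := p0_cc_sq (m := m) hκ
        have h5 : ((cc m κ ^ 2 : ℝ) : ℂ) = ((nu m ^ 2 * (2 * κ / ((m : ℝ) + 1)) : ℝ) : ℂ) := by
          rw [h4]
        rw [Complex.ofReal_pow, Complex.ofReal_mul, Complex.ofReal_pow] at h5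
        exact h5
      have h6 : ((2 * κ / ((m : ℝ) + 1) : ℝ) : ℂ) ≠ 0 := by
        exact_mod_cast (p0_frac_pos (m := m) hκ).ne'
      rw [h1, h2, mul_pow, h3]
      unfold om
      rw [div_pow, mul_pow, neg_sq]
      field_simp
  · intro w hw
    exact ⟨_, Real.exp_pos _, p0_real hm hκ hw⟩
  · intro w v hwv hv
    rw [p0_real hm hκ hv, p0_real hm hκ (lt_trans hwv hv), Complex.ofReal_re, Complex.ofReal_re]
    apply Real.exp_lt_exp.2
    have h1 : Real.log (cc m κ * -v) < Real.log (cc m κ * -w) := by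
      apply Real.log_lt_log
      · exact mul_pos hc (by linarith)
      · exact mul_lt_mul_of_pos_left (by linarith) hc
    have h2 : 0 < 1 / nu m := by positivity
    nlinarith
  · intro x hx
    refine ⟨-(Real.exp (-(nu m * Real.log x)) / cc m κ), ?_, ?_⟩
    · have : 0 < Real.exp (-(nu m * Real.log x)) / cc m κ := by positivity
      linarith
    · have h0 : -(Real.exp (-(nu m * Real.log x)) / cc m κ) < 0 := by
        have : 0 < Real.exp (-(nu m * Real.log x)) / cc m κ := by positivity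
        linarith
      rw [p0_real hm hκ h0]
      congr 1
      have h1 : cc m κ * - -(Real.exp (-(nu m * Real.log x)) / cc m κ) =
          Real.exp (-(nu m * Real.log x)) := by
        field_simp
      rw [h1, Real.log_exp]
      have h2 : -(1 / nu m) * -(nu m * Real.log x) = Real.log x := by
        field_simp
      rw [h2, Real.exp_log hx]
  · intro w hw b hb
    have h1 := p0_log (c := cc m κ) hc hn hw hb
    have hb1 : 1 + b ≠ 0 := by
      intro h
      have h2 : b = -1 := by linear_combination h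
      rw [h2, norm_neg, norm_one, le_div_iff₀ (by positivity)] at hb
      linarith
    unfold chi
    rw [h1, mul_add, Complex.exp_add]
    congr 1
    have h3 : -(1 / (nu m : ℂ)) * (-(nu m : ℂ) * Complex.log (1 + b)) = Complex.log (1 + b) := by
      field_simp
    rw [h3, Complex.exp_log hb1]
  · intro w hw w' hw' s s' hs hs' hchi hom
    have hw0 := p0_ne hw
    have hw0' := p0_ne hw'
    have e1 := p0_pow hm hκ hw0
    have e2 := p0_pow hm hκ hw0'
    have hchi0 := p0_chi_ne m κ w'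
    rw [hchi] at e1
    have h1 : ((cc m κ : ℂ) * w) ^ 2 = ((cc m κ : ℂ) * w') ^ 2 := by
      have h2 : chi m κ w' ^ (m - 1) ≠ 0 := pow_ne_zero _ hchi0
      exact mul_left_cancel₀ h2 (e1.trans e2.symm)
    have h3 : w ^ 2 = w' ^ 2 := by
      rw [mul_pow, mul_pow] at h1
      exact mul_left_cancel₀ (pow_ne_zero 2 hcC) h1
    rcases sq_eq_sq_iff_eq_or_eq_neg.1 h3 with h | h
    · exact h
    · exfalso
      unfold om at hom
      rw [hchi, h] at hom
      have h4 : (1 + s) = -(1 + s') := by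
        have h5 : chi m κ w' / ((nu m : ℂ) * - -w') * (1 + s) =
            chi m κ w' / ((nu m : ℂ) * - -w') * -(1 + s') := by
          rw [hom]
          field_simp
        have h6 : chi m κ w' / ((nu m : ℂ) * - -w') ≠ 0 := by
          rw [neg_neg]
          exact div_ne_zero hchi0 (mul_ne_zero hnC hw0')
        exact mul_left_cancel₀ h6 h5
      have h7 : s + s' = -2 := by linear_combination h4
      have h8 : ‖s + s'‖ ≤ 1 / 4 := le_trans (norm_add_le _ _) (by linarith)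
      rw [h7, norm_neg] at h8
      norm_num at h8

end Pool.Agent.MP_2f2443_an.RC
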