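import Pool.Agent.Lib.MP_2f2443_an.RC.StmQ

/-!
# MP_2f2443_an, project RC: piece `pa` (the parabolic endpoint)
-/

set_option autoImplicit false

namespace Pool.Agent.MP_2f2443_an.RC

open Filter Topology Pool.Agent.MP_2f2443_an.IP

private lemma pa_mono {C C' : ℝ} (h : C ≤ C') : Wd C' ⊆ Wd C := by
  intro w hw
  have h1 : w.re + C' < |w.im| := hw
  show w.re + C < |w.im|
  linarith

private lemma pa_tail {R : ℂ × ℂ → ℂ} {ξ : ℕ → ℝ} (h : BO R ξ) (n : ℕ) :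
    BO R (fun j => ξ (n + j)) := by
  obtain ⟨h1, h2, h3⟩ := h
  refine ⟨fun j => h1 (n + j), ?_, fun j => h3 (n + j)⟩
  have h4 : (fun j => ξ (n + j)) = fun j => ξ (j + n) := by
    funext j
    rw [add_comm]
  rw [h4]
  exact (tendsto_add_atTop_iff_nat n).2 h2

private lemma pa_large (c ν δ : ℝ) (hc : 0 < c) (hν : 0 < ν) (hδ : 0 < δ) :
    ∃ X₀ : ℝ, 0 < X₀ ∧ ∀ x : ℝ, X₀ ≤ x → (c * x) ^ (-(1 / ν)) ≤ δ / 2 ∧
      (c * x) ^ (-(1 / ν)) / (ν * x) ≤ δ / 4 := by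
  have h1 : Tendsto (fun x : ℝ => (c * x) ^ (-(1 / ν))) atTop (𝓝 0) :=
    (tendsto_rpow_neg_atTop (by positivity : (0 : ℝ) < 1 / ν)).comp
      (tendsto_id.const_mul_atTop hc)
  have h2 : ∀ᶠ x : ℝ in atTop, (c * x) ^ (-(1 / ν)) ≤ δ / 2 :=
    h1.eventually_le_const (by positivity)
  obtain ⟨X₁, hX₁⟩ := eventually_atTop.1 h2
  refine ⟨max (max X₁ (2 / ν)) 1, by positivity, fun x hx => ?_⟩
  have h3 : X₁ ≤ x := ((le_max_left _ _).trans (le_max_left _ _)).trans hx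
  have h4 : 2 / ν ≤ x := ((le_max_right _ _).trans (le_max_left _ _)).trans hx
  have h5 : (1 : ℝ) ≤ x := (le_max_right _ _).trans hx
  have h6 := hX₁ x h3
  refine ⟨h6, ?_⟩
  have h7 : 2 ≤ ν * x := by
    rw [div_le_iff₀ hν] at h4
    linarith
  have h8 : 0 ≤ (c * x) ^ (-(1 / ν)) := by positivity
  rw [div_le_iff₀ (by linarith)]
  nlinarith

/-- the point of the curve -/
private noncomputable def pa_pt (m : ℕ) (κ : ℝ) (g : ℂ → ℂ) (w : ℂ) : ℂ × ℂ :=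
  (chi m κ w, om m κ w * (1 + g w))

theorem p_pa : S_pa := by
  intro hp0 htb hwd hiv hgt hep hfa hcv hic G a δ C R Ψ m κ hL hK hBO
  obtain ⟨p1, p2, p3, p4, p5, p6, p7, p8, -, p10⟩ := hp0 m κ hK.1 hK.2.1
  obtain ⟨C₁, A, σ, W, S, E, hT, hLk⟩ := htb hp0 G a δ C R Ψ m κ hL hK
  obtain ⟨C', M, s, B, hC', hM, hGT⟩ := hgt hwd hiv C₁ A σ (om m κ) W S E hT
  obtain ⟨C₂, g, hC₂, hCu⟩ := hcv G a δ C R Ψ m κ C₁ A σ C' M W S E s B hL hK hT hLk hC' hM hGT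
    hBO
  obtain ⟨C₃, hC₃, hinv⟩ := hic G a δ C R Ψ m κ C₁ A σ C₂ M W S E g hL hK hT hLk
    (hC'.trans hC₂) hM hCu hBO
  obtain ⟨g1, g2, g3, g4⟩ := hCu
  have hC₁ := hT.cpos
  obtain ⟨X₀, hX0, hX₀⟩ := pa_large (cc m κ) (nu m) δ p2 p1 hL.dpos
  obtain ⟨C₄, hC₄, hC₄2, hC₄X⟩ : ∃ C₄ : ℝ, C₃ ≤ C₄ ∧ 2 ≤ C₄ ∧ 2 * X₀ ≤ C₄ :=
    ⟨max (max C₃ 2) (2 * X₀), (le_max_left _ _).trans (le_max_left _ _),
      (le_max_right _ _).trans (le_max_left _ _), le_max_right _ _⟩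
  have s3 : Wd C₄ ⊆ Wd C₃ := pa_mono hC₄
  have s2 : Wd C₄ ⊆ Wd C₂ := pa_mono (hC₃.trans hC₄)
  have s1 : Wd C₄ ⊆ Wd C₁ := pa_mono (by linarith)
  have s21 : Wd C₂ ⊆ Wd C₁ := pa_mono (by linarith)
  have s0 : Wd C₄ ⊆ Wd 0 := pa_mono (by linarith)
  obtain ⟨d1, -, -, -, d5, d6⟩ := hwd C₄ (by linarith)
  obtain ⟨-, -, -, -, -, e6⟩ := hwd C₂ (by linarith)
  have hg8 : ∀ w ∈ Wd C₄, ‖g w‖ < 1 / 2 := fun w hw => by
    have := (g2 w (s2 hw)).2
    linarith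
  have hw1 : ∀ w ∈ Wd C₄, 1 ≤ ‖w‖ := fun w hw => by
    have := (d5 w hw).1
    linarith
  have hw0 : ∀ w ∈ Wd C₄, w ≠ 0 := fun w hw h => by
    have := (d5 w hw).2
    rw [h, norm_zero] at this
    exact lt_irrefl _ this
  -- the point of the curve is in the bidisc
  have hpt : ∀ w ∈ Wd C₄, pa_pt m κ g w ∈ bid δ := fun w hw =>
    (hLk w (s1 hw) (g w) (hg8 w hw)).1
  have hpt2 : ∀ w ∈ Wd C₄, ‖(pa_pt m κ g w).1‖ ≤ δ / 2 ∧ ‖(pa_pt m κ g w).2‖ ≤ δ / 2 := by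
    intro w hw
    have h1 := (d5 w hw).1
    obtain ⟨-, -, q3, q4, -⟩ := p5 w (hw0 w hw)
    obtain ⟨q5, q6⟩ := hX₀ ‖w‖ (by linarith)
    refine ⟨?_, ?_⟩
    · show ‖chi m κ w‖ ≤ δ / 2
      rw [q3]
      exact q5
    · show ‖om m κ w * (1 + g w)‖ ≤ δ / 2
      rw [norm_mul, q4]
      have h2 : ‖1 + g w‖ ≤ 2 := by
        have h3 := norm_add_le (1 : ℂ) (g w)
        rw [norm_one] at h3
        have h4 := hg8 w hw
        linarith
      have h5 : 0 ≤ (cc m κ * ‖w‖) ^ (-(1 / nu m)) / (nu m * ‖w‖) := by positivity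
      nlinarith [norm_nonneg (1 + g w)]
  -- one step
  have hstep : ∀ w ∈ Wd C₄, G (Ψ (pa_pt m κ g w)) = Ψ (pa_pt m κ g (W (w, g w))) := by
    intro w hw
    obtain ⟨l1, l2, l3, l4⟩ := hLk w (s1 hw) (g w) (hg8 w hw)
    obtain ⟨-, i2, -⟩ := hinv w (s3 hw)
    have h1 := hL.eqn (pa_pt m κ g w) l1 l2
    rw [h1]
    congr 1
    refine Prod.ext ?_ ?_
    · exact l3.symm
    · show R (pa_pt m κ g w) = om m κ (W (w, g w)) * (1 + g (W (w, g w)))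
      rw [← i2]
      exact l4.symm
  -- the map on the curve
  obtain ⟨β, hβ⟩ : ∃ β : ℂ → ℂ, β = fun w => W (w, g w) - w - 1 := ⟨_, rfl⟩
  have hβ' : ∀ w, W (w, g w) = w + 1 + β w := fun w => by
    rw [hβ]
    ring
  have hβd : DifferentiableOn ℂ β (Wd C₄) := by
    rw [hβ]
    have h1 : DifferentiableOn ℂ (fun w => W (w, g w)) (Wd C₄) := by
      refine hT.holW.comp (differentiableOn_id.prodMk (g1.mono s2)) ?_
      intro w hw
      exact ⟨s1 hw, hg8 w hw⟩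
    exact (h1.sub differentiableOn_id).sub (differentiableOn_const _)
  have hβb : ∀ w ∈ Wd C₄, ‖β w‖ ≤ (M + A) * ‖w‖ ^ (-σ) := by
    intro w hw
    have h1 := hT.w1 w (g w) (s1 hw) (hg8 w hw)
    have h2 := (g2 w (s2 hw)).1
    have h3 : β w = (W (w, g w) - w - 1 - g w) + g w := by
      rw [hβ]
      ring
    have h4 : ‖β w‖ ≤ ‖W (w, g w) - w - 1 - g w‖ + ‖g w‖ := by
      rw [h3]
      exact norm_add_le _ _
    have h5 : A / ‖w‖ ≤ A * ‖w‖ ^ (-σ) := by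
      rw [div_eq_mul_inv]
      refine mul_le_mul_of_nonneg_left ?_ hT.apos.le
      rw [← Real.rpow_neg_one]
      exact Real.rpow_le_rpow_of_exponent_le (hw1 w hw) (by linarith [hT.sle])
    calc ‖β w‖ ≤ A / ‖w‖ + M * ‖w‖ ^ (-σ) := by linarith
      _ ≤ (M + A) * ‖w‖ ^ (-σ) := by
        rw [add_mul]
        linarith
  have hβr : ∀ w : ℝ, (w : ℂ) ∈ Wd C₄ → (β w).im = 0 := by
    intro w hw
    have h1 := g3 w (s2 hw)
    have h2 : g w = (((g w).re : ℝ) : ℂ) := by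
      apply Complex.ext
      · rw [Complex.ofReal_re]
      · rw [Complex.ofReal_im]
        exact h1
    have h3 : |(g w).re| < 1 / 2 := (Complex.abs_re_le_norm _).trans_lt (hg8 w hw)
    have h4 := (hT.real w (g w).re (s1 hw) h3).1
    rw [← h2] at h4
    rw [hβ]
    simp [h4]
  obtain ⟨C₅, ϖ, hC₅, f1, f2, f3, f4⟩ := hfa hwd hiv C₄ (M + A) σ β (by linarith)
    (by linarith [hT.apos]) hT.spos hT.sle hβd hβb hβr
  -- the local parametrisation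
  obtain ⟨φ₀, hφ₀⟩ : ∃ φ₀ : ℂ → ℂ × ℂ, φ₀ = fun t => Ψ (pa_pt m κ g (ϖ t)) := ⟨_, rfl⟩
  have hopen : IsOpen {t : ℂ | t.re < -C₅} := isOpen_lt Complex.continuous_re continuous_const
  have hmap : Set.MapsTo ϖ {t : ℂ | t.re < -C₅} (Wd C₄) := fun t ht => (f2 t ht).1
  have hptd : DifferentiableOn ℂ (pa_pt m κ g) (Wd C₄) := by
    have h1 : DifferentiableOn ℂ (chi m κ) (Wd C₄) := fun w hw =>
      (p3 w (s0 hw)).differentiableAt.differentiableWithinAt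
    exact h1.prodMk ((p4.mono s0).mul ((differentiableOn_const _).add (g1.mono s2)))
  have hφd : DifferentiableOn ℂ φ₀ {t : ℂ | t.re < -C₅} := by
    rw [hφ₀]
    exact hL.holP.comp (hptd.comp f1 hmap) (fun t ht => hpt _ (hmap ht))
  have hφi : Set.InjOn φ₀ {t : ℂ | t.re < -C₅ ∧ |t.im| < -t.re / 2} := by
    rintro t ⟨ht1, ht2⟩ t' ⟨ht1', ht2'⟩ h
    rw [hφ₀] at h
    have h1 : pa_pt m κ g (ϖ t) = pa_pt m κ g (ϖ t') :=
      hL.inj (hpt _ (hmap ht1)) (hpt _ (hmap ht1')) h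
    have h2 : ϖ t = ϖ t' := p10 _ (s0 (hmap ht1)) _ (s0 (hmap ht1')) _ _
      (g2 _ (s2 (hmap ht1))).2 (g2 _ (s2 (hmap ht1'))).2 (congrArg Prod.fst h1)
      (congrArg Prod.snd h1)
    have h3 := f3 t t' ht1 ht2 ht1' ht2'
    rw [h2, sub_self, zero_sub, norm_neg] at h3
    have h4 : ‖t - t'‖ = 0 := by linarith [norm_nonneg (t - t')]
    exact sub_eq_zero.1 (norm_eq_zero.1 h4)
  have hφ' : ∀ t : ℂ, t.re < -C₅ → |t.im| < -t.re / 2 → deriv φ₀ t ≠ 0 := by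
    intro t ht1 ht2 h0
    have hnh : {t : ℂ | t.re < -C₅} ∈ 𝓝 t := hopen.mem_nhds ht1
    have hϖ : HasDerivAt ϖ (deriv ϖ t) t := (f1.differentiableAt hnh).hasDerivAt
    -- the derivative of `ϖ`
    have h1 : HasDerivAt (fun x => ϖ x - x) (deriv ϖ t - 1) t := hϖ.sub (hasDerivAt_id t)
    have h2 : ∀ᶠ x in 𝓝 t, ‖(ϖ x - x) - (ϖ t - t)‖ ≤ 1 / 2 * ‖x - t‖ := by
      have h3 : {x : ℂ | x.re < -C₅ ∧ |x.im| < -x.re / 2} ∈ 𝓝 t := by
        refine (IsOpen.inter hopen (isOpen_lt (continuous_abs.comp Complex.continuous_im)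
          (Complex.continuous_re.neg.div_const 2))).mem_nhds ⟨ht1, ht2⟩
      filter_upwards [h3] with x hx
      have h4 := f3 x t hx.1 hx.2 ht1 ht2
      have h5 : (ϖ x - x) - (ϖ t - t) = ϖ x - ϖ t - (x - t) := by ring
      rw [h5]
      exact h4
    have h6 : ‖deriv ϖ t - 1‖ ≤ 1 / 2 := h1.le_of_lip' (by norm_num) h2
    have h7 : deriv ϖ t ≠ 0 := by
      intro h8
      rw [h8, zero_sub, norm_neg, norm_one] at h6
      norm_num at h6
    -- the first coordinate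
    have h9 : HasDerivAt (fun x => (φ₀ x).1) 0 t := by
      have h10 : HasDerivAt φ₀ 0 t := by
        rw [← h0]
        exact (hφd.differentiableAt hnh).hasDerivAt
      have h11 : HasDerivAt (fun x => (φ₀ x).1) ((0 : ℂ × ℂ).1) t :=
        (hasFDerivAt_fst (𝕜 := ℂ) (E := ℂ) (F := ℂ) (p := φ₀ t)).comp_hasDerivAt t h10
      exact h11
    have h12 : HasDerivAt (fun x => (a : ℂ) + chi m κ (ϖ x)) (om m κ (ϖ t) * deriv ϖ t) t :=
      ((p3 _ (s0 (hmap ht1))).comp t hϖ).const_add _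
    have h13 : (fun x => (φ₀ x).1) =ᶠ[𝓝 t] fun x => (a : ℂ) + chi m κ (ϖ x) := by
      filter_upwards [hnh] with x hx
      rw [hφ₀]
      exact hL.fst _ (hpt _ (hmap hx))
    have h14 := (h12.congr_of_eventuallyEq h13).unique h9
    exact mul_ne_zero (p5 _ (hw0 _ (hmap ht1))).2.1 h7 h14
  have hφe : ∀ t : ℂ, t.re < -C₅ → φ₀ t = G (φ₀ (t - 1)) := by
    intro t ht
    have ht' : (t - 1).re < -C₅ := by
      rw [Complex.sub_re, Complex.one_re]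
      linarith
    rw [hφ₀]
    show Ψ (pa_pt m κ g (ϖ t)) = G (Ψ (pa_pt m κ g (ϖ (t - 1))))
    rw [hstep _ (hmap ht'), hβ', ← (f2 t ht).2]
  have hφb : ∃ M' : ℝ, ∀ t : ℂ, t.re < -C₅ → ‖φ₀ t‖ ≤ M' := by
    have hKc : IsCompact (Metric.closedBall (0 : ℂ) (δ / 2) ×ˢ Metric.closedBall (0 : ℂ) (δ / 2)) :=
      (isCompact_closedBall _ _).prod (isCompact_closedBall _ _)
    have hKs : Metric.closedBall (0 : ℂ) (δ / 2) ×ˢ Metric.closedBall (0 : ℂ) (δ / 2) ⊆ bid δ := by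
      rintro ⟨x, u⟩ ⟨h1, h2⟩
      rw [mem_closedBall_zero_iff] at h1 h2
      have hd := hL.dpos
      exact ⟨by show ‖x‖ < δ; exact lt_of_le_of_lt h1 (by linarith),
        by show ‖u‖ < δ; exact lt_of_le_of_lt h2 (by linarith)⟩
    obtain ⟨M', hM'⟩ := hKc.exists_bound_of_continuousOn (hL.holP.continuousOn.mono hKs)
    refine ⟨M', fun t ht => ?_⟩
    rw [hφ₀]
    apply hM'
    have h1 := hpt2 _ (hmap ht)
    exact ⟨mem_closedBall_zero_iff.2 h1.1, mem_closedBall_zero_iff.2 h1.2⟩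
  obtain ⟨φ, hφU, hφφ⟩ := hep G C₅ φ₀ hL.aut hφd hφi hφ' hφe hφb
  refine ⟨φ, hφU, ?_⟩
  -- the range of `φ` is invariant
  have hrange : ∀ z ∈ Set.range φ, G z ∈ Set.range φ := by
    rintro z ⟨t, rfl⟩
    rcases hφU.2 with ⟨l, -, h⟩ | ⟨h, -⟩
    · exact ⟨_, h t⟩
    · exact ⟨_, h t⟩
  -- the threshold
  have hneg : -(C₄ + 1) < 0 := by linarith
  obtain ⟨x₁, hx₁, hx₁'⟩ := p6 (-(C₄ + 1)) hneg
  refine ⟨x₁, hx₁, fun ξ hξ hξd => ?_⟩
  have hpos : ∀ n, 0 < ξ n := by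
    intro n
    rcases n with _ | n
    · exact (hξ.1 0).1.trans (hξ.1 0).2
    · exact (hξ.1 n).1
  have hle : ∀ n, ξ n ≤ ξ 0 := by
    intro n
    induction n with
    | zero => exact le_rfl
    | succ n ih => exact (hξ.1 n).2.le.trans ih
  choose w hwneg hwchi using fun n => p8 (ξ n) (hpos n)
  -- comparison on the negative reals
  have hcmp : ∀ (v : ℝ) (x : ℝ), v < 0 → chi m κ (v : ℂ) = x → ∀ n, ξ n < x → w n < v := by
    intro v x hv hvx n hn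
    by_contra hcon
    push Not at hcon
    rcases hcon.lt_or_eq with h | h
    · have h1 := p7 v (w n) h (hwneg n)
      rw [hvx, hwchi, Complex.ofReal_re, Complex.ofReal_re] at h1
      linarith
    · rw [h, hwchi] at hvx
      have h2 : ξ n = x := by exact_mod_cast hvx
      linarith
  have hw4 : ∀ n, w n < -C₄ := by
    intro n
    have h1 := hcmp (-(C₄ + 1)) x₁ hneg hx₁' n ((hle n).trans_lt hξd)
    linarith
  have hwW : ∀ n, (w n : ℂ) ∈ Wd C₄ := fun n => (d6 (w n)).2 (hw4 n)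
  have hstepξ : ∀ n, ((ξ n - ξ (n + 1) : ℝ) : ℂ) = om m κ (w n) * (1 + g (w n)) := fun n =>
    g4 (w n) (s2 (hwW n)) (fun j => ξ (n + j)) (pa_tail hξ n) (hwchi n)
  have hptw : ∀ n, pa_pt m κ g (w n) = ((ξ n : ℂ), ((ξ n - ξ (n + 1) : ℝ) : ℂ)) := fun n =>
    Prod.ext (hwchi n) (hstepξ n).symm
  -- the real orbit
  have horb : ∀ n, (w n : ℂ) = w (n + 1) + 1 + β (w (n + 1)) := by
    intro n
    have hw' := hwW (n + 1)
    obtain ⟨-, -, l3, -⟩ := hLk (w (n + 1)) (s1 hw') (g (w (n + 1))) (hg8 _ hw')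
    obtain ⟨i1, -, -⟩ := hinv (w (n + 1)) (s3 hw')
    have h1 : chi m κ (W ((w (n + 1) : ℂ), g (w (n + 1)))) = ξ n := by
      rw [l3]
      have h2 : (chi m κ (w (n + 1) : ℂ), om m κ (w (n + 1)) * (1 + g (w (n + 1)))) =
          ((ξ (n + 1) : ℂ), ((ξ (n + 1) - ξ (n + 2) : ℝ) : ℂ)) := hptw (n + 1)
      rw [h2, hwchi, ← hξ.2.2 n]
    have h3 : (W ((w (n + 1) : ℂ), g (w (n + 1)))).im = 0 := by
      have h4 := hβr (w (n + 1)) hw'
      rw [hβ', Complex.add_im, h4]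
      simp
    have h5 : W ((w (n + 1) : ℂ), g (w (n + 1))) =
        (((W ((w (n + 1) : ℂ), g (w (n + 1)))).re : ℝ) : ℂ) := by
      apply Complex.ext
      · rw [Complex.ofReal_re]
      · rw [Complex.ofReal_im]
        exact h3
    obtain ⟨v, hv⟩ : ∃ v : ℝ, v = (W ((w (n + 1) : ℂ), g (w (n + 1)))).re := ⟨_, rfl⟩
    rw [← hv] at h5
    rw [h5] at h1 i1
    have h6 : v < 0 := by
      have h7 := (e6 v).1 i1
      linarith
    have h8 : v = w n := by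
      rcases lt_trichotomy v (w n) with h | h | h
      · have h9 := p7 v (w n) h (hwneg n)
        rw [h1, hwchi, Complex.ofReal_re] at h9
        exact absurd h9 (lt_irrefl _)
      · exact h
      · have h9 := p7 (w n) v h h6
        rw [h1, hwchi, Complex.ofReal_re] at h9
        exact absurd h9 (lt_irrefl _)
    rw [← hβ', h5, h8]
  have hbot : Tendsto w atTop atBot := by
    rw [tendsto_atBot]
    intro b
    have hb : min b (-1) < 0 := lt_of_le_of_lt (min_le_right _ _) (by norm_num)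
    obtain ⟨x, hx, hx'⟩ := p6 _ hb
    have h1 : ∀ᶠ n in atTop, ξ n < x := hξ.2.1.eventually (gt_mem_nhds hx)
    filter_upwards [h1] with n hn
    exact (hcmp _ x hb hx' n hn).le.trans (min_le_left _ _)
  obtain ⟨t', N, hN, hN'⟩ := f4 w (fun n => ⟨hwW n, horb n⟩) hbot
  have hstart : Ψ ((ξ N : ℂ), ((ξ N - ξ (N + 1) : ℝ) : ℂ)) ∈ Set.range φ := by
    refine ⟨((t' - N : ℝ) : ℂ), ?_⟩
    have h1 : (((t' - N : ℝ) : ℂ)).re < -C₅ := by
      rw [Complex.ofReal_re]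
      exact hN
    rw [hφφ _ h1, hφ₀]
    show Ψ (pa_pt m κ g (ϖ ((t' - N : ℝ) : ℂ))) = _
    rw [hN', hptw]
  have hdown : ∀ n, Ψ ((ξ (n + 1) : ℂ), ((ξ (n + 1) - ξ (n + 2) : ℝ) : ℂ)) ∈ Set.range φ →
      Ψ ((ξ n : ℂ), ((ξ n - ξ (n + 1) : ℝ) : ℂ)) ∈ Set.range φ := by
    intro n hn
    have h1 := hrange _ hn
    have h2 := hstep _ (hwW (n + 1))
    rw [hβ', ← horb n, hptw, hptw] at h2
    rw [h2] at h1
    exact h1
  have hall : ∀ n ≤ N, Ψ ((ξ (N - n) : ℂ), ((ξ (N - n) - ξ (N - n + 1) : ℝ) : ℂ)) ∈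
      Set.range φ := by
    intro n
    induction n with
    | zero =>
      intro _
      exact hstart
    | succ n ih =>
      intro hn
      have h1 := ih (by omega)
      have h2 : N - n = N - (n + 1) + 1 := by omega
      rw [h2] at h1
      exact hdown _ h1
  have h1 := hall N le_rfl
  rw [Nat.sub_self] at h1
  exact h1

end Pool.Agent.MP_2f2443_an.RC
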