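import Pool.Agent.Lib.MP_2f2443_an.RC.StmQ

/-!
# MP_2f2443_an, project RC: piece q2 (size of the steps of a real backward orbit)

No energy is needed: with `u_j = ξ j - ξ (j+1)` one telescopes
`u_j² - u_{j+1}² = (u_j - u_{j+1}) (u_j + u_{j+1}) ≤ (D x_0^m + C M) (u_j + u_{j+1})`.
-/

set_option autoImplicit false

namespace Pool.Agent.MP_2f2443_an.RC

open Filter Topology Pool.Agent.MP_2f2443_an.IP

private theorem q2_le (ξ : ℕ → ℝ) (hpos : ∀ j, 0 < ξ (j + 1) ∧ ξ (j + 1) < ξ j) (j : ℕ) :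
    ξ j ≤ ξ 0 := by
  induction j with
  | zero => exact le_refl _
  | succ j ih => exact le_trans (hpos j).2.le ih

private theorem q2_core (ξ : ℕ → ℝ) (m : ℕ) (D C : ℝ) (hC : 0 < C) (hD : 0 ≤ D)
    (hpos : ∀ j, 0 < ξ (j + 1) ∧ ξ (j + 1) < ξ j) (ht : Tendsto ξ atTop (𝓝 0))
    (hrec : ∀ j, (ξ j - ξ (j + 1)) - (ξ (j + 1) - ξ (j + 2)) ≤
      D * ξ (j + 1) ^ m + C * (ξ (j + 1) - ξ (j + 2)) ^ 2)
    (hx : 4 * C * ξ 0 ≤ 1) : (ξ 0 - ξ 1) ^ 2 ≤ 4 * D * ξ 0 ^ (m + 1) := by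
  have h0 : 0 < ξ 0 := lt_trans (hpos 0).1 (hpos 0).2
  have hxp : ∀ j, 0 < ξ j := by
    intro j
    cases j with
    | zero => exact h0
    | succ j => exact (hpos j).1
  -- the bound with a remainder
  have key : ∀ n : ℕ, (ξ 0 - ξ 1) ^ 2 ≤ 2 * (ξ n - ξ (n + 1)) ^ 2 + 4 * D * ξ 0 ^ (m + 1) := by
    intro n
    obtain ⟨j, hj, hmax⟩ := Finset.exists_max_image (Finset.range (n + 1))
      (fun i => (ξ i - ξ (i + 1)) ^ 2) ⟨0, by simp⟩
    set M : ℝ := (ξ j - ξ (j + 1)) ^ 2 with hM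
    have hM0 : 0 ≤ M := sq_nonneg _
    have hB : 0 ≤ D * ξ 0 ^ m + C * M := by positivity
    have hjn : j ≤ n := by
      have := Finset.mem_range.1 hj
      omega
    have hstep : ∀ k : ℕ, j + k ≤ n →
        (ξ j - ξ (j + 1)) ^ 2 - (ξ (j + k) - ξ (j + k + 1)) ^ 2 ≤
          (D * ξ 0 ^ m + C * M) * ((ξ j - ξ (j + k)) + (ξ (j + 1) - ξ (j + k + 1))) := by
      intro k
      induction k with
      | zero =>
        intro _
        simp
      | succ k ih =>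
        intro hk
        have h1 := ih (by omega)
        have hm1 : (ξ (j + k + 1) - ξ (j + k + 2)) ^ 2 ≤ M := by
          have := hmax (j + k + 1) (by
            rw [Finset.mem_range]
            omega)
          exact this
        have hr := hrec (j + k)
        have hpw : ξ (j + k + 1) ^ m ≤ ξ 0 ^ m :=
          pow_le_pow_left₀ (hxp _).le (q2_le ξ hpos _) m
        have hr2 : (ξ (j + k) - ξ (j + k + 1)) - (ξ (j + k + 1) - ξ (j + k + 2)) ≤
            D * ξ 0 ^ m + C * M := by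
          have e1 : D * ξ (j + k + 1) ^ m ≤ D * ξ 0 ^ m := mul_le_mul_of_nonneg_left hpw hD
          have e2 : C * (ξ (j + k + 1) - ξ (j + k + 2)) ^ 2 ≤ C * M :=
            mul_le_mul_of_nonneg_left hm1 hC.le
          linarith
        have hs1 : 0 < ξ (j + k) - ξ (j + k + 1) := sub_pos.2 (hpos (j + k)).2
        have hs2 : 0 < ξ (j + k + 1) - ξ (j + k + 2) := sub_pos.2 (hpos (j + k + 1)).2
        have hprod : ((ξ (j + k) - ξ (j + k + 1)) - (ξ (j + k + 1) - ξ (j + k + 2))) *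
            ((ξ (j + k) - ξ (j + k + 1)) + (ξ (j + k + 1) - ξ (j + k + 2))) ≤
            (D * ξ 0 ^ m + C * M) *
              ((ξ (j + k) - ξ (j + k + 1)) + (ξ (j + k + 1) - ξ (j + k + 2))) :=
          mul_le_mul_of_nonneg_right hr2 (by linarith)
        have i1 : j + (k + 1) = j + k + 1 := by omega
        rw [i1]
        have i2 : j + k + 1 + 1 = j + k + 2 := by omega
        rw [i2]
        nlinarith [h1, hprod]
    have hfin := hstep (n - j) (by omega)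
    have i3 : j + (n - j) = n := by omega
    rw [i3] at hfin
    have hsum : (ξ j - ξ n) + (ξ (j + 1) - ξ (n + 1)) ≤ 2 * ξ 0 := by
      have a1 := q2_le ξ hpos j
      have a2 := q2_le ξ hpos (j + 1)
      have a3 := hxp n
      have a4 := hxp (n + 1)
      linarith
    have hfin2 : M - (ξ n - ξ (n + 1)) ^ 2 ≤ (D * ξ 0 ^ m + C * M) * (2 * ξ 0) :=
      le_trans hfin (mul_le_mul_of_nonneg_left hsum hB)
    have h00 : (ξ 0 - ξ 1) ^ 2 ≤ M := hmax 0 (by simp)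
    have hcm : 4 * C * ξ 0 * M ≤ 1 * M := mul_le_mul_of_nonneg_right hx hM0
    have hpw2 : ξ 0 ^ (m + 1) = ξ 0 ^ m * ξ 0 := pow_succ _ _
    rw [hpw2]
    nlinarith [hfin2, h00, hcm]
  have hlim : Tendsto (fun n : ℕ => 2 * (ξ n - ξ (n + 1)) ^ 2 + 4 * D * ξ 0 ^ (m + 1)) atTop
      (𝓝 (2 * (0 - 0) ^ 2 + 4 * D * ξ 0 ^ (m + 1))) := by
    have t1 : Tendsto (fun n : ℕ => ξ (n + 1)) atTop (𝓝 0) := (tendsto_add_atTop_iff_nat 1).2 ht
    exact (((ht.sub t1).pow 2).const_mul 2).add_const _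
  have := ge_of_tendsto' hlim key
  simpa using this

/-- **q2.** -/
theorem p_q2 : S_q2 := by
  intro G a δ C R Ψ m κ hL hK
  obtain ⟨hm, hκ, hK⟩ := hK
  have hδ := hL.dpos
  have hC := hL.cpos
  have hD : 0 < (κ + C) * (1 + C) := by positivity
  refine ⟨min (min δ 1) (1 / (4 * C)), by positivity, 4 * ((κ + C) * (1 + C)), by positivity, ?_⟩
  intro ξ hB hξ
  obtain ⟨hpos, ht, heq⟩ := hB
  have hd1 : ξ 0 < δ := lt_of_lt_of_le hξ (le_trans (min_le_left _ _) (min_le_left _ _))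
  have hd2 : ξ 0 < 1 := lt_of_lt_of_le hξ (le_trans (min_le_left _ _) (min_le_right _ _))
  have hd3 : ξ 0 < 1 / (4 * C) := lt_of_lt_of_le hξ (min_le_right _ _)
  refine q2_core ξ m ((κ + C) * (1 + C)) C hC hD.le hpos ht ?_ ?_
  · intro j
    set x : ℝ := ξ (j + 1) with hx
    set u : ℝ := ξ (j + 1) - ξ (j + 2) with hu
    have hx0 : 0 < x := (hpos j).1
    have hu0 : 0 < u := sub_pos.2 (hpos (j + 1)).2
    have hux : u < x := by
      have := (hpos (j + 1)).1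
      rw [hu, hx]
      linarith
    have hxd : x ≤ ξ 0 := q2_le ξ hpos (j + 1)
    have hxδ : x < δ := lt_of_le_of_lt hxd hd1
    have hx1 : x < 1 := lt_of_le_of_lt hxd hd2
    have hnx : ‖(x : ℂ)‖ = x := by rw [Complex.norm_real, Real.norm_of_nonneg hx0.le]
    have hnu : ‖(u : ℂ)‖ = u := by rw [Complex.norm_real, Real.norm_of_nonneg hu0.le]
    have hmem : ((x : ℂ), (u : ℂ)) ∈ bid δ := by
      refine ⟨?_, ?_⟩
      · rw [hnx]; exact hxδ
      · rw [hnu]; linarith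
    have hest := hL.est _ hmem
    have hk := hK (x : ℂ) (by rw [hnx]; exact hxδ)
    have hKn : ‖R ((x : ℂ), 0)‖ ≤ (κ + C) * x ^ m := by
      have e1 : ‖R ((x : ℂ), 0)‖ ≤ ‖R ((x : ℂ), 0) - κ * (x : ℂ) ^ m‖ + ‖(κ : ℂ) * (x : ℂ) ^ m‖ := by
        have := norm_add_le (R ((x : ℂ), 0) - κ * (x : ℂ) ^ m) ((κ : ℂ) * (x : ℂ) ^ m)
        rwa [sub_add_cancel] at this
      have e2 : ‖(κ : ℂ) * (x : ℂ) ^ m‖ = κ * x ^ m := by
        rw [norm_mul, norm_pow, hnx, Complex.norm_real, Real.norm_of_nonneg hκ.le]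
      rw [hnx] at hk
      have e3 : x ^ (m + 1) ≤ x ^ m := by
        rw [pow_succ]
        have : 0 ≤ x ^ m := by positivity
        nlinarith
      have e4 : C * x ^ (m + 1) ≤ C * x ^ m := mul_le_mul_of_nonneg_left e3 hC.le
      rw [e2] at e1
      linarith
    have hre : ξ j = x + (R ((x : ℂ), (u : ℂ))).re := by
      have h1 : (ξ j : ℂ) = (x : ℂ) + R ((x : ℂ), (u : ℂ)) := heq j
      have h2 := congrArg Complex.re h1
      rw [Complex.add_re, Complex.ofReal_re, Complex.ofReal_re] at h2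
      exact h2
    have hest2 : (R ((x : ℂ), (u : ℂ))).re - u - (R ((x : ℂ), 0)).re ≤
        C * u * (u + ‖R ((x : ℂ), 0)‖) := by
      have e1 : (R ((x : ℂ), (u : ℂ)) - (u : ℂ) - R ((x : ℂ), 0)).re ≤
          ‖R ((x : ℂ), (u : ℂ)) - (u : ℂ) - R ((x : ℂ), 0)‖ := Complex.re_le_norm _
      have e2 : (R ((x : ℂ), (u : ℂ)) - (u : ℂ) - R ((x : ℂ), 0)).re =
          (R ((x : ℂ), (u : ℂ))).re - u - (R ((x : ℂ), 0)).re := by simp
      rw [e2] at e1
      have e3 : ‖R ((x : ℂ), (u : ℂ)) - (u : ℂ) - R ((x : ℂ), 0)‖ ≤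
          C * ‖(u : ℂ)‖ * (‖(u : ℂ)‖ + ‖R ((x : ℂ), 0)‖) := hest
      rw [hnu] at e3
      linarith
    have hKr : (R ((x : ℂ), 0)).re ≤ ‖R ((x : ℂ), 0)‖ := Complex.re_le_norm _
    have hxm : 0 ≤ x ^ m := by positivity
    have hu1 : u ≤ 1 := by linarith
    have e5 : C * u * ‖R ((x : ℂ), 0)‖ ≤ C * ((κ + C) * x ^ m) := by
      have f1 : C * u * ‖R ((x : ℂ), 0)‖ ≤ C * u * ((κ + C) * x ^ m) :=
        mul_le_mul_of_nonneg_left hKn (by positivity)
      have f2 : C * u * ((κ + C) * x ^ m) ≤ C * 1 * ((κ + C) * x ^ m) := by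
        have g1 : C * u ≤ C * 1 := mul_le_mul_of_nonneg_left hu1 hC.le
        exact mul_le_mul_of_nonneg_right g1 (by positivity)
      linarith
    have e6 : (ξ j - x) - u ≤ (κ + C) * (1 + C) * x ^ m + C * u ^ 2 := by
      rw [hre]
      nlinarith [hest2, hKr, hKn, e5]
    exact e6
  · have := (lt_div_iff₀ (by positivity : (0 : ℝ) < 4 * C)).1 hd3
    linarith

end Pool.Agent.MP_2f2443_an.RC
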