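import Pool.Agent.Lib.MP_2f2443_an.RC.StmG

/-!
# Piece ra: a continuous function that is holomorphic off its zeros is entire
-/

set_option autoImplicit false

namespace Pool.Agent.MP_2f2443_an.RC

open Filter Topology Metric

/-- the maximum principle off the zeros of `f` -/
lemma ra_max (f : ℂ → ℂ) (hf : Continuous f) (hd : DifferentiableOn ℂ f {z | f z ≠ 0})
    (c : ℂ) (R m : ℝ) (g : ℂ → ℂ)
    (hgc : ContinuousOn g (closure (ball c R ∩ {z | f z ≠ 0})))
    (hgd : DifferentiableOn ℂ g (ball c R ∩ {z | f z ≠ 0})) (hm : 0 ≤ m)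
    (hs : ∀ z ∈ sphere c R, z ∈ closure (ball c R ∩ {z | f z ≠ 0}) → ‖g z‖ ≤ m) :
    ∀ z ∈ ball c R ∩ {z | f z ≠ 0}, ‖g z‖ ≤ m := by
  intro z hz
  obtain ⟨V, hV⟩ : ∃ V, V = ball c R ∩ {z | f z ≠ 0} := ⟨_, rfl⟩
  rw [← hV] at hgc hgd hs hz
  have hVb : Bornology.IsBounded V := by
    rw [hV]
    exact isBounded_ball.subset Set.inter_subset_left
  have hVo : IsOpen V := by
    rw [hV]
    exact isOpen_ball.inter (isOpen_ne_fun hf continuous_const)
  have hVs : V ⊆ ball c R := by
    rw [hV]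
    exact Set.inter_subset_left
  have hVf : V ⊆ {z | f z ≠ 0} := by
    rw [hV]
    exact Set.inter_subset_right
  obtain ⟨B, hB⟩ := (isCompact_closedBall c R).exists_bound_of_continuousOn hf.continuousOn
  have hB0 : 0 ≤ B := (norm_nonneg _).trans (hB z (ball_subset_closedBall (hVs hz)))
  have key : ∀ n : ℕ, ‖g z‖ ^ n * ‖f z‖ ≤ m ^ n * B := by
    intro n
    have h1 : DiffContOnCl ℂ (fun w => g w ^ n * f w) V :=
      ⟨(hgd.pow n).mul (hd.mono hVf), (hgc.pow n).mul hf.continuousOn⟩
    have h2 := Complex.norm_le_of_forall_mem_frontier_norm_le hVb h1 (C := m ^ n * B) ?_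
      (subset_closure hz)
    · rw [norm_mul, norm_pow] at h2
      exact h2
    · intro w hw
      have hwc : w ∈ closedBall c R :=
        closure_ball_subset_closedBall (closure_mono hVs (frontier_subset_closure hw))
      have hwV : w ∉ V := by
        rw [hVo.frontier_eq] at hw
        exact hw.2
      by_cases hfw : f w = 0
      · simp only [hfw, mul_zero, norm_zero]
        positivity
      · have hws : w ∈ sphere c R := by
          rw [mem_sphere]
          refine le_antisymm (mem_closedBall.1 hwc) ?_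
          by_contra hlt
          push Not at hlt
          apply hwV
          rw [hV]
          exact ⟨mem_ball.2 hlt, hfw⟩
        rw [norm_mul, norm_pow]
        exact mul_le_mul
          (pow_le_pow_left₀ (norm_nonneg _) (hs w hws (frontier_subset_closure hw)) n)
          (hB w hwc) (norm_nonneg _) (by positivity)
  by_contra hlt
  push Not at hlt
  have hg0 : 0 < ‖g z‖ := lt_of_le_of_lt hm hlt
  have hq : m / ‖g z‖ < 1 := (div_lt_one hg0).2 hlt
  have h3 : ∀ n : ℕ, ‖f z‖ ≤ (m / ‖g z‖) ^ n * B := by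
    intro n
    have h4 := key n
    rw [div_pow, div_mul_eq_mul_div, le_div_iff₀ (by positivity), mul_comm]
    exact h4
  have h4 : Tendsto (fun n : ℕ => (m / ‖g z‖) ^ n * B) atTop (𝓝 (0 * B)) :=
    (tendsto_pow_atTop_nhds_zero_of_lt_one (by positivity) hq).mul_const B
  have h5 := ge_of_tendsto' h4 h3
  rw [zero_mul] at h5
  exact hVf hz (norm_le_zero_iff.1 h5)

/-- if `f` vanishes near one point it vanishes everywhere -/
lemma ra_zero (f : ℂ → ℂ) (hf : Continuous f) (hd : DifferentiableOn ℂ f {z | f z ≠ 0})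
    (a : ℂ) (s : ℝ) (hs : 0 < s) (h0 : ∀ z ∈ ball a s, f z = 0) : ∀ v, f v = 0 := by
  intro v
  by_contra hv
  obtain ⟨R, hR⟩ : ∃ R : ℝ, R = ‖v - a‖ + 1 := ⟨_, rfl⟩
  have hR0 : 0 < R := by
    rw [hR]
    positivity
  have hcl : ∀ z ∈ closure (ball a R ∩ {z | f z ≠ 0}), z - a ≠ 0 := by
    intro z hz hza
    have hz1 : z = a := sub_eq_zero.1 hza
    rw [_root_.mem_closure_iff] at hz
    obtain ⟨w, hw1, hw2⟩ := hz (ball a s) isOpen_ball (by rw [hz1]; exact mem_ball_self hs)
    exact hw2.2 (h0 w hw1)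
  have h1 := ra_max f hf hd a R R⁻¹ (fun z => (z - a)⁻¹)
    (ContinuousOn.inv₀ (by fun_prop) hcl)
    (DifferentiableOn.inv (by fun_prop) fun z hz => hcl z (subset_closure hz)) (by positivity)
    (by
      intro z hz _
      rw [norm_inv]
      rw [mem_sphere, dist_eq_norm] at hz
      rw [hz])
    v ⟨by rw [mem_ball, dist_eq_norm, hR]; linarith, hv⟩
  have hva : v - a ≠ 0 := by
    intro h2
    rw [sub_eq_zero] at h2
    exact hv (h0 v (by rw [h2]; exact mem_ball_self hs))
  simp only [norm_inv] at h1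
  have h3 := (inv_le_inv₀ (norm_pos_iff.2 hva) hR0).1 h1
  linarith

/-- holomorphic with zero real part on a ball: constant -/
lemma ra_const (g : ℂ → ℂ) (v : ℂ) (s : ℝ) (hs : 0 < s) (hg : DifferentiableOn ℂ g (ball v s))
    (hre : ∀ z ∈ ball v s, (g z).re = 0) : ∃ w, ∀ z ∈ ball v s, g z = w := by
  have han : AnalyticOnNhd ℂ g (ball v s) := hg.analyticOnNhd isOpen_ball
  rcases han.is_constant_or_isOpen (convex_ball v s).isPreconnected with h | h
  · exact h
  · exfalso
    have h1 := h (ball v s) le_rfl isOpen_ball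
    have hv : v ∈ ball v s := mem_ball_self hs
    obtain ⟨e, he, hb⟩ := Metric.isOpen_iff.1 h1 (g v) ⟨v, hv, rfl⟩
    have h2 : g v + (e / 2 : ℝ) ∈ ball (g v) e := by
      rw [mem_ball, dist_eq_norm, add_sub_cancel_left, Complex.norm_real, Real.norm_eq_abs,
        abs_of_pos (by positivity)]
      linarith
    obtain ⟨z, hz, hzz⟩ := hb h2
    have h3 := congrArg Complex.re hzz
    rw [hre z hz, Complex.add_re, hre v hv, Complex.ofReal_re] at h3
    linarith

lemma ra_re (H : ℂ → ℂ) (hH : Differentiable ℂ H) (δ : ℝ)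
    (hs : ∀ z ∈ sphere (0 : ℂ) 2, (H z).re ≤ δ) : ∀ z ∈ ball (0 : ℂ) 2, (H z).re ≤ δ := by
  intro z hz
  have h1 : DiffContOnCl ℂ (fun w => Complex.exp (H w)) (ball (0 : ℂ) 2) :=
    (hH.cexp).diffContOnCl
  have h2 := Complex.norm_le_of_forall_mem_frontier_norm_le isBounded_ball h1
    (C := Real.exp δ) ?_ (subset_closure hz)
  · rw [Complex.norm_exp] at h2
    exact Real.exp_le_exp.1 h2
  · intro w hw
    rw [frontier_ball _ (by norm_num)] at hw
    rw [Complex.norm_exp]
    exact Real.exp_le_exp.2 (hs w hw)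

/-- the holomorphic function with the same real part -/
lemma ra_ext (htp : S_tp) (f : ℂ → ℂ) (hf : Continuous f)
    (hd : DifferentiableOn ℂ f {z | f z ≠ 0}) (v : ℂ) (hv : v ∈ ball (0 : ℂ) 1) (hv0 : f v ≠ 0) :
    ∃ F : ℂ → ℂ, DifferentiableOn ℂ F (ball (0 : ℂ) 1) ∧
      ∀ z ∈ ball (0 : ℂ) 1, f z ≠ 0 → (F z).re = (f z).re := by
  have hP : ∀ n : ℕ, ∃ P : ℂ → ℂ, Differentiable ℂ P ∧
      ∀ z ∈ sphere (0 : ℂ) 2, |(f z).re - (P z).re| ≤ 1 / ((n : ℝ) + 1) := fun n =>
    htp 0 2 (by norm_num) (fun z => (f z).re) (by fun_prop) _ (by positivity)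
  choose P hPd hPs using hP
  have hb12 : ball (0 : ℂ) 1 ⊆ ball (0 : ℂ) 2 := ball_subset_ball (by norm_num)
  -- on the set where `f` does not vanish
  have hPV : ∀ n, ∀ z ∈ ball (0 : ℂ) 1, f z ≠ 0 → |(f z).re - (P n z).re| ≤ 1 / ((n : ℝ) + 1) := by
    intro n z hz hfz
    have hsub : ball (0 : ℂ) 2 ∩ {z | f z ≠ 0} ⊆ {z | f z ≠ 0} := Set.inter_subset_right
    have e1 : (f z).re - (P n z).re ≤ 1 / ((n : ℝ) + 1) := by
      have h1 := ra_max f hf hd 0 2 (Real.exp (1 / ((n : ℝ) + 1)))
        (fun w => Complex.exp (f w - P n w))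
        (Continuous.continuousOn (Complex.continuous_exp.comp (hf.sub (hPd n).continuous)))
        (((hd.mono hsub).sub (hPd n).differentiableOn).cexp) (Real.exp_pos _).le
        (by
          intro w hw _
          rw [Complex.norm_exp, Complex.sub_re]
          exact Real.exp_le_exp.2 ((le_abs_self _).trans (hPs n w hw)))
        z ⟨hb12 hz, hfz⟩
      rw [Complex.norm_exp, Complex.sub_re] at h1
      exact Real.exp_le_exp.1 h1
    have e2 : (P n z).re - (f z).re ≤ 1 / ((n : ℝ) + 1) := by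
      have h1 := ra_max f hf hd 0 2 (Real.exp (1 / ((n : ℝ) + 1)))
        (fun w => Complex.exp (P n w - f w))
        (Continuous.continuousOn (Complex.continuous_exp.comp ((hPd n).continuous.sub hf)))
        (((hPd n).differentiableOn.sub (hd.mono hsub)).cexp) (Real.exp_pos _).le
        (by
          intro w hw _
          rw [Complex.norm_exp, Complex.sub_re]
          refine Real.exp_le_exp.2 (le_trans ?_ (hPs n w hw))
          rw [abs_sub_comm]
          exact le_abs_self _)
        z ⟨hb12 hz, hfz⟩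
      rw [Complex.norm_exp, Complex.sub_re] at h1
      exact Real.exp_le_exp.1 h1
    rw [abs_le]
    constructor <;> linarith
  -- differences
  have hdiff : ∀ m n : ℕ, ∀ z ∈ ball (0 : ℂ) 1,
      ‖(P m z - P m 0) - (P n z - P n 0)‖ ≤
        4 * (1 / ((m : ℝ) + 1) + 1 / ((n : ℝ) + 1)) := by
    intro m n z hz
    obtain ⟨δ, hδ⟩ : ∃ δ : ℝ, δ = 1 / ((m : ℝ) + 1) + 1 / ((n : ℝ) + 1) := ⟨_, rfl⟩
    have hδ0 : 0 < δ := by
      rw [hδ]
      positivity
    have hs1 : ∀ w ∈ sphere (0 : ℂ) 2, (P m w - P n w).re ≤ δ := by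
      intro w hw
      have h1 := abs_le.1 (hPs m w hw)
      have h2 := abs_le.1 (hPs n w hw)
      rw [Complex.sub_re, hδ]
      linarith [h1.1, h1.2, h2.1, h2.2]
    have hs2 : ∀ w ∈ sphere (0 : ℂ) 2, (P n w - P m w).re ≤ δ := by
      intro w hw
      have h1 := abs_le.1 (hPs m w hw)
      have h2 := abs_le.1 (hPs n w hw)
      rw [Complex.sub_re, hδ]
      linarith [h1.1, h1.2, h2.1, h2.2]
    have hb1 := ra_re _ ((hPd m).sub (hPd n)) δ hs1
    have hb2 := ra_re _ ((hPd n).sub (hPd m)) δ hs2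
    have h3 := Complex.borelCaratheodory_zero
      (f := fun w => (P m w - P m 0) - (P n w - P n 0)) (M := 2 * δ) (R := 2) (z := z)
      (by positivity)
      ((((hPd m).sub_const _).sub ((hPd n).sub_const _)).differentiableOn)
      (by
        intro w hw
        have h4 := hb1 w hw
        have h5 := hb2 0 (mem_ball_self (by norm_num))
        simp only [Pi.sub_apply, Complex.sub_re] at h4 h5
        simp only [Set.mem_ofPred_eq, Complex.sub_re]
        linarith)
      (by norm_num) (hb12 hz) (by simp)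
    rw [← hδ]
    refine h3.trans ?_
    have hz1 : ‖z‖ < 1 := by rwa [mem_ball_zero_iff] at hz
    have hz0 : 0 ≤ ‖z‖ := norm_nonneg z
    rw [div_le_iff₀ (by linarith)]
    nlinarith
  have hcau : UniformCauchySeqOn (fun n z => P n z - P n 0) atTop (ball (0 : ℂ) 1) := by
    rw [Metric.uniformCauchySeqOn_iff]
    intro ε hε
    obtain ⟨N, hN⟩ := exists_nat_gt (8 / ε)
    refine ⟨N, fun m hm n hn z hz => ?_⟩
    rw [dist_eq_norm]
    refine (hdiff m n z hz).trans_lt ?_
    have hN1 : 8 / ε < (N : ℝ) + 1 := by linarith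
    have hN0 : (0 : ℝ) < (N : ℝ) + 1 := by positivity
    have hN2 : 1 / ((N : ℝ) + 1) < ε / 8 := by
      rw [div_lt_iff₀ hN0]
      rw [div_lt_iff₀ hε] at hN1
      linarith
    have h5 : 1 / ((m : ℝ) + 1) ≤ 1 / ((N : ℝ) + 1) :=
      one_div_le_one_div_of_le hN0 (by
        have : (N : ℝ) ≤ m := by exact_mod_cast hm
        linarith)
    have h6 : 1 / ((n : ℝ) + 1) ≤ 1 / ((N : ℝ) + 1) :=
      one_div_le_one_div_of_le hN0 (by
        have : (N : ℝ) ≤ n := by exact_mod_cast hn
        linarith)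
    linarith
  have hlim : ∀ z, ∃ w, z ∈ ball (0 : ℂ) 1 → Tendsto (fun n => P n z - P n 0) atTop (𝓝 w) := by
    intro z
    by_cases hz : z ∈ ball (0 : ℂ) 1
    · have h7 : CauchySeq (fun n => P n z - P n 0) := by
        rw [Metric.cauchySeq_iff]
        intro ε hε
        obtain ⟨N, hN⟩ := Metric.uniformCauchySeqOn_iff.1 hcau ε hε
        exact ⟨N, fun m hm n hn => hN m hm n hn z hz⟩
      obtain ⟨w, hw⟩ := cauchySeq_tendsto_of_complete h7
      exact ⟨w, fun _ => hw⟩
    · exact ⟨0, fun h => absurd h hz⟩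
  choose F0 hF0 using hlim
  have huni : TendstoUniformlyOn (fun n z => P n z - P n 0) F0 atTop (ball (0 : ℂ) 1) :=
    hcau.tendstoUniformlyOn_of_tendsto fun z hz => hF0 z hz
  have hF0d : DifferentiableOn ℂ F0 (ball (0 : ℂ) 1) :=
    huni.tendstoLocallyUniformlyOn.differentiableOn
      (Eventually.of_forall fun n => ((hPd n).sub_const _).differentiableOn) isOpen_ball
  -- the real parts
  have hre : ∀ z ∈ ball (0 : ℂ) 1, f z ≠ 0 →
      Tendsto (fun n => (P n z).re) atTop (𝓝 (f z).re) := by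
    intro z hz hfz
    rw [tendsto_iff_dist_tendsto_zero]
    refine squeeze_zero (fun n => dist_nonneg) (fun n => ?_) tendsto_one_div_add_atTop_nhds_zero_nat
    rw [dist_comm, Real.dist_eq]
    exact hPV n z hz hfz
  have hr : Tendsto (fun n => (P n 0).re) atTop (𝓝 ((f v).re - (F0 v).re)) := by
    have h8 := (hre v hv hv0).sub
      ((Complex.continuous_re.tendsto _).comp (hF0 v hv))
    refine h8.congr fun n => ?_
    simp
  refine ⟨fun z => F0 z + (((f v).re - (F0 v).re : ℝ) : ℂ), hF0d.add_const _, fun z hz hfz => ?_⟩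
  have h9 := ((Complex.continuous_re.tendsto _).comp (hF0 z hz)).add hr
  have h10 : Tendsto (fun n => (P n z).re) atTop (𝓝 ((F0 z).re + ((f v).re - (F0 v).re))) := by
    refine h9.congr fun n => ?_
    simp
  rw [Complex.add_re, Complex.ofReal_re]
  exact tendsto_nhds_unique h10 (hre z hz hfz)

lemma ra_at (htp : S_tp) (f : ℂ → ℂ) (hf : Continuous f)
    (hd : DifferentiableOn ℂ f {z | f z ≠ 0}) (hdense : Dense {z | f z ≠ 0}) :
    DifferentiableAt ℂ f 0 := by
  have hU : IsOpen {z | f z ≠ 0} := isOpen_ne_fun hf continuous_const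
  obtain ⟨v, hv0, hv⟩ := hdense.exists_mem_open isOpen_ball
    (⟨0, mem_ball_self one_pos⟩ : (ball (0 : ℂ) 1).Nonempty)
  obtain ⟨F, hF, hFr⟩ := ra_ext htp f hf hd v hv hv0
  have hset : {z | Complex.I * f z ≠ 0} = {z | f z ≠ 0} := by
    ext z
    simp
  obtain ⟨G, hG, hGr⟩ := ra_ext htp (fun z => Complex.I * f z) (by fun_prop)
    (by
      rw [hset]
      exact hd.const_mul _) v hv (mul_ne_zero Complex.I_ne_zero hv0)
  obtain ⟨s, hs, hsV⟩ := Metric.isOpen_iff.1 (isOpen_ball.inter hU) v ⟨hv, hv0⟩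
  have hs1 : ball v s ⊆ ball (0 : ℂ) 1 := fun z hz => (hsV hz).1
  have hs2 : ball v s ⊆ {z | f z ≠ 0} := fun z hz => (hsV hz).2
  obtain ⟨b, hb⟩ := ra_const (fun z => f z - F z) v s hs ((hd.mono hs2).sub (hF.mono hs1))
    (by
      intro z hz
      rw [Complex.sub_re, hFr z (hs1 hz) (hs2 hz), sub_self])
  obtain ⟨b', hb'⟩ := ra_const (fun z => Complex.I * f z - G z) v s hs
    (((hd.mono hs2).const_mul _).sub (hG.mono hs1))
    (by
      intro z hz
      rw [Complex.sub_re, hGr z (hs1 hz) (mul_ne_zero Complex.I_ne_zero (hs2 hz)), sub_self])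
  have hGF : Set.EqOn G (fun z => Complex.I * F z + (Complex.I * b - b')) (ball (0 : ℂ) 1) := by
    refine AnalyticOnNhd.eqOn_of_preconnected_of_eventuallyEq (hG.analyticOnNhd isOpen_ball)
      (((hF.const_mul _).add_const _).analyticOnNhd isOpen_ball)
      (convex_ball _ _).isPreconnected hv ?_
    filter_upwards [ball_mem_nhds v hs] with z hz
    have h1 := hb z hz
    have h2 := hb' z hz
    beta_reduce at h1 h2
    rw [← h1, ← h2]
    ring
  have hV : ∀ z ∈ ball (0 : ℂ) 1, f z ≠ 0 →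
      f z = F z - Complex.I * (((Complex.I * b - b').re : ℝ) : ℂ) := by
    intro z hz hfz
    have h3 := hGr z hz (mul_ne_zero Complex.I_ne_zero hfz)
    rw [hGF hz] at h3
    have h4 := hFr z hz hfz
    apply Complex.ext
    · simp only [Complex.sub_re, Complex.mul_re, Complex.I_re, Complex.I_im, Complex.ofReal_re,
        Complex.ofReal_im]
      rw [h4]
      ring
    · simp only [Complex.add_re, Complex.mul_re, Complex.I_re, Complex.I_im] at h3
      simp only [Complex.sub_im, Complex.mul_im, Complex.I_re, Complex.I_im, Complex.ofReal_re,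
        Complex.ofReal_im, Complex.sub_re, Complex.mul_re] at h3 ⊢
      linarith
  have hall : ∀ z ∈ ball (0 : ℂ) 1,
      f z = F z - Complex.I * (((Complex.I * b - b').re : ℝ) : ℂ) := by
    intro z hz
    have hne : (𝓝[{z | f z ≠ 0}] z).NeBot := mem_closure_iff_nhdsWithin_neBot.1 (hdense z)
    have h5 : Tendsto f (𝓝[{z | f z ≠ 0}] z) (𝓝 (f z)) := hf.continuousWithinAt
    have hFc : ContinuousAt F z := (hF.differentiableAt (isOpen_ball.mem_nhds hz)).continuousAt
    have h6 : Tendsto (fun w => F w - Complex.I * (((Complex.I * b - b').re : ℝ) : ℂ))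
        (𝓝[{z | f z ≠ 0}] z)
        (𝓝 (F z - Complex.I * (((Complex.I * b - b').re : ℝ) : ℂ))) :=
      (hFc.tendsto.sub_const _).mono_left nhdsWithin_le_nhds
    refine tendsto_nhds_unique h5 (h6.congr' ?_)
    filter_upwards [self_mem_nhdsWithin, nhdsWithin_le_nhds (isOpen_ball.mem_nhds hz)] with w hw1 hw2
    exact (hV w hw2 hw1).symm
  have h0 : (0 : ℂ) ∈ ball (0 : ℂ) 1 := mem_ball_self one_pos
  have h7 : DifferentiableAt ℂ (fun w => F w - Complex.I * (((Complex.I * b - b').re : ℝ) : ℂ)) 0 :=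
    (hF.differentiableAt (isOpen_ball.mem_nhds h0)).sub_const _
  refine h7.congr_of_eventuallyEq ?_
  filter_upwards [isOpen_ball.mem_nhds h0] with w hw
  exact hall w hw

theorem p_ra : S_tp → S_ra := by
  intro htp f hf hd
  by_cases hdense : Dense {z | f z ≠ 0}
  · intro c
    have h1 : DifferentiableAt ℂ (fun z => f (z + c)) 0 := by
      apply ra_at htp
      · fun_prop
      · intro z hz
        have hU : IsOpen {z | f z ≠ 0} := isOpen_ne_fun hf continuous_const
        have h2 : DifferentiableAt ℂ f (z + c) := hd.differentiableAt (hU.mem_nhds hz)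
        exact (h2.comp z (by fun_prop)).differentiableWithinAt
      · have h3 : {z | f (z + c) ≠ 0} = (Homeomorph.addRight c) ⁻¹' {z | f z ≠ 0} := rfl
        rw [h3]
        exact hdense.preimage (Homeomorph.addRight c).isOpenMap
    have h4 : DifferentiableAt ℂ (fun z => (fun w => f (w + c)) (z - c)) c := by
      apply DifferentiableAt.comp c (g := fun w => f (w + c)) (f := fun z => z - c)
      · rw [sub_self]
        exact h1
      · fun_prop
    simpa using h4
  · have h5 : ∃ a, a ∉ closure {z | f z ≠ 0} := by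
      by_contra hno
      push Not at hno
      exact hdense hno
    obtain ⟨a, ha⟩ := h5
    obtain ⟨s, hs, hsub⟩ := Metric.isOpen_iff.1 isClosed_closure.isOpen_compl a ha
    have h6 : ∀ v, f v = 0 := ra_zero f hf hd a s hs fun z hz => by
      by_contra hfz
      exact hsub hz (subset_closure hfz)
    have h7 : f = fun _ => 0 := funext h6
    rw [h7]
    exact differentiable_const _

end Pool.Agent.MP_2f2443_an.RC
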