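import Pool.Agent.Lib.MP_2f2443_an.RC.StmG

set_option autoImplicit false

namespace Pool.Agent.MP_2f2443_an.RC

open Filter Topology Pool.Agent.MP_2f2443_an.IP

private theorem rv_surj {k : ℝ} {h : ℝ → ℝ} (H : Circ k h) : Function.Surjective h := by
  have h1 : ∀ n : ℕ, h n = h 0 + n := by
    intro n
    induction n with
    | zero => simp
    | succ n ih =>
      push_cast
      rw [H.deg, ih]
      ring
  have h2 : ∀ n : ℕ, h (-n) = h 0 - n := by
    intro n
    induction n with
    | zero => simp
    | succ n ih =>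
      have h3 := H.deg (-((n + 1 : ℕ) : ℝ))
      have h4 : -((n + 1 : ℕ) : ℝ) + 1 = -(n : ℝ) := by push_cast; ring
      rw [h4, ih] at h3
      push_cast at h3 ⊢
      linarith
  intro y
  obtain ⟨n, hn⟩ := exists_nat_ge |y - h 0|
  have h5 := abs_le.1 hn
  exact mem_range_of_exists_le_of_exists_ge H.cont ⟨-n, by rw [h2]; linarith [h5.1]⟩
    ⟨n, by rw [h1]; linarith [h5.2]⟩

private theorem rv_odd (k x : ℝ) : VR k (-x) = -VR k x := by
  unfold VR
  rw [show 2 * Real.pi * -x = -(2 * Real.pi * x) by ring, Real.sin_neg]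
  ring

theorem p_rv : S_rv := by
  intro k h H
  let e : ℝ ≃o ℝ := H.mono.orderIsoOfSurjective h (rv_surj H)
  have he : ∀ x, h (e.symm x) = x := fun x => e.apply_symm_apply x
  have he' : ∀ x, e.symm (h x) = x := fun x => e.symm_apply_apply x
  refine ⟨fun x => -e.symm (-x), ⟨?_, ?_, ?_, ?_⟩, ?_, ?_⟩
  · exact (e.symm.continuous.comp continuous_neg).neg
  · intro x y hxy
    have h1 : e.symm (-y) < e.symm (-x) := e.symm.strictMono (neg_lt_neg hxy)
    exact neg_lt_neg h1
  · intro x
    have h1 : e.symm (-(x + 1)) = e.symm (-x) - 1 := by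
      apply H.mono.injective
      rw [he]
      have h2 := H.deg (e.symm (-x) - 1)
      rw [sub_add_cancel, he] at h2
      linarith
    change -e.symm (-(x + 1)) = -e.symm (-x) + 1
    rw [h1]
    ring
  · intro x
    change -e.symm (-(-e.symm (-x))) = 2 * (-e.symm (-x)) - x + VR k (-e.symm (-x))
    rw [neg_neg]
    have h1 := H.eq (e.symm (e.symm (-x)))
    rw [he, he] at h1
    rw [rv_odd]
    linarith
  · intro n
    induction n with
    | zero => intro x; simp
    | succ n ih =>
      intro x
      rw [Function.iterate_succ_apply, Function.iterate_succ_apply']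
      change (fun x => -e.symm (-x))^[n] (-e.symm (-(-h (h^[n] x)))) = -x
      rw [neg_neg, he']
      exact ih x
  · intro x
    change -e.symm (-(-x)) - -x = (h x - x) - VR k x
    rw [neg_neg]
    have h1 := H.eq (e.symm x)
    rw [he] at h1
    linarith

end Pool.Agent.MP_2f2443_an.RC
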