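import Pool.Agent.Lib.MP_2f2443_an.RC.StmQ

/-!
# MP_2f2443_an, project RC: piece tb (tube estimates)
-/

set_option autoImplicit false

namespace Pool.Agent.MP_2f2443_an.RC

open Filter Topology Pool.Agent.MP_2f2443_an.IP

/-- A primitive in the disc, with its size. -/
private lemma tb_prim (f : ℂ → ℂ) (δ C : ℝ) (n : ℕ) (hC : 0 ≤ C)
    (hf : DifferentiableOn ℂ f (Metric.ball 0 δ)) (hb : ∀ x : ℂ, ‖x‖ < δ → ‖f x‖ ≤ C * ‖x‖ ^ n) :
    ∃ F : ℂ → ℂ, (∀ x : ℂ, ‖x‖ < δ → HasDerivAt F (f x) x) ∧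
      ∀ x : ℂ, ‖x‖ < δ → ‖F x‖ ≤ C * ‖x‖ ^ (n + 1) := by
  obtain ⟨F, h0, hF⟩ := hf.isExactOn_ball.with_val_at 0 0
  have hF' : ∀ x : ℂ, ‖x‖ < δ → HasDerivAt F (f x) x := fun x hx => hF x (by simpa using hx)
  refine ⟨F, hF', fun x hx => ?_⟩
  have h := Convex.norm_image_sub_le_of_norm_hasDerivWithin_le (f := F) (f' := f)
    (s := Metric.closedBall (0 : ℂ) ‖x‖) (x := 0) (y := x) (C := C * ‖x‖ ^ n)
    (fun y hy => (hF' y (lt_of_le_of_lt (by simpa using hy) hx)).hasDerivWithinAt)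
    (fun y hy => by
      have hy' : ‖y‖ ≤ ‖x‖ := by simpa using hy
      refine (hb y (lt_of_le_of_lt hy' hx)).trans ?_
      gcongr)
    (convex_closedBall _ _) (by simp) (by simp)
  rw [h0, sub_zero, sub_zero] at h
  calc ‖F x‖ ≤ C * ‖x‖ ^ n * ‖x‖ := h
    _ = C * ‖x‖ ^ (n + 1) := by ring

/-- Second order Taylor estimate for a primitive. -/
private lemma tb_tay (K P : ℂ → ℂ) (δ B : ℝ) (m : ℕ) (hB : 0 ≤ B)
    (hK : DifferentiableOn ℂ K (Metric.ball 0 δ)) (hb : ∀ x : ℂ, ‖x‖ < δ → ‖K x‖ ≤ B * ‖x‖ ^ (m + 1))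
    (hP : ∀ x : ℂ, ‖x‖ < δ → HasDerivAt P (K x) x) (x v : ℂ) (hx0 : x ≠ 0) (hx : ‖x‖ < δ / 2)
    (hv : ‖v‖ < ‖x‖ / 2) :
    ‖P (x + v) - P x - K x * v‖ ≤ (4 * B * 2 ^ (m + 1)) * ‖x‖ ^ m * ‖v‖ ^ 2 := by
  have hX : 0 < ‖x‖ := norm_pos_iff.2 hx0
  have hball : ∀ y : ℂ, ‖y - x‖ < ‖x‖ / 2 → ‖y‖ < δ ∧ ‖y‖ ≤ 2 * ‖x‖ := by
    intro y hy
    have : ‖y‖ ≤ ‖y - x‖ + ‖x‖ := by
      calc ‖y‖ = ‖(y - x) + x‖ := by ring_nf
        _ ≤ _ := norm_add_le _ _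
    constructor <;> linarith
  have hmaps : Set.MapsTo K (Metric.ball x (‖x‖ / 2))
      (Metric.closedBall (K x) (2 * B * (2 * ‖x‖) ^ (m + 1))) := by
    intro y hy
    rw [mem_ball_iff_norm] at hy
    rw [mem_closedBall_iff_norm]
    obtain ⟨h1, h2⟩ := hball y hy
    have h3 := hb y h1
    have h4 := hb x (by linarith)
    have h5 : B * ‖y‖ ^ (m + 1) ≤ B * (2 * ‖x‖) ^ (m + 1) := by gcongr
    have h6 : B * ‖x‖ ^ (m + 1) ≤ B * (2 * ‖x‖) ^ (m + 1) := by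
      gcongr
      linarith
    calc ‖K y - K x‖ ≤ ‖K y‖ + ‖K x‖ := norm_sub_le _ _
      _ ≤ _ := by linarith
  have hdiff : DifferentiableOn ℂ K (Metric.ball x (‖x‖ / 2)) := by
    refine hK.mono fun y hy => ?_
    rw [mem_ball_iff_norm] at hy
    simpa using (hball y hy).1
  have hlip : ∀ y : ℂ, ‖y - x‖ < ‖x‖ / 2 →
      ‖K y - K x‖ ≤ (4 * B * 2 ^ (m + 1)) * ‖x‖ ^ m * ‖y - x‖ := by
    intro y hy
    have h := Complex.dist_le_div_mul_dist_of_mapsTo_ball hdiff hmaps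
      (by rw [mem_ball_iff_norm]; exact hy : y ∈ Metric.ball x (‖x‖ / 2))
    rw [dist_eq_norm, dist_eq_norm] at h
    refine h.trans (le_of_eq ?_)
    field_simp
    ring
  have h := Convex.norm_image_sub_le_of_norm_hasDerivWithin_le (f := fun y => P y - K x * y)
    (f' := fun y => K y - K x) (s := Metric.closedBall x ‖v‖) (x := x) (y := x + v)
    (C := (4 * B * 2 ^ (m + 1)) * ‖x‖ ^ m * ‖v‖)
    (fun y hy => by
      rw [mem_closedBall_iff_norm] at hy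
      have h1 := hP y (hball y (lt_of_le_of_lt hy hv)).1
      have h2 : HasDerivAt (fun y => P y - K x * y) (K y - K x * 1) y :=
        h1.sub ((hasDerivAt_id y).const_mul (K x))
      rw [mul_one] at h2
      exact h2.hasDerivWithinAt)
    (fun y hy => by
      rw [mem_closedBall_iff_norm] at hy
      refine (hlip y (lt_of_le_of_lt hy hv)).trans ?_
      gcongr)
    (convex_closedBall _ _) (by simp) (by simp)
  have e1 : P (x + v) - K x * (x + v) - (P x - K x * x) = P (x + v) - P x - K x * v := by ring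
  rw [e1] at h
  refine h.trans (le_of_eq ?_)
  rw [add_sub_cancel_left]
  ring

/-- The exponential factor. -/
private lemma tb_exp (ν : ℝ) (hν : 0 < ν) (b : ℂ) (hb : ‖b‖ ≤ 1 / (4 * (1 + ν))) :
    ‖Complex.exp (-(ν : ℂ) * Complex.log (1 + b)) - 1 + ν * b‖ ≤ (4 * ν ^ 2 + ν) * ‖b‖ ^ 2 := by
  have h4 : ‖b‖ * (4 * (1 + ν)) ≤ 1 := by rwa [le_div_iff₀ (by positivity)] at hb
  have hb0 := norm_nonneg b
  have hb1 : ‖b‖ ≤ 1 / 4 := by nlinarith [mul_nonneg hb0 hν.le]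
  have hνb : ν * ‖b‖ ≤ 1 / 4 := by nlinarith
  have hl := Complex.norm_log_one_add_sub_self_le (z := b) (by linarith)
  have hl2 : ‖Complex.log (1 + b) - b‖ ≤ ‖b‖ ^ 2 := by
    refine hl.trans ?_
    have : (1 - ‖b‖)⁻¹ ≤ 2 := by
      rw [inv_le_comm₀ (by linarith) two_pos]; linarith
    have := mul_le_mul_of_nonneg_left this (sq_nonneg ‖b‖)
    linarith
  have hl3 : ‖Complex.log (1 + b)‖ ≤ 2 * ‖b‖ := by
    calc ‖Complex.log (1 + b)‖ = ‖(Complex.log (1 + b) - b) + b‖ := by ring_nf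
      _ ≤ ‖b‖ ^ 2 + ‖b‖ := (norm_add_le _ _).trans (by linarith)
      _ ≤ 2 * ‖b‖ := by nlinarith
  set ζ := -(ν : ℂ) * Complex.log (1 + b) with hζ
  have hζn : ‖ζ‖ ≤ 2 * ν * ‖b‖ := by
    rw [hζ, norm_mul, norm_neg, Complex.norm_real, Real.norm_eq_abs, abs_of_pos hν]
    nlinarith
  have he := Complex.norm_exp_sub_one_sub_id_le (x := ζ) (by linarith)
  have e1 : Complex.exp ζ - 1 + ν * b = (Complex.exp ζ - 1 - ζ) + (-(ν : ℂ)) * (Complex.log (1 + b) - b) := by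
    rw [hζ]; ring
  rw [e1]
  have h5 : ‖(-(ν : ℂ)) * (Complex.log (1 + b) - b)‖ ≤ ν * ‖b‖ ^ 2 := by
    rw [norm_mul, norm_neg, Complex.norm_real, Real.norm_eq_abs, abs_of_pos hν]
    exact mul_le_mul_of_nonneg_left hl2 hν.le
  have h6 : ‖ζ‖ ^ 2 ≤ (2 * ν * ‖b‖) ^ 2 := by gcongr
  calc _ ≤ ‖Complex.exp ζ - 1 - ζ‖ + ‖(-(ν : ℂ)) * (Complex.log (1 + b) - b)‖ := norm_add_le _ _
    _ ≤ (2 * ν * ‖b‖) ^ 2 + ν * ‖b‖ ^ 2 := by linarith
    _ = _ := by ring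

/-- The estimates at a point. -/
private lemma tb_pt (ν c C B δ : ℝ) (hν : 0 < ν) (hc : 0 < c) (hC : 0 < C) (hB : 0 < B) (hδ : 0 < δ)
    (n : ℕ) (w s x u K Rv : ℂ) (hw : 1 ≤ ‖w‖) (hs : ‖s‖ < 1 / 2) (hx : x ≠ 0) (hxd : ‖x‖ ≤ δ)
    (hxn : ‖x‖ ^ n * (c * ‖w‖) ^ 2 = 1) (hu : u = x / (ν * -w) * (1 + s))
    (hK : ‖K‖ ≤ B * ‖x‖ ^ (n + 1)) (he : ‖Rv - u - K‖ ≤ C * ‖u‖ * (‖u‖ + ‖K‖))
    (A0 A1 A2 A3 A4 : ℝ) (hA0 : A0 = 3 / (2 * ν)) (hA1 : A1 = B / c ^ 2)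
    (hA2 : A2 = C * A0 * (A0 + A1)) (hA3 : A3 = A1 + A2 * δ) (hA4 : A4 = A0 + A3) :
    ‖u‖ ≤ A0 * ‖x‖ / ‖w‖ ∧ ‖K‖ ≤ A1 * ‖x‖ / ‖w‖ ^ 2 ∧ ‖Rv - u - K‖ ≤ A2 * ‖x‖ ^ 2 / ‖w‖ ^ 2 ∧
      ‖Rv / x - (1 + s) / (ν * -w)‖ ≤ A3 / ‖w‖ ^ 2 ∧ ‖Rv / x‖ ≤ A4 / ‖w‖ := by
  have hX : 0 < ‖x‖ := norm_pos_iff.2 hx
  have hr : 0 < ‖w‖ := by linarith
  have hw0 : w ≠ 0 := norm_pos_iff.1 hr
  have hν0 : (ν : ℂ) ≠ 0 := by exact_mod_cast hν.ne'
  have hA0p : 0 < A0 := by rw [hA0]; positivity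
  have hA1p : 0 < A1 := by rw [hA1]; positivity
  have hA2p : 0 < A2 := by rw [hA2]; positivity
  have hA3p : 0 < A3 := by rw [hA3]; positivity
  have h1s : ‖1 + s‖ ≤ 3 / 2 := by
    calc ‖1 + s‖ ≤ ‖(1 : ℂ)‖ + ‖s‖ := norm_add_le _ _
      _ ≤ 3 / 2 := by rw [norm_one]; linarith
  have hnw : ‖(ν : ℂ) * -w‖ = ν * ‖w‖ := by
    rw [norm_mul, norm_neg, Complex.norm_real, Real.norm_eq_abs, abs_of_pos hν]
  have h1 : ‖u‖ ≤ A0 * ‖x‖ / ‖w‖ := by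
    rw [hu, norm_mul, norm_div, hnw, hA0]
    calc ‖x‖ / (ν * ‖w‖) * ‖1 + s‖ ≤ ‖x‖ / (ν * ‖w‖) * (3 / 2) := by gcongr
      _ = 3 / (2 * ν) * ‖x‖ / ‖w‖ := by field_simp
  have h2 : ‖K‖ ≤ A1 * ‖x‖ / ‖w‖ ^ 2 := by
    have e1 : ‖x‖ ^ n = 1 / (c * ‖w‖) ^ 2 := by
      rw [eq_div_iff (by positivity)]; exact hxn
    refine hK.trans (le_of_eq ?_)
    rw [pow_succ, e1, hA1]
    field_simp
  have hinv : ‖x‖ / ‖w‖ ^ 2 ≤ ‖x‖ / ‖w‖ := by
    apply div_le_div_of_nonneg_left hX.le hr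
    nlinarith
  have h3 : ‖Rv - u - K‖ ≤ A2 * ‖x‖ ^ 2 / ‖w‖ ^ 2 := by
    have h2' : ‖K‖ ≤ A1 * (‖x‖ / ‖w‖) := by
      refine h2.trans ?_
      rw [mul_div_assoc]
      gcongr
    have h1' : ‖u‖ ≤ A0 * (‖x‖ / ‖w‖) := by
      refine h1.trans (le_of_eq ?_)
      rw [mul_div_assoc]
    calc ‖Rv - u - K‖ ≤ C * ‖u‖ * (‖u‖ + ‖K‖) := he
      _ ≤ C * (A0 * (‖x‖ / ‖w‖)) * (A0 * (‖x‖ / ‖w‖) + A1 * (‖x‖ / ‖w‖)) := by gcongr
      _ = A2 * ‖x‖ ^ 2 / ‖w‖ ^ 2 := by rw [hA2]; field_simp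
  have h4 : ‖Rv / x - (1 + s) / (ν * -w)‖ ≤ A3 / ‖w‖ ^ 2 := by
    have e1 : Rv / x - (1 + s) / (ν * -w) = (K + (Rv - u - K)) / x := by
      rw [hu]
      field_simp
      ring
    rw [e1, norm_div, div_le_iff₀ hX]
    calc ‖K + (Rv - u - K)‖ ≤ ‖K‖ + ‖Rv - u - K‖ := norm_add_le _ _
      _ ≤ A1 * ‖x‖ / ‖w‖ ^ 2 + A2 * ‖x‖ ^ 2 / ‖w‖ ^ 2 := add_le_add h2 h3
      _ = (A1 + A2 * ‖x‖) / ‖w‖ ^ 2 * ‖x‖ := by ring
      _ ≤ A3 / ‖w‖ ^ 2 * ‖x‖ := by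
        rw [hA3]
        gcongr
  refine ⟨h1, h2, h3, h4, ?_⟩
  have e2 : Rv / x = (1 + s) / (ν * -w) + (Rv / x - (1 + s) / (ν * -w)) := by ring
  rw [e2]
  calc _ ≤ ‖(1 + s) / (ν * -w)‖ + ‖Rv / x - (1 + s) / (ν * -w)‖ := norm_add_le _ _
    _ ≤ (3 / 2) / (ν * ‖w‖) + A3 / ‖w‖ ^ 2 := by
      refine add_le_add ?_ h4
      rw [norm_div, hnw]
      gcongr
    _ ≤ (3 / 2) / (ν * ‖w‖) + A3 / ‖w‖ := by
      gcongr
      nlinarith
    _ = A4 / ‖w‖ := by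
      rw [hA4, hA0]
      field_simp

/-- The estimates of `W` and `S` at a point. -/
private lemma tb_WS (ν A3 A4 : ℝ) (hν : 0 < ν) (hA3 : 0 < A3) (hA4 : 0 < A4)
    (w s b q : ℂ) (hw : 1 ≤ ‖w‖) (hs : ‖s‖ < 1 / 2) (hb3 : ‖b - (1 + s) / (ν * -w)‖ ≤ A3 / ‖w‖ ^ 2)
    (hb4 : ‖b‖ ≤ A4 / ‖w‖) (hb : ‖b‖ ≤ 1 / (4 * (1 + ν)))
    (hq : q = Complex.exp (-(ν : ℂ) * Complex.log (1 + b))) :
    ‖w * q - w - 1 - s‖ ≤ ((4 * ν ^ 2 + ν) * A4 ^ 2 + ν * A3) / ‖w‖ ∧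
    ‖b * (ν * -(w * q)) / (1 + b) - 1 - s‖ ≤
      (ν * A3 + (3 / 2 + ν * A3) * (2 * (ν + (4 * ν ^ 2 + ν) + 1) * A4)) / ‖w‖ := by
  have hr : 0 < ‖w‖ := by linarith
  have hw0 : w ≠ 0 := norm_pos_iff.1 hr
  have hν0 : (ν : ℂ) ≠ 0 := by exact_mod_cast hν.ne'
  have hb0 := norm_nonneg b
  have hexp := tb_exp ν hν b hb
  rw [← hq] at hexp
  have h4 : ‖b‖ * (4 * (1 + ν)) ≤ 1 := by rwa [le_div_iff₀ (by positivity)] at hb
  have hb1 : ‖b‖ ≤ 1 / 4 := by nlinarith [mul_nonneg hb0 hν.le]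
  set ρ := b - (1 + s) / (ν * -w) with hρ
  have hηn : ‖(ν : ℂ) * -w * ρ‖ ≤ ν * A3 / ‖w‖ := by
    rw [norm_mul, norm_mul, norm_neg, Complex.norm_real, Real.norm_eq_abs, abs_of_pos hν]
    calc ν * ‖w‖ * ‖ρ‖ ≤ ν * ‖w‖ * (A3 / ‖w‖ ^ 2) := by gcongr
      _ = ν * A3 / ‖w‖ := by field_simp
  have hbe : b = (1 + s) / (ν * -w) + ρ := by rw [hρ]; ring
  have hbw : (ν : ℂ) * -w * b = 1 + s + ν * -w * ρ := by
    rw [hρ]; field_simp; ring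
  constructor
  · have e1 : w * q - w - 1 - s = w * (q - 1 + ν * b) + ν * -w * ρ := by
      have : w * (q - 1 + ν * b) = w * q - w - ν * -w * b := by ring
      rw [this, hbw]; ring
    rw [e1]
    calc _ ≤ ‖w * (q - 1 + ν * b)‖ + ‖(ν : ℂ) * -w * ρ‖ := norm_add_le _ _
      _ ≤ ‖w‖ * ((4 * ν ^ 2 + ν) * (A4 / ‖w‖) ^ 2) + ν * A3 / ‖w‖ := by
        refine add_le_add ?_ hηn
        rw [norm_mul]
        gcongr
        refine hexp.trans ?_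
        gcongr
      _ = _ := by field_simp
  · have h1b : (1 : ℝ) / 2 ≤ ‖1 + b‖ := by
      have : ‖(1 : ℂ)‖ ≤ ‖1 + b‖ + ‖b‖ := by
        calc ‖(1 : ℂ)‖ = ‖(1 + b) - b‖ := by ring_nf
          _ ≤ _ := norm_sub_le _ _
      rw [norm_one] at this
      linarith
    have h1b0 : 1 + b ≠ 0 := by
      intro h
      rw [h, norm_zero] at h1b
      norm_num at h1b
    have hq1 : ‖q - 1 - b‖ ≤ (ν + (4 * ν ^ 2 + ν) + 1) * ‖b‖ := by
      have e2 : q - 1 - b = (q - 1 + ν * b) - (ν + 1) * b := by ring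
      rw [e2]
      have h6 : ‖((ν : ℂ) + 1) * b‖ = (ν + 1) * ‖b‖ := by
        rw [norm_mul]
        congr 1
        have : ((ν : ℂ) + 1) = ((ν + 1 : ℝ) : ℂ) := by push_cast; ring
        rw [this, Complex.norm_real, Real.norm_eq_abs, abs_of_pos (by positivity)]
      calc _ ≤ ‖q - 1 + ν * b‖ + ‖((ν : ℂ) + 1) * b‖ := norm_sub_le _ _
        _ ≤ (4 * ν ^ 2 + ν) * ‖b‖ ^ 2 + (ν + 1) * ‖b‖ := by rw [h6]; linarith
        _ ≤ (4 * ν ^ 2 + ν) * ‖b‖ + (ν + 1) * ‖b‖ := by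
          gcongr
          nlinarith
        _ = _ := by ring
    set θ := (q - 1 - b) / (1 + b) with hθ
    have hθn : ‖θ‖ ≤ 2 * (ν + (4 * ν ^ 2 + ν) + 1) * A4 / ‖w‖ := by
      rw [hθ, norm_div, div_le_iff₀ (by linarith)]
      calc ‖q - 1 - b‖ ≤ (ν + (4 * ν ^ 2 + ν) + 1) * (A4 / ‖w‖) := hq1.trans (by gcongr)
        _ = 2 * (ν + (4 * ν ^ 2 + ν) + 1) * A4 / ‖w‖ * (1 / 2) := by ring
        _ ≤ _ := by gcongr
    have e3 : b * (ν * -(w * q)) / (1 + b) - 1 - s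
        = ν * -w * ρ + (1 + s + ν * -w * ρ) * θ := by
      have e4 : b * (ν * -(w * q)) / (1 + b) = (ν * -w * b) * (1 + θ) := by
        rw [hθ]
        field_simp
        ring
      rw [e4, hbw]
      ring
    rw [e3]
    have h1s : ‖1 + s + ν * -w * ρ‖ ≤ 3 / 2 + ν * A3 := by
      calc ‖1 + s + ν * -w * ρ‖ ≤ ‖(1 : ℂ)‖ + ‖s‖ + ‖(ν : ℂ) * -w * ρ‖ := norm_add₃_le
        _ ≤ 1 + 1 / 2 + ν * A3 / ‖w‖ := by rw [norm_one]; linarith
        _ ≤ 1 + 1 / 2 + ν * A3 := by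
          gcongr
          exact div_le_self (by positivity) hw
        _ = _ := by ring
    calc _ ≤ ‖(ν : ℂ) * -w * ρ‖ + ‖(1 + s + ν * -w * ρ) * θ‖ := norm_add_le _ _
      _ ≤ ν * A3 / ‖w‖ + (3 / 2 + ν * A3) * (2 * (ν + (4 * ν ^ 2 + ν) + 1) * A4 / ‖w‖) := by
        refine add_le_add hηn ?_
        rw [norm_mul]
        gcongr
      _ = _ := by ring

/-- The estimate of the energy step at a point. -/
private lemma tb_EE (c A2 A3 A4 D : ℝ) (hc : 0 < c) (hA2 : 0 < A2) (hA3 : 0 < A3)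
    (hA4 : 0 < A4) (hD : 0 ≤ D) (n : ℕ) (w x u K Rv T : ℂ) (hw : 1 ≤ ‖w‖) (hx : x ≠ 0)
    (hxn : ‖x‖ ^ n * (c * ‖w‖) ^ 2 = 1)
    (he : ‖Rv - u - K‖ ≤ A2 * ‖x‖ ^ 2 / ‖w‖ ^ 2)
    (hKe : ‖Rv - u‖ ≤ A3 * ‖x‖ / ‖w‖ ^ 2) (hR : ‖Rv‖ ≤ A4 * ‖x‖ / ‖w‖)
    (hT : ‖T - K * Rv‖ ≤ D * ‖x‖ ^ n * ‖Rv‖ ^ 2) :
    ‖(Rv ^ 2 - u ^ 2) / 2 - T‖ ≤
      A2 * A4 * (‖x‖ ^ 3 / ‖w‖ ^ 3) + (A3 ^ 2 + D / c ^ 2 * A4 ^ 2) * (‖x‖ ^ 2 / ‖w‖ ^ 4) := by
  have hX : 0 < ‖x‖ := norm_pos_iff.2 hx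
  have hr : 0 < ‖w‖ := by linarith
  have e1 : (Rv ^ 2 - u ^ 2) / 2 - T = (Rv - u - K) * Rv - (Rv - u) ^ 2 / 2 - (T - K * Rv) := by ring
  rw [e1]
  have h1 : ‖(Rv - u - K) * Rv‖ ≤ A2 * A4 * (‖x‖ ^ 3 / ‖w‖ ^ 3) := by
    rw [norm_mul]
    calc _ ≤ (A2 * ‖x‖ ^ 2 / ‖w‖ ^ 2) * (A4 * ‖x‖ / ‖w‖) := by gcongr
      _ = _ := by field_simp
  have h2 : ‖(Rv - u) ^ 2 / 2‖ ≤ A3 ^ 2 * (‖x‖ ^ 2 / ‖w‖ ^ 4) := by
    rw [norm_div, norm_pow]
    have h2' : ‖(2 : ℂ)‖ = 2 := by simp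
    rw [h2']
    have h3 : ‖Rv - u‖ ^ 2 ≤ (A3 * ‖x‖ / ‖w‖ ^ 2) ^ 2 := by gcongr
    have h4 : (A3 * ‖x‖ / ‖w‖ ^ 2) ^ 2 = A3 ^ 2 * (‖x‖ ^ 2 / ‖w‖ ^ 4) := by
      field_simp
    rw [h4] at h3
    have h5 : 0 ≤ ‖Rv - u‖ ^ 2 := by positivity
    linarith
  have h3 : ‖T - K * Rv‖ ≤ D / c ^ 2 * A4 ^ 2 * (‖x‖ ^ 2 / ‖w‖ ^ 4) := by
    have e2 : ‖x‖ ^ n = 1 / (c * ‖w‖) ^ 2 := by
      rw [eq_div_iff (by positivity)]; exact hxn
    rw [e2] at hT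
    calc _ ≤ D * (1 / (c * ‖w‖) ^ 2) * ‖Rv‖ ^ 2 := hT
      _ ≤ D * (1 / (c * ‖w‖) ^ 2) * (A4 * ‖x‖ / ‖w‖) ^ 2 := by gcongr
      _ = _ := by field_simp
  calc _ ≤ ‖(Rv - u - K) * Rv - (Rv - u) ^ 2 / 2‖ + ‖T - K * Rv‖ := norm_sub_le _ _
    _ ≤ ‖(Rv - u - K) * Rv‖ + ‖(Rv - u) ^ 2 / 2‖ + ‖T - K * Rv‖ := by
      gcongr
      exact norm_sub_le _ _
    _ ≤ _ := by linarith

/-- Size of the points of `Wd C`. -/
private lemma tb_geo (C : ℝ) (hC : 0 < C) (w : ℂ) (hw : w ∈ Wd C) : C / 2 < ‖w‖ ∧ w ∈ Wd 0 := by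
  have h : w.re + C < |w.im| := hw
  have h1 := Complex.abs_re_le_norm w
  have h2 := Complex.abs_im_le_norm w
  have h3 := neg_abs_le w.re
  refine ⟨by linarith, ?_⟩
  show w.re + 0 < |w.im|
  linarith

private lemma tb_open (C : ℝ) : IsOpen (Wd C) := by
  have : Wd C = {w : ℂ | w.re + C < |w.im|} := rfl
  rw [this]
  exact isOpen_lt (Complex.continuous_re.add continuous_const) Complex.continuous_im.abs

private lemma tb_bid (δ : ℝ) : IsOpen (bid δ) := by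
  have : bid δ = {z : ℂ × ℂ | ‖z.1‖ < δ} ∩ {z : ℂ × ℂ | ‖z.2‖ < δ} := rfl
  rw [this]
  exact (isOpen_lt continuous_fst.norm continuous_const).inter
    (isOpen_lt continuous_snd.norm continuous_const)

/-- Powers: `X = (c r)^(-1/ν)`. -/
private lemma tb_pow (ν c δ σ r : ℝ) (hν : 0 < ν) (hc : 0 < c) (hδ : 0 < δ) (hσ : σ ≤ 1 / ν)
    (hr : 1 ≤ r) (hr2 : (δ / 2) ^ (-ν) / c < r) :
    (c * r) ^ (-(1 / ν)) < δ / 2 ∧ (c * r) ^ (-(1 / ν)) ≤ c ^ (-(1 / ν)) * r ^ (-σ) := by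
  have hr0 : 0 < r := by linarith
  constructor
  · have h1 : (δ / 2) ^ (-ν) < c * r := by
      rw [div_lt_iff₀ hc] at hr2
      linarith
    have h2 : 0 < (δ / 2) ^ (-ν) := Real.rpow_pos_of_pos (by positivity) _
    have h3 := Real.rpow_lt_rpow_of_neg h2 h1 (z := -(1 / ν)) (by
      have : 0 < 1 / ν := by positivity
      linarith)
    refine h3.trans_le (le_of_eq ?_)
    rw [← Real.rpow_mul (by positivity)]
    have : -ν * -(1 / ν) = 1 := by field_simp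
    rw [this, Real.rpow_one]
  · rw [Real.mul_rpow hc.le hr0.le]
    refine mul_le_mul_of_nonneg_left ?_ (Real.rpow_nonneg hc.le _)
    exact Real.rpow_le_rpow_of_exponent_le hr (by linarith)

/-- Powers: the comparison of two points. -/
private lemma tb_pow2 (ν c r r' : ℝ) (hν : 0 < ν) (hc : 0 < c) (hr : 0 < r) (hr' : r / 20 ≤ r') :
    (c * r') ^ (-(1 / ν)) / (ν * r') ≤
      (20 * (1 / 20 : ℝ) ^ (-(1 / ν))) * ((c * r) ^ (-(1 / ν)) / (ν * r)) := by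
  have hr'0 : 0 < r' := by linarith
  have hneg : -(1 / ν) ≤ 0 := by
    have : 0 < 1 / ν := by positivity
    linarith
  have h1 : (c * r') ^ (-(1 / ν)) ≤ ((1 / 20) * (c * r)) ^ (-(1 / ν)) := by
    apply Real.rpow_le_rpow_of_nonpos (by positivity) _ hneg
    have := mul_le_mul_of_nonneg_left hr' hc.le
    linarith
  rw [Real.mul_rpow (x := 1 / 20) (y := c * r) (by norm_num) (by positivity)] at h1
  have h2 : 1 / (ν * r') ≤ 20 / (ν * r) := by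
    rw [div_le_div_iff₀ (by positivity) (by positivity)]
    have := mul_le_mul_of_nonneg_left hr' hν.le
    linarith
  have h3 : 0 < (c * r) ^ (-(1 / ν)) := Real.rpow_pos_of_pos (by positivity) _
  have h4 : 0 < (1 / 20 : ℝ) ^ (-(1 / ν)) := Real.rpow_pos_of_pos (by positivity) _
  calc (c * r') ^ (-(1 / ν)) / (ν * r') = (c * r') ^ (-(1 / ν)) * (1 / (ν * r')) := by ring
    _ ≤ ((1 / 20 : ℝ) ^ (-(1 / ν)) * (c * r) ^ (-(1 / ν))) * (20 / (ν * r)) := by gcongr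
    _ = _ := by ring

/-- Powers: the bound of the energy step. -/
private lemma tb_pow3 (ν AX a b X r σ : ℝ) (hν : 0 < ν) (ha : 0 ≤ a) (hb : 0 ≤ b)
    (hX : 0 < X) (hσ : σ ≤ 1 / 2) (hr : 1 ≤ r) (hXr : X ≤ AX * r ^ (-σ)) :
    a * (X ^ 3 / r ^ 3) + b * (X ^ 2 / r ^ 4) ≤
      (ν ^ 2 * (a * AX + b)) * (X / (ν * r)) ^ 2 * r ^ (-1 - σ) := by
  have hr0 : 0 < r := by linarith
  have e1 : r ^ (-1 - σ) = r⁻¹ * r ^ (-σ) := by
    have : (-1 - σ : ℝ) = -1 + -σ := by ring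
    rw [this, Real.rpow_add hr0, Real.rpow_neg_one]
  have e2 : X ^ 3 / r ^ 3 ≤ AX * ((X / r) ^ 2 * (r⁻¹ * r ^ (-σ))) := by
    calc X ^ 3 / r ^ 3 = (X / r) ^ 2 * r⁻¹ * X := by field_simp
      _ ≤ (X / r) ^ 2 * r⁻¹ * (AX * r ^ (-σ)) := by gcongr
      _ = _ := by ring
  have e3 : X ^ 2 / r ^ 4 ≤ (X / r) ^ 2 * (r⁻¹ * r ^ (-σ)) := by
    have h1 : r⁻¹ ≤ r ^ (-σ) := by
      rw [← Real.rpow_neg_one]
      exact Real.rpow_le_rpow_of_exponent_le hr (by linarith)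
    calc X ^ 2 / r ^ 4 = (X / r) ^ 2 * (r⁻¹ * r⁻¹) := by field_simp
      _ ≤ _ := by gcongr
  rw [e1]
  calc _ ≤ a * (AX * ((X / r) ^ 2 * (r⁻¹ * r ^ (-σ)))) + b * ((X / r) ^ 2 * (r⁻¹ * r ^ (-σ))) := by
        gcongr
    _ = _ := by field_simp

theorem p_tb : S_tb := by
  intro hp0 G a δ C R Ψ m κ hL hKP
  obtain ⟨hm, hκ, hKb⟩ := hKP
  obtain ⟨hν, hc, hchi, homd, hw0, hwr, -, -, hchib, -⟩ := hp0 m κ hm hκ
  obtain ⟨n, rfl⟩ : ∃ n, m = n + 1 := ⟨m - 1, by omega⟩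
  have hδ := hL.dpos
  have hC := hL.cpos
  set ν := nu (n + 1) with hνdef
  set c := cc (n + 1) κ with hcdef
  set χ := chi (n + 1) κ with hχdef
  set o := om (n + 1) κ with hodef
  have hooe : ∀ w, o w = χ w / (ν * -w) := fun w => rfl
  -- the function K and its primitive
  have hKd : DifferentiableOn ℂ (fun x : ℂ => R (x, 0)) (Metric.ball 0 δ) := by
    intro x hx
    have hx' : ‖x‖ < δ := by simpa using hx
    have h1 : ((x, (0 : ℂ)) : ℂ × ℂ) ∈ bid δ := ⟨hx', by simpa using hδ⟩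
    have h2 : DifferentiableAt ℂ R (x, 0) := hL.holR.differentiableAt ((tb_bid δ).mem_nhds h1)
    have h3 : DifferentiableAt ℂ (fun y : ℂ => ((y, (0 : ℂ)) : ℂ × ℂ)) x := by fun_prop
    exact (h2.comp x h3).differentiableWithinAt
  obtain ⟨F, hF, hFb⟩ := tb_prim (fun x => R (x, 0) - κ * x ^ (n + 1)) δ C (n + 1 + 1) hC.le
    (hKd.sub (by fun_prop)) hKb
  set P : ℂ → ℂ := fun x => κ * x ^ (n + 2) / (n + 2) + F x with hPdef
  have hn2 : ((n : ℂ) + 2) ≠ 0 := by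
    have : ((n : ℂ) + 2) = ((n + 2 : ℕ) : ℂ) := by push_cast; ring
    rw [this]
    exact_mod_cast (by omega : n + 2 ≠ 0)
  have hP : ∀ x : ℂ, ‖x‖ < δ → HasDerivAt P (R (x, 0)) x := by
    intro x hx
    have h1 := hF x hx
    have h2 : HasDerivAt (fun x : ℂ => κ * x ^ (n + 2) / (n + 2)) (κ * x ^ (n + 1)) x := by
      have h3 := ((hasDerivAt_pow (n + 2) x).const_mul (κ : ℂ)).div_const ((n : ℂ) + 2)
      have e : (κ : ℂ) * (((n + 2 : ℕ) : ℂ) * x ^ (n + 2 - 1)) / ((n : ℂ) + 2) = κ * x ^ (n + 1) := by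
        have e' : n + 2 - 1 = n + 1 := by omega
        rw [e']
        push_cast
        field_simp
      rw [e] at h3
      exact h3
    have h3 := h2.add h1
    have e : (κ : ℂ) * x ^ (n + 1) + (R (x, 0) - κ * x ^ (n + 1)) = R (x, 0) := by ring
    rw [e] at h3
    exact h3
  set B := κ + C * δ with hBdef
  have hB : 0 < B := by positivity
  have hKB : ∀ x : ℂ, ‖x‖ < δ → ‖R (x, 0)‖ ≤ B * ‖x‖ ^ (n + 1) := by
    intro x hx
    have h1 := hKb x hx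
    have h2 : ‖(κ : ℂ) * x ^ (n + 1)‖ = κ * ‖x‖ ^ (n + 1) := by
      rw [norm_mul, norm_pow, Complex.norm_real, Real.norm_eq_abs, abs_of_pos hκ]
    calc ‖R (x, 0)‖ = ‖(R (x, 0) - κ * x ^ (n + 1)) + κ * x ^ (n + 1)‖ := by ring_nf
      _ ≤ C * ‖x‖ ^ (n + 1 + 1) + κ * ‖x‖ ^ (n + 1) := by
        rw [← h2]
        exact (norm_add_le _ _).trans (by linarith)
      _ = (κ + C * ‖x‖) * ‖x‖ ^ (n + 1) := by ring
      _ ≤ B * ‖x‖ ^ (n + 1) := by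
        rw [hBdef]
        gcongr
  set D := 4 * B * 2 ^ (n + 1) with hDdef
  have hD : 0 < D := by positivity
  have htay := tb_tay (fun x => R (x, 0)) P δ B n hB.le hKd hKB hP
  -- the constants
  set A0 := 3 / (2 * ν) with hA0
  set A1 := B / c ^ 2 with hA1
  set A2 := C * A0 * (A0 + A1) with hA2
  set A3 := A1 + A2 * δ with hA3
  set A4 := A0 + A3 with hA4
  have hA0p : 0 < A0 := by positivity
  have hA1p : 0 < A1 := by positivity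
  have hA2p : 0 < A2 := by positivity
  have hA3p : 0 < A3 := by positivity
  have hA4p : 0 < A4 := by positivity
  set σ := min (1 / 2) (1 / ν) with hσdef
  have hσ1 : σ ≤ 1 / 2 := min_le_left _ _
  have hσ2 : σ ≤ 1 / ν := min_le_right _ _
  have hσ0 : 0 < σ := lt_min (by norm_num) (by positivity)
  set r₀ := max 1 (max (4 * (1 + ν) * A4) ((δ / 2) ^ (-ν) / c)) with hr₀
  have hr01 : 1 ≤ r₀ := le_max_left _ _
  have hr02 : 4 * (1 + ν) * A4 ≤ r₀ := (le_max_left _ _).trans (le_max_right _ _)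
  have hr03 : (δ / 2) ^ (-ν) / c ≤ r₀ := (le_max_right _ _).trans (le_max_right _ _)
  set AX := c ^ (-(1 / ν)) with hAX
  have hAXp : 0 < AX := Real.rpow_pos_of_pos hc _
  have hC1 : 0 < 2 * r₀ := by linarith
  have hgeo : ∀ w ∈ Wd (2 * r₀), r₀ < ‖w‖ ∧ w ∈ Wd 0 ∧ w ≠ 0 := by
    intro w hw
    obtain ⟨h1, h2⟩ := tb_geo (2 * r₀) hC1 w hw
    have h3 : r₀ < ‖w‖ := by linarith
    exact ⟨h3, h2, norm_pos_iff.1 (by linarith)⟩
  -- the main estimates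
  have main : ∀ w ∈ Wd (2 * r₀), ∀ s : ℂ, ‖s‖ < 1 / 2 → ∀ x u Rv b : ℂ, x = χ w →
      u = o w * (1 + s) → Rv = R (x, u) → b = Rv / x →
      x ≠ 0 ∧ ‖x‖ < δ / 2 ∧ ‖x‖ ≤ AX * ‖w‖ ^ (-σ) ∧ ‖x‖ ^ n * (c * ‖w‖) ^ 2 = 1 ∧
      (x, u) ∈ bid δ ∧ ‖b‖ ≤ 1 / (4 * (1 + ν)) ∧ ‖b‖ ≤ A4 / ‖w‖ ∧
      ‖b - (1 + s) / (ν * -w)‖ ≤ A3 / ‖w‖ ^ 2 ∧
      ‖Rv - u - R (x, 0)‖ ≤ A2 * ‖x‖ ^ 2 / ‖w‖ ^ 2 := by
    intro w hw s hs x u Rv b hx hu hRv hb
    obtain ⟨hwr0, hw00, hwne⟩ := hgeo w hw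
    have hr1 : 1 ≤ ‖w‖ := by linarith
    have hr : 0 < ‖w‖ := by linarith
    obtain ⟨hχ0, -, hχn, -, hχp, -⟩ := hw0 w hwne
    obtain ⟨hp1, hp2⟩ := tb_pow ν c δ σ ‖w‖ hν hc hδ hσ2 hr1 (by linarith)
    rw [← hχn, ← hx] at hp1 hp2
    have hx0 : x ≠ 0 := by rw [hx]; exact hχ0
    have hxn : ‖x‖ ^ n * (c * ‖w‖) ^ 2 = 1 := by
      have h1 := congrArg norm hχp
      rw [norm_mul, norm_pow, norm_pow, norm_mul, Complex.norm_real, Real.norm_eq_abs,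
        abs_of_pos hc, norm_one, ← hx] at h1
      simpa using h1
    have hKx : ‖R (x, 0)‖ ≤ B * ‖x‖ ^ (n + 1) := hKB x (by linarith)
    have hueq : u = x / (ν * -w) * (1 + s) := by rw [hu, hooe, hx]
    have h1s : ‖1 + s‖ ≤ 3 / 2 := by
      calc ‖1 + s‖ ≤ ‖(1 : ℂ)‖ + ‖s‖ := norm_add_le _ _
        _ ≤ 3 / 2 := by rw [norm_one]; linarith
    have hA4w : A4 / ‖w‖ ≤ 1 / (4 * (1 + ν)) := by
      rw [div_le_div_iff₀ hr (by positivity)]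
      linarith
    have hA4w' : A4 / ‖w‖ ≤ 1 / 4 := by
      refine hA4w.trans ?_
      rw [div_le_div_iff₀ (by positivity) (by norm_num)]
      linarith
    have hun : ‖u‖ < δ := by
      have hnw : ‖(ν : ℂ) * -w‖ = ν * ‖w‖ := by
        rw [norm_mul, norm_neg, Complex.norm_real, Real.norm_eq_abs, abs_of_pos hν]
      rw [hueq, norm_mul, norm_div, hnw]
      calc ‖x‖ / (ν * ‖w‖) * ‖1 + s‖ ≤ ‖x‖ / (ν * ‖w‖) * (3 / 2) := by gcongr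
        _ = ‖x‖ * (A0 / ‖w‖) := by rw [hA0]; field_simp
        _ ≤ ‖x‖ * (A4 / ‖w‖) := by
          gcongr
          linarith
        _ ≤ ‖x‖ * (1 / 4) := by gcongr
        _ < δ := by nlinarith [norm_nonneg x]
    have hbid : (x, u) ∈ bid δ := ⟨by show ‖x‖ < δ; linarith, hun⟩
    obtain ⟨-, -, h3, h4, h5⟩ := tb_pt ν c C B δ hν hc hC hB hδ n w s x u (R (x, 0)) Rv hr1 hs hx0
      (by linarith) hxn hueq hKx (by rw [hRv]; exact hL.est (x, u) hbid) A0 A1 A2 A3 A4 hA0 hA1 hA2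
      hA3 hA4
    rw [← hb] at h4 h5
    exact ⟨hx0, hp1, hp2, hxn, hbid, h5.trans hA4w, h5, h4, h3⟩
  -- the maps
  set Rf : ℂ × ℂ → ℂ := fun z => R (χ z.1, o z.1 * (1 + z.2)) with hRf
  set bf : ℂ × ℂ → ℂ := fun z => Rf z / χ z.1 with hbf
  set qf : ℂ × ℂ → ℂ := fun z => Complex.exp (-(ν : ℂ) * Complex.log (1 + bf z)) with hqf
  set W : ℂ × ℂ → ℂ := fun z => z.1 * qf z with hW
  set S : ℂ × ℂ → ℂ := fun z => bf z * (ν * -(z.1 * qf z)) / (1 + bf z) - 1 with hS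
  set E : ℂ × ℂ → ℂ := fun z => (o z.1 * (1 + z.2)) ^ 2 / 2 - P (χ z.1) with hE
  have hone : ∀ b : ℂ, ‖b‖ ≤ 1 / (4 * (1 + ν)) → ‖b‖ ≤ 1 / 4 := by
    intro b hb
    refine hb.trans ?_
    rw [div_le_div_iff₀ (by positivity) (by norm_num)]
    linarith
  have hb1ne : ∀ b : ℂ, ‖b‖ ≤ 1 / 4 → 1 + b ≠ 0 := by
    intro b hb h
    have h1 : b = -1 := by linear_combination h
    rw [h1, norm_neg, norm_one] at hb
    norm_num at hb
  have hlink : Link R δ (2 * r₀) (n + 1) κ W S := by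
    intro w hw s hs
    obtain ⟨hwr0, hw00, hwne⟩ := hgeo w hw
    obtain ⟨hx0, hx1, -, -, hbid, hb1, -, -, -⟩ := main w hw s hs (χ w) (o w * (1 + s))
      (R (χ w, o w * (1 + s))) (R (χ w, o w * (1 + s)) / χ w) rfl rfl rfl rfl
    have hbq := hone _ hb1
    have hX : 0 < ‖χ w‖ := norm_pos_iff.2 hx0
    have hRn : ‖R (χ w, o w * (1 + s))‖ ≤ ‖χ w‖ / 4 := by
      rw [norm_div, div_le_iff₀ hX] at hbq
      linarith
    refine ⟨hbid, ⟨?_, ?_⟩, ?_, ?_⟩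
    · show ‖χ w + R (χ w, o w * (1 + s))‖ < δ
      have := norm_add_le (χ w) (R (χ w, o w * (1 + s)))
      linarith
    · show ‖R (χ w, o w * (1 + s))‖ < δ
      linarith
    · show χ (w * Complex.exp (-(ν : ℂ) * Complex.log (1 + R (χ w, o w * (1 + s)) / χ w))) =
        χ w + R (χ w, o w * (1 + s))
      rw [hchib w hw00 _ hb1]
      field_simp
    · have h1 : χ (w * Complex.exp (-(ν : ℂ) * Complex.log (1 + R (χ w, o w * (1 + s)) / χ w))) =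
          χ w * (1 + R (χ w, o w * (1 + s)) / χ w) := hchib w hw00 _ hb1
      show o (w * Complex.exp (-(ν : ℂ) * Complex.log (1 + R (χ w, o w * (1 + s)) / χ w))) *
        (1 + (R (χ w, o w * (1 + s)) / χ w * (ν * -(w * Complex.exp (-(ν : ℂ) *
          Complex.log (1 + R (χ w, o w * (1 + s)) / χ w)))) /
            (1 + R (χ w, o w * (1 + s)) / χ w) - 1)) = R (χ w, o w * (1 + s))
      rw [hooe, h1]
      have h2 : 1 + R (χ w, o w * (1 + s)) / χ w ≠ 0 := hb1ne _ hbq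
      have h3 : (ν : ℂ) ≠ 0 := by exact_mod_cast hν.ne'
      have h4 : Complex.exp (-(ν : ℂ) * Complex.log (1 + R (χ w, o w * (1 + s)) / χ w)) ≠ 0 :=
        Complex.exp_ne_zero _
      generalize Complex.exp (-(ν : ℂ) * Complex.log (1 + R (χ w, o w * (1 + s)) / χ w)) = q at h4 ⊢
      have h5 : R (χ w, o w * (1 + s)) = χ w * (R (χ w, o w * (1 + s)) / χ w) := by field_simp
      rw [h5]
      have h6 : χ w * (R (χ w, o w * (1 + s)) / χ w) / χ w = R (χ w, o w * (1 + s)) / χ w := by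
        field_simp
      rw [h6]
      generalize R (χ w, o w * (1 + s)) / χ w = b at h2 ⊢
      field_simp
      ring
  -- holomorphy
  have hRfd : ∀ z ∈ {z : ℂ × ℂ | z.1 ∈ Wd (2 * r₀) ∧ ‖z.2‖ < 1 / 2}, DifferentiableAt ℂ bf z ∧
      DifferentiableAt ℂ qf z ∧ 1 + bf z ≠ 0 := by
    rintro ⟨w, s⟩ ⟨hw, hs⟩
    simp only at hw hs
    obtain ⟨hwr0, hw00, hwne⟩ := hgeo w hw
    obtain ⟨hx0, hx1, -, -, hbid, hb1, -, -, -⟩ := main w hw s hs (χ w) (o w * (1 + s))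
      (R (χ w, o w * (1 + s))) (R (χ w, o w * (1 + s)) / χ w) rfl rfl rfl rfl
    have hbq := hone _ hb1
    have h1 : DifferentiableAt ℂ (fun z : ℂ × ℂ => χ z.1) (w, s) :=
      DifferentiableAt.comp (w, s) (g := χ) (f := fun z : ℂ × ℂ => z.1)
        (hchi w hw00).differentiableAt differentiableAt_fst
    have h2 : DifferentiableAt ℂ (fun z : ℂ × ℂ => o z.1) (w, s) :=
      DifferentiableAt.comp (w, s) (g := o) (f := fun z : ℂ × ℂ => z.1)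
        (homd.differentiableAt ((tb_open 0).mem_nhds hw00)) differentiableAt_fst
    have h3 : DifferentiableAt ℂ (fun z : ℂ × ℂ => (χ z.1, o z.1 * (1 + z.2))) (w, s) :=
      h1.prodMk (h2.mul ((differentiableAt_const _).add differentiableAt_snd))
    have h4 : DifferentiableAt ℂ Rf (w, s) :=
      DifferentiableAt.comp (w, s) (g := R) (f := fun z : ℂ × ℂ => (χ z.1, o z.1 * (1 + z.2)))
        (hL.holR.differentiableAt ((tb_bid δ).mem_nhds hbid)) h3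
    have h5 : DifferentiableAt ℂ bf (w, s) := by
      have h1i : DifferentiableAt ℂ (fun z : ℂ × ℂ => (χ z.1)⁻¹) (w, s) :=
        DifferentiableAt.inv (h := fun z : ℂ × ℂ => χ z.1) h1 hx0
      have e : bf = fun z : ℂ × ℂ => Rf z * (χ z.1)⁻¹ := by
        funext z
        exact div_eq_mul_inv _ _
      rw [e]
      exact h4.mul h1i
    have h6 : DifferentiableAt ℂ (fun z => 1 + bf z) (w, s) := (differentiableAt_const _).add h5
    have h7 : 1 + bf (w, s) ∈ Complex.slitPlane := by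
      refine Complex.mem_slitPlane_of_norm_lt_one ?_
      show ‖R (χ w, o w * (1 + s)) / χ w‖ < 1
      linarith
    refine ⟨h5, ?_, hb1ne _ hbq⟩
    exact ((differentiableAt_const _).mul (h6.clog h7)).cexp
  have hholW : DifferentiableOn ℂ W {z | z.1 ∈ Wd (2 * r₀) ∧ ‖z.2‖ < 1 / 2} := by
    intro z hz
    obtain ⟨-, h2, -⟩ := hRfd z hz
    exact (differentiableAt_fst.mul h2).differentiableWithinAt
  have hholS : DifferentiableOn ℂ S {z | z.1 ∈ Wd (2 * r₀) ∧ ‖z.2‖ < 1 / 2} := by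
    intro z hz
    obtain ⟨h1, h2, h3⟩ := hRfd z hz
    have h4 : DifferentiableAt ℂ (fun z : ℂ × ℂ => bf z * (ν * -(z.1 * qf z))) z :=
      h1.mul ((differentiableAt_const _).mul (differentiableAt_fst.mul h2).neg)
    have h5 : DifferentiableAt ℂ (fun z : ℂ × ℂ => 1 + bf z) z := (differentiableAt_const _).add h1
    have h5i : DifferentiableAt ℂ (fun z : ℂ × ℂ => (1 + bf z)⁻¹) z :=
      DifferentiableAt.inv (h := fun z : ℂ × ℂ => 1 + bf z) h5 h3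
    have e : S = fun z : ℂ × ℂ => bf z * (ν * -(z.1 * qf z)) * (1 + bf z)⁻¹ - 1 := by
      funext z
      show bf z * (ν * -(z.1 * qf z)) / (1 + bf z) - 1 = _
      rw [div_eq_mul_inv]
    rw [e]
    exact ((h4.mul h5i).sub (differentiableAt_const _)).differentiableWithinAt
  -- the constants of the estimates
  set AW := (4 * ν ^ 2 + ν) * A4 ^ 2 + ν * A3 with hAW
  set AS := ν * A3 + (3 / 2 + ν * A3) * (2 * (ν + (4 * ν ^ 2 + ν) + 1) * A4) with hAS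
  set AE := ν ^ 2 * (A2 * A4 * AX + (A3 ^ 2 + D / c ^ 2 * A4 ^ 2)) with hAE
  set AF := C * (n + 2) / κ * AX with hAF
  set AO := 20 * (1 / 20 : ℝ) ^ (-(1 / ν)) with hAO
  have hAWp : 0 < AW := by positivity
  have hASp : 0 < AS := by positivity
  have hAEp : 0 < AE := by positivity
  have hAFp : 0 < AF := by positivity
  have hAOp : 0 < AO := by
    have : 0 < (1 / 20 : ℝ) ^ (-(1 / ν)) := Real.rpow_pos_of_pos (by positivity) _
    positivity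
  refine ⟨2 * r₀, AW + AS + AE + AF + AO, σ, W, S, E, ?_, hlink⟩
  refine ⟨by linarith, by linarith, hσ0, hσ1, hholW, hholS, ?_, ?_, ?_, ?_, ?_, ?_, ?_⟩
  · intro w s hw hs
    obtain ⟨hwr0, hw00, hwne⟩ := hgeo w hw
    have hr : 0 < ‖w‖ := by linarith
    obtain ⟨hx0, -, -, -, -, hb1, hb2, hb3, -⟩ := main w hw s hs (χ w) (o w * (1 + s))
      (R (χ w, o w * (1 + s))) (R (χ w, o w * (1 + s)) / χ w) rfl rfl rfl rfl
    have h := (tb_WS ν A3 A4 hν hA3p hA4p w s _ _ (by linarith) hs hb3 hb2 hb1 rfl).1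
    exact h.trans (div_le_div_of_nonneg_right (by linarith) hr.le)
  · intro w s hw hs
    obtain ⟨hwr0, hw00, hwne⟩ := hgeo w hw
    have hr : 0 < ‖w‖ := by linarith
    obtain ⟨hx0, -, -, -, -, hb1, hb2, hb3, -⟩ := main w hw s hs (χ w) (o w * (1 + s))
      (R (χ w, o w * (1 + s))) (R (χ w, o w * (1 + s)) / χ w) rfl rfl rfl rfl
    have h := (tb_WS ν A3 A4 hν hA3p hA4p w s _ _ (by linarith) hs hb3 hb2 hb1 rfl).2
    exact h.trans (div_le_div_of_nonneg_right (by linarith) hr.le)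
  · intro w s hw hs _ _
    obtain ⟨hwr0, hw00, hwne⟩ := hgeo w hw
    have hr : 0 < ‖w‖ := by linarith
    have hr1 : 1 ≤ ‖w‖ := by linarith
    obtain ⟨hx0, hx1, hx2, hxn, hbid, hb1, hb2, hb3, he⟩ := main w hw s hs (χ w) (o w * (1 + s))
      (R (χ w, o w * (1 + s))) (R (χ w, o w * (1 + s)) / χ w) rfl rfl rfl rfl
    obtain ⟨-, -, hl3', hl4'⟩ := hlink w hw s hs
    have hl3 : χ (W (w, s)) = χ w + R (χ w, o w * (1 + s)) := hl3'
    have hl4 : o (W (w, s)) * (1 + S (w, s)) = R (χ w, o w * (1 + s)) := hl4'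
    have hX : 0 < ‖χ w‖ := norm_pos_iff.2 hx0
    have hbq := hone _ hb1
    have hon : ‖o w‖ = ‖χ w‖ / (ν * ‖w‖) := by
      rw [hooe, norm_div, norm_mul, norm_neg, Complex.norm_real, Real.norm_eq_abs, abs_of_pos hν]
    have e1 : E (W (w, s), S (w, s)) - E (w, s) =
        (R (χ w, o w * (1 + s)) ^ 2 - (o w * (1 + s)) ^ 2) / 2 -
          (P (χ w + R (χ w, o w * (1 + s))) - P (χ w)) := by
      show (o (W (w, s)) * (1 + S (w, s))) ^ 2 / 2 - P (χ (W (w, s))) -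
        ((o w * (1 + s)) ^ 2 / 2 - P (χ w)) = _
      rw [hl4, hl3]
      ring
    have hRn : ‖R (χ w, o w * (1 + s))‖ ≤ ‖χ w‖ / 4 := by
      rw [norm_div, div_le_iff₀ hX] at hbq
      linarith
    have hT := htay (χ w) (R (χ w, o w * (1 + s))) hx0 hx1 (by linarith)
    have hKe : ‖R (χ w, o w * (1 + s)) - o w * (1 + s)‖ ≤ A3 * ‖χ w‖ / ‖w‖ ^ 2 := by
      have hν0 : (ν : ℂ) ≠ 0 := by exact_mod_cast hν.ne'
      have e2 : R (χ w, o w * (1 + s)) - o w * (1 + s) =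
          (R (χ w, o w * (1 + s)) / χ w - (1 + s) / (ν * -w)) * χ w := by
        have e3 : (R (χ w, o w * (1 + s)) / χ w - (1 + s) / (ν * -w)) * χ w =
          R (χ w, o w * (1 + s)) - χ w / (ν * -w) * (1 + s) := by
          field_simp
        rw [e3, ← hooe]
      rw [e2, norm_mul]
      calc _ ≤ A3 / ‖w‖ ^ 2 * ‖χ w‖ := by gcongr
        _ = _ := by ring
    have hRn2 : ‖R (χ w, o w * (1 + s))‖ ≤ A4 * ‖χ w‖ / ‖w‖ := by
      have e2 : R (χ w, o w * (1 + s)) = (R (χ w, o w * (1 + s)) / χ w) * χ w := by field_simp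
      rw [e2, norm_mul]
      calc _ ≤ A4 / ‖w‖ * ‖χ w‖ := by gcongr
        _ = _ := by ring
    have hEE := tb_EE c A2 A3 A4 D hc hA2p hA3p hA4p hD.le n w (χ w) (o w * (1 + s)) (R (χ w, 0))
      (R (χ w, o w * (1 + s))) _ hr1 hx0 hxn he hKe hRn2 hT
    have h3 := tb_pow3 ν AX (A2 * A4) (A3 ^ 2 + D / c ^ 2 * A4 ^ 2) ‖χ w‖ ‖w‖ σ hν (by positivity)
      (by positivity) hX hσ1 hr1 hx2
    rw [← hon] at h3
    rw [e1]
    refine hEE.trans (h3.trans ?_)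
    refine mul_le_mul_of_nonneg_right ?_ (Real.rpow_nonneg hr.le _)
    refine mul_le_mul_of_nonneg_right ?_ (sq_nonneg _)
    linarith
  · intro w s hw hs
    obtain ⟨hwr0, hw00, hwne⟩ := hgeo w hw
    have hr : 0 < ‖w‖ := by linarith
    obtain ⟨hx0, hx1, hx2, hxn, hbid, hb1, hb2, hb3, he⟩ := main w hw s hs (χ w) (o w * (1 + s))
      (R (χ w, o w * (1 + s))) (R (χ w, o w * (1 + s)) / χ w) rfl rfl rfl rfl
    obtain ⟨-, ho0, -, -, -, ho2⟩ := hw0 w hwne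
    have hX : 0 < ‖χ w‖ := norm_pos_iff.2 hx0
    have hF1 := hFb (χ w) (by linarith)
    have ho2' : o w ^ 2 = (2 * κ / (n + 2)) * χ w ^ (n + 2) := by
      rw [ho2]
      push_cast
      ring
    have e1 : 2 * E (w, s) / o w ^ 2 - ((1 + s) ^ 2 - 1) = -(2 * F (χ w)) / o w ^ 2 := by
      have hκ0 : (κ : ℂ) ≠ 0 := by exact_mod_cast hκ.ne'
      show 2 * ((o w * (1 + s)) ^ 2 / 2 - (κ * χ w ^ (n + 2) / (n + 2) + F (χ w))) / o w ^ 2 -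
        ((1 + s) ^ 2 - 1) = _
      have e2 : 2 * (κ * χ w ^ (n + 2) / ((n : ℂ) + 2)) = o w ^ 2 := by
        rw [ho2']; ring
      have e3 : 2 * ((o w * (1 + s)) ^ 2 / 2 - (κ * χ w ^ (n + 2) / (n + 2) + F (χ w))) =
        o w ^ 2 * ((1 + s) ^ 2 - 1) + -(2 * F (χ w)) := by
        linear_combination -e2
      rw [e3, add_div, mul_div_cancel_left₀ _ (pow_ne_zero 2 ho0)]
      ring
    have hon2 : ‖o w ^ 2‖ = 2 * κ / (n + 2) * ‖χ w‖ ^ (n + 2) := by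
      rw [ho2', norm_mul, norm_pow]
      congr 1
      have : (2 * (κ : ℂ) / (n + 2)) = ((2 * κ / (n + 2) : ℝ) : ℂ) := by push_cast; ring
      rw [this, Complex.norm_real, Real.norm_eq_abs, abs_of_pos (by positivity)]
    rw [e1, norm_div, hon2, norm_neg, norm_mul]
    have h2' : ‖(2 : ℂ)‖ = 2 := by simp
    rw [h2']
    calc 2 * ‖F (χ w)‖ / (2 * κ / (n + 2) * ‖χ w‖ ^ (n + 2))
        ≤ 2 * (C * ‖χ w‖ ^ (n + 1 + 1 + 1)) / (2 * κ / (n + 2) * ‖χ w‖ ^ (n + 2)) := by gcongr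
      _ = C * (n + 2) / κ * ‖χ w‖ := by
        field_simp
        ring
      _ ≤ C * (n + 2) / κ * (AX * ‖w‖ ^ (-σ)) := by gcongr
      _ = AF * ‖w‖ ^ (-σ) := by rw [hAF]; ring
      _ ≤ _ := by
        refine mul_le_mul_of_nonneg_right ?_ (Real.rpow_nonneg hr.le _)
        linarith
  · intro w hw
    exact (hw0 w (hgeo w hw).2.2).2.1
  · intro w hw w' hw' hww
    obtain ⟨hwr0, hw00, hwne⟩ := hgeo w hw
    obtain ⟨hwr0', hw00', hwne'⟩ := hgeo w' hw'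
    have h1 := (hw0 w hwne).2.2.2.1
    have h2 := (hw0 w' hwne').2.2.2.1
    have h3 := tb_pow2 ν c ‖w‖ ‖w'‖ hν hc (by linarith) hww
    rw [← h1, ← h2] at h3
    refine h3.trans ?_
    refine mul_le_mul_of_nonneg_right ?_ (norm_nonneg _)
    linarith
  · intro w s hw hs
    have hwneg : w < 0 := by
      have h : (w : ℂ).re + 2 * r₀ < |(w : ℂ).im| := hw
      rw [Complex.ofReal_re, Complex.ofReal_im, abs_zero] at h
      linarith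
    have hs' : ‖(s : ℂ)‖ < 1 / 2 := by
      rw [Complex.norm_real, Real.norm_eq_abs]; exact hs
    obtain ⟨x, hx, hxe⟩ := hwr w hwneg
    have hoe : o (w : ℂ) = ((x / (ν * -w) : ℝ) : ℂ) := by
      rw [hooe, hxe]; push_cast; ring
    obtain ⟨hx0, hx1, hx2, hxn, hbid, hb1, hb2, hb3, he⟩ := main w hw s hs' (χ w)
      (o w * (1 + s)) (R (χ w, o w * (1 + s))) (R (χ w, o w * (1 + s)) / χ w) rfl rfl rfl rfl
    have hu : o (w : ℂ) * (1 + s) = ((x / (ν * -w) * (1 + s) : ℝ) : ℂ) := by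
      rw [hoe]; push_cast; ring
    have hRim : (R (χ w, o w * (1 + s))).im = 0 := by
      rw [hu, hxe] at hbid ⊢
      exact hL.real _ _ hbid
    obtain ⟨ρ, hρ⟩ : ∃ ρ : ℝ, R (χ w, o w * (1 + s)) = ρ :=
      ⟨(R (χ w, o w * (1 + s))).re, by
        apply Complex.ext
        · simp
        · simpa using hRim⟩
    have hbr : R (χ w, o w * (1 + s)) / χ w = ((ρ / x : ℝ) : ℂ) := by
      rw [hρ, hxe]; push_cast; ring
    have hbq := hone _ hb1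
    rw [hbr, Complex.norm_real, Real.norm_eq_abs] at hbq
    have h1b : 0 ≤ 1 + ρ / x := by
      have := neg_abs_le (ρ / x)
      linarith
    have hqr : qf ((w : ℂ), (s : ℂ)) = ((Real.exp (-ν * Real.log (1 + ρ / x)) : ℝ) : ℂ) := by
      show Complex.exp (-(ν : ℂ) * Complex.log (1 + R (χ w, o w * (1 + s)) / χ w)) = _
      rw [hbr]
      have e1 : (1 : ℂ) + ((ρ / x : ℝ) : ℂ) = ((1 + ρ / x : ℝ) : ℂ) := by push_cast; ring
      rw [e1, ← Complex.ofReal_log h1b]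
      push_cast
      rfl
    constructor
    · have e1 : W ((w : ℂ), (s : ℂ)) = ((w * Real.exp (-ν * Real.log (1 + ρ / x)) : ℝ) : ℂ) := by
        show (w : ℂ) * qf ((w : ℂ), (s : ℂ)) = _
        rw [hqr, Complex.ofReal_mul]
      rw [e1, Complex.ofReal_im]
    · have e1 : S ((w : ℂ), (s : ℂ)) =
          (((ρ / x) * (ν * -(w * Real.exp (-ν * Real.log (1 + ρ / x)))) / (1 + ρ / x) - 1 : ℝ) : ℂ) := by
        show R (χ w, o w * (1 + s)) / χ w * (ν * -((w : ℂ) * qf ((w : ℂ), (s : ℂ)))) /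
          (1 + R (χ w, o w * (1 + s)) / χ w) - 1 = _
        rw [hqr, hbr]
        push_cast
        ring
      rw [e1, Complex.ofReal_im]

end Pool.Agent.MP_2f2443_an.RC
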