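import Pool.Agent.Lib.MP_2f2443_an.RC.StmG

/-!
# MP_2f2443_an, project RC: piece `tp` (real parts of polynomials are dense in `C(circle)`)
-/

set_option autoImplicit false

namespace Pool.Agent.MP_2f2443_an.RC

open Filter Topology Pool.Agent.MP_2f2443_an.IP

private lemma tp_mono (c : ℂ) (ρ : ℝ) (hρ : 0 < ρ) (f : C(AddCircle (1 : ℝ), ℂ))
    (hf : f ∈ Submodule.span ℂ (Set.range (@fourier (1 : ℝ)))) :
    ∀ a : ℂ, ∃ P : ℂ → ℂ, Differentiable ℂ P ∧ ∀ θ : AddCircle (1 : ℝ),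
      (a * f θ).re = (P (c + ρ * (AddCircle.toCircle θ : ℂ))).re := by
  have hρ' : (ρ : ℂ) ≠ 0 := by exact_mod_cast hρ.ne'
  induction hf using Submodule.span_induction with
  | mem f hf =>
    obtain ⟨n, rfl⟩ := hf
    intro a
    have hw : ∀ θ : AddCircle (1 : ℝ), (c + ρ * (AddCircle.toCircle θ : ℂ) - c) / ρ =
        (AddCircle.toCircle θ : ℂ) := by
      intro θ
      field_simp
      ring
    rcases Int.eq_nat_or_neg n with ⟨m, rfl | rfl⟩
    · refine ⟨fun z => a * ((z - c) / ρ) ^ m, by fun_prop, ?_⟩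
      intro θ
      simp only [hw, fourier_apply, AddCircle.toCircle_zsmul, Circle.coe_pow, zpow_natCast]
    · refine ⟨fun z => (starRingEnd ℂ) a * ((z - c) / ρ) ^ m, by fun_prop, ?_⟩
      intro θ
      simp only [hw]
      rw [fourier_neg, ← Complex.conj_re]
      simp only [map_mul, Complex.conj_conj, fourier_apply, AddCircle.toCircle_zsmul,
        Circle.coe_pow, zpow_natCast]
  | zero =>
    intro a
    exact ⟨fun _ => 0, by fun_prop, fun θ => by simp⟩
  | add f g _ _ hf hg =>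
    intro a
    obtain ⟨P, hP, hP'⟩ := hf a
    obtain ⟨Q, hQ, hQ'⟩ := hg a
    refine ⟨fun z => P z + Q z, hP.add hQ, fun θ => ?_⟩
    simp only [ContinuousMap.add_apply, mul_add, Complex.add_re, hP', hQ']
  | smul b f _ hf =>
    intro a
    obtain ⟨P, hP, hP'⟩ := hf (a * b)
    refine ⟨P, hP, fun θ => ?_⟩
    rw [← hP']
    simp only [ContinuousMap.smul_apply, smul_eq_mul, mul_assoc]

theorem p_tp : S_tp := by
  intro c ρ hρ u hu ε hε
  have : Fact ((0 : ℝ) < 1) := ⟨one_pos⟩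
  have hρ' : (ρ : ℂ) ≠ 0 := by exact_mod_cast hρ.ne'
  have hmem : ∀ θ : AddCircle (1 : ℝ), c + ρ * (AddCircle.toCircle θ : ℂ) ∈ Metric.sphere c ρ := by
    intro θ
    rw [mem_sphere_iff_norm]
    simp [abs_of_pos hρ]
  have hcont : Continuous (fun θ : AddCircle (1 : ℝ) =>
      ((u (c + ρ * (AddCircle.toCircle θ : ℂ)) : ℝ) : ℂ)) := by
    have h1 : Continuous (fun θ : AddCircle (1 : ℝ) => c + ρ * (AddCircle.toCircle θ : ℂ)) := by
      have : Continuous (fun θ : AddCircle (1 : ℝ) => (AddCircle.toCircle θ : ℂ)) :=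
        continuous_subtype_val.comp AddCircle.continuous_toCircle
      fun_prop
    exact Complex.continuous_ofReal.comp (hu.comp_continuous h1 hmem)
  let g : C(AddCircle (1 : ℝ), ℂ) := ⟨_, hcont⟩
  have hg : g ∈ (Submodule.span ℂ (Set.range (@fourier (1 : ℝ)))).topologicalClosure := by
    rw [span_fourier_closure_eq_top]; trivial
  have hg' : g ∈ closure ((Submodule.span ℂ (Set.range (@fourier (1 : ℝ))) :
      Submodule ℂ C(AddCircle (1 : ℝ), ℂ)) : Set C(AddCircle (1 : ℝ), ℂ)) := hg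
  rw [Metric.mem_closure_iff] at hg'
  obtain ⟨f, hf, hfg⟩ := hg' ε hε
  obtain ⟨P, hP, hP'⟩ := tp_mono c ρ hρ f hf 1
  refine ⟨P, hP, ?_⟩
  intro z hz
  have hz' : ‖z - c‖ = ρ := by rwa [mem_sphere_iff_norm] at hz
  have hw : ‖(z - c) / ρ‖ = 1 := by
    rw [norm_div, hz', Complex.norm_real, Real.norm_of_nonneg hρ.le, div_self hρ.ne']
  obtain ⟨θ, hθ⟩ := (AddCircle.homeomorphCircle (one_ne_zero : (1 : ℝ) ≠ 0)).surjective
    (⟨(z - c) / ρ, mem_sphere_zero_iff_norm.mpr hw⟩ : Circle)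
  rw [AddCircle.homeomorphCircle_apply] at hθ
  have hθ' : (AddCircle.toCircle θ : ℂ) = (z - c) / ρ := by rw [hθ]
  have hzθ : c + ρ * (AddCircle.toCircle θ : ℂ) = z := by
    rw [hθ']
    field_simp
    ring
  have h1 := hP' θ
  rw [hzθ, one_mul] at h1
  rw [← h1]
  have h2 : g θ = ((u z : ℝ) : ℂ) := by
    change ((u (c + ρ * (AddCircle.toCircle θ : ℂ)) : ℝ) : ℂ) = _
    rw [hzθ]
  have h3 : |u z - (f θ).re| = |(g θ - f θ).re| := by
    rw [h2, Complex.sub_re, Complex.ofReal_re]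
  rw [h3]
  calc |(g θ - f θ).re| ≤ ‖g θ - f θ‖ := Complex.abs_re_le_norm _
    _ = dist (g θ) (f θ) := (dist_eq_norm _ _).symm
    _ ≤ dist g f := ContinuousMap.dist_apply_le_dist θ
    _ ≤ ε := hfg.le

end Pool.Agent.MP_2f2443_an.RC
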