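import Pool.Agent.Lib.MP_2f2443_an.RC.StmG

set_option autoImplicit false

namespace Pool.Agent.MP_2f2443_an.RC

open Filter Topology Pool.Agent.MP_2f2443_an.IP

/-- The real inverse standard map. -/
private noncomputable def tw_SI (k : ℝ) (P : ℝ × ℝ) : ℝ × ℝ := (P.1 - P.2 + VR k P.1, P.2 - VR k P.1)

private lemma tw_VC_cast (k x : ℝ) : VC (k : ℂ) (x : ℂ) = ((VR k x : ℝ) : ℂ) := by
  unfold VC VR
  push_cast
  rfl

private lemma tw_cast (k : ℝ) (P : ℝ × ℝ) :
    SMCi (k : ℂ) ((P.1 : ℂ), (P.2 : ℂ)) = (((tw_SI k P).1 : ℂ), ((tw_SI k P).2 : ℂ)) := by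
  unfold SMCi tw_SI
  simp only [tw_VC_cast]
  push_cast
  rfl

private lemma tw_cast_iter (k : ℝ) (n : ℕ) (P : ℝ × ℝ) :
    (SMCi (k : ℂ))^[n] ((P.1 : ℂ), (P.2 : ℂ)) =
      ((((tw_SI k)^[n] P).1 : ℂ), (((tw_SI k)^[n] P).2 : ℂ)) := by
  induction n generalizing P with
  | zero => rfl
  | succ n ih =>
    rw [Function.iterate_succ_apply, Function.iterate_succ_apply, tw_cast]
    exact ih (tw_SI k P)

private lemma tw_V_lip (k x y : ℝ) (h : x ≤ y) : |VR k y - VR k x| ≤ |k| * (y - x) := by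
  unfold VR
  rw [← mul_sub, abs_mul, abs_div]
  have h2 : |Real.sin (2 * Real.pi * y) - Real.sin (2 * Real.pi * x)| ≤ 2 * Real.pi * (y - x) := by
    refine (Real.abs_sin_sub_sin_le _ _).trans ?_
    rw [← mul_sub, abs_mul, abs_of_pos (by positivity), abs_of_nonneg (by linarith)]
  have hp : |2 * Real.pi| = 2 * Real.pi := abs_of_pos (by positivity)
  rw [hp]
  have hpi : 0 < 2 * Real.pi := by positivity
  calc |k| / (2 * Real.pi) * |Real.sin (2 * Real.pi * y) - Real.sin (2 * Real.pi * x)|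
      ≤ |k| / (2 * Real.pi) * (2 * Real.pi * (y - x)) := by
        apply mul_le_mul_of_nonneg_left h2
        positivity
    _ = |k| * (y - x) := by
        field_simp

private lemma tw_int (h : ℝ → ℝ) (hd : ∀ x, h (x + 1) = h x + 1) (m : ℤ) (x : ℝ) :
    h (x + m) = h x + m := by
  have hn : ∀ (n : ℕ) (x : ℝ), h (x + n) = h x + n := by
    intro n
    induction n with
    | zero => intro x; simp
    | succ n ih =>
      intro x
      push_cast
      rw [← add_assoc, hd, ih]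
      ring
  obtain ⟨n, rfl | rfl⟩ := m.eq_nat_or_neg
  · exact_mod_cast hn n x
  · have h1 := hn n (x + ((-(n : ℤ) : ℤ) : ℝ))
    push_cast at h1 ⊢
    rw [show x + -(n : ℝ) + n = x by ring] at h1
    linarith

private lemma tw_surj (k : ℝ) (h : ℝ → ℝ) (hc : Circ k h) : Function.Surjective h := by
  have hlow : ∀ x : ℝ, h 0 + x - 1 ≤ h x := by
    intro x
    have h1 : h ((⌊x⌋ : ℤ) : ℝ) = h 0 + (⌊x⌋ : ℤ) := by
      have := tw_int h hc.deg ⌊x⌋ 0
      rwa [zero_add] at this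
    have h2 : h ((⌊x⌋ : ℤ) : ℝ) ≤ h x := hc.mono.monotone (Int.floor_le x)
    have h3 : x - 1 < (⌊x⌋ : ℤ) := Int.sub_one_lt_floor x
    linarith
  have hup : ∀ x : ℝ, h x ≤ h 0 + x + 1 := by
    intro x
    have h1 : h ((⌈x⌉ : ℤ) : ℝ) = h 0 + (⌈x⌉ : ℤ) := by
      have := tw_int h hc.deg ⌈x⌉ 0
      rwa [zero_add] at this
    have h2 : h x ≤ h ((⌈x⌉ : ℤ) : ℝ) := hc.mono.monotone (Int.le_ceil x)
    have h3 : (⌈x⌉ : ℝ) < x + 1 := Int.ceil_lt_add_one x
    linarith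
  apply hc.cont.surjective
  · apply tendsto_atTop_mono hlow
    have : (fun x : ℝ => h 0 + x - 1) = fun x => x + (h 0 - 1) := by
      funext x; ring
    rw [this]
    exact tendsto_atTop_add_const_right _ _ tendsto_id
  · apply tendsto_atBot_mono hup
    have : (fun x : ℝ => h 0 + x + 1) = fun x => x + (h 0 + 1) := by
      funext x; ring
    rw [this]
    exact tendsto_atBot_add_const_right _ _ tendsto_id

private lemma tw_lip (k : ℝ) (h : ℝ → ℝ) (hc : Circ k h) (x y : ℝ) (hxy : x ≤ y) :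
    h y - h x ≤ (2 + |k|) * (y - x) := by
  obtain ⟨u, rfl⟩ := tw_surj k h hc x
  obtain ⟨v, rfl⟩ := tw_surj k h hc y
  have huv : u ≤ v := hc.mono.le_iff_le.1 hxy
  rw [hc.eq, hc.eq]
  have h1 := tw_V_lip k (h u) (h v) hxy
  have h2 := (abs_le.1 h1).2
  nlinarith

/-- Backward orbits above the circle. -/
private lemma tw_back (k : ℝ) (h : ℝ → ℝ) (hc : Circ k h) (x ε : ℝ) (hε : 0 < ε) (n : ℕ) :
    ∃ (w X d : ℝ), (tw_SI k)^[n + 1] (x, h x - x) = (w, h w - w) ∧
      (tw_SI k)^[n + 1] (x, h x - x + ε) = (X, h X - X + d) ∧ 0 < d ∧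
      X + ε / (2 + |k|) ^ n ≤ w := by
  have hL : 0 < 2 + |k| := by positivity
  have step : ∀ X d : ℝ, 0 < d → ∃ u : ℝ, h u = X ∧
      tw_SI k (X, h X - X + d) = (u - d, h (u - d) - (u - d) + (X - h (u - d))) ∧
      0 < X - h (u - d) := by
    intro X d hd
    obtain ⟨u, rfl⟩ := tw_surj k h hc X
    refine ⟨u, rfl, ?_, ?_⟩
    · unfold tw_SI
      have he := hc.eq u
      ext
      · simp only
        linarith
      · simp only
        linarith
    · have : h (u - d) < h u := hc.mono (by linarith)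
      linarith
  have step0 : ∀ X : ℝ, ∃ u : ℝ, h u = X ∧ tw_SI k (X, h X - X) = (u, h u - u) := by
    intro X
    obtain ⟨u, rfl⟩ := tw_surj k h hc X
    refine ⟨u, rfl, ?_⟩
    unfold tw_SI
    have he := hc.eq u
    ext
    · simp only
      linarith
    · simp only
      linarith
  induction n with
  | zero =>
    obtain ⟨u, hu, h1, h2⟩ := step x ε hε
    obtain ⟨u', hu', h1'⟩ := step0 x
    have huu : u' = u := hc.mono.injective (by rw [hu, hu'])
    refine ⟨u', u - ε, x - h (u - ε), ?_, ?_, h2, ?_⟩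
    · simpa using h1'
    · simpa using h1
    · rw [huu]
      simp
  | succ n ih =>
    obtain ⟨w, X, d, hw, hX, hd, hle⟩ := ih
    obtain ⟨u, hu, h1, h2⟩ := step X d hd
    obtain ⟨u', hu', h1'⟩ := step0 w
    refine ⟨u', u - d, X - h (u - d), ?_, ?_, h2, ?_⟩
    · rw [Function.iterate_succ_apply', hw, h1']
    · rw [Function.iterate_succ_apply', hX, h1]
    · have hpos : 0 < ε / (2 + |k|) ^ n := by positivity
      have hXw : X ≤ w := by linarith
      have huu : u ≤ u' := by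
        rw [← hc.mono.le_iff_le, hu, hu']
        exact hXw
      have hl := tw_lip k h hc u u' huu
      rw [hu, hu'] at hl
      have h3 : ε / (2 + |k|) ^ n ≤ (2 + |k|) * (u' - u) := by linarith
      have h4 : ε / (2 + |k|) ^ (n + 1) ≤ u' - u := by
        rw [pow_succ, ← div_div, div_le_iff₀ hL]
        linarith
      linarith

private lemma tw_diff (k : ℝ) (q : ℕ) (p : ℤ) : Differentiable ℂ (GCi k q p) := by
  have h1 : Differentiable ℂ (SMCi (k : ℂ)) := by
    unfold SMCi VC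
    fun_prop
  have h2 : Differentiable ℂ ((SMCi (k : ℂ))^[q]) := h1.iterate q
  have h3 : Differentiable ℂ (fun P : ℂ × ℂ => (P.1 + (p : ℂ), P.2)) := by
    fun_prop
  exact h2.comp h3

theorem p_tw : S_tw := by
  intro k h hc q hq p a ha
  obtain ⟨n, rfl⟩ : ∃ n, q = n + 1 := ⟨q - 1, by omega⟩
  intro hzero
  set y₀ : ℝ := h a - a with hy₀
  have hL : 0 < 2 + |k| := by positivity
  -- the derivative along the vertical line
  have hF : HasFDerivAt (GCi k (n + 1) p) (fderiv ℂ (GCi k (n + 1) p) ((a : ℂ), (y₀ : ℂ)))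
      ((a : ℂ), (y₀ : ℂ)) := (tw_diff k (n + 1) p _).hasFDerivAt
  have hg : HasDerivAt (fun t : ℂ => ((a : ℂ), (y₀ : ℂ) + t)) ((0 : ℂ), (1 : ℂ)) ((0 : ℝ) : ℂ) := by
    have h1 : HasDerivAt (fun _ : ℂ => (a : ℂ)) 0 ((0 : ℝ) : ℂ) := hasDerivAt_const _ _
    have h2 : HasDerivAt (fun t : ℂ => (y₀ : ℂ) + t) 1 ((0 : ℝ) : ℂ) :=
      (hasDerivAt_id _).const_add _
    exact h1.prodMk h2
  have hF' : HasFDerivAt (GCi k (n + 1) p) (fderiv ℂ (GCi k (n + 1) p) ((a : ℂ), (y₀ : ℂ)))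
      ((a : ℂ), (y₀ : ℂ) + ((0 : ℝ) : ℂ)) := by
    simpa using hF
  have hcomp := hF'.comp_hasDerivAt ((0 : ℝ) : ℂ) hg
  have hfst : HasDerivAt (fun t : ℂ => (GCi k (n + 1) p ((a : ℂ), (y₀ : ℂ) + t)).1)
      ((fderiv ℂ (GCi k (n + 1) p) ((a : ℂ), (y₀ : ℂ))) (0, 1)).1 ((0 : ℝ) : ℂ) := by
    exact (hasFDerivAt_fst.comp_hasDerivAt _ hcomp)
  rw [hzero] at hfst
  have hre := hfst.real_of_complex
  rw [Complex.zero_re] at hre
  -- the real function
  have hval : ∀ t : ℝ, (GCi k (n + 1) p ((a : ℂ), (y₀ : ℂ) + (t : ℂ))).1.re =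
      ((tw_SI k)^[n + 1] (a + p, h (a + p) - (a + p) + t)).1 := by
    intro t
    have h1 : h (a + p) - (a + p) = y₀ := by
      rw [tw_int h hc.deg p a, hy₀]
      ring
    rw [h1]
    unfold GCi
    have h2 : (((a : ℂ) + (p : ℂ)), (y₀ : ℂ) + (t : ℂ)) =
        ((((a + p, y₀ + t) : ℝ × ℝ).1 : ℂ), (((a + p, y₀ + t) : ℝ × ℝ).2 : ℂ)) := by
      push_cast
      rfl
    simp only
    rw [h2, tw_cast_iter]
    simp
  have hslope := hre.tendsto_slope_zero_right
  have hbound : ∀ t : ℝ, 0 < t →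
      t⁻¹ • ((fun x : ℝ => (GCi k (n + 1) p ((a : ℂ), (y₀ : ℂ) + (x : ℂ))).1.re) (0 + t) -
        (fun x : ℝ => (GCi k (n + 1) p ((a : ℂ), (y₀ : ℂ) + (x : ℂ))).1.re) 0) ≤
        -(1 / (2 + |k|) ^ n) := by
    intro t ht
    obtain ⟨w, X, d, hw, hX, hd, hle⟩ := tw_back k h hc (a + p) t ht n
    simp only [zero_add]
    rw [hval t, hval 0, add_zero, hw, hX]
    simp only
    rw [smul_eq_mul]
    have h5 : X - w ≤ -(t / (2 + |k|) ^ n) := by linarith
    calc t⁻¹ * (X - w) ≤ t⁻¹ * (-(t / (2 + |k|) ^ n)) :=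
          mul_le_mul_of_nonneg_left h5 (by positivity)
      _ = -(1 / (2 + |k|) ^ n) := by
          field_simp
  have hfin : (0 : ℝ) ≤ -(1 / (2 + |k|) ^ n) := by
    refine le_of_tendsto hslope ?_
    filter_upwards [self_mem_nhdsWithin] with t ht
    exact hbound t ht
  have hpos : 0 < 1 / (2 + |k|) ^ n := by positivity
  linarith

end Pool.Agent.MP_2f2443_an.RC
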