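import Pool.Agent.Lib.MP_2f2443_an.RC.StmG

/-!
# MP_2f2443_an, project RC: piece `ty` (the two types)
-/

set_option autoImplicit false

namespace Pool.Agent.MP_2f2443_an.RC

open Filter Topology Pool.Agent.MP_2f2443_an.IP

/-- expansion of a holomorphic function at a zero -/
theorem ty_exp (K : ℂ → ℂ) (δ : ℝ) (hδ : 0 < δ) (hK : DifferentiableOn ℂ K (Metric.ball 0 δ))
    (hK0 : K 0 = 0) (hre : ∀ x : ℝ, |x| < δ → (K x).im = 0)
    (hne : ∃ x : ℂ, ‖x‖ < δ ∧ K x ≠ 0) :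
    ∃ (m : ℕ) (κ δ₁ C₁ : ℝ), 1 ≤ m ∧ κ ≠ 0 ∧ 0 < δ₁ ∧ δ₁ ≤ δ ∧ 0 < C₁ ∧
      (∀ x : ℂ, ‖x‖ < δ₁ → ‖K x - κ * x ^ m‖ ≤ C₁ * ‖x‖ ^ (m + 1)) ∧
      (m = 1 → HasDerivAt K (κ : ℂ) 0) := by
  have h0mem : (0 : ℂ) ∈ Metric.ball (0 : ℂ) δ := Metric.mem_ball_self hδ
  have hAN : AnalyticOnNhd ℂ K (Metric.ball 0 δ) := hK.analyticOnNhd Metric.isOpen_ball
  have hnz : ¬ ∀ᶠ z in 𝓝 (0 : ℂ), K z = 0 := by
    intro h
    obtain ⟨x, hx, hx0⟩ := hne
    apply hx0
    have h1 := hAN.eqOn_zero_of_preconnected_of_eventuallyEq_zero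
      (convex_ball (0 : ℂ) δ).isPreconnected h0mem h
    exact h1 (by rw [Metric.mem_ball, dist_zero_right]; exact hx)
  obtain ⟨m, g, hg, hg0, hev⟩ := (hAN 0 h0mem).exists_eventuallyEq_pow_smul_nonzero_iff.2 hnz
  simp only [sub_zero, smul_eq_mul] at hev
  have hm : 1 ≤ m := by
    by_contra hm
    have hm0 : m = 0 := by omega
    have h1 := hev.self_of_nhds
    rw [hm0, pow_zero, one_mul, hK0] at h1
    exact hg0 h1.symm
  -- the leading coefficient is real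
  have him : (g 0).im = 0 := by
    have hc : Tendsto (fun t : ℝ => (g (t : ℂ)).im) (𝓝[>] 0) (𝓝 (g 0).im) := by
      have h1 : ContinuousAt (fun t : ℝ => (g (t : ℂ)).im) 0 := by
        apply Complex.continuous_im.continuousAt.comp
        apply ContinuousAt.comp (g := g)
        · rw [Complex.ofReal_zero]
          exact hg.continuousAt
        · exact Complex.continuous_ofReal.continuousAt
      have h2 := h1.tendsto
      rw [Complex.ofReal_zero] at h2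
      exact h2.mono_left nhdsWithin_le_nhds
    have hz : Tendsto (fun t : ℝ => (g (t : ℂ)).im) (𝓝[>] 0) (𝓝 0) := by
      refine (tendsto_const_nhds (x := (0 : ℝ))).congr' ?_
      have h1 : ∀ᶠ t : ℝ in 𝓝[>] 0, K (t : ℂ) = (t : ℂ) ^ m * g t := by
        have h2 : Tendsto (fun t : ℝ => (t : ℂ)) (𝓝[>] 0) (𝓝 0) := by
          have h3 := Complex.continuous_ofReal.tendsto (0 : ℝ)
          rw [Complex.ofReal_zero] at h3
          exact h3.mono_left nhdsWithin_le_nhds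
        exact h2.eventually hev
      have h2 : ∀ᶠ t : ℝ in 𝓝[>] 0, t < δ := nhdsWithin_le_nhds (eventually_lt_nhds hδ)
      filter_upwards [h1, h2, self_mem_nhdsWithin] with t ht1 ht2 ht3
      have ht3 : 0 < t := ht3
      have h3 := hre t (by rw [abs_of_pos ht3]; exact ht2)
      rw [ht1, ← Complex.ofReal_pow, Complex.im_ofReal_mul] at h3
      rcases mul_eq_zero.1 h3 with h4 | h4
      · exact absurd h4 (pow_pos ht3 m).ne'
      · exact h4.symm
    exact tendsto_nhds_unique hc hz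
  have hgre : g 0 = (((g 0).re : ℝ) : ℂ) := by
    apply Complex.ext
    · rw [Complex.ofReal_re]
    · rw [Complex.ofReal_im, him]
  have hκ : (g 0).re ≠ 0 := by
    intro h
    rw [h, Complex.ofReal_zero] at hgre
    exact hg0 hgre
  -- the bound
  obtain ⟨C₁, hC₁, hb⟩ := hg.differentiableAt.isBigO_sub.exists_pos
  have hb2 := hb.bound
  obtain ⟨ε, hε, hball⟩ := Metric.eventually_nhds_iff.1 (hev.and hb2)
  refine ⟨m, (g 0).re, min δ ε, C₁, hm, hκ, lt_min hδ hε, min_le_left _ _, hC₁, ?_, ?_⟩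
  · intro x hx
    have hx2 : dist x 0 < ε := by
      rw [dist_zero_right]
      exact lt_of_lt_of_le hx (min_le_right _ _)
    obtain ⟨h1, h2⟩ := hball hx2
    rw [h1, ← hgre]
    have h3 : x ^ m * g x - g 0 * x ^ m = x ^ m * (g x - g 0) := by ring
    rw [h3, norm_mul, norm_pow, pow_succ]
    rw [sub_zero] at h2
    calc ‖x‖ ^ m * ‖g x - g 0‖ ≤ ‖x‖ ^ m * (C₁ * ‖x‖) :=
          mul_le_mul_of_nonneg_left h2 (by positivity)
      _ = C₁ * (‖x‖ ^ m * ‖x‖) := by ring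
  · intro hm1
    rw [← hgre]
    have h1 : HasDerivAt (fun z : ℂ => z * g z) (1 * g 0 + 0 * deriv g 0) 0 :=
      (hasDerivAt_id (0 : ℂ)).mul hg.differentiableAt.hasDerivAt
    rw [one_mul, zero_mul, add_zero] at h1
    refine h1.congr_of_eventuallyEq ?_
    filter_upwards [hev] with z hz
    rw [hz, hm1, pow_one]

/-- a sequence of positive numbers which tends to zero has a maximum after every index -/
theorem ty_max (u : ℕ → ℝ) (j₀ : ℕ) (hpos : ∀ j, 0 < u j) (h0 : Tendsto u atTop (𝓝 0)) :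
    ∃ i, j₀ ≤ i ∧ ∀ j, j₀ ≤ j → u j ≤ u i := by
  have h1 : ∀ᶠ n in atTop, u n < u j₀ := h0.eventually (eventually_lt_nhds (hpos j₀))
  obtain ⟨N, hN⟩ := eventually_atTop.1 h1
  obtain ⟨i, hi, hmax⟩ := Finset.exists_max_image (Finset.Icc j₀ (max N j₀)) u
    ⟨j₀, Finset.mem_Icc.2 ⟨le_rfl, le_max_right _ _⟩⟩
  refine ⟨i, (Finset.mem_Icc.1 hi).1, ?_⟩
  intro j hj
  rcases le_or_gt j (max N j₀) with h2 | h2
  · exact hmax j (Finset.mem_Icc.2 ⟨hj, h2⟩)
  · have h3 := hN j (le_trans (le_max_left _ _) h2.le)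
    have h4 := hmax j₀ (Finset.mem_Icc.2 ⟨le_rfl, le_max_right _ _⟩)
    linarith

/-- the sign of the leading coefficient -/
theorem ty_sign (ξ : ℕ → ℝ) (C : ℝ) (hC : 0 < C) (h1 : ∀ j, 0 < ξ (j + 1) ∧ ξ (j + 1) < ξ j)
    (h2 : Tendsto ξ atTop (𝓝 0)) (j₀ : ℕ)
    (h3 : ∀ j, j₀ ≤ j → (ξ j - ξ (j + 1)) - (ξ (j + 1) - ξ (j + 2)) ≤
      C * (ξ (j + 1) - ξ (j + 2)) ^ 2) (h4 : ∀ j, j₀ ≤ j → C * ξ (j + 1) ≤ 1 / 2) : False := by
  obtain ⟨u, hu⟩ : ∃ u : ℕ → ℝ, ∀ j, u j = ξ j - ξ (j + 1) := ⟨_, fun _ => rfl⟩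
  have hupos : ∀ j, 0 < u j := by
    intro j
    rw [hu]
    linarith [(h1 j).2]
  have hutend : Tendsto u atTop (𝓝 0) := by
    have h5 : Tendsto (fun j => ξ j - ξ (j + 1)) atTop (𝓝 (0 - 0)) :=
      h2.sub ((tendsto_add_atTop_iff_nat 1).2 h2)
    rw [sub_zero] at h5
    exact h5.congr fun j => (hu j).symm
  obtain ⟨i, hi, hmax⟩ := ty_max u j₀ hupos hutend
  have hind : ∀ n : ℕ, u i ≤ u (i + n) + C * u i * (ξ (i + 1) - ξ (i + n + 1)) := by
    intro n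
    induction n with
    | zero => simp
    | succ n ih =>
      have h5 := h3 (i + n) (by omega)
      have h6 : u (i + n) - u (i + n + 1) ≤ C * u (i + n + 1) ^ 2 := by
        rw [hu, hu]
        exact h5
      have h7 : u (i + n + 1) ≤ u i := hmax _ (by omega)
      have h8 : C * u (i + n + 1) ^ 2 ≤ C * u i * u (i + n + 1) := by
        have h9 := hupos (i + n + 1)
        have h10 : u (i + n + 1) ^ 2 ≤ u i * u (i + n + 1) := by nlinarith
        calc C * u (i + n + 1) ^ 2 ≤ C * (u i * u (i + n + 1)) :=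
              mul_le_mul_of_nonneg_left h10 hC.le
          _ = C * u i * u (i + n + 1) := by ring
      have h9 : u (i + n + 1) = ξ (i + n + 1) - ξ (i + (n + 1) + 1) := hu (i + n + 1)
      have h10 : u (i + (n + 1)) = u (i + n + 1) := rfl
      rw [h10]
      have h11 : C * u i * (ξ (i + 1) - ξ (i + (n + 1) + 1)) =
          C * u i * (ξ (i + 1) - ξ (i + n + 1)) + C * u i * u (i + n + 1) := by
        rw [h9]
        ring
      rw [h11]
      linarith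
  have hbd : ∀ n : ℕ, u i ≤ u (i + n) + 1 / 2 * u i := by
    intro n
    have h5 := hind n
    have h6 := h4 i hi
    have h7 := (h1 (i + n)).1
    have h8 := hupos i
    have h9 : C * u i * (ξ (i + 1) - ξ (i + n + 1)) ≤ 1 / 2 * u i := by
      have h10 : C * u i * (ξ (i + 1) - ξ (i + n + 1)) ≤ C * u i * ξ (i + 1) := by
        apply mul_le_mul_of_nonneg_left _ (by positivity)
        linarith
      have h11 : C * u i * ξ (i + 1) = C * ξ (i + 1) * u i := by ring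
      rw [h11] at h10
      exact h10.trans (mul_le_mul_of_nonneg_right h6 h8.le)
    linarith
  have hlim : Tendsto (fun n : ℕ => u (i + n) + 1 / 2 * u i) atTop (𝓝 (0 + 1 / 2 * u i)) := by
    apply Tendsto.add_const
    have h5 := (tendsto_add_atTop_iff_nat i).2 hutend
    exact h5.congr fun n => by rw [add_comm]
  have h5 := ge_of_tendsto' hlim hbd
  have h6 := hupos i
  linarith

theorem ty_bid_mono {δ δ' : ℝ} (h : δ' ≤ δ) : bid δ' ⊆ bid δ := fun _ hz =>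
  ⟨lt_of_lt_of_le hz.1 h, lt_of_lt_of_le hz.2 h⟩

theorem ty_loc {G : ℂ × ℂ → ℂ × ℂ} {a δ C : ℝ} {R : ℂ × ℂ → ℂ} {Ψ : ℂ × ℂ → ℂ × ℂ}
    (h : Loc G a δ C R Ψ) {δ' C' : ℝ} (hδ : 0 < δ') (hδ' : δ' ≤ δ) (hC : C ≤ C') :
    Loc G a δ' C' R Ψ where
  aut := h.aut
  dpos := hδ
  cpos := lt_of_lt_of_le h.cpos hC
  holR := h.holR.mono (ty_bid_mono hδ')
  holP := h.holP.mono (ty_bid_mono hδ')
  fst := fun z hz => h.fst z (ty_bid_mono hδ' hz)
  fstG := fun z hz => h.fstG z (ty_bid_mono hδ' hz)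
  inj := h.inj.mono (ty_bid_mono hδ')
  eqn := fun z hz hz' => h.eqn z (ty_bid_mono hδ' hz) (ty_bid_mono hδ' hz')
  zero := h.zero
  est := by
    intro z hz
    refine (h.est z (ty_bid_mono hδ' hz)).trans ?_
    gcongr
  lip := fun x u v hu hv => h.lip x u v (ty_bid_mono hδ' hu) (ty_bid_mono hδ' hv)
  real := fun x u hz => h.real x u (ty_bid_mono hδ' hz)

theorem p_ty : S_ty := by
  intro G a δ C R Ψ hL ⟨ξ, hξ1, hξ2, hξ3⟩ hne
  have hδ := hL.dpos
  have hC := hL.cpos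
  have hmem : ∀ x : ℂ, ‖x‖ < δ → (x, (0 : ℂ)) ∈ bid δ := by
    intro x hx
    refine ⟨hx, ?_⟩
    show ‖(0 : ℂ)‖ < δ
    rw [norm_zero]
    exact hδ
  have hKd : DifferentiableOn ℂ (fun x : ℂ => R (x, 0)) (Metric.ball 0 δ) := by
    apply hL.holR.comp (t := bid δ) (f := fun x : ℂ => (x, (0 : ℂ)))
    · exact (differentiable_id.prodMk (differentiable_const _)).differentiableOn
    · intro x hx
      rw [Metric.mem_ball, dist_zero_right] at hx
      exact hmem x hx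
  have hKre : ∀ x : ℝ, |x| < δ → (R ((x : ℂ), 0)).im = 0 := by
    intro x hx
    have h1 := hL.real x 0 (by
      rw [Complex.ofReal_zero]
      apply hmem
      rw [Complex.norm_real, Real.norm_eq_abs]
      exact hx)
    rwa [Complex.ofReal_zero] at h1
  obtain ⟨m, κ, δ₁, C₁, hm, hκ, hδ₁, hδ₁', hC₁, hbd, hder⟩ :=
    ty_exp (fun x : ℂ => R (x, 0)) δ hδ hKd hL.zero hKre hne
  -- the sign
  have hκpos : 0 < κ := by
    by_contra hκneg
    have hκneg : κ < 0 := lt_of_le_of_ne (not_lt.1 hκneg) hκ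
    obtain ⟨B, hB⟩ : ∃ B : ℝ, B = C₁ + C * (|κ| + C₁) := ⟨_, rfl⟩
    have e1 : ∀ᶠ j in atTop, ξ (j + 1) < δ₁ :=
      ((tendsto_add_atTop_iff_nat 1).2 hξ2).eventually (eventually_lt_nhds hδ₁)
    have e2 : ∀ᶠ j in atTop, ξ (j + 1) < 1 :=
      ((tendsto_add_atTop_iff_nat 1).2 hξ2).eventually (eventually_lt_nhds one_pos)
    have e3 : ∀ᶠ j in atTop, B * ξ (j + 1) < |κ| := by
      have h1 : Tendsto (fun j => B * ξ (j + 1)) atTop (𝓝 (B * 0)) :=
        ((tendsto_add_atTop_iff_nat 1).2 hξ2).const_mul B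
      rw [mul_zero] at h1
      exact h1.eventually (eventually_lt_nhds (abs_pos.2 hκ))
    have e4 : ∀ᶠ j in atTop, C * ξ (j + 1) < 1 / 2 := by
      have h1 : Tendsto (fun j => C * ξ (j + 1)) atTop (𝓝 (C * 0)) :=
        ((tendsto_add_atTop_iff_nat 1).2 hξ2).const_mul C
      rw [mul_zero] at h1
      exact h1.eventually (eventually_lt_nhds (by norm_num))
    obtain ⟨j₀, hj₀⟩ := eventually_atTop.1 (e1.and (e2.and (e3.and e4)))
    refine ty_sign ξ C hC hξ1 hξ2 j₀ ?_ (fun j hj => (hj₀ j hj).2.2.2.le)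
    intro j hj
    obtain ⟨f1, f2, f3, -⟩ := hj₀ j hj
    obtain ⟨x, hx⟩ : ∃ x : ℝ, x = ξ (j + 1) := ⟨_, rfl⟩
    obtain ⟨u, hu⟩ : ∃ u : ℝ, u = ξ (j + 1) - ξ (j + 2) := ⟨_, rfl⟩
    have hx0 : 0 < x := by rw [hx]; exact (hξ1 j).1
    have hu0 : 0 < u := by rw [hu]; linarith [(hξ1 (j + 1)).2]
    have hux : u < x := by rw [hu, hx]; linarith [(hξ1 (j + 1)).1]
    have hR : R ((x : ℂ), (u : ℂ)) = ((ξ j - ξ (j + 1) : ℝ) : ℂ) := by
      have h1 := hξ3 j
      rw [← hu, ← hx] at h1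
      rw [← hx]
      push_cast
      rw [h1]
      ring
    rw [← hx] at f1 f2 f3
    rw [← hu]
    have hnx : ‖(x : ℂ)‖ = x := by rw [Complex.norm_real, Real.norm_eq_abs, abs_of_pos hx0]
    have hnu : ‖(u : ℂ)‖ = u := by rw [Complex.norm_real, Real.norm_eq_abs, abs_of_pos hu0]
    have hest := hL.est ((x : ℂ), (u : ℂ)) ⟨by
      show ‖(x : ℂ)‖ < δ
      rw [hnx]
      linarith, by
      show ‖(u : ℂ)‖ < δ
      rw [hnu]
      linarith⟩
    have hest : ‖R ((x : ℂ), (u : ℂ)) - (u : ℂ) - R ((x : ℂ), 0)‖ ≤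
        C * ‖(u : ℂ)‖ * (‖(u : ℂ)‖ + ‖R ((x : ℂ), 0)‖) := hest
    rw [hR, hnu] at hest
    have hb := hbd (x : ℂ) (by rw [hnx]; exact f1)
    have hb : ‖R ((x : ℂ), 0) - κ * (x : ℂ) ^ m‖ ≤ C₁ * ‖(x : ℂ)‖ ^ (m + 1) := hb
    rw [hnx] at hb
    obtain ⟨K, hK⟩ : ∃ K : ℂ, K = R ((x : ℂ), 0) := ⟨_, rfl⟩
    rw [← hK] at hest hb
    have hxm : 0 < x ^ m := by positivity
    have hKn : ‖K‖ ≤ |κ| * x ^ m + C₁ * x ^ (m + 1) := by
      have h1 : K = (K - κ * (x : ℂ) ^ m) + κ * (x : ℂ) ^ m := by ring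
      have h2 : ‖(κ : ℂ) * (x : ℂ) ^ m‖ = |κ| * x ^ m := by
        rw [norm_mul, norm_pow, hnx, Complex.norm_real, Real.norm_eq_abs]
      calc ‖K‖ = ‖(K - κ * (x : ℂ) ^ m) + κ * (x : ℂ) ^ m‖ := by rw [← h1]
        _ ≤ ‖K - κ * (x : ℂ) ^ m‖ + ‖(κ : ℂ) * (x : ℂ) ^ m‖ := norm_add_le _ _
        _ ≤ C₁ * x ^ (m + 1) + |κ| * x ^ m := by rw [h2]; linarith
        _ = |κ| * x ^ m + C₁ * x ^ (m + 1) := by ring
    have hKr : K.re ≤ κ * x ^ m + C₁ * x ^ (m + 1) := by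
      have h1 := (Complex.re_le_norm (K - κ * (x : ℂ) ^ m)).trans hb
      have h2 : (K - κ * (x : ℂ) ^ m).re = K.re - κ * x ^ m := by
        rw [Complex.sub_re, ← Complex.ofReal_pow, ← Complex.ofReal_mul, Complex.ofReal_re]
      rw [h2] at h1
      linarith
    have h1 := (Complex.re_le_norm (((ξ j - ξ (j + 1) : ℝ) : ℂ) - (u : ℂ) - K)).trans hest
    have h2 : (((ξ j - ξ (j + 1) : ℝ) : ℂ) - (u : ℂ) - K).re = ξ j - ξ (j + 1) - u - K.re := by
      rw [Complex.sub_re, Complex.sub_re, Complex.ofReal_re, Complex.ofReal_re]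
    rw [h2] at h1
    have h3 : C * u * (u + ‖K‖) ≤ C * u ^ 2 + C * x * (|κ| * x ^ m + C₁ * x ^ m) := by
      have h4 : ‖K‖ ≤ |κ| * x ^ m + C₁ * x ^ m := by
        refine hKn.trans ?_
        have h5 : x ^ (m + 1) ≤ x ^ m := by
          rw [pow_succ]
          nlinarith
        nlinarith
      have h5 : C * u * ‖K‖ ≤ C * x * (|κ| * x ^ m + C₁ * x ^ m) := by
        apply mul_le_mul _ h4 (norm_nonneg _) (by positivity)
        exact mul_le_mul_of_nonneg_left hux.le hC.le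
      nlinarith
    have h4 : κ * x ^ m + C₁ * x ^ (m + 1) + C * x * (|κ| * x ^ m + C₁ * x ^ m) ≤ 0 := by
      have h5 : κ * x ^ m + C₁ * x ^ (m + 1) + C * x * (|κ| * x ^ m + C₁ * x ^ m) =
          x ^ m * (κ + B * x) := by
        rw [hB, pow_succ]
        ring
      rw [h5]
      apply mul_nonpos_of_nonneg_of_nonpos hxm.le
      rw [abs_of_neg hκneg] at f3
      linarith
    linarith
  rcases Nat.lt_or_ge 1 m with h1 | h1
  · right
    refine ⟨m, κ, δ₁, max C C₁, hδ₁', ty_loc hL hδ₁ hδ₁' (le_max_left _ _), h1, hκpos, ?_⟩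
    intro x hx
    refine (hbd x hx).trans ?_
    exact mul_le_mul_of_nonneg_right (le_max_right _ _) (by positivity)
  · left
    exact ⟨κ, hκpos, hder (by omega)⟩

end Pool.Agent.MP_2f2443_an.RC
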