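import Pool.Agent.Lib.MP_2f2443_an.RC.StmQ

set_option autoImplicit false

namespace Pool.Agent.MP_2f2443_an.RC

open Filter Topology Pool.Agent.MP_2f2443_an.IP

/-- Limits along an ultrafilter exist and are holomorphic. -/
private theorem vi_ultra (U : Set ℂ) (f : ℕ → ℂ → ℂ) (M : ℝ) (hU : IsOpen U)
    (hf : ∀ n, DifferentiableOn ℂ (f n) U) (hM : ∀ n, ∀ w ∈ U, ‖f n w‖ ≤ M)
    (F : Ultrafilter ℕ) : ∃ g : ℂ → ℂ, DifferentiableOn ℂ g U ∧
      ∀ w ∈ U, Tendsto (fun n => f n w) (F : Filter ℕ) (𝓝 (g w)) := by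
  have hlim : ∀ w ∈ U, ∃ l, Tendsto (fun n => f n w) (F : Filter ℕ) (𝓝 l) := by
    intro w hw
    have hc : IsCompact (Metric.closedBall (0 : ℂ) M) := isCompact_closedBall 0 M
    obtain ⟨l, -, hl⟩ := hc.ultrafilter_le_nhds (F.map (fun n => f n w)) (by
      rw [le_principal_iff, Ultrafilter.mem_coe, Ultrafilter.mem_map]
      apply Filter.univ_mem'
      intro n
      simpa using hM n w hw)
    exact ⟨l, hl⟩
  choose! g hg using hlim
  refine ⟨g, ?_, hg⟩
  have hloc : TendstoLocallyUniformlyOn f g (F : Filter ℕ) U := by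
    rw [Metric.tendstoLocallyUniformlyOn_iff]
    intro ε hε x hx
    have hM0 : 0 ≤ M := (norm_nonneg _).trans (hM 0 x hx)
    obtain ⟨ρ, hρ, hball⟩ := Metric.isOpen_iff.1 hU x hx
    set L : ℝ := (2 * M + 1) / ρ with hL
    have hLpos : 0 < L := by positivity
    have hlip : ∀ n, ∀ y ∈ Metric.ball x ρ, dist (f n y) (f n x) ≤ L * dist y x := by
      intro n y hy
      apply Complex.dist_le_div_mul_dist_of_mapsTo_ball ((hf n).mono hball) _ hy
      intro z hz
      rw [Metric.mem_closedBall, dist_eq_norm]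
      calc ‖f n z - f n x‖ ≤ ‖f n z‖ + ‖f n x‖ := norm_sub_le _ _
        _ ≤ 2 * M + 1 := by linarith [hM n z (hball hz), hM n x hx]
    have hlipg : ∀ y ∈ Metric.ball x ρ, dist (g y) (g x) ≤ L * dist y x := by
      intro y hy
      exact le_of_tendsto ((hg y (hball hy)).dist (hg x hx))
        (Eventually.of_forall fun n => hlip n y hy)
    refine ⟨Metric.ball x (min ρ (ε / (3 * L))), ?_, ?_⟩
    · apply mem_nhdsWithin_of_mem_nhds
      apply Metric.ball_mem_nhds
      positivity
    · have h1 : ∀ᶠ n in (F : Filter ℕ), dist (f n x) (g x) < ε / 3 :=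
        (Metric.tendsto_nhds.1 (hg x hx)) (ε / 3) (by positivity)
      filter_upwards [h1] with n hn y hy
      have hy1 : dist y x < ρ := lt_of_lt_of_le hy (min_le_left _ _)
      have hy2 : dist y x < ε / (3 * L) := lt_of_lt_of_le hy (min_le_right _ _)
      have h2 : L * dist y x < ε / 3 := by
        calc L * dist y x < L * (ε / (3 * L)) := by gcongr
          _ = ε / 3 := by field_simp
      have h3 := hlipg y hy1
      have h4 := hlip n y hy1
      calc dist (g y) (f n y) ≤ dist (g y) (g x) + dist (g x) (f n x) + dist (f n x) (f n y) :=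
            dist_triangle4 _ _ _ _
        _ < ε := by
            rw [dist_comm (g x) (f n x), dist_comm (f n x) (f n y)]
            linarith
  exact hloc.differentiableOn (Eventually.of_forall hf) hU

theorem p_vi : S_vi := by
  intro U f M x y hU hconn hf hM hxy hint
  obtain ⟨g, hg, hgt⟩ := vi_ultra U f M hU hf hM (hyperfilter ℕ)
  have hle : ((hyperfilter ℕ : Ultrafilter ℕ) : Filter ℕ) ≤ atTop := by
    rw [← Nat.cofinite_eq_atTop]
    exact hyperfilter_le_cofinite
  refine ⟨g, hg, fun w hw => ?_⟩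
  rw [tendsto_iff_ultrafilter]
  intro F hF
  obtain ⟨g', hg', hgt'⟩ := vi_ultra U f M hU hf hM F
  have hreal : ∀ t : ℝ, x < t → t < y → g' t = g t := by
    intro t h1 h2
    obtain ⟨htU, l, hl⟩ := hint t h1 h2
    rw [tendsto_nhds_unique (hgt' _ htU) (hl.mono_left hF),
      tendsto_nhds_unique (hgt _ htU) (hl.mono_left hle)]
  have hmid1 : x < (x + y) / 2 := by linarith
  have hmid2 : (x + y) / 2 < y := by linarith
  have hfreq : ∃ᶠ z in 𝓝[≠] (((x + y) / 2 : ℝ) : ℂ), g' z = g z := by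
    have hev : ∀ᶠ t in 𝓝[≠] ((x + y) / 2 : ℝ), g' ((t : ℝ) : ℂ) = g ((t : ℝ) : ℂ) := by
      have : ∀ᶠ t in 𝓝 ((x + y) / 2 : ℝ), t ∈ Set.Ioo x y := Ioo_mem_nhds hmid1 hmid2
      filter_upwards [nhdsWithin_le_nhds this] with t ht
      exact hreal t ht.1 ht.2
    have htend : Tendsto (fun t : ℝ => (t : ℂ)) (𝓝[≠] ((x + y) / 2 : ℝ))
        (𝓝[≠] (((x + y) / 2 : ℝ) : ℂ)) := by
      apply tendsto_nhdsWithin_of_tendsto_nhds_of_eventually_within
      · exact (Complex.continuous_ofReal.tendsto _).mono_left nhdsWithin_le_nhds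
      · filter_upwards [self_mem_nhdsWithin] with t ht
        intro hh
        exact ht (Complex.ofReal_injective hh)
    exact htend.frequently hev.frequently
  have heq := (hg'.analyticOnNhd hU).eqOn_of_preconnected_of_frequently_eq (hg.analyticOnNhd hU)
    hconn (hint _ hmid1 hmid2).1 hfreq
  rw [← heq hw]
  exact hgt' w hw

end Pool.Agent.MP_2f2443_an.RC
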