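import Pool.Agent.Lib.MP_2f2443_an.RC.StmQ

set_option autoImplicit false

namespace Pool.Agent.MP_2f2443_an.RC

open Filter Topology Pool.Agent.MP_2f2443_an.IP

private theorem wd_mem (C : ℝ) (w : ℂ) : w ∈ Wd C ↔ w.re + C < |w.im| := Iff.rfl

private theorem wd_open (C : ℝ) : IsOpen (Wd C) :=
  isOpen_lt (Complex.continuous_re.add continuous_const) Complex.continuous_im.abs

private theorem wd_conn (C : ℝ) : IsPreconnected (Wd C) := by
  have h1 : IsPreconnected {w : ℂ | w.re - w.im < -C} := by
    apply Convex.isPreconnected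
    exact convex_halfSpace_lt (f := fun w : ℂ => w.re - w.im)
      ⟨fun x y => by simp; ring, fun c x => by simp; ring⟩ (-C)
  have h2 : IsPreconnected {w : ℂ | w.re + w.im < -C} := by
    apply Convex.isPreconnected
    exact convex_halfSpace_lt (f := fun w : ℂ => w.re + w.im)
      ⟨fun x y => by simp; ring, fun c x => by simp; ring⟩ (-C)
  have e : Wd C = {w : ℂ | w.re - w.im < -C} ∪ {w : ℂ | w.re + w.im < -C} := by
    ext w
    simp only [wd_mem, Set.mem_union, Set.mem_ofPred_eq, lt_abs]
    constructor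
    · rintro (h | h)
      · left; linarith
      · right; linarith
    · rintro (h | h)
      · left; linarith
      · right; linarith
  rw [e]
  refine IsPreconnected.union ((-C - 1 : ℝ) : ℂ) ?_ ?_ h1 h2
  · simp
  · simp

private theorem wd_sq (a b r : ℝ) (h : a ^ 2 + b ^ 2 ≤ r ^ 2) :
    (a + |b|) ^ 2 ≤ 2 * r ^ 2 := by
  have := sq_abs b
  nlinarith [sq_nonneg (a - |b|)]

private theorem wd_norm (v : ℂ) (n r : ℝ) (h : ‖v + n‖ ≤ r) :
    (v.re + n) ^ 2 + v.im ^ 2 ≤ r ^ 2 := by
  have h1 : ‖v + n‖ ^ 2 = (v.re + n) ^ 2 + v.im ^ 2 := by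
    rw [← Complex.normSq_eq_norm_sq, Complex.normSq_apply]
    simp
    ring
  rw [← h1]
  exact pow_le_pow_left₀ (norm_nonneg _) h 2

private theorem wd_step (C : ℝ) (w v : ℂ) (hw : w ∈ Wd C) (h : v.re + |v.im| ≤ 0) : w + v ∈ Wd C := by
  rw [wd_mem] at hw ⊢
  rw [Complex.add_re, Complex.add_im]
  have : |w.im| ≤ |w.im + v.im| + |v.im| := by
    have := abs_sub (w.im + v.im) v.im
    rwa [add_sub_cancel_right] at this
  linarith

theorem p_wd : S_wd := by
  intro C hC
  refine ⟨wd_open C, wd_conn C, ?_, ?_, ?_, ?_⟩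
  · intro w hw v hv
    apply wd_step C w v hw
    have h1 := wd_norm v 1 (7 / 10) (by simpa using hv)
    have h2 := wd_sq (v.re + 1) v.im (7 / 10) h1
    have h3 : v.re + 1 + |v.im| ≤ 1 := by
      by_contra h
      push Not at h
      nlinarith
    linarith
  · intro w hw v n hv
    have h1 := wd_norm v n (n / 4) (by simpa using hv)
    have hn : (0 : ℝ) ≤ n := Nat.cast_nonneg n
    have h2 := wd_sq (v.re + n) v.im (n / 4) h1
    have h3 : v.re + n + |v.im| ≤ n := by
      by_contra h
      push Not at h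
      have h4 : (n : ℝ) ^ 2 < (v.re + n + |v.im|) ^ 2 := pow_lt_pow_left₀ h hn (by norm_num)
      nlinarith
    have h5 : |v.im| ≤ n / 4 := by
      exact abs_le_of_sq_le_sq (by nlinarith [sq_nonneg (v.re + n)]) (by positivity)
    have h6 : v.re + n ≤ n / 4 := by
      have := abs_le_of_sq_le_sq (a := v.re + n) (b := n / 4) (by nlinarith [sq_nonneg v.im])
        (by positivity)
      exact (abs_le.1 this).2
    refine ⟨wd_step C w v hw (by linarith), ?_⟩
    have h7 : |w.im| - |v.im| ≤ ‖w + v‖ := by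
      have a1 : |(w + v).im| ≤ ‖w + v‖ := Complex.abs_im_le_norm _
      have a2 : |w.im| ≤ |w.im + v.im| + |v.im| := by
        have := abs_sub (w.im + v.im) v.im
        rwa [add_sub_cancel_right] at this
      rw [Complex.add_im] at a1
      linarith
    have h8 : -(w.re + v.re) ≤ ‖w + v‖ := by
      have a1 : |(w + v).re| ≤ ‖w + v‖ := Complex.abs_re_le_norm _
      rw [Complex.add_re] at a1
      linarith [neg_abs_le (w.re + v.re)]
    have h9 : ‖w‖ ≤ |w.re| + |w.im| := Complex.norm_le_abs_re_add_abs_im w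
    rw [wd_mem] at hw
    rcases le_or_gt w.re 0 with h | h
    · rw [abs_of_nonpos h] at h9
      have := norm_nonneg (w + v)
      linarith [abs_nonneg w.im]
    · rw [abs_of_pos h] at h9
      have := norm_nonneg (w + v)
      linarith
  · intro w hw
    rw [wd_mem] at hw
    have a1 : |w.im| ≤ ‖w‖ := Complex.abs_im_le_norm _
    have a2 : |w.re| ≤ ‖w‖ := Complex.abs_re_le_norm _
    have a3 := neg_abs_le w.re
    constructor <;> linarith
  · intro w
    rw [wd_mem]
    simp only [Complex.ofReal_re, Complex.ofReal_im, abs_zero]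
    constructor <;> intro h <;> linarith

end Pool.Agent.MP_2f2443_an.RC
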