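import Pool.Agent.Lib.MP_2f2443_an.RC.StmG

/-!
# MP_2f2443_an, project RC: piece `au` (elementary facts on `GC`)
-/

set_option autoImplicit false

namespace Pool.Agent.MP_2f2443_an.RC

open Filter Topology Pool.Agent.MP_2f2443_an.IP

private lemma au_VC_diff (k : ℂ) : Differentiable ℂ (VC k) := by
  unfold VC
  fun_prop

private lemma au_SMC_diff (k : ℂ) : Differentiable ℂ (SMC k) := by
  have h := au_VC_diff k
  have h1 : Differentiable ℂ fun P : ℂ × ℂ => VC k (P.1 + P.2) :=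
    h.comp (differentiable_fst.add differentiable_snd)
  unfold SMC
  exact (differentiable_fst.add differentiable_snd).prodMk (differentiable_snd.add h1)

private lemma au_SMCi_diff (k : ℂ) : Differentiable ℂ (SMCi k) := by
  have h := au_VC_diff k
  have h1 : Differentiable ℂ fun P : ℂ × ℂ => VC k P.1 := h.comp differentiable_fst
  unfold SMCi
  exact ((differentiable_fst.sub differentiable_snd).add h1).prodMk (differentiable_snd.sub h1)

private lemma au_li (k : ℂ) : Function.LeftInverse (SMCi k) (SMC k) := by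
  intro P
  simp only [SMC, SMCi]
  refine Prod.ext ?_ ?_
  · change P.1 + P.2 - (P.2 + VC k (P.1 + P.2)) + VC k (P.1 + P.2) = P.1
    ring
  · change P.2 + VC k (P.1 + P.2) - VC k (P.1 + P.2) = P.2
    ring

private lemma au_ri (k : ℂ) : Function.RightInverse (SMCi k) (SMC k) := by
  intro P
  simp only [SMC, SMCi]
  have h : P.1 - P.2 + VC k P.1 + (P.2 - VC k P.1) = P.1 := by ring
  rw [h]
  ext
  · simp
  · simp

private lemma au_VC_real (k x : ℝ) : VC (k : ℂ) (x : ℂ) = ((VR k x : ℝ) : ℂ) := by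
  unfold VC VR
  push_cast
  rfl

private lemma au_V_im (k : ℝ) (z : ℂ) (hz : z.im = 0) : (VC (k : ℂ) z).im = 0 := by
  have h : z = (z.re : ℂ) := Complex.ext rfl (by simpa using hz)
  rw [h, au_VC_real]
  exact Complex.ofReal_im _

private lemma au_im (k : ℝ) (n : ℕ) (P : ℂ × ℂ) (h1 : P.1.im = 0) (h2 : P.2.im = 0) :
    ((SMC (k : ℂ))^[n] P).1.im = 0 ∧ ((SMC (k : ℂ))^[n] P).2.im = 0 := by
  induction n with
  | zero => exact ⟨h1, h2⟩
  | succ n ih =>
    rw [Function.iterate_succ', Function.comp_apply]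
    obtain ⟨i1, i2⟩ := ih
    generalize (SMC (k : ℂ))^[n] P = Q at i1 i2
    have h4 : (Q.1 + Q.2).im = 0 := by rw [Complex.add_im, i1, i2, add_zero]
    have h3 := au_V_im k (Q.1 + Q.2) h4
    refine ⟨h4, ?_⟩
    change (Q.2 + VC (k : ℂ) (Q.1 + Q.2)).im = 0
    rw [Complex.add_im, i2, h3, add_zero]

private lemma au_imi (k : ℝ) (n : ℕ) (P : ℂ × ℂ) (h1 : P.1.im = 0) (h2 : P.2.im = 0) :
    ((SMCi (k : ℂ))^[n] P).1.im = 0 ∧ ((SMCi (k : ℂ))^[n] P).2.im = 0 := by
  induction n with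
  | zero => exact ⟨h1, h2⟩
  | succ n ih =>
    rw [Function.iterate_succ', Function.comp_apply]
    obtain ⟨i1, i2⟩ := ih
    generalize (SMCi (k : ℂ))^[n] P = Q at i1 i2
    have h3 := au_V_im k Q.1 i1
    refine ⟨?_, ?_⟩
    · change (Q.1 - Q.2 + VC (k : ℂ) Q.1).im = 0
      rw [Complex.add_im, Complex.sub_im, i1, i2, h3]
      ring
    · change (Q.2 - VC (k : ℂ) Q.1).im = 0
      rw [Complex.sub_im, i2, h3]
      ring

private lemma au_hasF (k : ℂ) (P : ℂ × ℂ) : HasFDerivAt (SMC k)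
    (((ContinuousLinearMap.fst ℂ ℂ ℂ) + (ContinuousLinearMap.snd ℂ ℂ ℂ)).prod
      ((ContinuousLinearMap.snd ℂ ℂ ℂ) + (deriv (VC k) (P.1 + P.2)) •
        ((ContinuousLinearMap.fst ℂ ℂ ℂ) + (ContinuousLinearMap.snd ℂ ℂ ℂ)))) P := by
  have h1 : HasFDerivAt (fun P : ℂ × ℂ => P.1 + P.2)
      ((ContinuousLinearMap.fst ℂ ℂ ℂ) + (ContinuousLinearMap.snd ℂ ℂ ℂ)) P :=
    hasFDerivAt_fst.add hasFDerivAt_snd
  have h0 : HasDerivAt (VC k) (deriv (VC k) (P.1 + P.2)) (P.1 + P.2) :=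
    ((au_VC_diff k) (P.1 + P.2)).hasDerivAt
  have h2 := h0.comp_hasFDerivAt P h1
  exact h1.prodMk (hasFDerivAt_snd.add h2)

private lemma au_det (k : ℂ) (P : ℂ × ℂ) :
    LinearMap.det ((fderiv ℂ (SMC k) P : ℂ × ℂ →L[ℂ] ℂ × ℂ) : ℂ × ℂ →ₗ[ℂ] ℂ × ℂ) = 1 := by
  rw [(au_hasF k P).fderiv, ← LinearMap.det_toMatrix (Module.Basis.finTwoProd ℂ),
    Matrix.det_fin_two]
  simp [LinearMap.toMatrix_apply]

private lemma au_det_it (k : ℂ) (n : ℕ) (P : ℂ × ℂ) :
    LinearMap.det ((fderiv ℂ ((SMC k)^[n]) P : ℂ × ℂ →L[ℂ] ℂ × ℂ) : ℂ × ℂ →ₗ[ℂ] ℂ × ℂ) = 1 := by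
  induction n with
  | zero =>
    rw [Function.iterate_zero, fderiv_id]
    simp
  | succ n ih =>
    rw [Function.iterate_succ']
    have h1 : Differentiable ℂ ((SMC k)^[n]) := (au_SMC_diff k).iterate n
    rw [fderiv_comp P ((au_SMC_diff k) _) (h1 P)]
    have h2 := au_det k ((SMC k)^[n] P)
    have h3 := LinearMap.det_comp
      ((fderiv ℂ (SMC k) ((SMC k)^[n] P) : ℂ × ℂ →L[ℂ] ℂ × ℂ) : ℂ × ℂ →ₗ[ℂ] ℂ × ℂ)
      ((fderiv ℂ ((SMC k)^[n]) P : ℂ × ℂ →L[ℂ] ℂ × ℂ) : ℂ × ℂ →ₗ[ℂ] ℂ × ℂ)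
    rw [h2, ih, mul_one] at h3
    exact h3

private lemma au_circ (k : ℝ) (h : ℝ → ℝ) (hc : Circ k h) (n : ℕ) (x : ℝ) :
    (SMC (k : ℂ))^[n] ((x : ℂ), ((h x - x : ℝ) : ℂ)) =
      (((h^[n] x : ℝ) : ℂ), ((h (h^[n] x) - h^[n] x : ℝ) : ℂ)) := by
  induction n with
  | zero => rfl
  | succ n ih =>
    rw [Function.iterate_succ', Function.comp_apply, ih, Function.iterate_succ',
      Function.comp_apply]
    have h1 : ((h^[n] x : ℝ) : ℂ) + ((h (h^[n] x) - h^[n] x : ℝ) : ℂ) =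
        ((h (h^[n] x) : ℝ) : ℂ) := by
      push_cast
      ring
    simp only [SMC]
    rw [h1, au_VC_real]
    refine Prod.ext rfl ?_
    change ((h (h^[n] x) - h^[n] x : ℝ) : ℂ) + ((VR k (h (h^[n] x)) : ℝ) : ℂ) =
      ((h (h (h^[n] x)) - h (h^[n] x) : ℝ) : ℂ)
    rw [hc.eq (h^[n] x)]
    push_cast
    ring

private lemma au_deg (h : ℝ → ℝ) (hd : ∀ x, h (x + 1) = h x + 1) (x : ℝ) (p : ℤ) :
    h (x + p) = h x + p := by
  induction p using Int.induction_on with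
  | zero => simp
  | succ n ih =>
    push_cast at ih ⊢
    rw [← add_assoc, hd, ih, add_assoc]
  | pred n ih =>
    push_cast at ih ⊢
    have h1 := hd (x + (-(n : ℝ) - 1))
    have h2 : x + (-(n : ℝ) - 1) + 1 = x + -(n : ℝ) := by ring
    rw [h2, ih] at h1
    linarith

theorem p_au : S_au := by
  intro k q p
  have hd1 : Differentiable ℂ ((SMC (k : ℂ))^[q]) := (au_SMC_diff (k : ℂ)).iterate q
  have hd2 : Differentiable ℂ ((SMCi (k : ℂ))^[q]) := (au_SMCi_diff (k : ℂ)).iterate q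
  have hG : Differentiable ℂ (GC k q p) := by
    unfold GC
    exact (hd1.fst.sub_const _).prodMk hd1.snd
  have hGi : Differentiable ℂ (GCi k q p) := by
    unfold GCi
    exact hd2.comp ((differentiable_fst.add_const _).prodMk differentiable_snd)
  have hli : ∀ z, GCi k q p (GC k q p z) = z := by
    intro z
    simp only [GC, GCi, sub_add_cancel]
    exact (au_li (k : ℂ)).iterate q z
  have hri : ∀ z, GC k q p (GCi k q p z) = z := by
    intro z
    simp only [GC, GCi]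
    have h := (au_ri (k : ℂ)).iterate q (z.1 + (p : ℂ), z.2)
    rw [h]
    ext
    · simp
    · simp
  refine ⟨hG, hGi, hli, hri, ⟨hG, GCi k q p, hGi, hli, hri⟩, ?_, ?_, ?_, ?_⟩
  · intro z
    have h1 : GC k q p = fun P => (SMC (k : ℂ))^[q] P - ((p : ℂ), 0) := by
      funext P
      simp only [GC]
      ext
      · simp
      · simp
    rw [h1, fderiv_sub_const]
    exact au_det_it (k : ℂ) q z
  · intro x y
    have h := au_im k q ((x : ℂ), (y : ℂ)) (Complex.ofReal_im _) (Complex.ofReal_im _)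
    simp only [GC, Complex.sub_im, Complex.intCast_im, sub_zero]
    exact h
  · intro x y
    simp only [GCi]
    exact au_imi k q _ (by simp) (Complex.ofReal_im _)
  · intro h hc x x' hx
    have h1 : GC k q p ((x : ℂ), ((h x - x : ℝ) : ℂ)) = ((x' : ℂ), ((h x' - x' : ℝ) : ℂ)) := by
      simp only [GC]
      rw [au_circ k h hc q x, hx]
      refine Prod.ext ?_ ?_
      · push_cast
        ring
      · change ((h (x' + p) - (x' + p) : ℝ) : ℂ) = _
        rw [au_deg h hc.deg x' p]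
        push_cast
        ring
    exact ⟨h1, by rw [← h1]; exact hli _⟩

end Pool.Agent.MP_2f2443_an.RC
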