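import Pool.Agent.Lib.MP_2f2443_an.RC.StmG

/-!
# MP_2f2443_an, project RC: the dictionary between circles and circle maps
-/

set_option autoImplicit false

namespace Pool.Agent.MP_2f2443_an.RC

open Filter Topology Pool.Agent.MP_2f2443_an.IP

private lemma c0_nat {h : ℝ → ℝ} (hd : ∀ x, h (x + 1) = h x + 1) (n : ℕ) :
    h (n : ℝ) = h 0 + n ∧ h (-(n : ℝ)) = h 0 - n := by
  induction n with
  | zero => simp
  | succ n ih =>
    refine ⟨?_, ?_⟩
    · rw [Nat.cast_succ, hd, ih.1]
      ring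
    · have h1 := hd (-((n : ℝ) + 1))
      rw [show -((n : ℝ) + 1) + 1 = -(n : ℝ) by ring, ih.2] at h1
      rw [Nat.cast_succ]
      linarith

private lemma c0_surj {h : ℝ → ℝ} (hc : Continuous h) (hd : ∀ x, h (x + 1) = h x + 1) (y : ℝ) :
    ∃ x, h x = y := by
  obtain ⟨n, hn⟩ := exists_nat_ge |y - h 0|
  have h1 := abs_le.1 hn
  obtain ⟨a, b⟩ := c0_nat hd n
  have hle : -(n : ℝ) ≤ n := by
    have : (0 : ℝ) ≤ n := Nat.cast_nonneg n
    linarith
  obtain ⟨x, -, hx⟩ := intermediate_value_Icc hle hc.continuousOn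
    (show y ∈ Set.Icc (h (-(n : ℝ))) (h n) from ⟨by rw [b]; linarith [h1.2, h1.1],
      by rw [a]; linarith [h1.2]⟩)
  exact ⟨x, hx⟩

private lemma c0_lim {h : ℝ → ℝ} {τ : ℝ} (hr : HasRot h τ) (x : ℝ) :
    Tendsto (fun n : ℕ => h^[n] x / n) atTop (𝓝 τ) := by
  have h1 : Tendsto (fun n : ℕ => (1 + |x|) / (n : ℝ)) atTop (𝓝 0) :=
    tendsto_const_div_atTop_nhds_zero_nat _
  rw [tendsto_iff_dist_tendsto_zero]
  refine squeeze_zero' (Eventually.of_forall fun _ => dist_nonneg) ?_ h1
  filter_upwards [eventually_gt_atTop 0] with n hn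
  have hn' : (0 : ℝ) < n := Nat.cast_pos.2 hn
  rw [Real.dist_eq, div_sub' hn'.ne', abs_div, abs_of_pos hn', div_le_div_iff_of_pos_right hn']
  have h2 := hr n x
  calc |h^[n] x - n * τ| = |(h^[n] x - x - n * τ) + x| := by ring_nf
    _ ≤ |h^[n] x - x - n * τ| + |x| := abs_add_le _ _
    _ ≤ 1 + |x| := by linarith

theorem p_c0 : S_c0 := by
  intro hci hor k ρ
  constructor
  · rintro ⟨g, hg, hr⟩
    have hC : Circ k fun x => x + g x := hci k g hg
    refine ⟨fun x => x + g x, hC, ?_⟩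
    obtain ⟨τ, hτ⟩ := (hor.2 _ hC.cont hC.mono hC.deg).1
    have h1 := c0_lim hτ 0
    have h2 := hr 0
    have h3 : ∀ n : ℕ, ((SMR k)^[n] (0, g 0)).1 = (fun x => x + g x)^[n] 0 := by
      intro n
      have h4 := hor.1 k _ hC n 0
      have h5 : ((0 : ℝ), (0 : ℝ) + g 0 - 0) = (0, g 0) := by
        rw [zero_add, sub_zero]
      rw [h5] at h4
      rw [h4]
    have h6 : (fun n : ℕ => ((SMR k)^[n] (0, g 0)).1 / (n : ℝ)) =
        fun n : ℕ => (fun x => x + g x)^[n] 0 / (n : ℝ) := by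
      funext n
      rw [h3 n]
    rw [h6] at h2
    rw [tendsto_nhds_unique h2 h1]
    exact hτ
  · rintro ⟨h, hC, hr⟩
    refine ⟨fun x => h x - x, ⟨hC.cont.sub continuous_id, ?_, ?_⟩, ?_⟩
    · intro x
      change h (x + 1) - (x + 1) = h x - x
      rw [hC.deg]
      ring
    · have key : ∀ x, SMR k (x, h x - x) = (h x, h (h x) - h x) := by
        intro x
        have h1 := hC.eq x
        unfold SMR
        refine Prod.ext ?_ ?_
        · change x + (h x - x) = h x
          ring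
        · change h x - x + VR k (x + (h x - x)) = h (h x) - h x
          rw [show x + (h x - x) = h x by ring, h1]
          ring
      ext ⟨a, b⟩
      constructor
      · rintro ⟨⟨x, y⟩, hxy, he⟩
        change y = h x - x at hxy
        subst hxy
        rw [key x, Prod.mk.injEq] at he
        change b = h a - a
        rw [← he.1, ← he.2]
      · intro hb
        change b = h a - a at hb
        obtain ⟨x, hx⟩ := c0_surj hC.cont hC.deg a
        refine ⟨(x, h x - x), rfl, ?_⟩
        rw [key x, hx, hb]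
    · intro x
      have h6 : (fun n : ℕ => ((SMR k)^[n] (x, h x - x)).1 / (n : ℝ)) =
          fun n : ℕ => h^[n] x / (n : ℝ) := by
        funext n
        rw [hor.1 k h hC n x]
      change Tendsto (fun n : ℕ => ((SMR k)^[n] (x, h x - x)).1 / (n : ℝ)) atTop (𝓝 ρ)
      rw [h6]
      exact c0_lim hr x

end Pool.Agent.MP_2f2443_an.RC
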