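import Pool.Agent.Lib.MP_2f2443_an.RC.StmQ

/-!
# MP_2f2443_an, project RC, piece gt: the iterated graph transform
-/

set_option autoImplicit false

namespace Pool.Agent.MP_2f2443_an.RC

open Filter Topology Pool.Agent.MP_2f2443_an.IP

private lemma gt_tele {x σ : ℝ} (hx : 0 < x) (h0 : 0 < σ) (h1 : σ ≤ 1) :
    σ * (x + 1) ^ (-1 - σ) ≤ x ^ (-σ) - (x + 1) ^ (-σ) := by
  have hy : 0 < x + 1 := by linarith
  have hle : 1 / (x + 1) ≤ 1 := by
    rw [div_le_one hy]; linarith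
  have hb : (1 + (-(1 / (x + 1)))) ^ σ ≤ 1 + σ * (-(1 / (x + 1))) := by
    apply rpow_one_add_le_one_add_mul_self _ h0.le h1
    linarith
  have hxy : 1 + (-(1 / (x + 1))) = x / (x + 1) := by field_simp; ring
  rw [hxy, Real.div_rpow hx.le hy.le] at hb
  have hys : 0 < (x + 1) ^ σ := Real.rpow_pos_of_pos hy _
  have hxs : 0 < x ^ σ := Real.rpow_pos_of_pos hx _
  rw [Real.rpow_neg hx.le, Real.rpow_neg hy.le]
  have e1 : (x + 1) ^ (-1 - σ) = (1 / (x + 1)) * ((x + 1) ^ σ)⁻¹ := by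
    rw [Real.rpow_sub hy, Real.rpow_neg_one, one_div, div_eq_mul_inv]
  rw [e1]
  generalize (x + 1) ^ σ = Y at *
  generalize x ^ σ = X at *
  have he0 : 0 < 1 / (x + 1) := by positivity
  generalize 1 / (x + 1) = e at *
  have h2 : X ≤ (1 + σ * -e) * Y := by
    rwa [div_le_iff₀ hys] at hb
  have h3 : X * (1 + σ * e) ≤ Y := by
    have h5 : 0 ≤ σ * e := by positivity
    have h4 : X * (1 + σ * e) ≤ ((1 + σ * -e) * Y) * (1 + σ * e) :=
      mul_le_mul_of_nonneg_right h2 (by linarith)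
    have h6 : ((1 + σ * -e) * Y) * (1 + σ * e) = Y - (σ * e) ^ 2 * Y := by ring
    have h7 : 0 ≤ (σ * e) ^ 2 * Y := by positivity
    linarith
  have h8 : (1 + σ * e) * Y⁻¹ ≤ X⁻¹ := by
    rw [← div_eq_mul_inv, div_le_iff₀ hys, inv_mul_eq_div, le_div_iff₀ hxs]
    linarith
  linarith

/-- The properties of the curve `s` which are kept in the induction. -/
private def gt_Good (C : ℝ) (s : ℂ → ℂ) : Prop :=
  DifferentiableOn ℂ s (Wd C) ∧ (∀ w ∈ Wd C, ‖s w‖ ≤ 1 / 8) ∧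
    ∀ w : ℝ, (w : ℂ) ∈ Wd C → (s w).im = 0

/-- The properties of the inverse `B` for the curve `s`. -/
private def gt_Inv (C : ℝ) (W : ℂ × ℂ → ℂ) (s B : ℂ → ℂ) : Prop :=
  DifferentiableOn ℂ B (Wd C) ∧
    (∀ w ∈ Wd C, B w ∈ Wd C ∧ ‖B w - (w - 1)‖ ≤ 1 / 7 ∧ W (B w, s (B w)) = w) ∧
    ∀ w : ℝ, (w : ℂ) ∈ Wd C → (B w).im = 0

private lemma gt_Wd_mono {C C' : ℝ} (h : C ≤ C') : Wd C' ⊆ Wd C := by
  intro w hw
  have : w.re + C' < |w.im| := hw
  show w.re + C < |w.im|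
  linarith

private lemma gt_real {z : ℂ} (h : z.im = 0) : ((z.re : ℝ) : ℂ) = z := by
  apply Complex.ext
  · simp
  · simp [h]

private lemma gt_inv (hwd : S_wd) (hiv : S_iv) {C A σ : ℝ} {o : ℂ → ℂ} {W S E : ℂ × ℂ → ℂ}
    (T : Tube C A σ o W S E) {C' : ℝ} (hC : C ≤ C') (hA : ∀ w ∈ Wd C', A / ‖w‖ ≤ 1 / 56)
    {s : ℂ → ℂ} (hs : gt_Good C' s) : ∃ B, gt_Inv C' W s B := by
  have hC0 : 0 ≤ C' := by have := T.cpos; linarith
  have hmaps : Set.MapsTo (fun w : ℂ => (w, s w)) (Wd C') {z : ℂ × ℂ | z.1 ∈ Wd C ∧ ‖z.2‖ < 1 / 2} := by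
    intro w hw
    refine ⟨gt_Wd_mono hC hw, ?_⟩
    have := hs.2.1 w hw
    show ‖s w‖ < 1 / 2
    linarith
  have hb1 : DifferentiableOn ℂ (fun w => W (w, s w) - w - 1) (Wd C') := by
    have h1 : DifferentiableOn ℂ (fun w : ℂ => W (w, s w)) (Wd C') :=
      T.holW.comp (differentiableOn_id.prodMk hs.1) hmaps
    exact (h1.sub differentiableOn_id).sub (differentiableOn_const _)
  have hb2 : ∀ w ∈ Wd C', ‖W (w, s w) - w - 1‖ ≤ 1 / 7 := by
    intro w hw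
    have h1 := T.w1 w (s w) (hmaps hw).1 (hmaps hw).2
    have h2 := hA w hw
    have h3 := hs.2.1 w hw
    have h4 : W (w, s w) - w - 1 = (W (w, s w) - w - 1 - s w) + s w := by ring
    rw [h4]
    refine (norm_add_le _ _).trans ?_
    linarith
  obtain ⟨B, hB1, hB2, -, hB4⟩ := hiv hwd C' (fun w => W (w, s w) - w - 1) hC0 hb1 hb2
  refine ⟨B, hB1, ?_, ?_⟩
  · intro w hw
    obtain ⟨h1, h2, h3⟩ := hB2 w hw
    refine ⟨h1, h2, ?_⟩
    have h4 : B w + 1 + (W (B w, s (B w)) - B w - 1) = w := h3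
    have h5 : B w + 1 + (W (B w, s (B w)) - B w - 1) = W (B w, s (B w)) := by ring
    rw [← h5]; exact h4
  · apply hB4
    intro w hw
    have h1 := hs.2.2 w hw
    have h2 : |(s w).re| < 1 / 2 :=
      (Complex.abs_re_le_norm _).trans_lt (hmaps hw).2
    have h3 := (T.real w (s w).re (gt_Wd_mono hC hw) h2).1
    rw [gt_real h1] at h3
    simp [h3]

private lemma gt_bd {e o s : ℂ} {A c x : ℝ} (ho : o ≠ 0)
    (h : ‖2 * e / o ^ 2 - ((1 + s) ^ 2 - 1)‖ ≤ A * x) (hE : ‖e‖ ≤ ‖o‖ ^ 2 * (c * x))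
    (hs : ‖s‖ ≤ 1 / 4) : ‖s‖ ≤ (A + 2 * c) * x := by
  have ho' : 0 < ‖o‖ ^ 2 := by
    have := norm_pos_iff.mpr ho
    positivity
  have h1 : ‖2 * e / o ^ 2‖ ≤ 2 * (c * x) := by
    rw [norm_div, norm_mul, norm_pow, div_le_iff₀ ho']
    have : ‖(2 : ℂ)‖ = 2 := by simp
    rw [this]
    linarith
  have h2 : ‖(1 + s) ^ 2 - 1‖ ≤ A * x + 2 * (c * x) := by
    have h3 : (1 + s) ^ 2 - 1 = 2 * e / o ^ 2 - (2 * e / o ^ 2 - ((1 + s) ^ 2 - 1)) := by ring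
    rw [h3]
    refine (norm_sub_le _ _).trans ?_
    linarith
  have h4 : (1 + s) ^ 2 - 1 = s * (2 + s) := by ring
  rw [h4, norm_mul] at h2
  have h5 : 1 ≤ ‖2 + s‖ := by
    have h6 : ‖(2 : ℂ)‖ ≤ ‖2 + s‖ + ‖s‖ := by
      have h7 : (2 : ℂ) = (2 + s) - s := by ring
      calc ‖(2 : ℂ)‖ = ‖(2 + s) - s‖ := by rw [← h7]
        _ ≤ _ := norm_sub_le _ _
    have : ‖(2 : ℂ)‖ = 2 := by simp
    rw [this] at h6
    linarith
  have h8 : ‖s‖ * 1 ≤ ‖s‖ * ‖2 + s‖ := mul_le_mul_of_nonneg_left h5 (norm_nonneg _)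
  linarith

theorem p_gt : S_gt := by
  intro hwd hiv C A σ o W S E T
  have hA := T.apos
  have hσ := T.spos
  have hσ2 := T.sle
  have hC1 := T.cpos
  -- constants
  obtain ⟨c₁, hc₁⟩ : ∃ c₁ : ℝ, c₁ = A ^ 3 * 20 ^ σ := ⟨_, rfl⟩
  obtain ⟨K, hK⟩ : ∃ K : ℝ, K = A ^ 3 * 20 ^ (1 + σ) / σ := ⟨_, rfl⟩
  have hc₁0 : 0 < c₁ := by rw [hc₁]; positivity
  have hK0 : 0 < K := by rw [hK]; positivity
  obtain ⟨M, hM⟩ : ∃ M : ℝ, M = A + 2 * (c₁ + K) := ⟨_, rfl⟩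
  have hM0 : 0 < M := by rw [hM]; positivity
  obtain ⟨C', hC', hC'A, hC'M⟩ : ∃ C' : ℝ, C ≤ C' ∧ 112 * A ≤ C' ∧ 2 * (8 * M) ^ (1 / σ) ≤ C' := by
    refine ⟨max C (max (112 * A) (2 * (8 * M) ^ (1 / σ))), le_max_left _ _, ?_, ?_⟩
    · exact (le_max_left _ _).trans (le_max_right _ _)
    · exact (le_max_right _ _).trans (le_max_right _ _)
  have hC'0 : 0 ≤ C' := by linarith
  obtain ⟨hop, -, -, hgeo, hnorm, -⟩ := hwd C' hC'0
  have hA' : ∀ w ∈ Wd C', A / ‖w‖ ≤ 1 / 56 := by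
    intro w hw
    obtain ⟨h1, h2⟩ := hnorm w hw
    rw [div_le_iff₀ h2]
    linarith
  have hMw : ∀ w ∈ Wd C', M * ‖w‖ ^ (-σ) ≤ 1 / 8 := by
    intro w hw
    obtain ⟨h1, h2⟩ := hnorm w hw
    have h3 : (8 * M) ^ (1 / σ) ≤ ‖w‖ := by linarith
    have h4 : 0 < (8 * M) ^ (1 / σ) := by positivity
    have h5 : ‖w‖ ^ (-σ) ≤ ((8 * M) ^ (1 / σ)) ^ (-σ) :=
      Real.rpow_le_rpow_of_nonpos h4 h3 (by linarith)
    have h6 : ((8 * M) ^ (1 / σ)) ^ (-σ) = (8 * M)⁻¹ := by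
      rw [← Real.rpow_mul (by positivity)]
      have : 1 / σ * (-σ) = -1 := by field_simp
      rw [this, Real.rpow_neg_one]
    rw [h6] at h5
    calc M * ‖w‖ ^ (-σ) ≤ M * (8 * M)⁻¹ := mul_le_mul_of_nonneg_left h5 hM0.le
      _ = 1 / 8 := by field_simp
  have hsub : Wd C' ⊆ Wd C := gt_Wd_mono hC'
  -- the sequences
  have hex : ∀ s : ℂ → ℂ, ∃ B : ℂ → ℂ, gt_Good C' s → gt_Inv C' W s B := by
    intro s
    by_cases h : gt_Good C' s
    · obtain ⟨B, hB⟩ := gt_inv hwd hiv T hC' hA' h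
      exact ⟨B, fun _ => hB⟩
    · exact ⟨fun w => w, fun h' => absurd h' h⟩
  choose Bf hBf using hex
  let s : ℕ → ℂ → ℂ := fun n => Nat.rec (fun _ => 0) (fun _ t w => S (Bf t w, t (Bf t w))) n
  have s0 : ∀ w, s 0 w = 0 := fun w => rfl
  have sS : ∀ n w, s (n + 1) w = S (Bf (s n) w, s n (Bf (s n) w)) := fun n w => rfl
  -- base estimate for the orbit points
  have hpt : ∀ w₀ ∈ Wd C', ∀ (j : ℕ) (w : ℂ), ‖w - w₀ + j‖ ≤ j / 7 →
      w ∈ Wd C' ∧ (‖w₀‖ + j) / 20 ≤ ‖w‖ ∧ ‖o w‖ ≤ A * ‖o w₀‖ := by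
    intro w₀ hw₀ j w hw
    have h1 : ‖w - w₀ + j‖ ≤ j / 4 := by
      have : (0 : ℝ) ≤ j := Nat.cast_nonneg j
      linarith
    obtain ⟨h2, h3⟩ := hgeo w₀ hw₀ (w - w₀) j h1
    rw [add_sub_cancel] at h2 h3
    refine ⟨h2, h3, T.o1 w₀ (hsub hw₀) w (hsub h2) ?_⟩
    have : (0 : ℝ) ≤ j := Nat.cast_nonneg j
    linarith
  have hbd' : ∀ n : ℕ, (∀ w₀ ∈ Wd C', ∀ (j : ℕ) (w : ℂ), ‖w - w₀ + j‖ ≤ j / 7 →
        ‖E (w, s n w)‖ ≤ ‖o w₀‖ ^ 2 * (c₁ * ‖w₀‖ ^ (-σ) + K * (‖w₀‖ + j) ^ (-σ))) →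
      ∀ w ∈ Wd C', ‖s n w‖ ≤ 1 / 4 → ‖s n w‖ ≤ M * ‖w‖ ^ (-σ) := by
    intro n h w hw hs
    have h1 := h w hw 0 w (by simp)
    have h2 := T.e2 w (s n w) (hsub hw) (by linarith)
    rw [hM]
    refine gt_bd (T.o0 w (hsub hw)) h2 (h1.trans (le_of_eq ?_)) hs
    simp only [Nat.cast_zero, add_zero]
    ring
  -- the energy bound for one step
  have hmain : ∀ n : ℕ, gt_Good C' (s n) ∧
      ∀ w₀ ∈ Wd C', ∀ (j : ℕ) (w : ℂ), ‖w - w₀ + j‖ ≤ j / 7 →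
        ‖E (w, s n w)‖ ≤ ‖o w₀‖ ^ 2 * (c₁ * ‖w₀‖ ^ (-σ) + K * (‖w₀‖ + j) ^ (-σ)) := by
    intro n
    induction n with
    | zero =>
      refine ⟨⟨differentiableOn_const _, ?_, ?_⟩, ?_⟩
      · intro w hw
        rw [s0, norm_zero]; norm_num
      · intro w hw
        rw [s0]; rfl
      · intro w₀ hw₀ j w hw
        obtain ⟨h1, h2, h3⟩ := hpt w₀ hw₀ j w hw
        rw [s0]
        have h4 := T.e2 w 0 (hsub h1) (by rw [norm_zero]; norm_num)
        have h5 : ((1 : ℂ) + 0) ^ 2 - 1 = 0 := by ring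
        rw [h5, sub_zero] at h4
        have ho := T.o0 w (hsub h1)
        have h6 : E (w, 0) = (o w ^ 2 / 2) * (2 * E (w, 0) / o w ^ 2) := by
          field_simp
        rw [h6, norm_mul, norm_div, norm_pow]
        have h7 : ‖(2 : ℂ)‖ = 2 := by simp
        rw [h7]
        have hw0n := (hnorm w₀ hw₀).2
        have hj : (0 : ℝ) ≤ j := Nat.cast_nonneg j
        have h8 : ‖w‖ ^ (-σ) ≤ 20 ^ σ * ‖w₀‖ ^ (-σ) := by
          have h9 : ‖w‖ ^ (-σ) ≤ (‖w₀‖ / 20) ^ (-σ) :=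
            Real.rpow_le_rpow_of_nonpos (by positivity) (by linarith) (by linarith)
          have h10 : (‖w₀‖ / 20) ^ (-σ) = 20 ^ σ * ‖w₀‖ ^ (-σ) := by
            rw [Real.div_rpow hw0n.le (by norm_num), Real.rpow_neg (by norm_num : (0:ℝ) ≤ 20),
              div_inv_eq_mul, mul_comm]
          rw [h10] at h9
          exact h9
        have h11 : ‖o w‖ ^ 2 ≤ A ^ 2 * ‖o w₀‖ ^ 2 := by
          rw [← mul_pow]
          exact pow_le_pow_left₀ (norm_nonneg _) h3 2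
        have h12 : (0 : ℝ) ≤ K * (‖w₀‖ + j) ^ (-σ) := by positivity
        calc ‖o w‖ ^ 2 / 2 * ‖2 * E (w, 0) / o w ^ 2‖
            ≤ (A ^ 2 * ‖o w₀‖ ^ 2) / 2 * (A * (20 ^ σ * ‖w₀‖ ^ (-σ))) := by
              apply mul_le_mul
              · linarith
              · exact h4.trans (mul_le_mul_of_nonneg_left h8 hA.le)
              · exact norm_nonneg _
              · positivity
          _ = ‖o w₀‖ ^ 2 * ((c₁ * ‖w₀‖ ^ (-σ)) / 2) := by rw [hc₁]; ring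
          _ ≤ ‖o w₀‖ ^ 2 * (c₁ * ‖w₀‖ ^ (-σ) + K * (‖w₀‖ + j) ^ (-σ)) := by
              apply mul_le_mul_of_nonneg_left _ (by positivity)
              have : 0 ≤ c₁ * ‖w₀‖ ^ (-σ) := by positivity
              linarith
    | succ n ih =>
      obtain ⟨hg, hE⟩ := ih
      obtain ⟨hBd, hBm, hBr⟩ := hBf (s n) hg
      have hs4 : ∀ w ∈ Wd C', ‖s (n + 1) w‖ ≤ 1 / 4 := by
        intro w hw
        obtain ⟨h1, h2, h3⟩ := hBm w hw
        rw [sS]
        have h4 := T.s1 (Bf (s n) w) (s n (Bf (s n) w)) (hsub h1)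
          (by have := hg.2.1 _ h1; linarith)
        have h5 := hg.2.1 _ h1
        have h6 := hA' _ h1
        have h7 : S (Bf (s n) w, s n (Bf (s n) w)) =
            (S (Bf (s n) w, s n (Bf (s n) w)) - s n (Bf (s n) w)) + s n (Bf (s n) w) := by ring
        rw [h7]
        refine (norm_add_le _ _).trans ?_
        linarith
      have hE' : ∀ w₀ ∈ Wd C', ∀ (j : ℕ) (w : ℂ), ‖w - w₀ + j‖ ≤ j / 7 →
          ‖E (w, s (n + 1) w)‖ ≤
            ‖o w₀‖ ^ 2 * (c₁ * ‖w₀‖ ^ (-σ) + K * (‖w₀‖ + j) ^ (-σ)) := by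
        intro w₀ hw₀ j w hw
        obtain ⟨h1, h2, h3⟩ := hpt w₀ hw₀ j w hw
        obtain ⟨g1, g2, g3⟩ := hBm w h1
        obtain ⟨z, hz⟩ : ∃ z, z = Bf (s n) w := ⟨_, rfl⟩
        have hsS : s (n + 1) w = S (z, s n z) := by rw [sS, hz]
        rw [← hz] at g1 g2 g3
        have hzj : ‖z - w₀ + (j + 1 : ℕ)‖ ≤ (j + 1 : ℕ) / 7 := by
          have e : z - w₀ + (j + 1 : ℕ) = (z - (w - 1)) + (w - w₀ + j) := by
            push_cast; ring
          rw [e]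
          refine (norm_add_le _ _).trans ?_
          push_cast
          linarith
        obtain ⟨k1, k2, k3⟩ := hpt w₀ hw₀ (j + 1) z hzj
        have hind := hE w₀ hw₀ (j + 1) z hzj
        have hsz := hg.2.1 z g1
        have hS := hs4 w h1
        have he1 := T.e1 z (s n z) (hsub g1) (by linarith) (by rw [g3]; exact hsub h1)
          (by rw [← hsS]; linarith)
        rw [g3, ← hsS] at he1
        have hw0n := (hnorm w₀ hw₀).2
        have hj : (0 : ℝ) ≤ j := Nat.cast_nonneg j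
        push_cast at k2 hind
        have hzn : ‖z‖ ^ (-1 - σ) ≤
            20 ^ (1 + σ) / σ * ((‖w₀‖ + j) ^ (-σ) - (‖w₀‖ + j + 1) ^ (-σ)) := by
          have h9 : ‖z‖ ^ (-1 - σ) ≤ ((‖w₀‖ + (j + 1)) / 20) ^ (-1 - σ) :=
            Real.rpow_le_rpow_of_nonpos (by positivity) k2 (by linarith)
          have h10 : ((‖w₀‖ + (j + 1)) / 20) ^ (-1 - σ) =
              20 ^ (1 + σ) * (‖w₀‖ + j + 1) ^ (-1 - σ) := by
            rw [Real.div_rpow (by positivity) (by norm_num)]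
            have : (-1 - σ) = -(1 + σ) := by ring
            rw [this, Real.rpow_neg (by norm_num : (0:ℝ) ≤ 20), div_inv_eq_mul, mul_comm, add_assoc]
          have h11 := gt_tele (x := ‖w₀‖ + j) (σ := σ) (by positivity) hσ (by linarith)
          rw [h10] at h9
          refine h9.trans ?_
          have h12 : (‖w₀‖ + j + 1) ^ (-1 - σ) ≤
              ((‖w₀‖ + j) ^ (-σ) - (‖w₀‖ + j + 1) ^ (-σ)) / σ := by
            rw [le_div_iff₀ hσ]; linarith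
          calc (20 : ℝ) ^ (1 + σ) * (‖w₀‖ + j + 1) ^ (-1 - σ)
              ≤ 20 ^ (1 + σ) * (((‖w₀‖ + j) ^ (-σ) - (‖w₀‖ + j + 1) ^ (-σ)) / σ) :=
                mul_le_mul_of_nonneg_left h12 (by positivity)
            _ = _ := by ring
        have h13 : ‖o z‖ ^ 2 ≤ A ^ 2 * ‖o w₀‖ ^ 2 := by
          rw [← mul_pow]
          exact pow_le_pow_left₀ (norm_nonneg _) k3 2
        have h14 : A * ‖o z‖ ^ 2 * ‖z‖ ^ (-1 - σ) ≤
            ‖o w₀‖ ^ 2 * (K * ((‖w₀‖ + j) ^ (-σ) - (‖w₀‖ + j + 1) ^ (-σ))) := by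
          calc A * ‖o z‖ ^ 2 * ‖z‖ ^ (-1 - σ)
              ≤ A * (A ^ 2 * ‖o w₀‖ ^ 2) *
                (20 ^ (1 + σ) / σ * ((‖w₀‖ + j) ^ (-σ) - (‖w₀‖ + j + 1) ^ (-σ))) := by
                apply mul_le_mul
                · exact mul_le_mul_of_nonneg_left h13 hA.le
                · exact hzn
                · positivity
                · positivity
            _ = _ := by rw [hK]; ring
        have h15 : E (w, s (n + 1) w) = (E (w, s (n + 1) w) - E (z, s n z)) + E (z, s n z) := by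
          ring
        rw [h15]
        refine (norm_add_le _ _).trans ?_
        have h16 : (‖w₀‖ + (j + 1 : ℝ)) = ‖w₀‖ + j + 1 := by ring
        rw [h16] at hind
        calc ‖E (w, s (n + 1) w) - E (z, s n z)‖ + ‖E (z, s n z)‖
            ≤ ‖o w₀‖ ^ 2 * (K * ((‖w₀‖ + j) ^ (-σ) - (‖w₀‖ + j + 1) ^ (-σ))) +
              ‖o w₀‖ ^ 2 * (c₁ * ‖w₀‖ ^ (-σ) + K * (‖w₀‖ + j + 1) ^ (-σ)) :=
              add_le_add (he1.trans h14) hind
          _ = _ := by ring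
      refine ⟨⟨?_, ?_, ?_⟩, hE'⟩
      · have hmaps : Set.MapsTo (fun w : ℂ => (Bf (s n) w, s n (Bf (s n) w))) (Wd C')
            {z : ℂ × ℂ | z.1 ∈ Wd C ∧ ‖z.2‖ < 1 / 2} := by
          intro w hw
          have h1 := (hBm w hw).1
          refine ⟨hsub h1, ?_⟩
          have := hg.2.1 _ h1
          show ‖s n (Bf (s n) w)‖ < 1 / 2
          linarith
        have h1 : DifferentiableOn ℂ (fun w => s n (Bf (s n) w)) (Wd C') :=
          hg.1.comp hBd (fun w hw => (hBm w hw).1)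
        exact T.holS.comp (hBd.prodMk h1) hmaps
      · intro w hw
        exact (hbd' (n + 1) hE' w hw (hs4 w hw)).trans (hMw w hw)
      · intro w hw
        rw [sS]
        have h1 := hBr w hw
        have h2 := (hBm w hw).1
        rw [← gt_real h1] at h2 ⊢
        have h3 := hg.2.2 _ h2
        have h4 : |(s n (((Bf (s n) w).re : ℝ) : ℂ)).re| < 1 / 2 := by
          refine (Complex.abs_re_le_norm _).trans_lt ?_
          have := hg.2.1 _ h2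
          linarith
        have h5 := (T.real _ _ (hsub h2) h4).2
        rw [gt_real h3] at h5
        exact h5
  refine ⟨C', M, s, fun n => Bf (s n), hC', hM0, ?_⟩
  constructor
  · exact s0
  · exact fun n => (hmain n).1.1
  · intro n w hw
    have h1 := (hmain n).1.2.1 w hw
    exact ⟨hbd' n (hmain n).2 w hw (by linarith), h1⟩
  · intro n w hw
    obtain ⟨h1, h2, -⟩ := (hBf (s n) (hmain n).1).2.1 w hw
    exact ⟨h1, h2.trans (by norm_num)⟩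
  · intro n w hw
    exact ((hBf (s n) (hmain n).1).2.1 w hw).2.2
  · intro n w hw
    exact (sS n w).symm
  · intro n w hw
    exact ⟨(hmain n).1.2.2 w hw, (hBf (s n) (hmain n).1).2.2 w hw⟩

end Pool.Agent.MP_2f2443_an.RC
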